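import Pool.Agent.H49.BZ.Coll

open Set Filter Topology MeasureTheory
open scoped RealInnerProductSpace ENNReal

namespace Pool.Agent.H49.BZ

variable {d : ℕ} {B : ℝ → ℝ → ℝ} {T : ℝ} {f : ℝ → E d → E d → ℝ}

/-- The bound of the rescaled collision term. -/
lemma collision_pointwise (hd : 2 ≤ d) {γ σ : ℝ} (hB : IsKernel d γ σ B) : ∃ C : ℝ, 0 ≤ C ∧
    ∀ (T : ℝ) (f : ℝ → E d → E d → ℝ), IsSolution B T f → ∀ (x₀ y : E d) (a b s : ℝ),
    s ∈ Ioo 0 T → ∀ i j : Fin d,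
    ENNReal.ofReal |s ^ (a + (2 : ℕ) * b + 1) *
      collision B (f (T - s) (x₀ + s ^ (1 - b) • y)) (fun v => v i * v j)| ≤
      ENNReal.ofReal (s ^ (1 - a - γ * b)) * (ENNReal.ofReal C *
        (ENNReal.ofReal (s ^ (2 * a + (γ + 2) * b)) *
          exchange (γ + 2) (f (T - s) (x₀ + s ^ (1 - b) • y)))) := by
  obtain ⟨C, hC0, hC⟩ := collision_bound hd hB
  refine ⟨C, hC0, fun T f hf x₀ y a b s hs i j => ?_⟩
  have ht : T - s ∈ Ioo 0 T := ⟨by linarith [hs.2], by linarith [hs.1]⟩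
  have hs0 := hs.1
  have hg : ∀ v, 0 ≤ f (T - s) (x₀ + s ^ (1 - b) • y) v := hf.nonneg _ ht _
  have h2 := hC (f (T - s) (x₀ + s ^ (1 - b) • y)) hg i j
  rw [abs_mul, abs_of_pos (Real.rpow_pos_of_pos hs0 _)]
  have e1 : s ^ (a + (2 : ℕ) * b + 1) = s ^ (1 - a - γ * b) * s ^ (2 * a + (γ + 2) * b) := by
    rw [← Real.rpow_add hs0]
    congr 1
    push_cast
    ring
  rw [ENNReal.ofReal_mul (by positivity), e1, ENNReal.ofReal_mul (by positivity)]
  calc ENNReal.ofReal (s ^ (1 - a - γ * b)) * ENNReal.ofReal (s ^ (2 * a + (γ + 2) * b)) *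
        ENNReal.ofReal |collision B (f (T - s) (x₀ + s ^ (1 - b) • y)) fun v => v i * v j| ≤
        ENNReal.ofReal (s ^ (1 - a - γ * b)) * ENNReal.ofReal (s ^ (2 * a + (γ + 2) * b)) *
        (ENNReal.ofReal C * exchange (γ + 2) (f (T - s) (x₀ + s ^ (1 - b) • y))) := by gcongr
    _ = _ := by ring

end Pool.Agent.H49.BZ
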