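import Pool.Agent.H49.BZ.Sphere

open Set Filter Topology MeasureTheory
open scoped RealInnerProductSpace ENNReal

namespace Pool.Agent.H49.BZ

variable {d : ℕ} {B : ℝ → ℝ → ℝ} {T : ℝ} {f : ℝ → E d → E d → ℝ}

lemma abs_coord_le (x : E d) (i : Fin d) : |x i| ≤ ‖x‖ := by
  simpa using PiLp.norm_apply_le x i

/-- The symmetrised gain of `v_i v_j`. -/
lemma gain_mul_le (i j : Fin d) (v w : E d) {σ : E d} (hσ : ‖σ‖ = 1) :
    |(gain (fun v => v i * v j) v w σ + gain (fun v => v i * v j) v w (turn (dir v w) σ)) / 2| ≤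
      ‖v - w‖ ^ 2 * (1 - ⟪dir v w, σ⟫ ^ 2) := by
  set r := ‖v - w‖ with hr
  set e := dir v w with he
  set c := ⟪e, σ⟫ with hc
  set τ : E d := σ - c • e with hτ
  have g1 : ∀ σ' : E d, gain (fun v => v i * v j) v w σ' =
      r ^ 2 / 2 * (σ' i * σ' j - e i * e j) := by
    intro σ'
    have hz : v - w = r • e := (smul_dir v w).symm
    have hi : v i - w i = r * e i := by
      have := congrArg (fun x : E d => x i) hz
      simpa using this
    have hj : v j - w j = r * e j := by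
      have := congrArg (fun x : E d => x j) hz
      simpa using this
    simp only [gain, PiLp.add_apply, PiLp.sub_apply, PiLp.smul_apply, smul_eq_mul]
    have hwi : w i = v i - r * e i := by linarith
    have hwj : w j = v j - r * e j := by linarith
    rw [hwi, hwj, ← hr]
    ring
  have t1 : ∀ k, σ k = c * e k + τ k := by
    intro k
    simp [hτ]
  have t2 : ∀ k, (turn e σ) k = c * e k - τ k := by
    intro k
    simp [hτ, turn, ← hc]
    ring
  have h1 : (gain (fun v => v i * v j) v w σ + gain (fun v => v i * v j) v w (turn e σ)) / 2 =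
      r ^ 2 / 2 * ((c ^ 2 - 1) * (e i * e j) + τ i * τ j) := by
    rw [g1, g1, t1 i, t1 j, t2 i, t2 j]
    ring
  rw [h1]
  by_cases hvw : v = w
  · have : r = 0 := by rw [hr, hvw]; simp
    rw [this]; simp
  have he1 : ‖e‖ = 1 := norm_dir hvw
  have hτ2 : ‖τ‖ ^ 2 = 1 - c ^ 2 := by
    rw [hτ, norm_sub_sq_real, norm_smul, he1, hσ, inner_smul_right, real_inner_comm]
    simp only [Real.norm_eq_abs, mul_one, sq_abs]
    rw [← hc]; ring
  have hc1 : 0 ≤ 1 - c ^ 2 := by rw [← hτ2]; positivity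
  have h2 : |e i * e j| ≤ 1 := by
    rw [abs_mul]
    have a1 := abs_coord_le e i
    have a2 := abs_coord_le e j
    rw [he1] at a1 a2
    calc _ ≤ 1 * 1 := mul_le_mul a1 a2 (abs_nonneg _) (by norm_num)
      _ = 1 := by norm_num
  have h3 : |τ i * τ j| ≤ 1 - c ^ 2 := by
    rw [abs_mul, ← hτ2, sq]
    exact mul_le_mul (abs_coord_le τ i) (abs_coord_le τ j) (abs_nonneg _) (norm_nonneg _)
  have h4 : |(c ^ 2 - 1) * (e i * e j)| ≤ 1 - c ^ 2 := by
    rw [abs_mul, abs_sub_comm, abs_of_nonneg hc1]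
    calc _ ≤ (1 - c ^ 2) * 1 := mul_le_mul_of_nonneg_left h2 hc1
      _ = _ := by ring
  have h5 : |(c ^ 2 - 1) * (e i * e j) + τ i * τ j| ≤ 2 * (1 - c ^ 2) :=
    (abs_add_le _ _).trans (by linarith)
  rw [abs_mul, abs_of_nonneg (by positivity : (0 : ℝ) ≤ r ^ 2 / 2)]
  calc _ ≤ r ^ 2 / 2 * (2 * (1 - c ^ 2)) := mul_le_mul_of_nonneg_left h5 (by positivity)
    _ = _ := by ring

/-- Bound of the collision term for `v_i v_j`. -/
lemma collision_bound (hd : 2 ≤ d) {γ s : ℝ} (hB : IsKernel d γ s B) : ∃ C : ℝ, 0 ≤ C ∧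
    ∀ g : E d → ℝ, (∀ v, 0 ≤ g v) → ∀ i j : Fin d,
    ENNReal.ofReal |collision B g (fun v => v i * v j)| ≤
      ENNReal.ofReal C * exchange (γ + 2) g := by
  obtain ⟨C, hC0, hC⟩ := transfer hd hB
  refine ⟨C, hC0, fun g hg i j => ?_⟩
  have inner_le : ∀ v w : E d, ‖∫ σ : Metric.sphere (0 : E d) 1,
      g v * g w * (B ‖v - w‖ ⟪dir v w, (σ : E d)⟫ *
      ((gain (fun v => v i * v j) v w σ +
        gain (fun v => v i * v j) v w (turn (dir v w) σ)) / 2)) ∂(surf d)‖ₑ ≤
      ENNReal.ofReal C * ENNReal.ofReal (g v * g w * ‖v - w‖ ^ (γ + 2)) := by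
    intro v w
    by_cases hvw : v = w
    · subst hvw
      have : ∀ σ : E d, gain (fun v => v i * v j) v v σ = 0 := by
        intro σ
        simp only [gain, sub_self, norm_zero, zero_div, zero_smul, add_zero, sub_zero,
          PiLp.add_apply, PiLp.smul_apply, smul_eq_mul]
        ring
      simp_rw [this]
      simp only [add_zero, zero_div, mul_zero, integral_zero, enorm_zero]
      exact zero_le
    have hr : 0 < ‖v - w‖ := by
      rw [norm_pos_iff, sub_ne_zero]; exact hvw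
    have h2 := hC ‖v - w‖ hr (dir v w) (norm_dir hvw)
    have hgg : 0 ≤ g v * g w := mul_nonneg (hg v) (hg w)
    calc _ ≤ ∫⁻ σ : Metric.sphere (0 : E d) 1, ‖g v * g w * (B ‖v - w‖ ⟪dir v w, (σ : E d)⟫ *
          ((gain (fun v => v i * v j) v w σ +
          gain (fun v => v i * v j) v w (turn (dir v w) σ)) / 2))‖ₑ ∂(surf d) :=
          enorm_integral_le_lintegral_enorm _
      _ ≤ ∫⁻ σ : Metric.sphere (0 : E d) 1, ENNReal.ofReal (g v * g w * ‖v - w‖ ^ 2) *
          ENNReal.ofReal (B ‖v - w‖ ⟪dir v w, (σ : E d)⟫ * (1 - ⟪dir v w, (σ : E d)⟫ ^ 2))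
          ∂(surf d) := by
          refine lintegral_mono fun σ => ?_
          have hσ : ‖(σ : E d)‖ = 1 := by simpa using σ.2
          have h4 := gain_mul_le i j v w hσ
          rw [Real.enorm_eq_ofReal_abs, ← ENNReal.ofReal_mul (by positivity)]
          apply ENNReal.ofReal_le_ofReal
          rw [abs_mul (g v * g w), abs_of_nonneg hgg, abs_mul, abs_of_nonneg (hB.nonneg _ _)]
          calc _ ≤ g v * g w * (B ‖v - w‖ ⟪dir v w, (σ : E d)⟫ *
                (‖v - w‖ ^ 2 * (1 - ⟪dir v w, (σ : E d)⟫ ^ 2))) :=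
                mul_le_mul_of_nonneg_left (mul_le_mul_of_nonneg_left h4 (hB.nonneg _ _)) hgg
            _ = _ := by ring
      _ = ENNReal.ofReal (g v * g w * ‖v - w‖ ^ 2) * ∫⁻ σ : Metric.sphere (0 : E d) 1,
          ENNReal.ofReal (B ‖v - w‖ ⟪dir v w, (σ : E d)⟫ * (1 - ⟪dir v w, (σ : E d)⟫ ^ 2))
          ∂(surf d) := lintegral_const_mul' _ _ ENNReal.ofReal_ne_top
      _ ≤ ENNReal.ofReal (g v * g w * ‖v - w‖ ^ 2) * ENNReal.ofReal (C * ‖v - w‖ ^ γ) := by
          gcongr
      _ = _ := by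
          rw [← ENNReal.ofReal_mul (by positivity), ← ENNReal.ofReal_mul hC0]
          congr 1
          rw [Real.rpow_add hr, Real.rpow_two]
          ring
  unfold collision
  rw [abs_mul, abs_of_pos (by norm_num : (0 : ℝ) < 1 / 2), ENNReal.ofReal_mul (by norm_num),
    ← Real.enorm_eq_ofReal_abs]
  have half : ENNReal.ofReal (1 / 2) ≤ 1 := by
    rw [← ENNReal.ofReal_one]; exact ENNReal.ofReal_le_ofReal (by norm_num)
  calc _ ≤ 1 * ‖∫ v, ∫ w, ∫ σ : Metric.sphere (0 : E d) 1,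
        g v * g w * (B ‖v - w‖ ⟪dir v w, (σ : E d)⟫ *
        ((gain (fun v => v i * v j) v w σ +
        gain (fun v => v i * v j) v w (turn (dir v w) σ)) / 2)) ∂(surf d)‖ₑ := by gcongr
    _ ≤ ∫⁻ v, ∫⁻ w, ENNReal.ofReal C * ENNReal.ofReal (g v * g w * ‖v - w‖ ^ (γ + 2)) := by
        rw [one_mul]
        refine (enorm_integral_le_lintegral_enorm _).trans (lintegral_mono fun v => ?_)
        exact (enorm_integral_le_lintegral_enorm _).trans (lintegral_mono fun w => inner_le v w)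
    _ = _ := by
        unfold exchange
        simp_rw [lintegral_const_mul' _ _ ENNReal.ofReal_ne_top]

end Pool.Agent.H49.BZ
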