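import Mathlib

/-!
# The spatially inhomogeneous Boltzmann equation: solutions and self-similar implosions
-/

open Set Filter Topology MeasureTheory
open scoped RealInnerProductSpace ENNReal

namespace Pool.Agent.H49.BZ

/-- Euclidean `d`-space. -/
abbrev E (d : ℕ) : Type := EuclideanSpace ℝ (Fin d)

/-- The surface measure of the unit sphere. -/
noncomputable abbrev surf (d : ℕ) : Measure (Metric.sphere (0 : E d) 1) :=
  (volume : Measure (E d)).toSphere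

/-- `ψ(v') + ψ(w') - ψ(v) - ψ(w)` for the velocities `v'`, `w'` after the collision. -/
noncomputable def gain {d : ℕ} (ψ : E d → ℝ) (v w σ : E d) : ℝ :=
  ψ ((1 / 2 : ℝ) • (v + w) + (‖v - w‖ / 2) • σ) +
    ψ ((1 / 2 : ℝ) • (v + w) - (‖v - w‖ / 2) • σ) - ψ v - ψ w

/-- The unit vector in the direction of `v - w`. -/
noncomputable def dir {d : ℕ} (v w : E d) : E d := (‖v - w‖⁻¹) • (v - w)

/-- The rotation of `σ` by the angle `π` about the axis `e` (the components orthogonal to `e`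
change sign). -/
noncomputable def turn {d : ℕ} (e σ : E d) : E d := (2 * ⟪e, σ⟫) • e - σ

/-- The weak form of the collision term,
`1/2 ∫∫∫ g(v) g(w) B(|v - w|, cos θ) (ψ(v') + ψ(w') - ψ(v) - ψ(w)) dσ dw dv`, where the last factor
is replaced by its mean value over `σ` and `turn e σ`, `e = (v - w) / |v - w|` (this makes
the integral absolutely convergent for kernels without cutoff). -/
noncomputable def collision {d : ℕ} (B : ℝ → ℝ → ℝ) (g ψ : E d → ℝ) : ℝ :=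
  (1 / 2) * ∫ v, ∫ w, ∫ σ : Metric.sphere (0 : E d) 1,
    g v * g w * (B ‖v - w‖ ⟪dir v w, (σ : E d)⟫ *
      ((gain ψ v w σ + gain ψ v w (turn (dir v w) σ)) / 2)) ∂(surf d)

/-- Collision kernels with the upper bound `B(r, cos θ) ≤ C r ^ γ |sin (θ / 2)| ^ (-d + 1 - 2 s)`,
`s < 1`. -/
structure IsKernel (d : ℕ) (γ s : ℝ) (B : ℝ → ℝ → ℝ) : Prop where
  s_lt : s < 1
  measurable : Measurable (fun p : ℝ × ℝ => B p.1 p.2)
  nonneg : ∀ r c, 0 ≤ B r c
  upper : ∃ C : ℝ, ∀ r, 0 < r → ∀ c ∈ Ico (-1 : ℝ) 1,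
    B r c ≤ C * r ^ γ * √((1 - c) / 2) ^ (-(d : ℝ) + 1 - 2 * s)

/-- Classical solutions of the Boltzmann equation on `(0, T)`, periodic in space. -/
structure IsSolution {d : ℕ} (B : ℝ → ℝ → ℝ) (T : ℝ) (f : ℝ → E d → E d → ℝ) : Prop where
  nonneg : ∀ t ∈ Ioo 0 T, ∀ x v, 0 ≤ f t x v
  periodic : ∀ t ∈ Ioo 0 T, ∀ x v, ∀ i, f t (x + EuclideanSpace.single i 1) v = f t x v
  smooth : ContDiffOn ℝ 1 (fun p : ℝ × E d × E d => f p.1 p.2.1 p.2.2) (Ioo 0 T ×ˢ univ)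
  decay : ∀ t₁ t₂, 0 < t₁ → t₂ < T → ∀ n : ℕ, ∃ C, ∀ t ∈ Icc t₁ t₂, ∀ x v,
    (1 + ‖v‖) ^ n * |f t x v| ≤ C ∧
    (1 + ‖v‖) ^ n * ‖fderiv ℝ (fun p : ℝ × E d => f p.1 p.2 v) (t, x)‖ ≤ C
  equation : ∀ ψ : E d → ℝ, Function.HasTemperateGrowth ψ → ∀ t ∈ Ioo 0 T, ∀ x,
    ∫ v, fderiv ℝ (fun p : ℝ × E d => f p.1 p.2 v) (t, x) (1, v) * ψ v = collision B (f t x) ψ

/-- The momentum density of a gas of density `ρ` and mean velocity `u`. -/
noncomputable def mom1 {d : ℕ} (ρ : ℝ) (u : E d) (i : Fin d) : ℝ := ρ * u i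

/-- The second moments `∫ M v_i v_j dv` of the Maxwellian `M` of density `ρ`, mean velocity `u` and
temperature `θ`. -/
noncomputable def mom2 {d : ℕ} (ρ θ : ℝ) (u : E d) (i j : Fin d) : ℝ :=
  ρ * (u i * u j + if i = j then θ else 0)

/-- The third moments `∫ M v_i v_j v_k dv` of this Maxwellian. -/
noncomputable def mom3 {d : ℕ} (ρ θ : ℝ) (u : E d) (i j k : Fin d) : ℝ :=
  ρ * (u i * u j * u k + ((if j = k then θ * u i else 0) + (if i = k then θ * u j else 0) +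
    (if i = j then θ * u k else 0)))

/-- `∬ g(v) g(w) |v - w| ^ p dw dv`, which for `p = γ + 2` controls the exchange of momentum by
collisions. -/
noncomputable def exchange {d : ℕ} (p : ℝ) (g : E d → ℝ) : ℝ≥0∞ :=
  ∫⁻ v, ∫⁻ w, ENNReal.ofReal (g v * g w * ‖v - w‖ ^ p)

/-- The rescaled moment `s ^ p ∫ f ψ dv` at the time `T - s` and the point `x₀ + s ^ (1 - b) y`. -/
noncomputable def resc {d : ℕ} (f : ℝ → E d → E d → ℝ) (T : ℝ) (x₀ : E d) (p b : ℝ) (ψ : E d → ℝ)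
    (y : E d) (s : ℝ) : ℝ :=
  s ^ p * ∫ v, f (T - s) (x₀ + s ^ (1 - b) • y) v * ψ v

/-- Bounded subsets of the space of the variables `(τ, y)`. -/
def box (d : ℕ) (c : ℝ) : Set (ℝ × E d) := Icc (-c) c ×ˢ Metric.closedBall (0 : E d) c

/-- Along the times `T - s n exp (-τ)`, `s n → 0`, the rescaled moment of `ψ` (homogeneous of degree
`k`) converges to `A τ y` in the mean on bounded sets of `(τ, y)`. -/
def FlowLimit {d : ℕ} (f : ℝ → E d → E d → ℝ) (T : ℝ) (x₀ : E d) (a b : ℝ) (s : ℕ → ℝ) (k : ℕ)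
    (ψ : E d → ℝ) (A : ℝ → E d → ℝ) : Prop :=
  ∀ c : ℝ, Tendsto (fun n => ∫⁻ p in box d c, ENNReal.ofReal
    |resc f T x₀ (a + k * b) b ψ p.2 (s n * Real.exp (-p.1)) - A p.1 p.2|) atTop (𝓝 0)

/-- The solution `f` has at `(T, x₀)` an implosion of type I and Euler type, with the exponents `a`,
`b`: along some sequence of times `T - s n → T` the rescaled moments converge in the mean on bounded
sets to those of the local Maxwellians of density `R τ y`, mean velocity `U τ y` and temperature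
`Θ τ y` (`τ` in the real line is the logarithm of `s n / (T - t)`). -/
structure IsEulerFlow {d : ℕ} (γ T : ℝ) (f : ℝ → E d → E d → ℝ) (x₀ : E d) (a b : ℝ) (s : ℕ → ℝ)
    (R : ℝ → E d → ℝ) (U : ℝ → E d → E d) (Θ : ℝ → E d → ℝ) : Prop where
  a_pos : 0 < a
  b_lt : b < 1
  times : Tendsto s atTop (𝓝[>] 0)
  smooth_R : ContDiff ℝ 1 (fun p : ℝ × E d => R p.1 p.2)
  smooth_U : ContDiff ℝ 1 (fun p : ℝ × E d => U p.1 p.2)
  smooth_Θ : ContDiff ℝ 1 (fun p : ℝ × E d => Θ p.1 p.2)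
  bounded : ∃ K, ∀ τ y, ‖U τ y‖ ≤ K
  typeI : ∀ r : ℝ, ∃ c C : ℝ, 0 < c ∧ ∀ τ y, ‖y‖ ≤ r →
    c ≤ R τ y ∧ R τ y ≤ C ∧ c ≤ Θ τ y ∧ Θ τ y ≤ C
  density : FlowLimit f T x₀ a b s 0 (fun _ => 1) R
  momentum : ∀ i, FlowLimit f T x₀ a b s 1 (fun v => v i) (fun τ y => mom1 (R τ y) (U τ y) i)
  second : ∀ i j, FlowLimit f T x₀ a b s 2 (fun v => v i * v j)
    (fun τ y => mom2 (R τ y) (Θ τ y) (U τ y) i j)
  third : ∀ i j k, FlowLimit f T x₀ a b s 3 (fun v => v i * v j * v k)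
    (fun τ y => mom3 (R τ y) (Θ τ y) (U τ y) i j k)
  collisions : ∀ c : ℝ, ∃ C : ℝ, ∀ᶠ n in atTop, ∫⁻ p in box d c,
    ENNReal.ofReal ((s n * Real.exp (-p.1)) ^ (2 * a + (γ + 2) * b)) *
      exchange (γ + 2) (f (T - s n * Real.exp (-p.1))
        (x₀ + (s n * Real.exp (-p.1)) ^ (1 - b) • p.2)) ≤ ENNReal.ofReal C

end Pool.Agent.H49.BZ
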