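import Pool.Agent.H49.BZ.Weak

open Set Filter Topology MeasureTheory
open scoped RealInnerProductSpace ContDiff ENNReal

namespace Pool.Agent.H49.BZ

variable {d : ℕ}

lemma isCompact_box (c : ℝ) : IsCompact (box d c) :=
  isCompact_Icc.prod (isCompact_closedBall (0 : E d) c)

lemma measurableSet_box (c : ℝ) : MeasurableSet (box d c) := (isCompact_box c).isClosed.measurableSet

/-- A test integral is controlled by the mean over a box. -/
lemma test_bound {w : ℝ × E d → ℝ} (hw : Continuous w) {c : ℝ} (hs : ∀ p, p ∉ box d c → w p = 0) :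
    ∃ W : ℝ≥0∞, W ≠ ⊤ ∧ ∀ H : ℝ × E d → ℝ, ‖∫ p, w p * H p‖ₑ ≤
      W * ∫⁻ p in box d c, ENNReal.ofReal |H p| := by
  obtain ⟨W, hW⟩ := (isCompact_box (d := d) c).exists_bound_of_continuousOn hw.continuousOn
  refine ⟨ENNReal.ofReal W, ENNReal.ofReal_ne_top, fun H => ?_⟩
  refine (enorm_integral_le_lintegral_enorm _).trans ?_
  rw [← lintegral_const_mul' _ _ ENNReal.ofReal_ne_top, ← lintegral_indicator (measurableSet_box c)]
  refine lintegral_mono fun p => ?_
  by_cases hp : p ∈ box d c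
  · rw [indicator_of_mem hp, enorm_mul]
    have h1 : ‖w p‖ₑ ≤ ENNReal.ofReal W := by
      rw [← ofReal_norm_eq_enorm]
      exact ENNReal.ofReal_le_ofReal (hW p hp)
    have h2 : ‖H p‖ₑ = ENNReal.ofReal |H p| := by
      rw [← ofReal_norm_eq_enorm, Real.norm_eq_abs]
    rw [h2]
    gcongr
  · rw [indicator_of_notMem hp, hs p hp]
    simp

/-- Convergence of test integrals. -/
lemma tendsto_test {w : ℝ × E d → ℝ} (hw : Continuous w) {c : ℝ}
    (hs : ∀ p, p ∉ box d c → w p = 0) {G : ℕ → ℝ × E d → ℝ} {A : ℝ × E d → ℝ}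
    (hG : ∀ᶠ n in atTop, Integrable (fun p => w p * G n p)) (hA : Integrable fun p => w p * A p)
    (h : Tendsto (fun n => ∫⁻ p in box d c, ENNReal.ofReal |G n p - A p|) atTop (𝓝 0)) :
    Tendsto (fun n => ∫ p, w p * G n p) atTop (𝓝 (∫ p, w p * A p)) := by
  obtain ⟨W, hW, hb⟩ := test_bound hw hs
  rw [tendsto_iff_edist_tendsto_0]
  have h1 : Tendsto (fun n => W * ∫⁻ p in box d c, ENNReal.ofReal |G n p - A p|) atTop (𝓝 0) := by
    have := ENNReal.Tendsto.const_mul h (Or.inr hW)
    rwa [mul_zero] at this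
  refine tendsto_of_tendsto_of_tendsto_of_le_of_le' tendsto_const_nhds h1
    (Eventually.of_forall fun n => zero_le) ?_
  filter_upwards [hG] with n hn
  rw [edist_eq_enorm_sub, ← integral_sub hn hA]
  refine le_trans (le_of_eq ?_) (hb fun p => G n p - A p)
  congr 1
  refine integral_congr_ae (Eventually.of_forall fun p => ?_)
  simp only
  ring

lemma exists_box {φ : ℝ × E d → ℝ} (hc : HasCompactSupport φ) : ∃ c, tsupport φ ⊆ box d c := by
  obtain ⟨c, hc'⟩ := hc.isCompact.isBounded.exists_norm_le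
  refine ⟨c, fun p hp => ?_⟩
  have h1 := hc' p hp
  rw [Prod.norm_def] at h1
  refine mem_prod.2 ⟨?_, ?_⟩
  · have := (le_max_left _ _).trans h1
    rw [Real.norm_eq_abs, abs_le] at this
    exact this
  · rw [mem_closedBall_zero_iff]
    exact (le_max_right _ _).trans h1

/-- The equation of the limit. -/
lemma pde_limit {A : ℝ × E d → ℝ} {Aj : Fin d → ℝ × E d → ℝ} (sA : ContDiff ℝ 1 A)
    (sAj : ∀ j, ContDiff ℝ 1 (Aj j)) {G Q : ℕ → ℝ × E d → ℝ} {Gj : ℕ → Fin d → ℝ × E d → ℝ}
    {κ b : ℝ}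
    (hreg : ∀ c, ∀ᶠ n in atTop, ∀ p ∈ box d c, ContDiffAt ℝ 1 (G n) p ∧
      (∀ j, ContDiffAt ℝ 1 (Gj n j) p) ∧ fderiv ℝ (G n) p (1, 0) + κ * G n p +
      (1 - b) * fderiv ℝ (G n) p (0, p.2) +
      ∑ j, fderiv ℝ (Gj n j) p (0, EuclideanSpace.single j 1) = Q n p)
    (h0 : ∀ c, Tendsto (fun n => ∫⁻ p in box d c, ENNReal.ofReal |G n p - A p|) atTop (𝓝 0))
    (h1 : ∀ j c, Tendsto (fun n => ∫⁻ p in box d c, ENNReal.ofReal |Gj n j p - Aj j p|)
      atTop (𝓝 0))
    (hQ : ∀ c, Tendsto (fun n => ∫⁻ p in box d c, ENNReal.ofReal |Q n p|) atTop (𝓝 0))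
    (p : ℝ × E d) : fderiv ℝ A p (1, 0) + κ * A p + (1 - b) * fderiv ℝ A p (0, p.2) +
      ∑ j, fderiv ℝ (Aj j) p (0, EuclideanSpace.single j 1) = 0 := by
  let r : ℝ × E d → ℝ := fun p => fderiv ℝ A p (1, 0) + κ * A p +
    (1 - b) * fderiv ℝ A p (0, p.2) + ∑ j, fderiv ℝ (Aj j) p (0, EuclideanSpace.single j 1)
  have cA : ∀ {g : ℝ × E d → ℝ} (_ : ContDiff ℝ 1 g) {w : ℝ × E d → ℝ × E d} (_ : Continuous w),
      Continuous fun p => fderiv ℝ g p (w p) := fun hg w hw =>
    (hg.continuous_fderiv (by norm_num)).clm_apply hw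
  have hr : Continuous r := by
    refine (((cA sA continuous_const).add (continuous_const.mul sA.continuous)).add
      (continuous_const.mul (cA sA (w := fun p => (0, p.2)) (by fun_prop)))).add ?_
    exact continuous_finset_sum _ fun j _ => cA (sAj j) continuous_const
  have key : ∀ φ : ℝ × E d → ℝ, ContDiff ℝ ∞ φ → HasCompactSupport φ → ∫ p, φ p • r p = 0 := by
    intro φ hφ hc
    have hφ1 : ContDiff ℝ 1 φ := hφ.of_le (by exact_mod_cast le_top)
    obtain ⟨c, hcb⟩ := exists_box hc
    have z0 : ∀ p, p ∉ box d c → φ p = 0 := fun p hp =>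
      image_eq_zero_of_notMem_tsupport fun h => hp (hcb h)
    have z1 : ∀ w p, p ∉ box d c → fderiv ℝ φ p w = 0 := fun w p hp =>
      image_eq_zero_of_notMem_tsupport (f := fun q => fderiv ℝ φ q w) fun h =>
        hp (hcb (tsupport_fderiv_apply_subset ℝ w h))
    have cφ : ∀ w, Continuous fun p => fderiv ℝ φ p w := fun w =>
      (hφ1.continuous_fderiv (by norm_num)).clm_apply continuous_const
    have cw : Continuous (w0 φ κ b) := by
      unfold w0
      refine ((continuous_const.mul hφ1.continuous).sub (cφ _)).sub (continuous_const.mul ?_)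
      exact continuous_finset_sum _ fun j _ => (by fun_prop :
        Continuous fun p : ℝ × E d => p.2 j).mul (cφ _)
    have zw : ∀ p, p ∉ box d c → w0 φ κ b p = 0 := by
      intro p hp
      unfold w0
      rw [z0 p hp, z1 _ p hp]
      have : ∑ j, p.2 j * fderiv ℝ φ p (0, EuclideanSpace.single j 1) = 0 :=
        Finset.sum_eq_zero fun j _ => by rw [z1 _ p hp, mul_zero]
      rw [this]
      ring
    have cs : ∀ {w : ℝ × E d → ℝ}, (∀ p, p ∉ box d c → w p = 0) → HasCompactSupport w :=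
      fun hw => HasCompactSupport.intro (isCompact_box c) hw
    have ts : ∀ {w : ℝ × E d → ℝ}, (∀ p, p ∉ box d c → w p = 0) → tsupport w ⊆ box d c := by
      intro w hw
      refine closure_minimal (fun q hq => ?_) (isCompact_box c).isClosed
      by_contra hcon
      exact hq (hw q hcon)
    -- the weak forms
    have wA := weak_form (Q := r) (κ := κ) (b := b) hφ1 hc (fun p _ => sA.contDiffAt)
      (fun j p _ => (sAj j).contDiffAt) (fun p _ => rfl)
    have wG : ∀ᶠ n in atTop, (∫ p, w0 φ κ b p * G n p) -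
        ∑ j, ∫ p, fderiv ℝ φ p (0, EuclideanSpace.single j 1) * Gj n j p =
        ∫ p, φ p * Q n p := by
      filter_upwards [hreg c] with n hn
      exact weak_form hφ1 hc (fun p hp => (hn p (hcb hp)).1) (fun j p hp => (hn p (hcb hp)).2.1 j)
        (fun p hp => (hn p (hcb hp)).2.2)
    -- the limits
    have t0 : Tendsto (fun n => ∫ p, w0 φ κ b p * G n p) atTop (𝓝 (∫ p, w0 φ κ b p * A p)) := by
      refine tendsto_test cw zw ?_ ?_ (h0 c)
      · filter_upwards [hreg c] with n hn
        exact integrable_supp cw (cs zw) fun p hp => (hn p (ts zw hp)).1.continuousAt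
      · exact integrable_supp cw (cs zw) fun p _ => sA.continuous.continuousAt
    have t1 : ∀ j, Tendsto (fun n => ∫ p, fderiv ℝ φ p (0, EuclideanSpace.single j 1) * Gj n j p)
        atTop (𝓝 (∫ p, fderiv ℝ φ p (0, EuclideanSpace.single j 1) * Aj j p)) := by
      intro j
      refine tendsto_test (cφ _) (z1 _) ?_ ?_ (h1 j c)
      · filter_upwards [hreg c] with n hn
        exact integrable_supp (cφ _) (cs (z1 _)) fun p hp =>
          ((hn p (ts (z1 _) hp)).2.1 j).continuousAt
      · exact integrable_supp (cφ _) (cs (z1 _)) fun p _ => (sAj j).continuous.continuousAt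
    have t2 : Tendsto (fun n => ∫ p, φ p * Q n p) atTop (𝓝 0) := by
      obtain ⟨W, hW, hb⟩ := test_bound hφ1.continuous z0
      rw [tendsto_iff_edist_tendsto_0]
      have h3 : Tendsto (fun n => W * ∫⁻ p in box d c, ENNReal.ofReal |Q n p|) atTop (𝓝 0) := by
        have := ENNReal.Tendsto.const_mul (hQ c) (Or.inr hW)
        rwa [mul_zero] at this
      refine tendsto_of_tendsto_of_tendsto_of_le_of_le tendsto_const_nhds h3
        (fun n => zero_le) fun n => ?_
      simp only
      rw [edist_zero_right]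
      exact hb (Q n)
    have t3 := (t0.sub (tendsto_finset_sum Finset.univ fun j _ => t1 j)).congr' wG
    have t4 := tendsto_nhds_unique t3 t2
    rw [wA] at t4
    simpa using t4
  have hae := ae_eq_zero_of_integral_contDiff_smul_eq_zero
    (μ := (volume : Measure (ℝ × E d))) hr.locallyIntegrable key
  haveI : (volume : Measure (ℝ × E d)).IsAddHaarMeasure := haar_prod
  have h2 : r = fun _ => 0 := (hr.ae_eq_iff_eq (μ := (volume : Measure (ℝ × E d)))
    continuous_const).1 hae
  exact congrFun h2 p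

end Pool.Agent.H49.BZ
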