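import Pool.Agent.H49.BZ.Mom
import Pool.Agent.H49.BZ.Pde

open Set Filter Topology MeasureTheory
open scoped RealInnerProductSpace

namespace Pool.Agent.H49.BZ

variable {d : ℕ} {B : ℝ → ℝ → ℝ} {T : ℝ} {f : ℝ → E d → E d → ℝ}

/-- Eventually all rescaled times are in the domain. -/
lemma times_mem {s : ℕ → ℝ} (hs : Tendsto s atTop (𝓝[>] 0)) (hT : 0 < T) (c : ℝ) :
    ∀ᶠ n in atTop, ∀ τ ∈ Icc (-c) c, s n * Real.exp (-τ) ∈ Ioo 0 T := by
  rw [tendsto_nhdsWithin_iff] at hs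
  have h1 : Tendsto (fun n => s n * Real.exp c) atTop (𝓝 0) := by
    simpa using hs.1.mul_const (Real.exp c)
  filter_upwards [hs.2, h1.eventually_lt_const hT] with n hn hn2 τ hτ
  simp only [mem_Ioi] at hn
  refine ⟨by positivity, lt_of_le_of_lt ?_ hn2⟩
  apply mul_le_mul_of_nonneg_left _ hn.le
  apply Real.exp_le_exp.2
  linarith [hτ.1]

/-- The derivative of a rescaled moment in a direction of space. -/
lemma resc_space (hf : IsSolution B T f) {ψ : E d → ℝ} (hψ : Grows ψ) (x₀ : E d) (P b : ℝ)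
    (y η : E d) {s : ℝ} (hs : s ∈ Ioo 0 T) :
    HasDerivAt (fun θ : ℝ => resc f T x₀ P b ψ (y + θ • η) s)
      (s ^ (P + 1 - b) * ∫ v, fderiv ℝ (fun x => f (T - s) x v) (x₀ + s ^ (1 - b) • y) η * ψ v)
      0 := by
  have hTs : T - s ∈ Ioo 0 T := ⟨by linarith [hs.2], by linarith [hs.1]⟩
  have h1 : HasDerivAt (fun θ : ℝ => (T - s, x₀ + s ^ (1 - b) • (y + θ • η)))
      ((0 : ℝ), s ^ (1 - b) • η) 0 := by
    refine (hasDerivAt_const _ _).prodMk ?_
    have h2 : HasDerivAt (fun θ : ℝ => y + θ • η) η 0 := by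
      simpa using ((hasDerivAt_id (0 : ℝ)).smul_const η).const_add y
    exact (h2.const_smul (s ^ (1 - b))).const_add x₀
  have h2 : HasFDerivAt (mo f ψ) (moD f ψ (T - s, x₀ + s ^ (1 - b) • y))
      (T - s, x₀ + s ^ (1 - b) • (y + (0 : ℝ) • η)) := by
    have := hasFDerivAt_mo hf hψ (p := (T - s, x₀ + s ^ (1 - b) • y)) hTs
    rw [zero_smul, add_zero]
    exact this
  have h3 := (h2.comp_hasDerivAt (0 : ℝ) h1).const_mul (s ^ P)
  refine h3.congr_deriv ?_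
  rw [moD_apply hf hψ hTs]
  have e1 : ∀ v, fderiv ℝ (fun q : ℝ × E d => f q.1 q.2 v) (T - s, x₀ + s ^ (1 - b) • y)
      (0, s ^ (1 - b) • η) * ψ v = s ^ (1 - b) *
      (fderiv ℝ (fun x => f (T - s) x v) (x₀ + s ^ (1 - b) • y) η * ψ v) := by
    intro v
    rw [fderiv_space hf hTs]
    have : ((0 : ℝ), s ^ (1 - b) • η) = s ^ (1 - b) • ((0 : ℝ), η) := by simp
    rw [this, map_smul, smul_eq_mul]
    ring
  simp_rw [e1]
  rw [integral_const_mul, ← mul_assoc, ← Real.rpow_add hs.1]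
  congr 2
  ring

lemma resc_contDiffAt (hf : IsSolution B T f) {ψ : E d → ℝ} (hψ : Grows ψ) (x₀ : E d) (P b : ℝ)
    (s : ℝ) {p : ℝ × E d} (hp : s * Real.exp (-p.1) ∈ Ioo 0 T) :
    ContDiffAt ℝ 1 (fun p : ℝ × E d => resc f T x₀ P b ψ p.2 (s * Real.exp (-p.1))) p := by
  have hσ : ContDiff ℝ 1 (fun p : ℝ × E d => s * Real.exp (-p.1)) := by fun_prop
  have hne : s * Real.exp (-p.1) ≠ 0 := hp.1.ne'
  have h1 : ContDiffAt ℝ 1 (fun p : ℝ × E d => (s * Real.exp (-p.1)) ^ P) p :=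
    hσ.contDiffAt.rpow_const_of_ne hne
  have h2 : ContDiffAt ℝ 1 (fun p : ℝ × E d => (s * Real.exp (-p.1)) ^ (1 - b)) p :=
    hσ.contDiffAt.rpow_const_of_ne hne
  have h3 : ContDiffAt ℝ 1 (fun p : ℝ × E d => (T - s * Real.exp (-p.1),
      x₀ + (s * Real.exp (-p.1)) ^ (1 - b) • p.2)) p :=
    (contDiffAt_const.sub hσ.contDiffAt).prodMk
      (contDiffAt_const.add (h2.smul contDiffAt_snd))
  have h4 := contDiffAt_mo hf hψ (p := (T - s * Real.exp (-p.1),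
      x₀ + (s * Real.exp (-p.1)) ^ (1 - b) • p.2)) ⟨by linarith [hp.2], by linarith [hp.1]⟩
  have h5 : ContDiffAt ℝ 1 (fun p : ℝ × E d => mo f ψ (T - s * Real.exp (-p.1),
      x₀ + (s * Real.exp (-p.1)) ^ (1 - b) • p.2)) p := ContDiffAt.comp (g := mo f ψ) p h4 h3
  exact h1.mul h5

/-- The equation of a rescaled moment. -/
lemma resc_eq (hf : IsSolution B T f) (x₀ : E d) (a b : ℝ) (k : ℕ) {ψ : E d → ℝ}
    (hψ : Function.HasTemperateGrowth ψ) (s : ℝ) {p : ℝ × E d}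
    (hp : s * Real.exp (-p.1) ∈ Ioo 0 T) :
    fderiv ℝ (fun p : ℝ × E d => resc f T x₀ (a + k * b) b ψ p.2 (s * Real.exp (-p.1))) p (1, 0) +
    (a + k * b) * resc f T x₀ (a + k * b) b ψ p.2 (s * Real.exp (-p.1)) + (1 - b) *
    fderiv ℝ (fun p : ℝ × E d => resc f T x₀ (a + k * b) b ψ p.2 (s * Real.exp (-p.1))) p
      (0, p.2) +
    ∑ j, fderiv ℝ (fun p : ℝ × E d => resc f T x₀ (a + (k + 1 : ℕ) * b) b (fun v => v j * ψ v) p.2
      (s * Real.exp (-p.1))) p (0, EuclideanSpace.single j 1) =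
    (s * Real.exp (-p.1)) ^ (a + k * b + 1) *
      collision B (f (T - s * Real.exp (-p.1)) (x₀ + (s * Real.exp (-p.1)) ^ (1 - b) • p.2)) ψ := by
  have hG := grows_of_temperate hψ
  obtain ⟨D, hD, hsplit⟩ := moment_deriv hf x₀ a b k hψ p.2
  have h1 : HasDerivAt (fun τ : ℝ => s * Real.exp (-τ)) (-(s * Real.exp (-p.1))) p.1 :=
    (((hasDerivAt_neg p.1).exp).const_mul s).congr_deriv (by simp)
  have h2 := (hD _ hp).comp p.1 h1
  have dir : ∀ {G : ℝ × E d → ℝ} (_ : ContDiffAt ℝ 1 G p) (η : E d) {g' : ℝ}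
      (_ : HasDerivAt (fun θ : ℝ => G (p.1, p.2 + θ • η)) g' 0), fderiv ℝ G p (0, η) = g' := by
    intro G hG η g' hg
    have h3 : HasDerivAt (fun θ : ℝ => (p.1, p.2 + θ • η)) ((0 : ℝ), η) 0 := by
      refine (hasDerivAt_const _ _).prodMk ?_
      simpa using ((hasDerivAt_id (0 : ℝ)).smul_const η).const_add p.2
    have h4 : HasFDerivAt G (fderiv ℝ G p) (p.1, p.2 + (0 : ℝ) • η) := by
      rw [zero_smul, add_zero]
      exact (hG.differentiableAt (by norm_num)).hasFDerivAt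
    exact (h4.comp_hasDerivAt (0 : ℝ) h3).unique hg
  have e0 : fderiv ℝ (fun p : ℝ × E d => resc f T x₀ (a + k * b) b ψ p.2
      (s * Real.exp (-p.1))) p (1, 0) = D (s * Real.exp (-p.1)) * -(s * Real.exp (-p.1)) := by
    have h3 : HasDerivAt (fun τ : ℝ => (τ, p.2)) ((1 : ℝ), (0 : E d)) p.1 :=
      (hasDerivAt_id p.1).prodMk (hasDerivAt_const p.1 p.2)
    have h4 : HasFDerivAt (fun p : ℝ × E d => resc f T x₀ (a + k * b) b ψ p.2
        (s * Real.exp (-p.1))) (fderiv ℝ (fun p : ℝ × E d => resc f T x₀ (a + k * b) b ψ p.2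
        (s * Real.exp (-p.1))) p) (p.1, p.2) :=
      ((resc_contDiffAt hf hG x₀ (a + k * b) b s hp).differentiableAt (by norm_num)).hasFDerivAt
    exact (h4.comp_hasDerivAt p.1 h3).unique h2
  have e1 := dir (resc_contDiffAt hf hG x₀ (a + k * b) b s hp) p.2
    (resc_space hf hG x₀ (a + k * b) b p.2 p.2 hp)
  have e2 : ∀ j : Fin d, _ := fun j =>
    dir (resc_contDiffAt hf (grows_coord hG j) x₀ (a + (k + 1 : ℕ) * b) b s hp)
      (EuclideanSpace.single j 1)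
      (resc_space hf (grows_coord hG j) x₀ (a + (k + 1 : ℕ) * b) b p.2 _ hp)
  rw [e0, e1, Finset.sum_congr rfl fun j _ => e2 j]
  have h5 := hsplit _ hp
  unfold resc
  linear_combination -h5

/-- Slices of a `C¹` function. -/
lemma slice {g : ℝ → E d → ℝ} (hg : ContDiff ℝ 1 (fun p : ℝ × E d => g p.1 p.2)) (τ : ℝ)
    (y : E d) : DifferentiableAt ℝ (g τ) y ∧
      HasDerivAt (fun τ => g τ y) (fderiv ℝ (fun p : ℝ × E d => g p.1 p.2) (τ, y) (1, 0)) τ ∧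
      ∀ η, fderiv ℝ (g τ) y η = fderiv ℝ (fun p : ℝ × E d => g p.1 p.2) (τ, y) (0, η) := by
  have h1 : HasFDerivAt (fun p : ℝ × E d => g p.1 p.2)
      (fderiv ℝ (fun p : ℝ × E d => g p.1 p.2) (τ, y)) (τ, y) :=
    (hg.differentiable (by norm_num) (τ, y)).hasFDerivAt
  have h2 : HasFDerivAt (g τ) ((fderiv ℝ (fun p : ℝ × E d => g p.1 p.2) (τ, y)).comp
      (ContinuousLinearMap.inr ℝ ℝ (E d))) y :=
    HasFDerivAt.comp y h1 (hasFDerivAt_prodMk_right τ y)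
  have h3 : HasDerivAt (fun τ : ℝ => (τ, y)) ((1 : ℝ), (0 : E d)) τ :=
    (hasDerivAt_id τ).prodMk (hasDerivAt_const τ y)
  have h4 := h1.comp_hasDerivAt τ h3
  refine ⟨h2.differentiableAt, h4, fun η => ?_⟩
  rw [h2.fderiv]
  simp

/-- The equation of a limit moment. -/
lemma flow_identity (hf : IsSolution B T f) (hT : 0 < T) (x₀ : E d) (a b : ℝ) {s : ℕ → ℝ}
    (hs : Tendsto s atTop (𝓝[>] 0)) (k : ℕ)
    {ψ : E d → ℝ} {A : ℝ → E d → ℝ} {Aj : Fin d → ℝ → E d → ℝ}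
    (hψ : Function.HasTemperateGrowth ψ)
    (sA : ContDiff ℝ 1 (fun p : ℝ × E d => A p.1 p.2))
    (sAj : ∀ j, ContDiff ℝ 1 (fun p : ℝ × E d => Aj j p.1 p.2))
    (h0 : FlowLimit f T x₀ a b s k ψ A)
    (h1 : ∀ j, FlowLimit f T x₀ a b s (k + 1) (fun v => v j * ψ v) (Aj j))
    (hQ : ∀ c : ℝ, Tendsto (fun n => ∫⁻ p in box d c, ENNReal.ofReal
      |(s n * Real.exp (-p.1)) ^ (a + k * b + 1) * collision B (f (T - s n * Real.exp (-p.1))
        (x₀ + (s n * Real.exp (-p.1)) ^ (1 - b) • p.2)) ψ|) atTop (𝓝 0)) (τ : ℝ) (y : E d) :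
    HasDerivAt (fun τ => A τ y) (-((a + k * b) * A τ y + (1 - b) * fderiv ℝ (A τ) y y +
      ∑ j, fderiv ℝ (Aj j τ) y (EuclideanSpace.single j 1))) τ := by
  have hG := grows_of_temperate hψ
  suffices key : fderiv ℝ (fun p : ℝ × E d => A p.1 p.2) (τ, y) (1, 0) + (a + k * b) * A τ y +
      (1 - b) * fderiv ℝ (fun p : ℝ × E d => A p.1 p.2) (τ, y) (0, y) +
      ∑ j, fderiv ℝ (fun p : ℝ × E d => Aj j p.1 p.2) (τ, y) (0, EuclideanSpace.single j 1) =
      0 by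
    have s0 := slice sA τ y
    refine s0.2.1.congr_deriv ?_
    rw [s0.2.2 y, Finset.sum_congr rfl fun j _ => (slice (sAj j) τ y).2.2 _]
    linear_combination key
  refine pde_limit (A := fun p => A p.1 p.2) (Aj := fun j p => Aj j p.1 p.2) sA sAj
    (G := fun n p => resc f T x₀ (a + k * b) b ψ p.2 (s n * Real.exp (-p.1)))
    (Q := fun n p => (s n * Real.exp (-p.1)) ^ (a + k * b + 1) *
      collision B (f (T - s n * Real.exp (-p.1))
        (x₀ + (s n * Real.exp (-p.1)) ^ (1 - b) • p.2)) ψ)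
    (Gj := fun n j p => resc f T x₀ (a + (k + 1 : ℕ) * b) b (fun v => v j * ψ v) p.2
      (s n * Real.exp (-p.1))) ?_ h0 h1 hQ (τ, y)
  intro c
  filter_upwards [times_mem hs hT c] with n hn p hp
  have hσ := hn p.1 (mem_prod.1 hp).1
  exact ⟨resc_contDiffAt hf hG x₀ _ b (s n) hσ,
    fun j => resc_contDiffAt hf (grows_coord hG j) x₀ _ b (s n) hσ,
    resc_eq hf x₀ a b k hψ (s n) hσ⟩

end Pool.Agent.H49.BZ
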