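import Pool.Agent.H49.BZ.FlowGen
import Pool.Agent.H49.BZ.Climit

open Set Filter Topology MeasureTheory
open scoped RealInnerProductSpace

namespace Pool.Agent.H49.BZ

variable {d : ℕ} {B : ℝ → ℝ → ℝ} {T : ℝ} {f : ℝ → E d → E d → ℝ}

/-- The descent direction stays in the cylinder. -/
lemma seg_cyl {β K L τ t : ℝ} (hβ : 0 < β) {y u : E d} (hu : ‖u‖ ≤ K) (hy : ‖y‖ ≤ K / β)
    (hτ : τ ∈ Icc 0 L) (ht0 : 0 < t) (ht1 : t ≤ τ) (ht2 : t * β ≤ 1) :
    segment ℝ ((τ, y) : ℝ × E d) ((τ, y) + -(t • ((1 : ℝ), β • y + u))) ⊆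
      Icc (0 : ℝ) L ×ˢ Metric.closedBall (0 : E d) (K / β) := by
  have hc : Convex ℝ (Icc (0 : ℝ) L ×ˢ Metric.closedBall (0 : E d) (K / β)) :=
    (convex_Icc (0 : ℝ) L).prod (convex_closedBall (0 : E d) (K / β))
  have hmem : ((τ, y) : ℝ × E d) ∈ Icc (0 : ℝ) L ×ˢ Metric.closedBall (0 : E d) (K / β) :=
    mem_prod.2 ⟨hτ, mem_closedBall_zero_iff.2 hy⟩
  refine hc.segment_subset hmem ?_
  have e1 : ((τ, y) : ℝ × E d) + -(t • ((1 : ℝ), β • y + u)) =
      (τ - t, (1 - t * β) • y - t • u) := by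
    refine Prod.ext ?_ ?_
    · simp only [Prod.fst_add, Prod.fst_neg, Prod.smul_fst, smul_eq_mul]
      ring
    · simp only [Prod.snd_add, Prod.snd_neg, Prod.smul_snd]
      module
  rw [e1]
  refine mem_prod.2 ⟨⟨by simp only; linarith, by simp only; linarith [hτ.2]⟩, ?_⟩
  simp only
  rw [mem_closedBall_zero_iff]
  calc ‖(1 - t * β) • y - t • u‖ ≤ ‖(1 - t * β) • y‖ + ‖t • u‖ := norm_sub_le _ _
    _ = (1 - t * β) * ‖y‖ + t * ‖u‖ := by
      rw [norm_smul, norm_smul, Real.norm_eq_abs, Real.norm_eq_abs, abs_of_pos ht0,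
        abs_of_nonneg (by linarith)]
    _ ≤ (1 - t * β) * (K / β) + t * K :=
      add_le_add (mul_le_mul_of_nonneg_left hy (by linarith))
        (mul_le_mul_of_nonneg_left hu ht0.le)
    _ = K / β := by field_simp; ring

/-- At a minimum over the cylinder, at a positive time, the derivative along the field is
nonpositive. -/
lemma min_cyl {G : ℝ × E d → ℝ} {β K L τ : ℝ} (hβ : 0 < β) {y u : E d} (hu : ‖u‖ ≤ K)
    (hy : ‖y‖ ≤ K / β) (hτ : τ ∈ Icc 0 L) (h0 : 0 < τ)
    (hG : DifferentiableAt ℝ G (τ, y))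
    (hmin : IsMinOn G (Icc (0 : ℝ) L ×ˢ Metric.closedBall (0 : E d) (K / β)) (τ, y)) :
    fderiv ℝ G (τ, y) (1, β • y + u) ≤ 0 := by
  set t : ℝ := min τ β⁻¹ with ht
  have ht0 : 0 < t := lt_min h0 (by positivity)
  have ht2 : t * β ≤ 1 := by
    calc t * β ≤ β⁻¹ * β := mul_le_mul_of_nonneg_right (min_le_right _ _) hβ.le
      _ = 1 := inv_mul_cancel₀ hβ.ne'
  have hseg := seg_cyl hβ hu hy hτ ht0 (min_le_left _ _) ht2
  have h2 := (hmin.localize).hasFDerivWithinAt_nonneg hG.hasFDerivAt.hasFDerivWithinAt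
    (mem_posTangentConeAt_of_segment_subset hseg)
  rw [map_neg, map_smul, smul_eq_mul] at h2
  nlinarith

/-- A bounded function with constant derivative along the field `(1, β y + U τ y)`, `β > 0`, `U`
bounded: the constant is zero. -/
lemma transport_time {G : ℝ × E d → ℝ} (hG : Differentiable ℝ G)
    {U : ℝ → E d → E d} {β K c M : ℝ} (hβ : 0 < β) (hU : ∀ τ y, ‖U τ y‖ ≤ K)
    (hM : ∀ τ y, ‖y‖ ≤ K / β → |G (τ, y)| ≤ M)
    (h : ∀ τ y, fderiv ℝ G (τ, y) (1, β • y + U τ y) = c) : c = 0 := by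
  have key : ∀ (G : ℝ × E d → ℝ), Differentiable ℝ G → ∀ c : ℝ,
      (∀ τ y, ‖y‖ ≤ K / β → |G (τ, y)| ≤ M) →
      (∀ τ y, fderiv ℝ G (τ, y) (1, β • y + U τ y) = c) → c ≤ 0 := by
    intro G hG c hM h
    by_contra hc
    push Not at hc
    have hK : 0 ≤ K := (norm_nonneg _).trans (hU 0 0)
    have hρ : 0 ≤ K / β := by positivity
    have hM0 : 0 ≤ M := (abs_nonneg _).trans (hM 0 0 (by simpa using hρ))
    obtain ⟨L, hL⟩ : ∃ L : ℝ, L = 4 * M / c + 1 := ⟨_, rfl⟩
    have hL0 : 0 < L := by rw [hL]; positivity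
    have hcd : Differentiable ℝ (fun p : ℝ × E d => G p - c / 2 * p.1) :=
      hG.fun_sub (differentiable_fst.const_mul _)
    have hne : (Icc (0 : ℝ) L ×ˢ Metric.closedBall (0 : E d) (K / β)).Nonempty :=
      ⟨(0, 0), mem_prod.2 ⟨⟨le_rfl, hL0.le⟩, Metric.mem_closedBall_self hρ⟩⟩
    obtain ⟨⟨τ, y⟩, hp, hmin⟩ := (isCompact_Icc.prod (isCompact_closedBall (0 : E d)
      (K / β))).exists_isMinOn hne hcd.continuous.continuousOn
    obtain ⟨hτ, hy⟩ := mem_prod.1 hp
    simp only at hτ hy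
    rw [mem_closedBall_zero_iff] at hy
    rcases hτ.1.eq_or_lt with h0 | h0
    · subst h0
      have hmem : ((L, 0) : ℝ × E d) ∈ Icc (0 : ℝ) L ×ˢ Metric.closedBall (0 : E d) (K / β) :=
        mem_prod.2 ⟨⟨hL0.le, le_rfl⟩, Metric.mem_closedBall_self hρ⟩
      have h1 := isMinOn_iff.1 hmin _ hmem
      have h2 := abs_le.1 (hM 0 y hy)
      have h3 := abs_le.1 (hM L 0 (by simpa using hρ))
      have h4 : c / 2 * L = 2 * M + c / 2 := by rw [hL]; field_simp; ring
      simp only [mul_zero, sub_zero, h4] at h1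
      linarith [h2.1, h3.2]
    · have h2 := min_cyl hβ (hU τ y) hy hτ h0 (hcd (τ, y)) hmin
      have h3 : HasFDerivAt (fun p : ℝ × E d => G p - c / 2 * p.1)
          (fderiv ℝ G (τ, y) - (c / 2) • ContinuousLinearMap.fst ℝ ℝ (E d)) (τ, y) :=
        (hG (τ, y)).hasFDerivAt.fun_sub (hasFDerivAt_fst.const_mul (c / 2))
      rw [h3.fderiv, ContinuousLinearMap.sub_apply, h τ y] at h2
      simp only [ContinuousLinearMap.smul_apply, ContinuousLinearMap.coe_fst', smul_eq_mul,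
        mul_one] at h2
      linarith
  apply le_antisymm (key G hG c hM h)
  have := key (fun p => -G p) hG.fun_neg (-c) (fun τ y hy => by
    rw [abs_neg]; exact hM τ y hy) (fun τ y => by
    rw [fderiv_fun_neg, ContinuousLinearMap.neg_apply, h τ y])
  linarith

lemma abs_log_bound {c C x : ℝ} (hc : 0 < c) (h1 : c ≤ x) (h2 : x ≤ C) :
    |Real.log x| ≤ |Real.log c| + |Real.log C| := by
  have h3 := Real.log_le_log hc h1
  have h4 := Real.log_le_log (hc.trans_le h1) h2
  rw [abs_le]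
  constructor
  · linarith [neg_abs_le (Real.log c), abs_nonneg (Real.log C)]
  · linarith [le_abs_self (Real.log C), abs_nonneg (Real.log c)]

section lim

variable {x₀ : E d} {a b : ℝ} {s : ℕ → ℝ}

lemma flowLimit_sum (hf : IsSolution B T f) (hT : 0 < T) (hs : Tendsto s atTop (𝓝[>] 0)) {k : ℕ}
    {ψ : Fin d → E d → ℝ} {A : Fin d → ℝ → E d → ℝ} (hψ : ∀ i, Grows (ψ i))
    (hA : ∀ i, ContDiff ℝ 1 (fun p : ℝ × E d => A i p.1 p.2))
    (h : ∀ i, FlowLimit f T x₀ a b s k (ψ i) (A i)) :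
    FlowLimit f T x₀ a b s k (fun v => ∑ i, ψ i v) (fun τ y => ∑ i, A i τ y) := by
  intro c
  have h1 : Tendsto (fun n => ∑ i, ∫⁻ p in box d c, ENNReal.ofReal
      |resc f T x₀ (a + k * b) b (ψ i) p.2 (s n * Real.exp (-p.1)) - A i p.1 p.2|) atTop
      (𝓝 0) := by
    have := tendsto_finset_sum Finset.univ fun (i : Fin d) _ => h i c
    simpa using this
  refine tendsto_of_tendsto_of_tendsto_of_le_of_le' tendsto_const_nhds h1
    (Eventually.of_forall fun n => zero_le) ?_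
  filter_upwards [times_mem hs hT c] with n hn
  have hmeas : ∀ i, AEMeasurable (fun p : ℝ × E d => ENNReal.ofReal
      |resc f T x₀ (a + k * b) b (ψ i) p.2 (s n * Real.exp (-p.1)) - A i p.1 p.2|)
      (volume.restrict (box d c)) := by
    intro i
    refine AEMeasurable.ennreal_ofReal ?_
    refine ContinuousOn.aemeasurable ?_ (measurableSet_box c)
    intro p hp
    have hσ := hn p.1 (mem_prod.1 hp).1
    exact (((resc_contDiffAt hf (hψ i) x₀ _ b (s n) hσ).continuousAt.sub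
      (hA i).continuous.continuousAt).abs).continuousWithinAt
  rw [← lintegral_finset_sum' _ fun i _ => hmeas i]
  refine setLIntegral_mono' (measurableSet_box c) fun p hp => ?_
  have hσ := hn p.1 (mem_prod.1 hp).1
  have hTs : T - s n * Real.exp (-p.1) ∈ Ioo 0 T := ⟨by linarith [hσ.2], by linarith [hσ.1]⟩
  have e1 : resc f T x₀ (a + k * b) b (fun v => ∑ i, ψ i v) p.2 (s n * Real.exp (-p.1)) =
      ∑ i, resc f T x₀ (a + k * b) b (ψ i) p.2 (s n * Real.exp (-p.1)) := by
    simp only [resc]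
    rw [← Finset.mul_sum, ← integral_finset_sum _ fun i _ => integrable_f hf hTs _ (hψ i)]
    simp_rw [Finset.mul_sum]
  rw [e1, ← Finset.sum_sub_distrib, ← ENNReal.ofReal_sum_of_nonneg fun i _ => abs_nonneg _]
  exact ENNReal.ofReal_le_ofReal (Finset.abs_sum_le_sum_abs _ _)

/-- The collisions are negligible in the mean if `0 < 1 - a - γ b`. -/
lemma collision_flow (hd : 2 ≤ d) {γ σ : ℝ} (hB : IsKernel d γ σ B) (hf : IsSolution B T f)
    (hT : 0 < T) (hs : Tendsto s atTop (𝓝[>] 0)) (hκ : 0 < 1 - a - γ * b) (c : ℝ)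
    (hhigh : ∃ C : ℝ, ∀ᶠ n in atTop, ∫⁻ p in box d c,
      ENNReal.ofReal ((s n * Real.exp (-p.1)) ^ (2 * a + (γ + 2) * b)) *
        exchange (γ + 2) (f (T - s n * Real.exp (-p.1))
          (x₀ + (s n * Real.exp (-p.1)) ^ (1 - b) • p.2)) ≤ ENNReal.ofReal C) (i j : Fin d) :
    Tendsto (fun n => ∫⁻ p in box d c, ENNReal.ofReal
      |(s n * Real.exp (-p.1)) ^ (a + (2 : ℕ) * b + 1) *
      collision B (f (T - s n * Real.exp (-p.1)) (x₀ + (s n * Real.exp (-p.1)) ^ (1 - b) • p.2))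
        (fun v => v i * v j)|) atTop (𝓝 0) := by
  obtain ⟨C, hC0, hC⟩ := collision_pointwise hd hB
  obtain ⟨M, hM⟩ := hhigh
  have hs2 := (tendsto_nhdsWithin_iff.1 hs)
  have h1 : Tendsto (fun n => ENNReal.ofReal ((s n * Real.exp c) ^ (1 - a - γ * b)) *
      (ENNReal.ofReal C * ENNReal.ofReal M)) atTop (𝓝 0) := by
    have h2 : Tendsto (fun n => s n * Real.exp c) atTop (𝓝 0) := by
      simpa using hs2.1.mul_const (Real.exp c)
    have h3 := (Real.continuousAt_rpow_const 0 (1 - a - γ * b) (Or.inr hκ.le)).tendsto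
    rw [Real.zero_rpow hκ.ne'] at h3
    have h4 := (ENNReal.continuous_ofReal.tendsto 0).comp (h3.comp h2)
    rw [ENNReal.ofReal_zero] at h4
    have h5 := ENNReal.Tendsto.mul_const (b := ENNReal.ofReal C * ENNReal.ofReal M) h4
      (Or.inr (ENNReal.mul_ne_top ENNReal.ofReal_ne_top ENNReal.ofReal_ne_top))
    rwa [zero_mul] at h5
  refine tendsto_of_tendsto_of_tendsto_of_le_of_le' tendsto_const_nhds h1
    (Eventually.of_forall fun n => zero_le) ?_
  filter_upwards [times_mem hs hT c, hM, hs2.2] with n hn hMn hn3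
  refine (setLIntegral_mono' (measurableSet_box c) (g := fun p =>
    ENNReal.ofReal ((s n * Real.exp c) ^ (1 - a - γ * b)) * (ENNReal.ofReal C *
      (ENNReal.ofReal ((s n * Real.exp (-p.1)) ^ (2 * a + (γ + 2) * b)) *
        exchange (γ + 2) (f (T - s n * Real.exp (-p.1))
          (x₀ + (s n * Real.exp (-p.1)) ^ (1 - b) • p.2))))) fun p hp => ?_).trans ?_
  · have hσ := hn p.1 (mem_prod.1 hp).1
    refine (hC T f hf x₀ p.2 a b _ hσ i j).trans ?_
    have h2 : (s n * Real.exp (-p.1)) ^ (1 - a - γ * b) ≤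
        (s n * Real.exp c) ^ (1 - a - γ * b) := by
      refine Real.rpow_le_rpow hσ.1.le ?_ hκ.le
      refine mul_le_mul_of_nonneg_left (Real.exp_le_exp.2 ?_) ?_
      · linarith [(mem_prod.1 hp).1.1]
      · exact le_of_lt hn3
    gcongr
  · rw [lintegral_const_mul' _ _ ENNReal.ofReal_ne_top,
      lintegral_const_mul' _ _ ENNReal.ofReal_ne_top]
    gcongr

end lim

section flow

variable {γ : ℝ} {x₀ : E d} {a b : ℝ} {s : ℕ → ℝ} {R Θ : ℝ → E d → ℝ} {U : ℝ → E d → E d}
  (hf : IsSolution B T f) (hT : 0 < T) (h : IsEulerFlow γ T f x₀ a b s R U Θ)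

include hf hT h

lemma flow_sq : FlowLimit f T x₀ a b s 2 (fun v => ‖v‖ ^ 2)
    (fun τ y => ∑ i, mom2 (R τ y) (Θ τ y) (U τ y) i i) := by
  have := flowLimit_sum hf hT h.times (k := 2) (x₀ := x₀) (a := a) (b := b)
    (ψ := fun i v => v i * v i) (A := fun i τ y => mom2 (R τ y) (Θ τ y) (U τ y) i i)
    (fun i => grows_of_temperate (temperate_mul i i)) (fun i => smooth_mom2 h i i)
    (fun i => h.second i i)
  convert this using 1
  ext v; rw [sum_sq]

/-- The limit of the energy flux. -/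
lemma flow_flux (j : Fin d) : FlowLimit f T x₀ a b s (2 + 1) (fun v => v j * ‖v‖ ^ 2)
    (fun τ y => ∑ i, mom3 (R τ y) (Θ τ y) (U τ y) j i i) := by
  have := flowLimit_sum hf hT h.times (k := 3) (x₀ := x₀) (a := a) (b := b)
    (ψ := fun i v => v j * v i * v i) (A := fun i τ y => mom3 (R τ y) (Θ τ y) (U τ y) j i i)
    (fun i => grows_of_temperate ((temperate_mul j i).mul (temperate_coord i)))
    (fun i => smooth_mom3 h j i i) (fun i => h.third j i i)
  convert this using 1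
  ext v
  rw [← sum_sq, Finset.mul_sum]
  exact Finset.sum_congr rfl fun j _ => by ring

omit hf hT in
lemma smooth_e : ContDiff ℝ 1 (fun p : ℝ × E d =>
    (fun τ y => ∑ i, mom2 (R τ y) (Θ τ y) (U τ y) i i) p.1 p.2) :=
  ContDiff.sum fun i _ => smooth_mom2 h i i

omit hf hT in
lemma smooth_q (j : Fin d) : ContDiff ℝ 1 (fun p : ℝ × E d =>
    (fun τ y => ∑ i, mom3 (R τ y) (Θ τ y) (U τ y) j i i) p.1 p.2) :=
  ContDiff.sum fun i _ => smooth_mom3 h j i i

/-- The energy equation. -/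
lemma flow_e (τ : ℝ) (y : E d) : HasDerivAt (fun τ => ∑ i, mom2 (R τ y) (Θ τ y) (U τ y) i i)
    (-((a + (2 : ℕ) * b) * ∑ i, mom2 (R τ y) (Θ τ y) (U τ y) i i +
      (1 - b) * fderiv ℝ (fun y => ∑ i, mom2 (R τ y) (Θ τ y) (U τ y) i i) y y +
      ∑ j, fderiv ℝ (fun y => ∑ i, mom3 (R τ y) (Θ τ y) (U τ y) j i i) y
        (EuclideanSpace.single j 1))) τ :=
  flow_identity hf hT x₀ a b h.times 2 temperate_sq (smooth_e h) (smooth_q h) (flow_sq hf hT h)
    (flow_flux hf hT h) (zero_term fun n p => by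
      rw [collision_eq_zero fun v w σ hσ => gain_sq v w hσ, mul_zero]) τ y

/-- The temperature equation. -/
lemma flow_energy (τ : ℝ) (y : E d) :
    d * (R τ y * (2 * b * Θ τ y + dt Θ τ y + fderiv ℝ (Θ τ) y ((1 - b) • y + U τ y))) +
      2 * (R τ y * Θ τ y * dvg (U τ) y) = 0 := by
  have hd3 : ∀ j i τ y, DifferentiableAt ℝ (fun y => mom3 (R τ y) (Θ τ y) (U τ y) j i i) y :=
    fun j i τ y => (sp_has3 (slice h.smooth_R τ y).1
      (fun i => (slice (g := fun τ y => U τ y i) (smooth_coord h.smooth_U i) τ y).1)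
      (slice h.smooth_Θ τ y).1 j i i).1
  have hd2 : ∀ i τ y, DifferentiableAt ℝ (fun y => mom2 (R τ y) (Θ τ y) (U τ y) i i) y :=
    fun i τ y => sp_diff2 (slice h.smooth_R τ y).1
      (fun i => (slice (g := fun τ y => U τ y i) (smooth_coord h.smooth_U i) τ y).1)
      (slice h.smooth_Θ τ y).1 i i
  have key := flow_e hf hT h τ y
  have tm := HasDerivAt.fun_sum (u := Finset.univ) fun (i : Fin d) _ => time_mom2 hf hT h i i τ y
  have key := key.unique tm
  rw [fderiv_fun_sum fun i _ => hd2 i τ y] at key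
  simp_rw [fderiv_fun_sum fun (i : Fin d) (_ : i ∈ Finset.univ) => hd3 _ i τ y] at key
  simp only [ContinuousLinearMap.sum_apply] at key
  rw [Finset.sum_comm, Finset.mul_sum, Finset.mul_sum, ← Finset.sum_add_distrib,
    ← Finset.sum_add_distrib, ← Finset.sum_neg_distrib] at key
  have e1 : ∀ i : Fin d, _ := fun i => flow_second hf hT h i i τ y
  have e2 := Finset.sum_congr (rfl : (Finset.univ : Finset (Fin d)) = Finset.univ)
    fun i _ => e1 i
  simp only [if_true, Finset.sum_add_distrib, Finset.sum_const, Finset.card_univ,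
    Fintype.card_fin, nsmul_eq_mul, ← Finset.mul_sum, Finset.sum_neg_distrib] at e2 key
  unfold dvg
  linear_combination -e2 - key

omit hf hT h in
/-- The derivative along the field `(1, V)`. -/
lemma joint {g : ℝ → E d → ℝ} (hg : ContDiff ℝ 1 (fun p : ℝ × E d => g p.1 p.2)) (τ : ℝ)
    (y V : E d) : fderiv ℝ (fun p : ℝ × E d => g p.1 p.2) (τ, y) (1, V) =
      dt g τ y + fderiv ℝ (g τ) y V := by
  rw [(slice hg τ y).2.2 V, dt, ← map_add]
  simp

omit hf hT in
lemma pos_R (τ : ℝ) (y : E d) : 0 < R τ y := by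
  obtain ⟨c, C, hc, hC⟩ := h.typeI ‖y‖
  exact hc.trans_le (hC τ y le_rfl).1

omit hf hT in
lemma pos_Θ (τ : ℝ) (y : E d) : 0 < Θ τ y := by
  obtain ⟨c, C, hc, hC⟩ := h.typeI ‖y‖
  exact hc.trans_le (hC τ y le_rfl).2.2.1

/-- The exponents are related by `a = d b`. -/
lemma flow_a_eq (hd : 0 < d) : a = d * b := by
  obtain ⟨K, hK⟩ := h.bounded
  have hd' : (d : ℝ) ≠ 0 := by positivity
  obtain ⟨c, C, hc, hC⟩ := h.typeI (K / (1 - b))
  have hRd : ∀ p : ℝ × E d, HasFDerivAt (fun p : ℝ × E d => R p.1 p.2)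
      (fderiv ℝ (fun p : ℝ × E d => R p.1 p.2) p) p :=
    fun p => (h.smooth_R.differentiable (by norm_num) p).hasFDerivAt
  have hΘd : ∀ p : ℝ × E d, HasFDerivAt (fun p : ℝ × E d => Θ p.1 p.2)
      (fderiv ℝ (fun p : ℝ × E d => Θ p.1 p.2) p) p :=
    fun p => (h.smooth_Θ.differentiable (by norm_num) p).hasFDerivAt
  have hd1 : ∀ p : ℝ × E d, HasFDerivAt
      (fun p : ℝ × E d => (d : ℝ) / 2 * Real.log (Θ p.1 p.2) - Real.log (R p.1 p.2))
      (((d : ℝ) / 2) • ((Θ p.1 p.2)⁻¹ • fderiv ℝ (fun p : ℝ × E d => Θ p.1 p.2) p) -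
        (R p.1 p.2)⁻¹ • fderiv ℝ (fun p : ℝ × E d => R p.1 p.2) p) p := fun p =>
    (((hΘd p).log (pos_Θ h p.1 p.2).ne').const_mul _).fun_sub
      ((hRd p).log (pos_R h p.1 p.2).ne')
  have key := transport_time (G := fun p : ℝ × E d => (d : ℝ) / 2 * Real.log (Θ p.1 p.2) -
      Real.log (R p.1 p.2))
    (U := U) (β := 1 - b) (K := K) (c := a - d * b)
    (M := (d : ℝ) / 2 * (|Real.log c| + |Real.log C|) + (|Real.log c| + |Real.log C|))
    (fun p => (hd1 p).differentiableAt) (by linarith [h.b_lt]) hK ?_ ?_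
  · linarith
  · intro τ y hy
    obtain ⟨h1, h2, h3, h4⟩ := hC τ y hy
    have b1 := abs_log_bound hc h1 h2
    have b2 := abs_log_bound hc h3 h4
    calc |(d : ℝ) / 2 * Real.log (Θ τ y) - Real.log (R τ y)| ≤
          |(d : ℝ) / 2 * Real.log (Θ τ y)| + |Real.log (R τ y)| := abs_sub _ _
      _ ≤ _ := by
        rw [abs_mul, abs_of_nonneg (by positivity : (0 : ℝ) ≤ d / 2)]
        exact add_le_add (mul_le_mul_of_nonneg_left b2 (by positivity)) b1
  · intro τ y
    rw [(hd1 (τ, y)).fderiv]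
    have m := flow_mass hf hT h τ y
    have e := flow_energy hf hT h τ y
    have p1 := (pos_R h τ y).ne'
    have p2 := (pos_Θ h τ y).ne'
    simp only [ContinuousLinearMap.sub_apply, ContinuousLinearMap.smul_apply, smul_eq_mul]
    rw [joint h.smooth_R, joint h.smooth_Θ]
    field_simp
    have e' : R τ y * (d * (2 * b * Θ τ y + dt Θ τ y +
        fderiv ℝ (Θ τ) y ((1 - b) • y + U τ y)) + 2 * Θ τ y * dvg (U τ) y) = 0 := by
      linear_combination e
    rcases mul_eq_zero.1 e' with e' | e'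
    · exact absurd e' p1
    · linear_combination R τ y * e' - 2 * Θ τ y * m

/-- The collisions are not negligible. -/
lemma flow_kinetic (hd : 2 ≤ d) {σ : ℝ} (hB : IsKernel d γ σ B) : 1 - a - γ * b ≤ 0 := by
  by_contra hκ
  push Not at hκ
  obtain ⟨K, hK⟩ := h.bounded
  obtain ⟨c, C, hc, hC⟩ := h.typeI (K / (1 - b))
  have S : ∀ (i j : Fin d) (τ : ℝ) (y : E d),
      (if i = j then R τ y * (2 * b * Θ τ y + dt Θ τ y +
        fderiv ℝ (Θ τ) y ((1 - b) • y + U τ y)) else 0) +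
      R τ y * Θ τ y * (fderiv ℝ (fun y => U τ y i) y (EuclideanSpace.single j 1) +
        fderiv ℝ (fun y => U τ y j) y (EuclideanSpace.single i 1)) = 0 := by
    intro i j τ y
    rw [← flow_second hf hT h i j τ y]
    have key := flow_identity hf hT x₀ a b h.times 2 (temperate_mul i j) (smooth_mom2 h i j)
      (Aj := fun k τ y => mom3 (R τ y) (Θ τ y) (U τ y) k i j) (fun k => smooth_mom3 h k i j)
      (h.second i j) (fun k => by
        have := h.third k i j
        convert this using 1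
        ext v; ring)
      (fun c => collision_flow hd hB hf hT h.times hκ c (h.collisions c) i j) τ y
    have := key.unique (time_mom2 hf hT h i j τ y)
    rw [← this]
    ring
  have dv0 : ∀ τ y, dvg (U τ) y = 0 := by
    intro τ y
    unfold dvg
    refine Finset.sum_eq_zero fun i _ => ?_
    obtain ⟨j, hj⟩ : ∃ j : Fin d, i ≠ j := by
      haveI : Nontrivial (Fin d) := Fin.nontrivial_iff_two_le.2 hd
      obtain ⟨j, hj⟩ := exists_ne i
      exact ⟨j, hj.symm⟩
    have hUτ : ContDiff ℝ 1 (U τ) :=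
      h.smooth_U.comp (contDiff_const.prodMk contDiff_id : ContDiff ℝ 1 fun y : E d => (τ, y))
    refine conformal_rigid hUτ (hK τ) hj (fun y => ?_) (fun y => ?_) y
    · have s1 := S i i τ y
      have s2 := S j j τ y
      simp only [if_true] at s1 s2
      have p1 := mul_pos (pos_R h τ y) (pos_Θ h τ y)
      have : 2 * (R τ y * Θ τ y) * (fderiv ℝ (fun y => U τ y i) y (EuclideanSpace.single i 1) -
          fderiv ℝ (fun y => U τ y j) y (EuclideanSpace.single j 1)) = 0 := by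
        linear_combination s1 - s2
      rcases mul_eq_zero.1 this with h1 | h1
      · exact absurd h1 (by positivity)
      · linarith
    · have s1 := S i j τ y
      rw [if_neg hj, zero_add] at s1
      rcases mul_eq_zero.1 s1 with h1 | h1
      · exact absurd h1 (mul_pos (pos_R h τ y) (pos_Θ h τ y)).ne'
      · exact h1
  have hRd : ∀ p : ℝ × E d, HasFDerivAt (fun p : ℝ × E d => R p.1 p.2)
      (fderiv ℝ (fun p : ℝ × E d => R p.1 p.2) p) p :=
    fun p => (h.smooth_R.differentiable (by norm_num) p).hasFDerivAt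
  have hd1 : ∀ p : ℝ × E d, HasFDerivAt (fun p : ℝ × E d => Real.log (R p.1 p.2))
      ((R p.1 p.2)⁻¹ • fderiv ℝ (fun p : ℝ × E d => R p.1 p.2) p) p := fun p =>
    (hRd p).log (pos_R h p.1 p.2).ne'
  have key := transport_time (G := fun p : ℝ × E d => Real.log (R p.1 p.2))
    (U := U) (β := 1 - b) (K := K) (c := -a) (M := |Real.log c| + |Real.log C|)
    (fun p => (hd1 p).differentiableAt) (by linarith [h.b_lt]) hK ?_ ?_
  · linarith [h.a_pos]
  · intro τ y hy
    obtain ⟨h1, h2, h3, h4⟩ := hC τ y hy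
    exact abs_log_bound hc h1 h2
  · intro τ y
    rw [(hd1 (τ, y)).fderiv]
    have m := flow_mass hf hT h τ y
    rw [dv0 τ y, mul_zero, add_zero] at m
    have p1 := (pos_R h τ y).ne'
    simp only [ContinuousLinearMap.smul_apply, smul_eq_mul]
    rw [joint h.smooth_R]
    field_simp
    linear_combination m

end flow

end Pool.Agent.H49.BZ
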