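import Pool.Agent.H49.BZ.Kin

open Set Filter Topology MeasureTheory
open scoped RealInnerProductSpace

namespace Pool.Agent.H49.BZ

variable {d : ℕ} {B : ℝ → ℝ → ℝ} {T : ℝ} {f : ℝ → E d → E d → ℝ}

lemma norm_dir {v w : E d} (h : v ≠ w) : ‖dir v w‖ = 1 := by
  have h0 : ‖v - w‖ ≠ 0 := by simpa [sub_eq_zero] using h
  rw [dir, norm_smul, norm_inv, norm_norm, inv_mul_cancel₀ h0]

lemma smul_dir (v w : E d) : ‖v - w‖ • dir v w = v - w := by
  by_cases h : v = w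
  · subst h; simp
  · have h0 : ‖v - w‖ ≠ 0 := by simpa [sub_eq_zero] using h
    rw [dir, smul_smul, mul_inv_cancel₀ h0, one_smul]

lemma norm_turn {e σ : E d} (he : ‖e‖ = 1) (hσ : ‖σ‖ = 1) : ‖turn e σ‖ = 1 := by
  have h : ‖turn e σ‖ ^ 2 = 1 := by
    rw [turn, norm_sub_sq_real, norm_smul, he, hσ, inner_smul_left]
    simp only [Real.norm_eq_abs, conj_trivial, mul_one, sq_abs]
    ring
  have h2 : 0 ≤ ‖turn e σ‖ := norm_nonneg _
  nlinarith

lemma gain_one (v w σ : E d) : gain (fun _ => 1) v w σ = 0 := by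
  simp [gain]

lemma gain_coord (i : Fin d) (v w σ : E d) : gain (fun v => v i) v w σ = 0 := by
  simp only [gain, PiLp.add_apply, PiLp.sub_apply, PiLp.smul_apply, smul_eq_mul]
  ring

lemma gain_sq (v w : E d) {σ : E d} (hσ : ‖σ‖ = 1) : gain (fun v => ‖v‖ ^ 2) v w σ = 0 := by
  simp only [gain]
  set m : E d := (1 / 2 : ℝ) • (v + w)
  set u : E d := (‖v - w‖ / 2) • σ
  have h1 : ‖m + u‖ ^ 2 + ‖m - u‖ ^ 2 = 2 * ‖m‖ ^ 2 + 2 * ‖u‖ ^ 2 := by
    have := parallelogram_law_with_norm ℝ m u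
    nlinarith
  have h2 : ‖m‖ ^ 2 = 1 / 4 * ‖v + w‖ ^ 2 := by
    rw [norm_smul, mul_pow]; norm_num
  have h3 : ‖u‖ ^ 2 = 1 / 4 * ‖v - w‖ ^ 2 := by
    rw [norm_smul, hσ, mul_one, Real.norm_eq_abs, sq_abs]; ring
  have h4 := parallelogram_law_with_norm ℝ v w
  nlinarith

lemma collision_eq_zero {g ψ : E d → ℝ}
    (h : ∀ v w σ : E d, ‖σ‖ = 1 → gain ψ v w σ = 0) : collision B g ψ = 0 := by
  unfold collision
  have : ∀ v w : E d, (∫ σ : Metric.sphere (0 : E d) 1,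
      g v * g w * (B ‖v - w‖ ⟪dir v w, (σ : E d)⟫ *
      ((gain ψ v w σ + gain ψ v w (turn (dir v w) σ)) / 2)) ∂(surf d)) = 0 := by
    intro v w
    have : ∀ σ : Metric.sphere (0 : E d) 1, g v * g w * (B ‖v - w‖ ⟪dir v w, (σ : E d)⟫ *
      ((gain ψ v w σ + gain ψ v w (turn (dir v w) σ)) / 2)) = 0 := by
      intro σ
      have hσ : ‖(σ : E d)‖ = 1 := by simpa using σ.2
      rw [h v w σ hσ]
      by_cases hvw : v = w
      · subst hvw
        have : turn (dir v v) (σ : E d) = -(σ : E d) := by simp [turn, dir]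
        rw [this, h v v _ (by rw [norm_neg, hσ])]
        simp
      · rw [h v w _ (norm_turn (norm_dir hvw) hσ)]
        simp
    simp_rw [this]
    simp
  simp_rw [this]
  simp

end Pool.Agent.H49.BZ
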