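import Pool.Agent.H49.BZ.Ident
import Pool.Agent.H49.BZ.Zero

open Set Filter Topology MeasureTheory
open scoped RealInnerProductSpace

namespace Pool.Agent.H49.BZ

variable {d : ℕ}

lemma temperate_one : Function.HasTemperateGrowth (fun _ : E d => (1 : ℝ)) :=
  Function.HasTemperateGrowth.const 1

lemma temperate_coord (i : Fin d) : Function.HasTemperateGrowth (fun v : E d => v i) :=
  (EuclideanSpace.proj (𝕜 := ℝ) i : E d →L[ℝ] ℝ).hasTemperateGrowth

lemma temperate_mul (i j : Fin d) : Function.HasTemperateGrowth (fun v : E d => v i * v j) :=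
  (temperate_coord i).mul (temperate_coord j)

lemma temperate_sq : Function.HasTemperateGrowth (fun v : E d => ‖v‖ ^ 2) := by
  have h : (fun v : E d => ‖v‖ ^ 2) = fun v => ∑ i, v i * v i := by
    ext v; rw [sum_sq]
  rw [h]
  exact Function.HasTemperateGrowth.sum fun i _ => temperate_mul i i

end Pool.Agent.H49.BZ
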