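import Pool.Agent.H49.BZ.Maxp
import Pool.Agent.H49.BZ.Flow
import Pool.Agent.H49.BZ.Temp

open Set Filter Topology MeasureTheory
open scoped RealInnerProductSpace

namespace Pool.Agent.H49.BZ

variable {d : ℕ} {B : ℝ → ℝ → ℝ} {T : ℝ} {f : ℝ → E d → E d → ℝ}

lemma sum_clm' (L : E d →L[ℝ] ℝ) (u : E d) : ∑ k, u k * L (EuclideanSpace.single k 1) = L u := by
  conv_rhs => rw [sum_coord u]
  rw [map_sum]
  exact Finset.sum_congr rfl fun k _ => by rw [map_smul, smul_eq_mul]

/-- The divergence. -/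
noncomputable def dvg (U : E d → E d) (y : E d) : ℝ :=
  ∑ k, fderiv ℝ (fun y => U y k) y (EuclideanSpace.single k 1)

section space

variable {R Θ : E d → ℝ} {U : E d → E d} {y : E d} (hR : DifferentiableAt ℝ R y)
  (hU : ∀ i, DifferentiableAt ℝ (fun y => U y i) y) (hΘ : DifferentiableAt ℝ Θ y)

include hR hU

lemma sp_mom1 (i : Fin d) (η : E d) :
    fderiv ℝ (fun y => mom1 (R y) (U y) i) y η =
      fderiv ℝ R y η * U y i + R y * fderiv ℝ (fun y => U y i) y η := by
  have := hR.hasFDerivAt.fun_mul (hU i).hasFDerivAt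
  unfold mom1
  rw [this.fderiv]
  simp
  ring

include hΘ

lemma sp_mom2 (i j : Fin d) (η : E d) :
    fderiv ℝ (fun y => mom2 (R y) (Θ y) (U y) i j) y η =
      fderiv ℝ R y η * (U y i * U y j + if i = j then Θ y else 0) +
      R y * (fderiv ℝ (fun y => U y i) y η * U y j + U y i * fderiv ℝ (fun y => U y j) y η +
        if i = j then fderiv ℝ Θ y η else 0) := by
  have h1 := hR.hasFDerivAt.fun_mul (((hU i).hasFDerivAt.fun_mul (hU j).hasFDerivAt).fun_add
    (hΘ.hasFDerivAt.const_mul (if i = j then (1 : ℝ) else 0)))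
  have h2 : (fun y => mom2 (R y) (Θ y) (U y) i j) =
      fun y => R y * (U y i * U y j + (if i = j then (1 : ℝ) else 0) * Θ y) := by
    ext y; unfold mom2; split_ifs <;> ring
  rw [h2, h1.fderiv]
  split_ifs <;> simp <;> ring

lemma sp_diff2 (i j : Fin d) :
    DifferentiableAt ℝ (fun y => mom2 (R y) (Θ y) (U y) i j) y := by
  have h1 := hR.hasFDerivAt.fun_mul (((hU i).hasFDerivAt.fun_mul (hU j).hasFDerivAt).fun_add
    (hΘ.hasFDerivAt.const_mul (if i = j then (1 : ℝ) else 0)))
  have h2 : (fun y => mom2 (R y) (Θ y) (U y) i j) =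
      fun y => R y * (U y i * U y j + (if i = j then (1 : ℝ) else 0) * Θ y) := by
    ext y; unfold mom2; split_ifs <;> ring
  rw [h2]
  exact h1.differentiableAt

lemma sp_has3 (k i j : Fin d) :
    DifferentiableAt ℝ (fun y => mom3 (R y) (Θ y) (U y) k i j) y ∧ ∀ η,
    fderiv ℝ (fun y => mom3 (R y) (Θ y) (U y) k i j) y η =
      fderiv ℝ R y η * (U y k * (U y i * U y j + if i = j then Θ y else 0)) +
      R y * (fderiv ℝ (fun y => U y k) y η * (U y i * U y j + if i = j then Θ y else 0) +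
        U y k * (fderiv ℝ (fun y => U y i) y η * U y j + U y i * fderiv ℝ (fun y => U y j) y η +
        if i = j then fderiv ℝ Θ y η else 0)) +
      (if k = j then 1 else 0) * (fderiv ℝ R y η * Θ y * U y i + R y * fderiv ℝ Θ y η * U y i +
        R y * Θ y * fderiv ℝ (fun y => U y i) y η) +
      (if k = i then 1 else 0) * (fderiv ℝ R y η * Θ y * U y j + R y * fderiv ℝ Θ y η * U y j +
        R y * Θ y * fderiv ℝ (fun y => U y j) y η) := by
  have h1 := ((hR.hasFDerivAt.fun_mul ((hU k).hasFDerivAt.fun_mul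
    (((hU i).hasFDerivAt.fun_mul (hU j).hasFDerivAt).fun_add
    (hΘ.hasFDerivAt.const_mul (if i = j then (1 : ℝ) else 0))))).fun_add
    (((hR.hasFDerivAt.fun_mul hΘ.hasFDerivAt).fun_mul (hU i).hasFDerivAt).const_mul
      (if k = j then (1 : ℝ) else 0))).fun_add
    (((hR.hasFDerivAt.fun_mul hΘ.hasFDerivAt).fun_mul (hU j).hasFDerivAt).const_mul
      (if k = i then (1 : ℝ) else 0))
  have h2 : (fun y => mom3 (R y) (Θ y) (U y) k i j) =
      fun y => R y * (U y k * (U y i * U y j + (if i = j then (1 : ℝ) else 0) * Θ y)) +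
        (if k = j then (1 : ℝ) else 0) * (R y * Θ y * U y i) +
        (if k = i then (1 : ℝ) else 0) * (R y * Θ y * U y j) := by
    ext y; unfold mom3; split_ifs <;> ring
  rw [h2]
  refine ⟨h1.differentiableAt, fun η => ?_⟩
  rw [h1.fderiv]
  split_ifs <;> simp <;> ring

end space

section flow

variable {γ : ℝ} {x₀ : E d} {a b : ℝ} {s : ℕ → ℝ} {R Θ : ℝ → E d → ℝ} {U : ℝ → E d → E d}
  (hf : IsSolution B T f) (hT : 0 < T) (h : IsEulerFlow γ T f x₀ a b s R U Θ)

lemma smooth_coord {U : ℝ → E d → E d} (hU : ContDiff ℝ 1 (fun p : ℝ × E d => U p.1 p.2))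
    (i : Fin d) : ContDiff ℝ 1 (fun p : ℝ × E d => (fun τ y => U τ y i) p.1 p.2) :=
  (EuclideanSpace.proj (𝕜 := ℝ) i : E d →L[ℝ] ℝ).contDiff.comp hU

/-- The time derivative. -/
noncomputable def dt (g : ℝ → E d → ℝ) (τ : ℝ) (y : E d) : ℝ :=
  fderiv ℝ (fun p : ℝ × E d => g p.1 p.2) (τ, y) (1, 0)

include h

lemma smooth_mom1 (i : Fin d) : ContDiff ℝ 1 (fun p : ℝ × E d =>
    (fun τ y => mom1 (R τ y) (U τ y) i) p.1 p.2) :=
  h.smooth_R.mul (smooth_coord h.smooth_U i)

lemma smooth_mom2 (i j : Fin d) : ContDiff ℝ 1 (fun p : ℝ × E d =>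
    (fun τ y => mom2 (R τ y) (Θ τ y) (U τ y) i j) p.1 p.2) := by
  have e : (fun p : ℝ × E d => (fun τ y => mom2 (R τ y) (Θ τ y) (U τ y) i j) p.1 p.2) =
      fun p => R p.1 p.2 * (U p.1 p.2 i * U p.1 p.2 j + (if i = j then (1 : ℝ) else 0) *
        Θ p.1 p.2) := by
    ext p; simp only [mom2]; split_ifs <;> ring
  rw [e]
  exact h.smooth_R.mul (((smooth_coord h.smooth_U i).mul (smooth_coord h.smooth_U j)).add
    (contDiff_const.mul h.smooth_Θ))

lemma smooth_mom3 (i j k : Fin d) : ContDiff ℝ 1 (fun p : ℝ × E d =>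
    (fun τ y => mom3 (R τ y) (Θ τ y) (U τ y) i j k) p.1 p.2) := by
  have e : (fun p : ℝ × E d => (fun τ y => mom3 (R τ y) (Θ τ y) (U τ y) i j k) p.1 p.2) =
      fun p => R p.1 p.2 * (U p.1 p.2 i * U p.1 p.2 j * U p.1 p.2 k +
        (((if j = k then (1 : ℝ) else 0) * (Θ p.1 p.2 * U p.1 p.2 i) +
        (if i = k then (1 : ℝ) else 0) * (Θ p.1 p.2 * U p.1 p.2 j)) +
        (if i = j then (1 : ℝ) else 0) * (Θ p.1 p.2 * U p.1 p.2 k))) := by
    ext p; simp only [mom3]; split_ifs <;> ring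
  rw [e]
  have u := fun i => smooth_coord h.smooth_U i
  have θ := h.smooth_Θ
  exact h.smooth_R.mul ((((u i).mul (u j)).mul (u k)).add
    (((contDiff_const.mul (θ.mul (u i))).add (contDiff_const.mul (θ.mul (u j)))).add
      (contDiff_const.mul (θ.mul (u k)))))

omit h in
/-- A vanishing collision term. -/
lemma zero_term {g : ℕ → ℝ × E d → ℝ} (hg : ∀ n p, g n p = 0) (c : ℝ) :
    Tendsto (fun n => ∫⁻ p in box d c, ENNReal.ofReal |g n p|) atTop (𝓝 0) := by
  simp [hg]

include hf hT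

/-- The mass equation. -/
lemma flow_mass (τ : ℝ) (y : E d) :
    dt R τ y + a * R τ y + fderiv ℝ (R τ) y ((1 - b) • y + U τ y) + R τ y * dvg (U τ) y = 0 := by
  have sR := slice h.smooth_R τ y
  have sU : ∀ i, _ := fun i =>
    slice (g := fun τ y => U τ y i) (smooth_coord h.smooth_U i) τ y
  have h1 : ∀ j : Fin d, FlowLimit f T x₀ a b s (0 + 1) (fun v => v j * 1)
      (fun τ y => mom1 (R τ y) (U τ y) j) := by
    intro j
    have := h.momentum j
    convert this using 1
    ext v; ring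
  have key := flow_identity hf hT x₀ a b h.times 0 temperate_one h.smooth_R (smooth_mom1 h)
    h.density h1 (zero_term fun n p => by
      rw [collision_eq_zero fun v w σ _ => gain_one v w σ, mul_zero]) τ y
  have key := key.unique sR.2.1
  simp_rw [sp_mom1 sR.1 fun i => (sU i).1] at key
  rw [Finset.sum_add_distrib] at key
  have e1 : ∑ j, fderiv ℝ (R τ) y (EuclideanSpace.single j 1) * U τ y j =
      fderiv ℝ (R τ) y (U τ y) := by
    rw [← sum_clm']; exact Finset.sum_congr rfl fun k _ => mul_comm _ _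
  have e2 : ∑ j, R τ y * fderiv ℝ (fun y => U τ y j) y (EuclideanSpace.single j 1) =
      R τ y * dvg (U τ) y := by rw [dvg, Finset.mul_sum]
  rw [e1, e2] at key
  rw [map_add, map_smul, smul_eq_mul]
  unfold dt
  push_cast at key
  linear_combination -key

/-- The momentum equation. -/
lemma flow_momentum (i : Fin d) (τ : ℝ) (y : E d) :
    R τ y * (b * U τ y i + dt (fun τ y => U τ y i) τ y +
      fderiv ℝ (fun y => U τ y i) y ((1 - b) • y + U τ y)) +
      (fderiv ℝ (R τ) y (EuclideanSpace.single i 1) * Θ τ y +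
        R τ y * fderiv ℝ (Θ τ) y (EuclideanSpace.single i 1)) = 0 := by
  have sR := slice h.smooth_R τ y
  have sΘ := slice h.smooth_Θ τ y
  have sU : ∀ i, _ := fun i =>
    slice (g := fun τ y => U τ y i) (smooth_coord h.smooth_U i) τ y
  have key := flow_identity hf hT x₀ a b h.times 1 (temperate_coord i) (smooth_mom1 h i)
    (fun j => smooth_mom2 h j i) (h.momentum i) (fun j => h.second j i)
    (zero_term fun n p => by
      rw [collision_eq_zero fun v w σ _ => gain_coord i v w σ, mul_zero]) τ y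
  have tm : HasDerivAt (fun τ => mom1 (R τ y) (U τ y) i)
      (dt R τ y * U τ y i + R τ y * dt (fun τ y => U τ y i) τ y) τ :=
    sR.2.1.fun_mul (sU i).2.1
  have key := key.unique tm
  simp_rw [sp_mom1 sR.1 fun i => (sU i).1, sp_mom2 sR.1 (fun i => (sU i).1) sΘ.1] at key
  have e1 : ∀ j : Fin d, (fderiv ℝ (R τ) y (EuclideanSpace.single j 1) *
      (U τ y j * U τ y i + if j = i then Θ τ y else 0) +
      R τ y * (fderiv ℝ (fun y => U τ y j) y (EuclideanSpace.single j 1) * U τ y i +
        U τ y j * fderiv ℝ (fun y => U τ y i) y (EuclideanSpace.single j 1) +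
        if j = i then fderiv ℝ (Θ τ) y (EuclideanSpace.single j 1) else 0)) =
      (U τ y j * fderiv ℝ (R τ) y (EuclideanSpace.single j 1)) * U τ y i +
      R τ y * (fderiv ℝ (fun y => U τ y j) y (EuclideanSpace.single j 1)) * U τ y i +
      R τ y * (U τ y j * fderiv ℝ (fun y => U τ y i) y (EuclideanSpace.single j 1)) +
      (if j = i then fderiv ℝ (R τ) y (EuclideanSpace.single j 1) * Θ τ y +
        R τ y * fderiv ℝ (Θ τ) y (EuclideanSpace.single j 1) else 0) := by
    intro j; split_ifs <;> ring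
  rw [Finset.sum_congr rfl fun j _ => e1 j] at key
  simp only [Finset.sum_add_distrib, ← Finset.sum_mul, ← Finset.mul_sum, sum_clm',
    Finset.sum_ite_eq', Finset.mem_univ, if_true] at key
  have m := flow_mass hf hT h τ y
  rw [map_add, map_smul, smul_eq_mul] at m ⊢
  unfold mom1 at key
  unfold dvg at m
  push_cast at key
  linear_combination -key - U τ y i * m

/-- The equation of the second moments. -/
lemma flow_second (i j : Fin d) (τ : ℝ) (y : E d) :
    dt R τ y * (U τ y i * U τ y j + if i = j then Θ τ y else 0) +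
      R τ y * (dt (fun τ y => U τ y i) τ y * U τ y j + U τ y i * dt (fun τ y => U τ y j) τ y +
        if i = j then dt Θ τ y else 0) +
      ((a + (2 : ℕ) * b) * mom2 (R τ y) (Θ τ y) (U τ y) i j +
      (1 - b) * fderiv ℝ (fun y => mom2 (R τ y) (Θ τ y) (U τ y) i j) y y +
      ∑ k, fderiv ℝ (fun y => mom3 (R τ y) (Θ τ y) (U τ y) k i j) y
        (EuclideanSpace.single k 1)) =
    (if i = j then R τ y * (2 * b * Θ τ y + dt Θ τ y +
        fderiv ℝ (Θ τ) y ((1 - b) • y + U τ y)) else 0) +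
      R τ y * Θ τ y * (fderiv ℝ (fun y => U τ y i) y (EuclideanSpace.single j 1) +
        fderiv ℝ (fun y => U τ y j) y (EuclideanSpace.single i 1)) := by
  have sR := slice h.smooth_R τ y
  have sΘ := slice h.smooth_Θ τ y
  have sU : ∀ i, _ := fun i =>
    slice (g := fun τ y => U τ y i) (smooth_coord h.smooth_U i) τ y
  simp_rw [(sp_has3 sR.1 (fun i => (sU i).1) sΘ.1 _ _ _).2]
  rw [sp_mom2 sR.1 (fun i => (sU i).1) sΘ.1]
  set δ : ℝ := if i = j then 1 else 0 with hδ
  have d1 : ∀ x : ℝ, (if i = j then x else 0) = δ * x := by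
    intro x; rw [hδ]; split_ifs <;> ring
  simp_rw [d1]
  have e1 : ∀ k : Fin d, (fderiv ℝ (R τ) y (EuclideanSpace.single k 1) *
      (U τ y k * (U τ y i * U τ y j + δ * Θ τ y)) +
      R τ y * (fderiv ℝ (fun y => U τ y k) y (EuclideanSpace.single k 1) *
          (U τ y i * U τ y j + δ * Θ τ y) +
        U τ y k * (fderiv ℝ (fun y => U τ y i) y (EuclideanSpace.single k 1) * U τ y j +
          U τ y i * fderiv ℝ (fun y => U τ y j) y (EuclideanSpace.single k 1) +
          δ * fderiv ℝ (Θ τ) y (EuclideanSpace.single k 1))) +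
      (if k = j then 1 else 0) * (fderiv ℝ (R τ) y (EuclideanSpace.single k 1) * Θ τ y * U τ y i +
        R τ y * fderiv ℝ (Θ τ) y (EuclideanSpace.single k 1) * U τ y i +
        R τ y * Θ τ y * fderiv ℝ (fun y => U τ y i) y (EuclideanSpace.single k 1)) +
      (if k = i then 1 else 0) * (fderiv ℝ (R τ) y (EuclideanSpace.single k 1) * Θ τ y * U τ y j +
        R τ y * fderiv ℝ (Θ τ) y (EuclideanSpace.single k 1) * U τ y j +
        R τ y * Θ τ y * fderiv ℝ (fun y => U τ y j) y (EuclideanSpace.single k 1))) =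
      (U τ y k * fderiv ℝ (R τ) y (EuclideanSpace.single k 1)) *
        (U τ y i * U τ y j + δ * Θ τ y) +
      R τ y * (fderiv ℝ (fun y => U τ y k) y (EuclideanSpace.single k 1)) *
        (U τ y i * U τ y j + δ * Θ τ y) +
      R τ y * (U τ y k * fderiv ℝ (fun y => U τ y i) y (EuclideanSpace.single k 1)) * U τ y j +
      R τ y * (U τ y k * fderiv ℝ (fun y => U τ y j) y (EuclideanSpace.single k 1)) * U τ y i +
      R τ y * (U τ y k * fderiv ℝ (Θ τ) y (EuclideanSpace.single k 1)) * δ +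
      (if k = j then fderiv ℝ (R τ) y (EuclideanSpace.single k 1) * Θ τ y * U τ y i +
        R τ y * fderiv ℝ (Θ τ) y (EuclideanSpace.single k 1) * U τ y i +
        R τ y * Θ τ y * fderiv ℝ (fun y => U τ y i) y (EuclideanSpace.single k 1) else 0) +
      (if k = i then fderiv ℝ (R τ) y (EuclideanSpace.single k 1) * Θ τ y * U τ y j +
        R τ y * fderiv ℝ (Θ τ) y (EuclideanSpace.single k 1) * U τ y j +
        R τ y * Θ τ y * fderiv ℝ (fun y => U τ y j) y (EuclideanSpace.single k 1) else 0) := by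
    intro k; split_ifs <;> ring
  rw [Finset.sum_congr rfl fun k _ => e1 k]
  simp only [Finset.sum_add_distrib, ← Finset.sum_mul, ← Finset.mul_sum, sum_clm',
    Finset.sum_ite_eq', Finset.mem_univ, if_true]
  have m := flow_mass hf hT h τ y
  have p1 := flow_momentum hf hT h i τ y
  have p2 := flow_momentum hf hT h j τ y
  rw [map_add, map_smul, smul_eq_mul] at m p1 p2 ⊢
  unfold mom2
  rw [d1]
  unfold dvg at m
  push_cast
  linear_combination (U τ y i * U τ y j + δ * Θ τ y) * m + U τ y j * p1 + U τ y i * p2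

/-- The time derivative of the second moments. -/
lemma time_mom2 (i j : Fin d) (τ : ℝ) (y : E d) :
    HasDerivAt (fun τ => mom2 (R τ y) (Θ τ y) (U τ y) i j)
      (dt R τ y * (U τ y i * U τ y j + if i = j then Θ τ y else 0) +
      R τ y * (dt (fun τ y => U τ y i) τ y * U τ y j + U τ y i * dt (fun τ y => U τ y j) τ y +
        if i = j then dt Θ τ y else 0)) τ := by
  have sR := slice h.smooth_R τ y
  have sΘ := slice h.smooth_Θ τ y
  have sU : ∀ i, _ := fun i =>
    slice (g := fun τ y => U τ y i) (smooth_coord h.smooth_U i) τ y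
  have h1 := sR.2.1.fun_mul (((sU i).2.1.fun_mul (sU j).2.1).fun_add
    (sΘ.2.1.const_mul (if i = j then (1 : ℝ) else 0)))
  have h2 : (fun τ => mom2 (R τ y) (Θ τ y) (U τ y) i j) =
      fun τ => R τ y * (U τ y i * U τ y j + (if i = j then (1 : ℝ) else 0) * Θ τ y) := by
    ext τ; unfold mom2; split_ifs <;> ring
  rw [h2]
  refine h1.congr_deriv ?_
  unfold dt
  split_ifs <;> ring

end flow

end Pool.Agent.H49.BZ
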