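import Pool.Agent.H49.BZ.Kin

open Set Filter Topology MeasureTheory
open scoped RealInnerProductSpace

namespace Pool.Agent.H49.BZ

variable {d : ℕ} {B : ℝ → ℝ → ℝ} {T : ℝ} {f : ℝ → E d → E d → ℝ}

lemma sum_coord (v : E d) : v = ∑ j, v j • EuclideanSpace.single j (1 : ℝ) := by
  ext i
  simp only [WithLp.ofLp_sum, WithLp.ofLp_smul, Finset.sum_apply, Pi.smul_apply, smul_eq_mul,
    EuclideanSpace.single_apply]
  simp

lemma grows_coord {ψ : E d → ℝ} (hψ : Grows ψ) (j : Fin d) : Grows (fun v => v j * ψ v) := by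
  obtain ⟨hc, N, C, h⟩ := hψ
  refine ⟨by fun_prop, N + 1, C, fun v => ?_⟩
  have hC : 0 ≤ C * (1 + ‖v‖) ^ N := (abs_nonneg _).trans (h v)
  have h1 : |v j| ≤ 1 + ‖v‖ := by
    have := EuclideanSpace.norm_eq v
    have h2 : |v j| ≤ ‖v‖ := by
      have := PiLp.norm_apply_le v j
      simpa using this
    linarith
  rw [abs_mul, pow_succ, ← mul_assoc, mul_comm]
  exact mul_le_mul (h v) h1 (abs_nonneg _) hC

/-- The derivative of a rescaled moment. -/
lemma moment_deriv (hf : IsSolution B T f) (x₀ : E d) (a b : ℝ) (k : ℕ)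
    {ψ : E d → ℝ} (hψ : Function.HasTemperateGrowth ψ) (y : E d) : ∃ D : ℝ → ℝ,
    (∀ s ∈ Ioo 0 T, HasDerivAt (fun s : ℝ => s ^ (a + k * b) *
      ∫ v, f (T - s) (x₀ + s ^ (1 - b) • y) v * ψ v) (D s) s) ∧
    ∀ s ∈ Ioo 0 T, s * D s = (a + k * b) * (s ^ (a + k * b) *
        ∫ v, f (T - s) (x₀ + s ^ (1 - b) • y) v * ψ v) +
      (1 - b) * (s ^ (a + k * b + 1 - b) *
        ∫ v, fderiv ℝ (fun x => f (T - s) x v) (x₀ + s ^ (1 - b) • y) y * ψ v) +
      (∑ j, s ^ (a + (k + 1 : ℕ) * b + 1 - b) *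
        ∫ v, fderiv ℝ (fun x => f (T - s) x v) (x₀ + s ^ (1 - b) • y)
          (EuclideanSpace.single j 1) * (v j * ψ v)) -
      s ^ (a + k * b + 1) * collision B (f (T - s) (x₀ + s ^ (1 - b) • y)) ψ := by
  have hG := grows_of_temperate hψ
  set H : ℝ → ℝ := fun s => ∫ v, f (T - s) (x₀ + s ^ (1 - b) • y) v * ψ v with hH
  set H' : ℝ → ℝ := fun s => ∫ v, fderiv ℝ (fun p : ℝ × E d => f p.1 p.2 v)
    (T - s, x₀ + s ^ (1 - b) • y) (-1, ((1 - b) * s ^ (-b)) • y) * ψ v with hH'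
  have hd : ∀ s ∈ Ioo 0 T, HasDerivAt (fun s : ℝ => s ^ (a + k * b) * H s)
      ((a + k * b) * s ^ (a + k * b - 1) * H s + s ^ (a + k * b) * H' s) s := by
    intro s hs
    exact (Real.hasDerivAt_rpow_const (Or.inl hs.1.ne')).mul (hasDerivAt_moment hf x₀ y b hG hs)
  have hsplit : ∀ s ∈ Ioo 0 T, s * ((a + k * b) * s ^ (a + k * b - 1) * H s +
      s ^ (a + k * b) * H' s) = (a + k * b) * (s ^ (a + k * b) * H s) +
      (1 - b) * (s ^ (a + k * b + 1 - b) *
        ∫ v, fderiv ℝ (fun x => f (T - s) x v) (x₀ + s ^ (1 - b) • y) y * ψ v) +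
      (∑ j, s ^ (a + (k + 1 : ℕ) * b + 1 - b) *
        ∫ v, fderiv ℝ (fun x => f (T - s) x v) (x₀ + s ^ (1 - b) • y)
          (EuclideanSpace.single j 1) * (v j * ψ v)) -
      s ^ (a + k * b + 1) * collision B (f (T - s) (x₀ + s ^ (1 - b) • y)) ψ := by
    intro s hs
    have hTs : T - s ∈ Ioo 0 T := ⟨by linarith [hs.2], by linarith [hs.1]⟩
    set x := x₀ + s ^ (1 - b) • y with hx
    have i1 : ∀ (c : ℝ) (h : E d), Integrable (fun v => fderiv ℝ
        (fun p : ℝ × E d => f p.1 p.2 v) (T - s, x) (c, h) * ψ v) :=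
      fun c h => integrable_fderiv hf hTs x c h hG
    have i2 : ∀ j, Integrable (fun v => fderiv ℝ (fun p : ℝ × E d => f p.1 p.2 v) (T - s, x)
        (0, EuclideanSpace.single j 1) * (v j * ψ v)) :=
      fun j => integrable_fderiv hf hTs x 0 _ (grows_coord hG j)
    have e0 : ∀ v : E d, fderiv ℝ (fun p : ℝ × E d => f p.1 p.2 v) (T - s, x) (1, v) * ψ v =
        fderiv ℝ (fun p : ℝ × E d => f p.1 p.2 v) (T - s, x) (1, 0) * ψ v +
        ∑ j, fderiv ℝ (fun p : ℝ × E d => f p.1 p.2 v) (T - s, x)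
          (0, EuclideanSpace.single j 1) * (v j * ψ v) := by
      intro v
      have hv : ((1 : ℝ), v) = (1, 0) + ∑ j, v j • ((0 : ℝ), EuclideanSpace.single j (1 : ℝ)) := by
        rw [Prod.ext_iff]
        constructor
        · simp [Prod.fst_sum]
        · simp only [Prod.snd_add, Prod.snd_sum, Prod.snd_smul, zero_add]
          exact sum_coord v
      conv_lhs => rw [hv]
      rw [map_add, map_sum, add_mul, Finset.sum_mul]
      congr 1
      refine Finset.sum_congr rfl fun j _ => ?_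
      rw [map_smul, smul_eq_mul]
      ring
    have e1 : collision B (f (T - s) x) ψ =
        (∫ v, fderiv ℝ (fun p : ℝ × E d => f p.1 p.2 v) (T - s, x) (1, 0) * ψ v) +
        ∑ j, ∫ v, fderiv ℝ (fun p : ℝ × E d => f p.1 p.2 v) (T - s, x)
          (0, EuclideanSpace.single j 1) * (v j * ψ v) := by
      rw [← hf.equation ψ hψ (T - s) hTs x]
      rw [integral_congr_ae (Eventually.of_forall e0)]
      rw [integral_add (i1 1 0) (integrable_finset_sum _ fun j _ => i2 j)]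
      rw [integral_finset_sum _ fun j _ => i2 j]
    have e2 : H' s = -(∫ v, fderiv ℝ (fun p : ℝ × E d => f p.1 p.2 v) (T - s, x) (1, 0) * ψ v) +
        ((1 - b) * s ^ (-b)) *
          ∫ v, fderiv ℝ (fun p : ℝ × E d => f p.1 p.2 v) (T - s, x) (0, y) * ψ v := by
      have i3 : Integrable (fun v => -(fderiv ℝ (fun p : ℝ × E d => f p.1 p.2 v) (T - s, x)
          (1, 0) * ψ v)) := (i1 1 0).neg
      rw [← integral_neg, ← integral_const_mul, ← integral_add i3 ((i1 0 y).const_mul _)]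
      refine integral_congr_ae (Eventually.of_forall fun v => ?_)
      have hv : ((-1 : ℝ), ((1 - b) * s ^ (-b)) • y) =
          -(1, (0 : E d)) + ((1 - b) * s ^ (-b)) • ((0 : ℝ), y) := by
        ext <;> simp
      simp only
      rw [hv, map_add, map_neg, map_smul, smul_eq_mul]
      ring
    have e3 : ∀ (h : E d) (φ : E d → ℝ), (∫ v, fderiv ℝ (fun x => f (T - s) x v) x h * φ v) =
        ∫ v, fderiv ℝ (fun p : ℝ × E d => f p.1 p.2 v) (T - s, x) (0, h) * φ v := by
      intro h φ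
      refine integral_congr_ae (Eventually.of_forall fun v => ?_)
      simp only
      rw [fderiv_space hf hTs]
    have p1 : s * s ^ (a + k * b - 1) = s ^ (a + k * b) := by
      rw [mul_comm, ← Real.rpow_add_one hs.1.ne']
      congr 1; ring
    have p2 : s * s ^ (a + k * b) = s ^ (a + k * b + 1) := by
      rw [mul_comm, ← Real.rpow_add_one hs.1.ne']
    have p3 : s ^ (a + k * b + 1) * s ^ (-b) = s ^ (a + k * b + 1 - b) := by
      rw [← Real.rpow_add hs.1]; congr 1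
    have p4 : s ^ (a + (k + 1 : ℕ) * b + 1 - b) = s ^ (a + k * b + 1) := by
      congr 1; push_cast; ring
    rw [p4, ← Finset.mul_sum, e1, e3]
    simp_rw [e3]
    rw [e2]
    calc _ = (a + k * b) * ((s * s ^ (a + k * b - 1)) * H s) + (s * s ^ (a + k * b)) *
          (-(∫ v, fderiv ℝ (fun p : ℝ × E d => f p.1 p.2 v) (T - s, x) (1, 0) * ψ v) +
        ((1 - b) * s ^ (-b)) *
          ∫ v, fderiv ℝ (fun p : ℝ × E d => f p.1 p.2 v) (T - s, x) (0, y) * ψ v) := by ring
      _ = _ := by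
          rw [p1, p2, ← p3]; ring
  exact ⟨_, hd, hsplit⟩

lemma sum_sq (y : E d) : ∑ j, y j * y j = ‖y‖ ^ 2 := by
  rw [EuclideanSpace.norm_sq_eq]
  exact Finset.sum_congr rfl fun j _ => by rw [Real.norm_eq_abs, sq_abs, sq]

end Pool.Agent.H49.BZ
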