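import Pool.Agent.H49.BZ.Defs

open Set Filter Topology MeasureTheory
open scoped RealInnerProductSpace

namespace Pool.Agent.H49.BZ

variable {d : ℕ} {B : ℝ → ℝ → ℝ} {T : ℝ} {f : ℝ → E d → E d → ℝ}

/-- An integrable majorant. -/
lemma integrable_major (C : ℝ) : Integrable (fun v : E d => C * ((1 + ‖v‖) ^ (d + 1))⁻¹) := by
  have h := integrable_one_add_norm (E := E d) (μ := volume) (r := (d : ℝ) + 1) (by simp)
  refine (h.const_mul C).congr (Eventually.of_forall fun v => ?_)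
  have hp : (0 : ℝ) < 1 + ‖v‖ := by positivity
  simp only
  rw [Real.rpow_neg hp.le]
  norm_cast

lemma integrable_of_decay {g : E d → ℝ} (hg : AEStronglyMeasurable g volume) {C : ℝ}
    (h : ∀ v, (1 + ‖v‖) ^ (d + 1) * |g v| ≤ C) : Integrable g := by
  refine (integrable_major C).mono' hg (Eventually.of_forall fun v => ?_)
  have hp : (0 : ℝ) < (1 + ‖v‖) ^ (d + 1) := by positivity
  rw [Real.norm_eq_abs, ← div_eq_mul_inv, le_div_iff₀ hp, mul_comm]
  exact h v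

lemma open_dom : IsOpen (Ioo (0 : ℝ) T ×ˢ (univ : Set (E d × E d))) := isOpen_Ioo.prod isOpen_univ

/-- The inclusion of the tangent vectors in time and space. -/
noncomputable def incl (d : ℕ) : ℝ × E d →L[ℝ] ℝ × E d × E d :=
  (ContinuousLinearMap.fst ℝ ℝ (E d)).prod
    ((ContinuousLinearMap.snd ℝ ℝ (E d)).prod 0)

lemma hasFDerivAt_joint (hf : IsSolution B T f) {t : ℝ} (ht : t ∈ Ioo 0 T) (x v : E d) :
    HasFDerivAt (fun p : ℝ × E d => f p.1 p.2 v)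
      ((fderiv ℝ (fun p : ℝ × E d × E d => f p.1 p.2.1 p.2.2) (t, x, v)).comp (incl d)) (t, x) := by
  have hm : (t, x, v) ∈ Ioo (0 : ℝ) T ×ˢ (univ : Set (E d × E d)) := ⟨ht, mem_univ _⟩
  have h1 : DifferentiableAt ℝ (fun p : ℝ × E d × E d => f p.1 p.2.1 p.2.2) (t, x, v) :=
    (hf.smooth.contDiffAt (open_dom.mem_nhds hm)).differentiableAt (by norm_num)
  have h2 : HasFDerivAt (fun p : ℝ × E d => (p.1, p.2, v)) (incl d) (t, x) := by
    have : (fun p : ℝ × E d => (p.1, p.2, v)) = fun p => incl d p + (0, 0, v) := by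
      ext p : 1
      simp [incl]
    rw [this]
    exact (incl d).hasFDerivAt.add_const _
  exact HasFDerivAt.comp (t, x) h1.hasFDerivAt h2

lemma fderiv_joint (hf : IsSolution B T f) {t : ℝ} (ht : t ∈ Ioo 0 T) (x v : E d) :
    fderiv ℝ (fun p : ℝ × E d => f p.1 p.2 v) (t, x) =
      (fderiv ℝ (fun p : ℝ × E d × E d => f p.1 p.2.1 p.2.2) (t, x, v)).comp (incl d) :=
  (hasFDerivAt_joint hf ht x v).fderiv

lemma hasFDerivAt_space (hf : IsSolution B T f) {t : ℝ} (ht : t ∈ Ioo 0 T) (x v : E d) :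
    HasFDerivAt (fun x => f t x v)
      ((fderiv ℝ (fun p : ℝ × E d => f p.1 p.2 v) (t, x)).comp
        (ContinuousLinearMap.inr ℝ ℝ (E d))) x := by
  have h1 := (hasFDerivAt_joint hf ht x v)
  rw [← fderiv_joint hf ht] at h1
  have h2 : HasFDerivAt (fun x : E d => (t, x)) (ContinuousLinearMap.inr ℝ ℝ (E d)) x :=
    hasFDerivAt_prodMk_right t x
  exact HasFDerivAt.comp x h1 h2

lemma fderiv_space (hf : IsSolution B T f) {t : ℝ} (ht : t ∈ Ioo 0 T) (x v h : E d) :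
    fderiv ℝ (fun x => f t x v) x h = fderiv ℝ (fun p : ℝ × E d => f p.1 p.2 v) (t, x) (0, h) := by
  rw [(hasFDerivAt_space hf ht x v).fderiv]
  simp

lemma continuous_fderiv (hf : IsSolution B T f) {t : ℝ} (ht : t ∈ Ioo 0 T) (x : E d) (k : ℝ)
    (h : E d → E d) (hh : Continuous h) :
    Continuous (fun v => fderiv ℝ (fun p : ℝ × E d => f p.1 p.2 v) (t, x) (k, h v)) := by
  have h1 : ContinuousOn (fderiv ℝ (fun p : ℝ × E d × E d => f p.1 p.2.1 p.2.2))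
      (Ioo (0 : ℝ) T ×ˢ univ) := hf.smooth.continuousOn_fderiv_of_isOpen open_dom (by norm_num)
  have h2 : Continuous (fun v : E d => fderiv ℝ (fun p : ℝ × E d × E d => f p.1 p.2.1 p.2.2)
      (t, x, v)) := by
    rw [← continuousOn_univ]
    exact h1.comp (by fun_prop) (fun v _ => ⟨ht, mem_univ _⟩)
  have h3 : (fun v => fderiv ℝ (fun p : ℝ × E d => f p.1 p.2 v) (t, x) (k, h v)) =
      fun v => fderiv ℝ (fun p : ℝ × E d × E d => f p.1 p.2.1 p.2.2) (t, x, v)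
        (k, h v, 0) := by
    ext v
    rw [fderiv_joint hf ht]
    simp [incl]
  rw [h3]
  exact h2.clm_apply (by fun_prop)

lemma continuous_f (hf : IsSolution B T f) {t : ℝ} (ht : t ∈ Ioo 0 T) (x : E d) :
    Continuous (fun v => f t x v) := by
  have h1 := hf.smooth.continuousOn
  rw [← continuousOn_univ]
  exact h1.comp (f := fun v : E d => (t, x, v)) (by fun_prop) (fun v _ => ⟨ht, mem_univ _⟩)

/-- Polynomial growth. -/
def Grows {d : ℕ} (ψ : E d → ℝ) : Prop :=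
  Continuous ψ ∧ ∃ N : ℕ, ∃ C : ℝ, ∀ v, |ψ v| ≤ C * (1 + ‖v‖) ^ N

lemma grows_of_temperate {ψ : E d → ℝ} (h : Function.HasTemperateGrowth ψ) : Grows ψ := by
  refine ⟨h.1.continuous, ?_⟩
  obtain ⟨k, C, hC⟩ := h.2 0
  refine ⟨k, C, fun v => ?_⟩
  have := hC v
  simpa using this

lemma decay_mul (n N : ℕ) {ψ : E d → ℝ} {Cψ : ℝ} (hψ : ∀ v, |ψ v| ≤ Cψ * (1 + ‖v‖) ^ N)
    {g : E d → ℝ} {C : ℝ} (hg : ∀ v, (1 + ‖v‖) ^ (n + N) * |g v| ≤ C) (v : E d) :
    (1 + ‖v‖) ^ n * |g v * ψ v| ≤ C * Cψ := by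
  have hp : (0 : ℝ) < 1 + ‖v‖ := by positivity
  have hC : 0 ≤ Cψ := by
    have h1 := (abs_nonneg _).trans (hψ 0)
    simpa using h1
  calc (1 + ‖v‖) ^ n * |g v * ψ v| = (1 + ‖v‖) ^ n * |g v| * |ψ v| := by rw [abs_mul]; ring
    _ ≤ (1 + ‖v‖) ^ n * |g v| * (Cψ * (1 + ‖v‖) ^ N) :=
        mul_le_mul_of_nonneg_left (hψ v) (by positivity)
    _ = ((1 + ‖v‖) ^ (n + N) * |g v|) * Cψ := by rw [pow_add]; ring
    _ ≤ C * Cψ := mul_le_mul_of_nonneg_right (hg v) hC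

lemma integrable_f (hf : IsSolution B T f) {t : ℝ} (ht : t ∈ Ioo 0 T) (x : E d) {ψ : E d → ℝ}
    (hψ : Grows ψ) : Integrable (fun v => f t x v * ψ v) := by
  obtain ⟨hc, N, Cψ, hN⟩ := hψ
  obtain ⟨C, hC⟩ := hf.decay t t ht.1 ht.2 (d + 1 + N)
  refine integrable_of_decay (((continuous_f hf ht x).mul hc).aestronglyMeasurable)
    (C := C * Cψ) (decay_mul (d + 1) N hN fun v => (hC t ⟨le_rfl, le_rfl⟩ x v).1)

lemma integrable_fderiv (hf : IsSolution B T f) {t : ℝ} (ht : t ∈ Ioo 0 T) (x : E d) (k : ℝ)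
    (h : E d) {ψ : E d → ℝ} (hψ : Grows ψ) :
    Integrable (fun v => fderiv ℝ (fun p : ℝ × E d => f p.1 p.2 v) (t, x) (k, h) * ψ v) := by
  obtain ⟨hc, N, Cψ, hN⟩ := hψ
  obtain ⟨C, hC⟩ := hf.decay t t ht.1 ht.2 (d + 1 + N)
  refine integrable_of_decay
    (((continuous_fderiv hf ht x k (fun _ => h) continuous_const).mul hc).aestronglyMeasurable)
    (C := (C * ‖((k, h) : ℝ × E d)‖) * Cψ) (decay_mul (d + 1) N hN fun v => ?_)
  have h1 := (hC t ⟨le_rfl, le_rfl⟩ x v).2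
  have h2 := (fderiv ℝ (fun p : ℝ × E d => f p.1 p.2 v) (t, x)).le_opNorm (k, h)
  rw [Real.norm_eq_abs] at h2
  calc _ ≤ (1 + ‖v‖) ^ (d + 1 + N) *
        (‖fderiv ℝ (fun p : ℝ × E d => f p.1 p.2 v) (t, x)‖ * ‖((k, h) : ℝ × E d)‖) :=
        mul_le_mul_of_nonneg_left h2 (by positivity)
    _ ≤ _ := by
        rw [← mul_assoc]
        exact mul_le_mul_of_nonneg_right h1 (norm_nonneg _)

/-- Derivative of a moment along the rescaled point. -/
lemma hasDerivAt_moment (hf : IsSolution B T f) (x₀ y : E d) (b : ℝ) {ψ : E d → ℝ}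
    (hψ : Grows ψ) {s : ℝ} (hs : s ∈ Ioo 0 T) :
    HasDerivAt (fun s : ℝ => ∫ v, f (T - s) (x₀ + s ^ (1 - b) • y) v * ψ v)
      (∫ v, fderiv ℝ (fun p : ℝ × E d => f p.1 p.2 v) (T - s, x₀ + s ^ (1 - b) • y)
        (-1, ((1 - b) * s ^ (-b)) • y) * ψ v) s := by
  obtain ⟨hc, N, Cψ, hN⟩ := hψ
  have hT : ∀ s ∈ Ioo 0 T, T - s ∈ Ioo 0 T := fun s hs => ⟨by linarith [hs.2], by linarith [hs.1]⟩
  -- a compact neighbourhood
  set ε := min s (T - s) / 2 with hε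
  have hε0 : 0 < ε := by
    have : 0 < min s (T - s) := lt_min hs.1 (by linarith [hs.2])
    positivity
  have hε1 : ε ≤ s / 2 := by rw [hε]; linarith [min_le_left s (T - s)]
  have hε2 : ε ≤ (T - s) / 2 := by rw [hε]; linarith [min_le_right s (T - s)]
  have hI : ∀ r ∈ Icc (s - ε) (s + ε), r ∈ Ioo 0 T := fun r hr =>
    ⟨by linarith [hr.1, hs.1], by linarith [hr.2, hs.2]⟩
  obtain ⟨C, hC⟩ := hf.decay (T - (s + ε)) (T - (s - ε)) (by linarith [hs.2])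
    (by linarith [hs.1]) (d + 1 + N)
  have hcont : ContinuousOn (fun r : ℝ => ((-1 : ℝ), ((1 - b) * r ^ (-b)) • y))
      (Icc (s - ε) (s + ε)) := by
    have h1 : ContinuousOn (fun r : ℝ => r ^ (-b)) (Icc (s - ε) (s + ε)) :=
      continuousOn_id.rpow_const (fun r hr => Or.inl (hI r hr).1.ne')
    fun_prop
  obtain ⟨C2, hC2⟩ := isCompact_Icc.exists_bound_of_continuousOn hcont
  have hball : Icc (s - ε) (s + ε) ∈ 𝓝 s := Icc_mem_nhds (by linarith) (by linarith)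
  have hd : ∀ v, ∀ r ∈ Icc (s - ε) (s + ε),
      HasDerivAt (fun s : ℝ => f (T - s) (x₀ + s ^ (1 - b) • y) v)
        (fderiv ℝ (fun p : ℝ × E d => f p.1 p.2 v) (T - r, x₀ + r ^ (1 - b) • y)
        (-1, ((1 - b) * r ^ (-b)) • y)) r := by
    intro v r hr
    have h1 := hasFDerivAt_joint hf (hT r (hI r hr)) (x₀ + r ^ (1 - b) • y) v
    rw [← fderiv_joint hf (hT r (hI r hr))] at h1
    have h2 : HasDerivAt (fun s : ℝ => (T - s, x₀ + s ^ (1 - b) • y))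
        ((-1 : ℝ), ((1 - b) * r ^ (-b)) • y) r := by
      refine HasDerivAt.prodMk ?_ ?_
      · simpa using (hasDerivAt_id r).const_sub T
      · have h3 : HasDerivAt (fun s : ℝ => s ^ (1 - b)) ((1 - b) * r ^ (-b)) r := by
          have := Real.hasDerivAt_rpow_const (x := r) (p := 1 - b) (Or.inl (hI r hr).1.ne')
          convert this using 2
          ring_nf
        exact (h3.smul_const y).const_add x₀
    exact h1.comp_hasDerivAt r h2
  refine (hasDerivAt_integral_of_dominated_loc_of_deriv_le (μ := volume)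
    (F := fun (s : ℝ) (v : E d) => f (T - s) (x₀ + s ^ (1 - b) • y) v * ψ v)
    (F' := fun (r : ℝ) (v : E d) => fderiv ℝ (fun p : ℝ × E d => f p.1 p.2 v)
      (T - r, x₀ + r ^ (1 - b) • y) (-1, ((1 - b) * r ^ (-b)) • y) * ψ v)
    (bound := fun v => (C * C2 * Cψ) * ((1 + ‖v‖) ^ (d + 1))⁻¹)
    hball ?_ ?_ ?_ ?_ (integrable_major _) ?_).2
  · filter_upwards [hball] with r hr
    exact ((continuous_f hf (hT r (hI r hr)) _).mul hc).aestronglyMeasurable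
  · exact integrable_f hf (hT s hs) _ ⟨hc, N, Cψ, hN⟩
  · exact (integrable_fderiv hf (hT s hs) _ _ _ ⟨hc, N, Cψ, hN⟩).aestronglyMeasurable
  · refine Eventually.of_forall fun v r hr => ?_
    have h1 := (hC (T - r) ⟨by linarith [hr.2], by linarith [hr.1]⟩ (x₀ + r ^ (1 - b) • y) v).2
    have h2 := (fderiv ℝ (fun p : ℝ × E d => f p.1 p.2 v)
      (T - r, x₀ + r ^ (1 - b) • y)).le_opNorm (-1, ((1 - b) * r ^ (-b)) • y)
    have h3 := hC2 r hr
    have hp : (0 : ℝ) < (1 + ‖v‖) ^ (d + 1) := by positivity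
    rw [Real.norm_eq_abs, ← div_eq_mul_inv, le_div_iff₀ hp, mul_comm]
    refine decay_mul (d + 1) N hN (g := fun v => fderiv ℝ (fun p : ℝ × E d => f p.1 p.2 v)
      (T - r, x₀ + r ^ (1 - b) • y) (-1, ((1 - b) * r ^ (-b)) • y)) (fun w => ?_) v
    have h1 := (hC (T - r) ⟨by linarith [hr.2], by linarith [hr.1]⟩ (x₀ + r ^ (1 - b) • y) w).2
    have h2 := (fderiv ℝ (fun p : ℝ × E d => f p.1 p.2 w)
      (T - r, x₀ + r ^ (1 - b) • y)).le_opNorm (-1, ((1 - b) * r ^ (-b)) • y)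
    rw [Real.norm_eq_abs] at h2
    calc _ ≤ (1 + ‖w‖) ^ (d + 1 + N) * (‖fderiv ℝ (fun p : ℝ × E d => f p.1 p.2 w)
            (T - r, x₀ + r ^ (1 - b) • y)‖ * ‖((-1 : ℝ), ((1 - b) * r ^ (-b)) • y)‖) :=
          mul_le_mul_of_nonneg_left h2 (by positivity)
      _ = ((1 + ‖w‖) ^ (d + 1 + N) * ‖fderiv ℝ (fun p : ℝ × E d => f p.1 p.2 w)
            (T - r, x₀ + r ^ (1 - b) • y)‖) * ‖((-1 : ℝ), ((1 - b) * r ^ (-b)) • y)‖ := by ring
      _ ≤ C * C2 := mul_le_mul h1 h3 (norm_nonneg _) ((by positivity : (0 : ℝ) ≤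
            (1 + ‖w‖) ^ (d + 1 + N) * ‖fderiv ℝ (fun p : ℝ × E d => f p.1 p.2 w)
            (T - r, x₀ + r ^ (1 - b) • y)‖).trans h1)
  · exact Eventually.of_forall fun v r hr => (hd v r hr).mul_const (ψ v)

end Pool.Agent.H49.BZ
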