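import Pool.Agent.H49.BZ.Defs

open Set Filter Topology MeasureTheory
open scoped RealInnerProductSpace

namespace Pool.Agent.H49.BZ

variable {d : ℕ}

/-- A function with constant derivative along `β y + U y`, `β > 0`, `U` bounded: the constant
is zero. -/
lemma transport_const {g : E d → ℝ} (hg : Differentiable ℝ g) {U : E d → E d} {β K c : ℝ}
    (hβ : 0 < β) (hU : ∀ y, ‖U y‖ ≤ K) (h : ∀ y, fderiv ℝ g y (β • y + U y) = c) : c = 0 := by
  have key : ∀ (g : E d → ℝ), Differentiable ℝ g → ∀ c : ℝ,
      (∀ y, fderiv ℝ g y (β • y + U y) = c) → c ≤ 0 := by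
    intro g hg c h
    have hK : 0 ≤ K := (norm_nonneg _).trans (hU 0)
    have hρ : 0 ≤ K / β := by positivity
    obtain ⟨y, hy, hmin⟩ := (isCompact_closedBall (0 : E d) (K / β)).exists_isMinOn
      ⟨0, Metric.mem_closedBall_self hρ⟩ hg.continuous.continuousOn
    have hseg : segment ℝ y (y + -(β⁻¹) • (β • y + U y)) ⊆ Metric.closedBall (0 : E d) (K / β) := by
      apply (convex_closedBall (0 : E d) (K / β)).segment_subset hy
      have h1 : y + -(β⁻¹) • (β • y + U y) = -(β⁻¹ • U y) := by
        rw [smul_add, smul_smul, neg_mul, inv_mul_cancel₀ hβ.ne']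
        module
      rw [h1, mem_closedBall_zero_iff, norm_neg, norm_smul, norm_inv, Real.norm_eq_abs,
        abs_of_pos hβ, div_eq_inv_mul]
      exact mul_le_mul_of_nonneg_left (hU y) (by positivity)
    have h2 := (hmin.localize).hasFDerivWithinAt_nonneg (hg y).hasFDerivAt.hasFDerivWithinAt
      (mem_posTangentConeAt_of_segment_subset hseg)
    rw [map_smul, h y, smul_eq_mul] at h2
    have h3 : 0 < β⁻¹ := by positivity
    nlinarith
  apply le_antisymm (key g hg c h)
  have := key (fun y => -g y) hg.fun_neg (-c) (fun y => by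
    rw [fderiv_fun_neg, ContinuousLinearMap.neg_apply, h y])
  linarith

/-- A bounded field whose deformation is a multiple of the identity is divergence free. -/
lemma conformal_rigid {U : E d → E d} (hU : ContDiff ℝ 1 U) {K : ℝ} (hK : ∀ y, ‖U y‖ ≤ K)
    {i j : Fin d} (hij : i ≠ j)
    (h1 : ∀ y, fderiv ℝ (fun y => U y i) y (EuclideanSpace.single i 1) =
      fderiv ℝ (fun y => U y j) y (EuclideanSpace.single j 1))
    (h2 : ∀ y, fderiv ℝ (fun y => U y i) y (EuclideanSpace.single j 1) +
      fderiv ℝ (fun y => U y j) y (EuclideanSpace.single i 1) = 0) (y : E d) :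
    fderiv ℝ (fun y => U y i) y (EuclideanSpace.single i 1) = 0 := by
  have hd : ∀ k, Differentiable ℝ (fun y => U y k) := by
    intro k
    have := (EuclideanSpace.proj (𝕜 := ℝ) k : E d →L[ℝ] ℝ).differentiable.comp
      (hU.differentiable (by norm_num))
    exact this
  let e (k : Fin d) : E d := EuclideanSpace.single k 1
  let P : ℂ → E d := fun z => y + (z.re • e i + z.im • e j)
  let P' : ℂ →L[ℝ] E d := (Complex.reCLM.smulRight (e i)) + (Complex.imCLM.smulRight (e j))
  have hP : ∀ z, HasFDerivAt P P' z := by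
    intro z
    have := (P'.hasFDerivAt (x := z)).const_add y
    exact this
  let F : ℂ → ℂ := fun z => (U (P z) i : ℂ) + (U (P z) j : ℂ) * Complex.I
  let α : ℂ → ℝ := fun z => fderiv ℝ (fun y => U y i) (P z) (e i)
  let β : ℂ → ℝ := fun z => fderiv ℝ (fun y => U y j) (P z) (e i)
  have hF : ∀ z, HasDerivAt F ((α z : ℂ) + (β z : ℂ) * Complex.I) z := by
    intro z
    have a1 : ∀ k, HasFDerivAt (fun z => U (P z) k) ((fderiv ℝ (fun y => U y k) (P z)).comp P') z :=
      fun k => (hd k (P z)).hasFDerivAt.comp z (hP z)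
    have a2 : ∀ k, HasFDerivAt (fun z => (U (P z) k : ℂ))
        (Complex.ofRealCLM.comp ((fderiv ℝ (fun y => U y k) (P z)).comp P')) z :=
      fun k => Complex.ofRealCLM.hasFDerivAt.comp z (a1 k)
    have a3 := (a2 i).add ((a2 j).mul_const Complex.I)
    rw [hasDerivAt_iff_hasFDerivAt]
    refine hasFDerivAt_of_restrictScalars ℝ a3 ?_
    ext w
    have c1 := h1 (P z)
    have c2 := h2 (P z)
    simp only [ContinuousLinearMap.coe_restrictScalars', ContinuousLinearMap.toSpanSingleton_apply,
      smul_eq_mul, ContinuousLinearMap.add_apply, ContinuousLinearMap.comp_apply,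
      ContinuousLinearMap.smul_apply, Complex.ofRealCLM_apply, P', α, β,
      ContinuousLinearMap.smulRight_apply, Complex.reCLM_apply, Complex.imCLM_apply, map_add,
      map_smul, e] at *
    apply Complex.ext
    · simp
      linear_combination -w.im * c2
    · simp
      exact Or.inl c1
  have hb : Bornology.IsBounded (range F) := by
    rw [isBounded_iff_forall_norm_le]
    refine ⟨K + K, ?_⟩
    rintro _ ⟨z, rfl⟩
    have b1 : ∀ k, ‖(U (P z) k : ℂ)‖ ≤ K := fun k => by
      rw [Complex.norm_real]
      exact (PiLp.norm_apply_le (U (P z)) k).trans (hK _)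
    calc ‖F z‖ ≤ ‖(U (P z) i : ℂ)‖ + ‖(U (P z) j : ℂ) * Complex.I‖ := norm_add_le _ _
      _ ≤ K + K := by
        rw [norm_mul, Complex.norm_I, mul_one]
        exact add_le_add (b1 i) (b1 j)
  have hdF : Differentiable ℂ F := fun z => (hF z).differentiableAt
  have hconst : F = fun _ => F 0 := by
    ext z; exact hdF.apply_eq_apply_of_bounded hb z 0
  have h3 := hF 0
  rw [hconst] at h3
  have h4 := h3.unique (hasDerivAt_const _ _)
  have h5 := congrArg Complex.re h4
  simp [α, P, e] at h5
  exact h5

end Pool.Agent.H49.BZ
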