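import Pool.Agent.H49.BZ.Ident

open Set Filter Topology MeasureTheory
open scoped RealInnerProductSpace

namespace Pool.Agent.H49.BZ

variable {d : ℕ} {B : ℝ → ℝ → ℝ} {T : ℝ} {f : ℝ → E d → E d → ℝ}

/-- The derivative in time and space at a fixed velocity. -/
noncomputable def fd {d : ℕ} (f : ℝ → E d → E d → ℝ) (p : ℝ × E d) (v : E d) : ℝ × E d →L[ℝ] ℝ :=
  fderiv ℝ (fun q : ℝ × E d => f q.1 q.2 v) p

/-- The moment as a function of time and space. -/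
noncomputable def mo {d : ℕ} (f : ℝ → E d → E d → ℝ) (ψ : E d → ℝ) (p : ℝ × E d) : ℝ :=
  ∫ v, f p.1 p.2 v * ψ v

/-- The derivative of the moment. -/
noncomputable def moD {d : ℕ} (f : ℝ → E d → E d → ℝ) (ψ : E d → ℝ) (p : ℝ × E d) :
    ℝ × E d →L[ℝ] ℝ := ∫ v, ψ v • fd f p v

lemma cont_fd (hf : IsSolution B T f) : ContinuousOn (fun q : (ℝ × E d) × E d => fd f q.1 q.2)
    ((Ioo 0 T ×ˢ univ) ×ˢ univ) := by
  have h1 : ContinuousOn (fderiv ℝ (fun p : ℝ × E d × E d => f p.1 p.2.1 p.2.2))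
      (Ioo (0 : ℝ) T ×ˢ univ) := hf.smooth.continuousOn_fderiv_of_isOpen open_dom (by norm_num)
  have h2 : ContinuousOn (fun q : (ℝ × E d) × E d => fderiv ℝ
      (fun p : ℝ × E d × E d => f p.1 p.2.1 p.2.2) (q.1.1, q.1.2, q.2))
      ((Ioo 0 T ×ˢ univ) ×ˢ univ) :=
    h1.comp (by fun_prop) (fun q hq => ⟨hq.1.1, mem_univ _⟩)
  have h3 : ContinuousOn (fun q : (ℝ × E d) × E d => (fderiv ℝ
      (fun p : ℝ × E d × E d => f p.1 p.2.1 p.2.2) (q.1.1, q.1.2, q.2)).comp (incl d))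
      ((Ioo 0 T ×ˢ univ) ×ˢ univ) := h2.clm_comp continuousOn_const
  refine h3.congr fun q hq => ?_
  unfold fd
  exact fderiv_joint hf hq.1.1 q.1.2 q.2

lemma bound_fd (hf : IsSolution B T f) {ψ : E d → ℝ} (hψ : Grows ψ) {t₁ t₂ : ℝ} (h1 : 0 < t₁)
    (h2 : t₂ < T) : ∃ C, ∀ t ∈ Icc t₁ t₂, ∀ x v : E d,
    ‖ψ v • fd f (t, x) v‖ ≤ C * ((1 + ‖v‖) ^ (d + 1))⁻¹ := by
  obtain ⟨hc, N, Cψ, hN⟩ := hψ
  obtain ⟨C, hC⟩ := hf.decay t₁ t₂ h1 h2 (d + 1 + N)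
  refine ⟨C * Cψ, fun t ht x v => ?_⟩
  have hp : (0 : ℝ) < (1 + ‖v‖) ^ (d + 1) := by positivity
  rw [← div_eq_mul_inv, le_div_iff₀ hp, mul_comm]
  have h3 := decay_mul (d + 1) N hN
    (g := fun w => ‖fderiv ℝ (fun q : ℝ × E d => f q.1 q.2 w) (t, x)‖)
    (fun w => by rw [abs_norm]; exact (hC t ht x w).2) v
  rw [abs_mul, abs_norm] at h3
  rw [norm_smul, Real.norm_eq_abs, mul_comm |ψ v|]
  exact h3

lemma meas_fd (hf : IsSolution B T f) {ψ : E d → ℝ} (hψ : Grows ψ) {p : ℝ × E d}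
    (hp : p.1 ∈ Ioo 0 T) : AEStronglyMeasurable (fun v => ψ v • fd f p v) volume := by
  have h1 : Continuous (fun v => fd f p v) := by
    rw [← continuousOn_univ]
    exact (cont_fd hf).comp (f := fun v : E d => (p, v)) (by fun_prop)
      (fun v _ => ⟨⟨hp, mem_univ _⟩, mem_univ _⟩)
  exact (hψ.1.smul h1).aestronglyMeasurable

lemma integrable_fd (hf : IsSolution B T f) {ψ : E d → ℝ} (hψ : Grows ψ) {p : ℝ × E d}
    (hp : p.1 ∈ Ioo 0 T) : Integrable (fun v => ψ v • fd f p v) := by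
  obtain ⟨C, hC⟩ := bound_fd hf hψ hp.1 hp.2
  exact (integrable_major C).mono' (meas_fd hf hψ hp)
    (Eventually.of_forall fun v => hC p.1 ⟨le_rfl, le_rfl⟩ p.2 v)

lemma moD_apply (hf : IsSolution B T f) {ψ : E d → ℝ} (hψ : Grows ψ) {p : ℝ × E d}
    (hp : p.1 ∈ Ioo 0 T) (w : ℝ × E d) :
    moD f ψ p w = ∫ v, fderiv ℝ (fun q : ℝ × E d => f q.1 q.2 v) p w * ψ v := by
  unfold moD
  rw [ContinuousLinearMap.integral_apply (integrable_fd hf hψ hp)]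
  refine integral_congr_ae (Eventually.of_forall fun v => ?_)
  simp only [ContinuousLinearMap.smul_apply, smul_eq_mul, fd]
  ring

lemma nhds_time {p : ℝ × E d} (hp : p.1 ∈ Ioo 0 T) : ∃ t₁ t₂ : ℝ, 0 < t₁ ∧ t₂ < T ∧
    Icc t₁ t₂ ×ˢ (univ : Set (E d)) ∈ 𝓝 p := by
  refine ⟨p.1 / 2, (p.1 + T) / 2, by linarith [hp.1], by linarith [hp.2], ?_⟩
  rw [nhds_prod_eq]
  exact prod_mem_prod (Icc_mem_nhds (by linarith [hp.1]) (by linarith [hp.2])) univ_mem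

lemma hasFDerivAt_mo (hf : IsSolution B T f) {ψ : E d → ℝ} (hψ : Grows ψ) {p : ℝ × E d}
    (hp : p.1 ∈ Ioo 0 T) : HasFDerivAt (mo f ψ) (moD f ψ p) p := by
  obtain ⟨t₁, t₂, h1, h2, h3⟩ := nhds_time hp
  obtain ⟨C, hC⟩ := bound_fd hf hψ h1 h2
  have hI : ∀ q ∈ Icc t₁ t₂ ×ˢ (univ : Set (E d)), q.1 ∈ Ioo 0 T := fun q hq =>
    ⟨lt_of_lt_of_le h1 hq.1.1, lt_of_le_of_lt hq.1.2 h2⟩
  refine hasFDerivAt_integral_of_dominated_of_fderiv_le (μ := (volume : Measure (E d)))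
    (F := fun (q : ℝ × E d) (v : E d) => f q.1 q.2 v * ψ v)
    (F' := fun q v => ψ v • fd f q v)
    (bound := fun v => C * ((1 + ‖v‖) ^ (d + 1))⁻¹) h3 ?_ ?_ (meas_fd hf hψ hp) ?_
    (integrable_major C) ?_
  · filter_upwards [h3] with q hq
    exact ((continuous_f hf (hI q hq) _).mul hψ.1).aestronglyMeasurable
  · exact integrable_f hf hp _ hψ
  · exact Eventually.of_forall fun v q hq => hC q.1 hq.1 q.2 v
  · refine Eventually.of_forall fun v q hq => ?_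
    have h4 := hasFDerivAt_joint hf (hI q hq) q.2 v
    rw [← fderiv_joint hf (hI q hq)] at h4
    exact h4.mul_const (ψ v)

lemma continuousAt_moD (hf : IsSolution B T f) {ψ : E d → ℝ} (hψ : Grows ψ) {p : ℝ × E d}
    (hp : p.1 ∈ Ioo 0 T) : ContinuousAt (moD f ψ) p := by
  obtain ⟨t₁, t₂, h1, h2, h3⟩ := nhds_time hp
  obtain ⟨C, hC⟩ := bound_fd hf hψ h1 h2
  refine continuousAt_of_dominated (bound := fun v => C * ((1 + ‖v‖) ^ (d + 1))⁻¹) ?_ ?_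
    (integrable_major C) ?_
  · filter_upwards [h3] with q hq
    exact meas_fd hf hψ ⟨lt_of_lt_of_le h1 hq.1.1, lt_of_le_of_lt hq.1.2 h2⟩
  · filter_upwards [h3] with q hq
    exact Eventually.of_forall fun v => hC q.1 hq.1 q.2 v
  · refine Eventually.of_forall fun v => ?_
    have h4 : ContinuousAt (fun q : (ℝ × E d) × E d => fd f q.1 q.2) (p, v) :=
      (cont_fd hf).continuousAt (((isOpen_Ioo.prod isOpen_univ).prod isOpen_univ).mem_nhds
        ⟨⟨hp, mem_univ _⟩, mem_univ _⟩)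
    have h5 : ContinuousAt (fun q : ℝ × E d => fd f q v) p :=
      h4.comp (f := fun q : ℝ × E d => (q, v)) (by fun_prop)
    exact (continuousAt_const (y := ψ v)).smul h5

lemma contDiffAt_mo (hf : IsSolution B T f) {ψ : E d → ℝ} (hψ : Grows ψ) {p : ℝ × E d}
    (hp : p.1 ∈ Ioo 0 T) : ContDiffAt ℝ 1 (mo f ψ) p := by
  have hO : IsOpen (Ioo (0 : ℝ) T ×ˢ (univ : Set (E d))) := isOpen_Ioo.prod isOpen_univ
  have h1 : ContDiffOn ℝ (0 + 1) (mo f ψ) (Ioo (0 : ℝ) T ×ˢ (univ : Set (E d))) := by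
    rw [contDiffOn_succ_iff_fderiv_of_isOpen hO]
    refine ⟨fun q hq => (hasFDerivAt_mo hf hψ hq.1).differentiableAt.differentiableWithinAt,
      fun h => by simp at h, ?_⟩
    rw [contDiffOn_zero]
    intro q hq
    have h2 : ContinuousAt (fderiv ℝ (mo f ψ)) q := by
      refine (continuousAt_moD hf hψ hq.1).congr ?_
      filter_upwards [hO.mem_nhds hq] with r hr
      exact (hasFDerivAt_mo hf hψ hr.1).fderiv.symm
    exact h2.continuousWithinAt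
  rw [zero_add] at h1
  exact h1.contDiffAt (hO.mem_nhds ⟨hp, mem_univ _⟩)

end Pool.Agent.H49.BZ
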