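import Pool.Agent.H49.BZ.Defs

open Set Filter Topology MeasureTheory
open scoped RealInnerProductSpace

namespace Pool.Agent.H49.BZ

variable {d : ℕ}

/-- A radial weight, constant in the ball of radius `√A` and zero outside that of radius
`√(A + 1)`. -/
lemma exists_weight (hd : 0 < d) {A : ℝ} (hA : 0 ≤ A) : ∃ (χ μ : E d → ℝ), ContDiff ℝ 1 χ ∧
    HasCompactSupport χ ∧ (∀ y, 0 ≤ χ y) ∧ Continuous μ ∧ HasCompactSupport μ ∧
    (∀ y, 0 ≤ μ y) ∧ (∀ y, μ y ≠ 0 → A ≤ ‖y‖ ^ 2 ∧ ‖y‖ ^ 2 ≤ A + 1) ∧ (∃ y, μ y ≠ 0) ∧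
    (∀ y η, fderiv ℝ χ y η = -(μ y * ⟪y, η⟫)) := by
  let β : ℝ → ℝ := fun t => max 0 ((t - A) * (A + 1 - t))
  have hβ : Continuous β := by fun_prop
  have hβ0 : ∀ t, 0 ≤ β t := fun t => le_max_left _ _
  have hβ1 : ∀ t, A + 1 ≤ t → β t = 0 := by
    intro t ht
    apply max_eq_left
    nlinarith
  have hβ2 : ∀ t, t ≤ A → β t = 0 := by
    intro t ht
    apply max_eq_left
    nlinarith
  let h : ℝ → ℝ := fun q => ∫ t in q..(A + 1), β t
  have hh : ∀ q, HasDerivAt h (-β q) q := fun q =>
    intervalIntegral.integral_hasDerivAt_left (hβ.intervalIntegrable _ _)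
      hβ.aestronglyMeasurable.stronglyMeasurableAtFilter hβ.continuousAt
  have hC : ContDiff ℝ 1 h := by
    rw [contDiff_one_iff_deriv]
    refine ⟨fun q => (hh q).differentiableAt, ?_⟩
    have : deriv h = fun q => -β q := by ext q; exact (hh q).deriv
    rw [this]
    exact hβ.neg
  have hh1 : ∀ q, A + 1 ≤ q → h q = 0 := by
    intro q hq
    simp only [h]
    rw [intervalIntegral.integral_symm, neg_eq_zero]
    apply intervalIntegral.integral_zero_ae
    refine Eventually.of_forall fun t ht => hβ1 t ?_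
    rw [uIoc_of_le hq] at ht
    exact ht.1.le
  have hh0 : ∀ q, 0 ≤ h q := by
    intro q
    rcases le_total q (A + 1) with hq | hq
    · exact intervalIntegral.integral_nonneg hq fun t _ => hβ0 t
    · rw [hh1 q hq]
  have hsq : ∀ y : E d, HasFDerivAt (fun y : E d => ‖y‖ ^ 2) (2 • (innerSL ℝ y)) y := fun y =>
    (hasStrictFDerivAt_norm_sq y).hasFDerivAt
  have hder : ∀ y : E d, HasFDerivAt (fun y : E d => h (‖y‖ ^ 2))
      ((-β (‖y‖ ^ 2)) • (2 • (innerSL ℝ y))) y := fun y =>
    HasDerivAt.comp_hasFDerivAt (h₂ := h) y (hh (‖y‖ ^ 2)) (hsq y)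
  have hsup : ∀ g : ℝ → ℝ, (∀ t, A + 1 ≤ t → g t = 0) →
      HasCompactSupport (fun y : E d => g (‖y‖ ^ 2)) := by
    intro g hg
    apply HasCompactSupport.intro (isCompact_closedBall (0 : E d) (A + 1))
    intro y hy
    rw [mem_closedBall_zero_iff, not_le] at hy
    apply hg
    nlinarith
  refine ⟨fun y => h (‖y‖ ^ 2), fun y => 2 * β (‖y‖ ^ 2), ?_, hsup h hh1, fun y => hh0 _,
    ?_, ?_, ?_, ?_, ?_, ?_⟩
  · exact hC.comp (contDiff_norm_sq ℝ)
  · fun_prop
  · exact hsup (fun t => 2 * β t) fun t ht => by simp only [hβ1 t ht, mul_zero]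
  · intro y
    exact mul_nonneg (by norm_num) (hβ0 _)
  · intro y hy
    constructor
    · by_contra hcon
      push Not at hcon
      exact hy (by simp only [hβ2 _ hcon.le, mul_zero])
    · by_contra hcon
      push Not at hcon
      exact hy (by simp only [hβ1 _ hcon.le, mul_zero])
  · refine ⟨EuclideanSpace.single ⟨0, hd⟩ (√(A + 1 / 2)), ?_⟩
    have e1 : ‖(EuclideanSpace.single (⟨0, hd⟩ : Fin d) (√(A + 1 / 2)) : E d)‖ ^ 2 = A + 1 / 2 := by
      rw [EuclideanSpace.norm_single, Real.norm_eq_abs, sq_abs, Real.sq_sqrt (by linarith)]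
    simp only [e1, β]
    have : max 0 ((A + 1 / 2 - A) * (A + 1 - (A + 1 / 2))) = 1 / 4 := by
      rw [max_eq_right (by nlinarith)]; ring
    rw [this]
    norm_num
  · intro y η
    rw [(hder y).fderiv]
    simp only [ContinuousLinearMap.smul_apply, innerSL_apply_apply, smul_eq_mul, nsmul_eq_mul]
    push_cast
    ring

/-- Integration by parts. -/
lemma ibp {χ g : E d → ℝ} (hχ : ContDiff ℝ 1 χ) (hc : HasCompactSupport χ) (hg : ContDiff ℝ 1 g)
    (v : E d) : ∫ y, χ y * fderiv ℝ g y v = -∫ y, fderiv ℝ χ y v * g y := by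
  have c1 : Continuous fun y => fderiv ℝ g y v :=
    (hg.continuous_fderiv (by norm_num)).clm_apply continuous_const
  have c2 : Continuous fun y => fderiv ℝ χ y v :=
    (hχ.continuous_fderiv (by norm_num)).clm_apply continuous_const
  apply integral_mul_fderiv_eq_neg_fderiv_mul_of_integrable
  · refine (c2.mul hg.continuous).integrable_of_hasCompactSupport ?_
    apply HasCompactSupport.mul_right
    exact hc.fderiv_apply ℝ v
  · exact (hχ.continuous.mul c1).integrable_of_hasCompactSupport hc.mul_right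
  · exact (hχ.continuous.mul hg.continuous).integrable_of_hasCompactSupport hc.mul_right
  · intro x _
    exact hχ.differentiable (by norm_num) x
  · intro x _
    exact hg.differentiable (by norm_num) x

/-- Integration by parts for the radial derivative. -/
lemma ibp_radial {χ g : E d → ℝ} (hχ : ContDiff ℝ 1 χ) (hc : HasCompactSupport χ)
    (hg : ContDiff ℝ 1 g) : ∫ y, χ y * fderiv ℝ g y y =
      -(d * ∫ y, χ y * g y) - ∫ y, fderiv ℝ χ y y * g y := by
  have c1 : ∀ v, Continuous fun y => fderiv ℝ g y v := fun v =>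
    (hg.continuous_fderiv (by norm_num)).clm_apply continuous_const
  have c2 : ∀ v, Continuous fun y => fderiv ℝ χ y v := fun v =>
    (hχ.continuous_fderiv (by norm_num)).clm_apply continuous_const
  have cj : ∀ j : Fin d, ContDiff ℝ 1 fun y : E d => y j := fun j =>
    (EuclideanSpace.proj (𝕜 := ℝ) j : E d →L[ℝ] ℝ).contDiff
  have e1 : ∀ j : Fin d, ∫ y, (χ y * y j) * fderiv ℝ g y (EuclideanSpace.single j 1) =
      -∫ y, (fderiv ℝ χ y (EuclideanSpace.single j 1) * y j + χ y) * g y := by
    intro j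
    rw [ibp (hχ.mul (cj j)) hc.mul_right hg]
    congr 1
    refine integral_congr_ae (Eventually.of_forall fun y => ?_)
    simp only
    have h1 : HasFDerivAt (fun y : E d => y j) (EuclideanSpace.proj (𝕜 := ℝ) j : E d →L[ℝ] ℝ) y :=
      (EuclideanSpace.proj (𝕜 := ℝ) j : E d →L[ℝ] ℝ).hasFDerivAt
    have h2 := ((hχ.differentiable (by norm_num) y).hasFDerivAt).fun_mul h1
    rw [h2.fderiv]
    simp
    left
    ring
  have s1 : ∀ (L : E d →L[ℝ] ℝ) (u : E d), L u = ∑ j, u j * L (EuclideanSpace.single j 1) := by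
    intro L u
    have hu : u = ∑ j, u j • EuclideanSpace.single j (1 : ℝ) := by
      ext i
      simp only [WithLp.ofLp_sum, WithLp.ofLp_smul, Finset.sum_apply, Pi.smul_apply, smul_eq_mul,
        EuclideanSpace.single_apply]
      simp
    conv_lhs => rw [hu]
    rw [map_sum]
    exact Finset.sum_congr rfl fun k _ => by rw [map_smul, smul_eq_mul]
  have i1 : ∀ j : Fin d, Integrable fun y => (χ y * y j) * fderiv ℝ g y
      (EuclideanSpace.single j 1) := fun j =>
    ((hχ.continuous.mul (cj j).continuous).mul (c1 _)).integrable_of_hasCompactSupport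
      hc.mul_right.mul_right
  have i2 : ∀ j : Fin d, Integrable fun y => (fderiv ℝ χ y (EuclideanSpace.single j 1) * y j) *
      g y := fun j =>
    (((c2 _).mul (cj j).continuous).mul hg.continuous).integrable_of_hasCompactSupport
      (hc.fderiv_apply ℝ _).mul_right.mul_right
  have i3 : Integrable fun y => χ y * g y :=
    (hχ.continuous.mul hg.continuous).integrable_of_hasCompactSupport hc.mul_right
  calc ∫ y, χ y * fderiv ℝ g y y =
      ∫ y, ∑ j, (χ y * y j) * fderiv ℝ g y (EuclideanSpace.single j 1) := by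
        refine integral_congr_ae (Eventually.of_forall fun y => ?_)
        simp only
        rw [s1 (fderiv ℝ g y) y, Finset.mul_sum]
        exact Finset.sum_congr rfl fun j _ => by ring
    _ = ∑ j, ∫ y, (χ y * y j) * fderiv ℝ g y (EuclideanSpace.single j 1) :=
        integral_finset_sum _ fun j _ => i1 j
    _ = ∑ j, -((∫ y, (fderiv ℝ χ y (EuclideanSpace.single j 1) * y j) * g y) +
          ∫ y, χ y * g y) := by
        refine Finset.sum_congr rfl fun j _ => ?_
        rw [e1 j, ← integral_add (i2 j) i3]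
        congr 1
        refine integral_congr_ae (Eventually.of_forall fun y => ?_)
        simp only
        ring
    _ = _ := by
        rw [Finset.sum_neg_distrib, Finset.sum_add_distrib,
          ← integral_finset_sum _ fun j _ => i2 j]
        simp only [Finset.sum_const, Finset.card_univ, Fintype.card_fin, nsmul_eq_mul]
        have : ∫ y, ∑ j, (fderiv ℝ χ y (EuclideanSpace.single j 1) * y j) * g y =
            ∫ y, fderiv ℝ χ y y * g y := by
          refine integral_congr_ae (Eventually.of_forall fun y => ?_)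
          simp only
          rw [s1 (fderiv ℝ χ y) y, Finset.sum_mul]
          exact Finset.sum_congr rfl fun j _ => by ring
        rw [this]
        ring

/-- Differentiation of a weighted integral. -/
lemma deriv_weight {χ : E d → ℝ} (hχ : Continuous χ) (hc : HasCompactSupport χ)
    {g : ℝ → E d → ℝ} (hg : ContDiff ℝ 1 (fun p : ℝ × E d => g p.1 p.2)) (τ : ℝ) :
    HasDerivAt (fun τ => ∫ y, χ y * g τ y)
      (∫ y, χ y * fderiv ℝ (fun p : ℝ × E d => g p.1 p.2) (τ, y) (1, 0)) τ := by
  have hD : Continuous fun p : ℝ × E d =>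
      fderiv ℝ (fun p : ℝ × E d => g p.1 p.2) p ((1 : ℝ), (0 : E d)) :=
    (hg.continuous_fderiv (by norm_num)).clm_apply continuous_const
  have hslice : ∀ τ y, HasDerivAt (fun τ => g τ y)
      (fderiv ℝ (fun p : ℝ × E d => g p.1 p.2) (τ, y) (1, 0)) τ := by
    intro τ y
    have h1 : HasFDerivAt (fun p : ℝ × E d => g p.1 p.2)
        (fderiv ℝ (fun p : ℝ × E d => g p.1 p.2) (τ, y)) (τ, y) :=
      (hg.differentiable (by norm_num) (τ, y)).hasFDerivAt
    exact h1.comp_hasDerivAt τ ((hasDerivAt_id τ).prodMk (hasDerivAt_const τ y))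
  have gcont : ∀ τ, Continuous (g τ) := fun τ =>
    hg.continuous.comp (by fun_prop : Continuous fun y : E d => (τ, y))
  have dcont : Continuous fun y : E d => fderiv ℝ (fun p : ℝ × E d => g p.1 p.2) (τ, y) (1, 0) :=
    hD.comp (by fun_prop : Continuous fun y : E d => (τ, y))
  obtain ⟨C, hC⟩ := ((isCompact_Icc (a := τ - 1) (b := τ + 1)).prod
    hc.isCompact).exists_bound_of_continuousOn hD.continuousOn
  have hC0 : 0 ≤ |C| := abs_nonneg _
  have hnhds : Icc (τ - 1) (τ + 1) ∈ 𝓝 τ :=
    Icc_mem_nhds (by linarith : τ - 1 < τ) (by linarith : τ < τ + 1)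
  refine (hasDerivAt_integral_of_dominated_loc_of_deriv_le (μ := (volume : Measure (E d)))
    (F := fun τ y => χ y * g τ y)
    (F' := fun τ y => χ y * fderiv ℝ (fun p : ℝ × E d => g p.1 p.2) (τ, y) (1, 0))
    (bound := fun y => |C| * ‖χ y‖) hnhds ?_ ?_ ?_ ?_ ?_ ?_).2
  · exact Eventually.of_forall fun τ => (hχ.mul (gcont τ)).aestronglyMeasurable
  · exact (hχ.mul (gcont τ)).integrable_of_hasCompactSupport hc.mul_right
  · exact (hχ.mul dcont).aestronglyMeasurable
  · refine Eventually.of_forall fun y τ' hτ' => ?_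
    rw [norm_mul, mul_comm]
    by_cases hy : y ∈ tsupport χ
    · exact mul_le_mul_of_nonneg_right ((hC (τ', y) (mem_prod.2 ⟨hτ', hy⟩)).trans (le_abs_self C))
        (norm_nonneg _)
    · rw [image_eq_zero_of_notMem_tsupport hy]; simp
  · exact (continuous_const.mul hχ.norm).integrable_of_hasCompactSupport hc.norm.mul_left
  · exact Eventually.of_forall fun y τ' _ => (hslice τ' y).const_mul _

end Pool.Agent.H49.BZ
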