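import Pool.Agent.H49.BZ.FlowFin
import Pool.Agent.H49.BZ.Weight

open Set Filter Topology MeasureTheory
open scoped RealInnerProductSpace

namespace Pool.Agent.H49.BZ

variable {d : ℕ} {B : ℝ → ℝ → ℝ} {T : ℝ} {f : ℝ → E d → E d → ℝ}

lemma sum_mom2 (ρ θ : ℝ) (u : E d) : ∑ i, mom2 ρ θ u i i = ρ * (‖u‖ ^ 2 + d * θ) := by
  unfold mom2
  simp only [if_true]
  rw [← Finset.mul_sum, Finset.sum_add_distrib, sum_sq]
  simp

lemma sum_mom3 (ρ θ : ℝ) (u : E d) (j : Fin d) :
    ∑ i, mom3 ρ θ u j i i = ρ * (‖u‖ ^ 2 + (d + 2) * θ) * u j := by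
  unfold mom3
  have : ∀ i : Fin d, ρ * (u j * u i * u i + ((if i = i then θ * u j else 0) +
      (if j = i then θ * u i else 0) + (if j = i then θ * u i else 0))) =
      ρ * u j * (u i * u i) + (ρ * θ * u j + (if j = i then 2 * ρ * (θ * u i) else 0)) := by
    intro i; simp only [if_true]; split_ifs <;> ring
  rw [Finset.sum_congr rfl fun i _ => this i, Finset.sum_add_distrib, Finset.sum_add_distrib,
    ← Finset.mul_sum, ← Finset.mul_sum, sum_sq]
  simp only [Finset.sum_ite_eq, Finset.mem_univ, if_true, Finset.sum_const, Finset.card_univ,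
    Fintype.card_fin, nsmul_eq_mul]
  ring

section flow

variable {γ : ℝ} {x₀ : E d} {a b : ℝ} {s : ℕ → ℝ} {R Θ : ℝ → E d → ℝ} {U : ℝ → E d → E d}
  (hf : IsSolution B T f) (hT : 0 < T) (h : IsEulerFlow γ T f x₀ a b s R U Θ)

include h

omit h in
lemma slice_contDiff {g : ℝ → E d → ℝ} (hg : ContDiff ℝ 1 (fun p : ℝ × E d => g p.1 p.2))
    (τ : ℝ) : ContDiff ℝ 1 (g τ) :=
  hg.comp (contDiff_const.prodMk contDiff_id : ContDiff ℝ 1 fun y : E d => (τ, y))

include hf hT

/-- The local form of the energy equation. -/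
lemma energy_density (τ : ℝ) (y : E d) :
    dt (fun τ y => ∑ i, mom2 (R τ y) (Θ τ y) (U τ y) i i) τ y =
    -((a + 2 * b) * ∑ i, mom2 (R τ y) (Θ τ y) (U τ y) i i +
      (1 - b) * fderiv ℝ (fun y => ∑ i, mom2 (R τ y) (Θ τ y) (U τ y) i i) y y +
      ∑ j, fderiv ℝ (fun y => ∑ i, mom3 (R τ y) (Θ τ y) (U τ y) j i i) y
        (EuclideanSpace.single j 1)) := by
  have key := flow_e hf hT h τ y
  have h2 := (slice (g := fun τ y => ∑ i, mom2 (R τ y) (Θ τ y) (U τ y) i i) (smooth_e h) τ y).2.1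
  have h3 := h2.unique key
  push_cast at h3
  exact h3

/-- The strict inequality between the exponents: the energy leaves the core. -/
lemma flow_strict (hd : 0 < d) (hb : 0 < b) : a + 2 * b < d * (1 - b) := by
  by_contra hcon
  push Not at hcon
  have hb1 : 0 < 1 - b := by linarith [h.b_lt]
  obtain ⟨K, hK⟩ := h.bounded
  have hK0 : 0 ≤ K := (norm_nonneg _).trans (hK 0 0)
  have hd1 : (1 : ℝ) ≤ d := by exact_mod_cast hd
  obtain ⟨r, hr⟩ : ∃ r : ℝ, r = (3 * K + 1) / (1 - b) + 1 := ⟨_, rfl⟩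
  have hr1 : 1 ≤ r := by
    have : 0 ≤ (3 * K + 1) / (1 - b) := by positivity
    linarith
  have hr2 : 3 * K + 1 ≤ (1 - b) * r := by
    rw [hr, mul_add, mul_div_cancel₀ _ hb1.ne']; linarith
  obtain ⟨χ, μ, χs, χc, χ0, μs, μc, μ0, μr, ⟨y₁, hy₁⟩, χd⟩ := exists_weight hd (sq_nonneg r)
  obtain ⟨c, C, hc, hC⟩ := h.typeI (r + 1)
  set e : ℝ → E d → ℝ := fun τ y => ∑ i, mom2 (R τ y) (Θ τ y) (U τ y) i i with he
  set q : Fin d → ℝ → E d → ℝ := fun j τ y => ∑ i, mom3 (R τ y) (Θ τ y) (U τ y) j i i with hq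
  have se : ∀ τ, ContDiff ℝ 1 (e τ) := slice_contDiff (smooth_e h)
  have sq' : ∀ j τ, ContDiff ℝ 1 (q j τ) := fun j => slice_contDiff (smooth_q h j)
  have e0 : ∀ τ y, 0 ≤ e τ y := by
    intro τ y
    simp only [he, sum_mom2]
    have := pos_R h τ y
    have := pos_Θ h τ y
    positivity
  -- the derivative of the weighted energy
  have hI : ∀ τ, HasDerivAt (fun τ => ∫ y, χ y * e τ y)
      ((d * (1 - b) - (a + 2 * b)) * (∫ y, χ y * e τ y) -
        ∫ y, μ y * ((1 - b) * (‖y‖ ^ 2 * e τ y) + ∑ j, y j * q j τ y)) τ := by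
    intro τ
    refine (deriv_weight χs.continuous χc (smooth_e h) τ).congr_deriv ?_
    have k1 : ∫ y, χ y * fderiv ℝ (e τ) y y =
        -(d * ∫ y, χ y * e τ y) - ∫ y, fderiv ℝ χ y y * e τ y := ibp_radial χs χc (se τ)
    have k2 : ∀ j : Fin d, ∫ y, χ y * fderiv ℝ (q j τ) y (EuclideanSpace.single j 1) =
        -∫ y, fderiv ℝ χ y (EuclideanSpace.single j 1) * q j τ y := fun j =>
      ibp χs χc (sq' j τ) _
    have cD : ∀ {g : E d → ℝ} (_ : ContDiff ℝ 1 g) (v : E d), Continuous fun y => fderiv ℝ g y v :=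
      fun hg v => (hg.continuous_fderiv (by norm_num)).clm_apply continuous_const
    have cD' : ∀ {g : E d → ℝ} (_ : ContDiff ℝ 1 g), Continuous fun y => fderiv ℝ g y y :=
      fun hg => (hg.continuous_fderiv (by norm_num)).clm_apply continuous_id
    have i1 : Integrable fun y => χ y * e τ y :=
      (χs.continuous.mul (se τ).continuous).integrable_of_hasCompactSupport χc.mul_right
    have i2 : Integrable fun y => χ y * fderiv ℝ (e τ) y y :=
      (χs.continuous.mul (cD' (se τ))).integrable_of_hasCompactSupport χc.mul_right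
    have i3 : ∀ j : Fin d, Integrable fun y => χ y * fderiv ℝ (q j τ) y
        (EuclideanSpace.single j 1) := fun j =>
      (χs.continuous.mul (cD (sq' j τ) _)).integrable_of_hasCompactSupport χc.mul_right
    have i4 : Integrable fun y => μ y * (‖y‖ ^ 2 * e τ y) :=
      (μs.mul ((continuous_norm.pow 2).mul (se τ).continuous)).integrable_of_hasCompactSupport
        μc.mul_right
    have i5 : ∀ j : Fin d, Integrable fun y => μ y * (y j * q j τ y) := fun j =>
      (μs.mul ((by fun_prop : Continuous fun y : E d => y j).mul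
        (sq' j τ).continuous)).integrable_of_hasCompactSupport μc.mul_right
    have l1 : ∫ y, χ y * dt e τ y = -((a + 2 * b) * (∫ y, χ y * e τ y) +
        (1 - b) * (∫ y, χ y * fderiv ℝ (e τ) y y) +
        ∑ j, ∫ y, χ y * fderiv ℝ (q j τ) y (EuclideanSpace.single j 1)) := by
      have i6 : Integrable fun y => (a + 2 * b) * (χ y * e τ y) +
          (1 - b) * (χ y * fderiv ℝ (e τ) y y) := (i1.const_mul _).add (i2.const_mul _)
      rw [← integral_finset_sum _ fun j _ => i3 j, ← integral_const_mul, ← integral_const_mul,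
        ← integral_add (i1.const_mul _) (i2.const_mul _),
        ← integral_add i6 (integrable_finset_sum _ fun j _ => i3 j), ← integral_neg]
      refine integral_congr_ae (Eventually.of_forall fun y => ?_)
      simp only
      rw [energy_density hf hT h τ y, ← Finset.mul_sum]
      ring
    have l2 : ∫ y, fderiv ℝ χ y y * e τ y = -∫ y, μ y * (‖y‖ ^ 2 * e τ y) := by
      rw [← integral_neg]
      refine integral_congr_ae (Eventually.of_forall fun y => ?_)
      simp only
      rw [χd, real_inner_self_eq_norm_sq]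
      ring
    have l3 : ∀ j : Fin d, ∫ y, fderiv ℝ χ y (EuclideanSpace.single j 1) * q j τ y =
        -∫ y, μ y * (y j * q j τ y) := by
      intro j
      rw [← integral_neg]
      refine integral_congr_ae (Eventually.of_forall fun y => ?_)
      simp only
      rw [χd, EuclideanSpace.inner_single_right]
      simp
      ring
    have l4 : ∫ y, μ y * ((1 - b) * (‖y‖ ^ 2 * e τ y) + ∑ j, y j * q j τ y) =
        (1 - b) * (∫ y, μ y * (‖y‖ ^ 2 * e τ y)) + ∑ j, ∫ y, μ y * (y j * q j τ y) := by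
      rw [← integral_finset_sum _ fun j _ => i5 j, ← integral_const_mul,
        ← integral_add (i4.const_mul _) (integrable_finset_sum _ fun j _ => i5 j)]
      refine integral_congr_ae (Eventually.of_forall fun y => ?_)
      simp only
      rw [← Finset.mul_sum]
      ring
    have l5 : ∫ y, χ y * fderiv ℝ (fun p : ℝ × E d => (fun τ y => ∑ i, mom2 (R τ y) (Θ τ y)
        (U τ y) i i) p.1 p.2) (τ, y) (1, 0) = ∫ y, χ y * dt e τ y := rfl
    rw [l5, l1, k1, Finset.sum_congr rfl fun j _ => k2 j, l2, Finset.sum_congr rfl fun j _ =>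
      congrArg Neg.neg (l3 j), l4]
    simp only [neg_neg]
    ring
  -- the flux through the weight is bounded below
  have flux : ∀ τ, c ^ 2 * (∫ y, μ y) ≤
      ∫ y, μ y * ((1 - b) * (‖y‖ ^ 2 * e τ y) + ∑ j, y j * q j τ y) := by
    intro τ
    rw [← integral_const_mul]
    refine integral_mono ((μs.integrable_of_hasCompactSupport μc).const_mul _) ?_ fun y => ?_
    · refine (μs.mul ?_).integrable_of_hasCompactSupport μc.mul_right
      refine (continuous_const.mul ((continuous_norm.pow 2).mul (se τ).continuous)).add ?_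
      exact continuous_finset_sum _ fun j _ =>
        (by fun_prop : Continuous fun y : E d => y j).mul (sq' j τ).continuous
    · simp only
      by_cases hy : μ y = 0
      · rw [hy]; simp
      · obtain ⟨m1, m2⟩ := μr y hy
        have n1 : r ≤ ‖y‖ := by
          by_contra hcon
          push Not at hcon
          nlinarith [norm_nonneg y]
        have n2 : ‖y‖ ≤ r + 1 := by nlinarith [norm_nonneg y]
        obtain ⟨c1, _, c3, _⟩ := hC τ y n2
        rw [mul_comm (c ^ 2)]
        refine mul_le_mul_of_nonneg_left ?_ (μ0 y)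
        have sq1 : ∑ j, y j * q j τ y =
            R τ y * (‖U τ y‖ ^ 2 + (d + 2) * Θ τ y) * ⟪y, U τ y⟫ := by
          simp only [hq, sum_mom3]
          rw [PiLp.inner_apply, Finset.mul_sum]
          refine Finset.sum_congr rfl fun j _ => ?_
          simp
          ring
        have in1 : -(‖y‖ * K) ≤ ⟪y, U τ y⟫ := by
          have g1 := abs_real_inner_le_norm y (U τ y)
          have g2 := neg_abs_le (⟪y, U τ y⟫)
          have g3 := mul_le_mul_of_nonneg_left (hK τ y) (norm_nonneg y)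
          linarith
        rw [sq1]
        simp only [he, sum_mom2]
        have p1 := pos_R h τ y
        have p2 := pos_Θ h τ y
        have g0 : 0 ≤ R τ y * (‖U τ y‖ ^ 2 + (d + 2) * Θ τ y) := by positivity
        have g1 := mul_le_mul_of_nonneg_left in1 g0
        have g2 : ‖U τ y‖ ^ 2 + (d + 2) * Θ τ y ≤ 3 * (‖U τ y‖ ^ 2 + d * Θ τ y) := by
          nlinarith [sq_nonneg ‖U τ y‖]
        have g3 : R τ y * (‖U τ y‖ ^ 2 + (d + 2) * Θ τ y) * (‖y‖ * K) ≤
            R τ y * (3 * (‖U τ y‖ ^ 2 + d * Θ τ y)) * (‖y‖ * K) := by gcongr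
        have g4 : 1 ≤ (1 - b) * ‖y‖ - 3 * K := by nlinarith
        have g5 : c * c ≤ R τ y * Θ τ y := mul_le_mul c1 c3 hc.le p1.le
        have g6 : R τ y * Θ τ y ≤ R τ y * (‖U τ y‖ ^ 2 + d * Θ τ y) := by
          apply mul_le_mul_of_nonneg_left _ p1.le
          nlinarith [sq_nonneg ‖U τ y‖]
        have g7 : 0 ≤ R τ y * (‖U τ y‖ ^ 2 + d * Θ τ y) := by positivity
        have g8 : 1 ≤ ‖y‖ * ((1 - b) * ‖y‖ - 3 * K) := by nlinarith
        have g9 := mul_le_mul_of_nonneg_left g8 g7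
        calc c ^ 2 ≤ R τ y * (‖U τ y‖ ^ 2 + d * Θ τ y) := by nlinarith
          _ ≤ R τ y * (‖U τ y‖ ^ 2 + d * Θ τ y) * (‖y‖ * ((1 - b) * ‖y‖ - 3 * K)) := by
            linarith
          _ ≤ _ := by linarith
  have μpos : 0 < ∫ y, μ y :=
    μs.integral_pos_of_hasCompactSupport_nonneg_nonzero μc (fun y => μ0 y) hy₁
  have I0 : ∀ τ, 0 ≤ ∫ y, χ y * e τ y := fun τ =>
    integral_nonneg fun y => mul_nonneg (χ0 y) (e0 τ y)
  obtain ⟨κ, hκ⟩ : ∃ κ : ℝ, κ = c ^ 2 * ∫ y, μ y := ⟨_, rfl⟩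
  have hκ0 : 0 < κ := by rw [hκ]; positivity
  have hanti : Antitone fun τ => (∫ y, χ y * e τ y) + κ * τ := by
    have hJ : ∀ τ, HasDerivAt (fun τ => (∫ y, χ y * e τ y) + κ * τ)
        ((d * (1 - b) - (a + 2 * b)) * (∫ y, χ y * e τ y) -
        (∫ y, μ y * ((1 - b) * (‖y‖ ^ 2 * e τ y) + ∑ j, y j * q j τ y)) + κ) τ := by
      intro τ
      have := (hI τ).fun_add ((hasDerivAt_id' τ).const_mul κ)
      rwa [mul_one] at this
    refine antitone_of_deriv_nonpos (fun τ => (hJ τ).differentiableAt) fun τ => ?_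
    rw [(hJ τ).deriv]
    have h1 := flux τ
    rw [← hκ] at h1
    have h2 : (d * (1 - b) - (a + 2 * b)) * (∫ y, χ y * e τ y) ≤ 0 :=
      mul_nonpos_of_nonpos_of_nonneg (by linarith) (I0 τ)
    linarith
  obtain ⟨τ₁, hτ₁⟩ : ∃ τ₁ : ℝ, τ₁ = ((∫ y, χ y * e 0 y) + 1) / κ := ⟨_, rfl⟩
  have h1 : 0 ≤ τ₁ := by rw [hτ₁]; exact div_nonneg (by linarith [I0 0]) hκ0.le
  have h2 := hanti h1
  simp only [mul_zero, add_zero] at h2
  have h3 : κ * τ₁ = (∫ y, χ y * e 0 y) + 1 := by rw [hτ₁]; field_simp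
  linarith [I0 τ₁]

end flow

/-- The exponents of an implosion of type I and Euler type. -/
theorem flow_exponents (hd : 2 ≤ d) {γ σ : ℝ} (hB : IsKernel d γ σ B) (hT : 0 < T)
    (hf : IsSolution B T f) {x₀ : E d} {a b : ℝ} {s : ℕ → ℝ} {R Θ : ℝ → E d → ℝ}
    {U : ℝ → E d → E d} (h : IsEulerFlow γ T f x₀ a b s R U Θ) :
    a = d * b ∧ 0 < b ∧ 1 ≤ (d + γ) * b ∧ 2 * (d + 1) * b < d ∧ 2 + 2 / d < d + γ := by
  have hd0 : 0 < d := by omega
  have hd' : (0 : ℝ) < d := by exact_mod_cast hd0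
  have h1 := flow_a_eq hf hT h hd0
  have hb : 0 < b := by
    have := h.a_pos
    rw [h1] at this
    exact pos_of_mul_pos_right this hd'.le
  have h2 := flow_strict hf hT h hd0 hb
  have h3 := flow_kinetic hf hT h hd hB
  have h4 : 1 ≤ (d + γ) * b := by rw [h1] at h3; linarith
  have h5 : 2 * (d + 1) * b < d := by rw [h1] at h2; linarith
  refine ⟨h1, hb, h4, h5, ?_⟩
  have h6 : 0 < d + γ := by
    by_contra hcon
    push Not at hcon
    nlinarith
  have h7 : 2 * ((d : ℝ) + 1) < (d + γ) * d := by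
    have := mul_lt_mul_of_pos_left h5 h6
    nlinarith
  have h8 : 2 + 2 / (d : ℝ) = 2 * (d + 1) / d := by field_simp
  rw [h8, div_lt_iff₀ hd']
  exact h7

end Pool.Agent.H49.BZ
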