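import Pool.Agent.H49.BZ.SphSonic
import Pool.Agent.H49.BZ.Strict

open Set Filter Topology MeasureTheory
open scoped RealInnerProductSpace

namespace Pool.Agent.H49.BZ

variable {d : ℕ} {Φ S : E d → ℝ} {V : E d → E d}

/-- Every level set of a function transported by a gradient field with coercive potential contains
a stagnation point. -/
lemma level_stagnation (hΦ : ∀ y, HasGradientAt Φ (V y) y) (hΦc : Continuous Φ)
    (hV : ContDiff ℝ 1 V) (hS : Differentiable ℝ S) (hco : Tendsto Φ (cocompact (E d)) atTop)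
    (htr : ∀ y, fderiv ℝ S y (V y) = 0) (y₀ : E d) : ∃ y₁, V y₁ = 0 ∧ S y₁ = S y₀ := by
  obtain ⟨y₁, hy₁, hmin⟩ := ContinuousOn.exists_isMinOn' (s := {y | S y = S y₀}) (f := Φ)
    hΦc.continuousOn (isClosed_eq hS.continuous continuous_const) (x₀ := y₀) rfl
    ((hco.eventually_ge_atTop (Φ y₀)).filter_mono inf_le_left)
  simp only [mem_setOf_eq] at hy₁
  refine ⟨y₁, ?_, hy₁⟩
  obtain ⟨α, hα0, ε, hε, hα⟩ :=
    (hV.contDiffAt (x := y₁)).exists_forall_mem_closedBall_exists_eq_forall_mem_Ioo_hasDerivAt₀ 0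
  rw [zero_sub, zero_add] at hα
  have h0 : (0 : ℝ) ∈ Ioo (-ε) ε := ⟨by linarith, hε⟩
  have hSα : ∀ t ∈ Ioo (-ε) ε, HasDerivAt (fun t => S (α t)) 0 t := by
    intro t ht
    have h1 := (hS (α t)).hasFDerivAt.comp_hasDerivAt t (hα t ht)
    rw [htr] at h1
    exact h1
  have hconst : ∀ t ∈ Ioo (-ε) ε, S (α t) = S y₀ := by
    intro t ht
    rw [← hy₁, ← hα0]
    exact isOpen_Ioo.is_const_of_deriv_eq_zero isPreconnected_Ioo
      (fun u hu => (hSα u hu).differentiableAt.differentiableWithinAt)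
      (fun u hu => (hSα u hu).deriv) ht h0
  have hlm : IsLocalMin (fun t => Φ (α t)) 0 := by
    filter_upwards [Ioo_mem_nhds h0.1 h0.2] with t ht
    rw [hα0]
    exact isMinOn_iff.1 hmin _ (hconst t ht)
  have h1 := hlm.hasDerivAt_eq_zero (comp_deriv hΦ (hα 0 h0))
  rw [hα0] at h1
  exact inner_self_eq_zero.1 h1

/-- If the function takes only countably many values at stagnation points, it is constant. -/
lemma const_of_countable (hΦ : ∀ y, HasGradientAt Φ (V y) y) (hΦc : Continuous Φ)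
    (hV : ContDiff ℝ 1 V) (hS : Differentiable ℝ S) (hco : Tendsto Φ (cocompact (E d)) atTop)
    (htr : ∀ y, fderiv ℝ S y (V y) = 0) (hcount : (S '' {y | V y = 0}).Countable) (y y' : E d) :
    S y ≤ S y' := by
  have h1 : range S ⊆ S '' {y | V y = 0} := by
    rintro _ ⟨y₀, rfl⟩
    obtain ⟨y₁, h1, h2⟩ := level_stagnation hΦ hΦc hV hS hco htr y₀
    exact ⟨y₁, h1, h2⟩
  have h2 : Icc (S y') (S y) ⊆ range S := intermediate_value_univ y' y hS.continuous
  exact Cardinal.Real.Icc_countable_iff.1 ((hcount.mono h1).mono h2)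

/-- The potential is coercive. -/
lemma coercive {b K : ℝ} (hΦ : ∀ y, HasGradientAt Φ (V y) y) (hb : b < 1)
    (hK : ∀ y, ‖V y - (1 - b) • y‖ ≤ K) : Tendsto Φ (cocompact (E d)) atTop := by
  have hb' : 0 < 1 - b := by linarith
  have hlow : ∀ y : E d, Φ 0 + ‖y‖ * ((1 - b) / 2 * ‖y‖ - K) ≤ Φ y := by
    intro y
    have h1 : ∀ t : ℝ, HasDerivAt (fun t : ℝ => Φ (t • y) -
        (1 - b) / 2 * ‖y‖ ^ 2 * t ^ 2 + K * ‖y‖ * t)
        (⟪V (t • y), y⟫ - (1 - b) * ‖y‖ ^ 2 * t + K * ‖y‖) t := by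
      intro t
      have h2 : HasDerivAt (fun θ : ℝ => θ • y) ((1 : ℝ) • y) t := (hasDerivAt_id' t).smul_const y
      rw [one_smul] at h2
      have h3 := ((comp_deriv hΦ h2).fun_sub
        (((hasDerivAt_id' t).fun_pow 2).const_mul ((1 - b) / 2 * ‖y‖ ^ 2))).fun_add
        ((hasDerivAt_id' t).const_mul (K * ‖y‖))
      refine h3.congr_deriv ?_
      norm_num
      ring
    have h2 : Monotone (fun t : ℝ => Φ (t • y) - (1 - b) / 2 * ‖y‖ ^ 2 * t ^ 2 + K * ‖y‖ * t) := by
      refine monotone_of_deriv_nonneg (fun t => (h1 t).differentiableAt) fun t => ?_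
      rw [(h1 t).deriv]
      have h3 : ⟪V (t • y), y⟫ = (1 - b) * ‖y‖ ^ 2 * t + ⟪V (t • y) - (1 - b) • (t • y), y⟫ := by
        rw [inner_sub_left, real_inner_smul_left, real_inner_smul_left,
          real_inner_self_eq_norm_sq]
        ring
      have h4 := abs_real_inner_le_norm (V (t • y) - (1 - b) • (t • y)) y
      have h5 := mul_le_mul_of_nonneg_right (hK (t • y)) (norm_nonneg y)
      rw [h3]
      linarith [neg_abs_le (⟪V (t • y) - (1 - b) • (t • y), y⟫)]
    have h3 := h2 (zero_le_one (α := ℝ))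
    simp only [zero_smul, one_smul] at h3
    nlinarith
  refine tendsto_atTop_mono hlow ?_
  have h1 : Tendsto (fun x : ℝ => Φ 0 + x * ((1 - b) / 2 * x - K)) atTop atTop := by
    apply tendsto_atTop_add_const_left
    refine tendsto_id.atTop_mul_atTop₀ ?_
    exact tendsto_atTop_add_const_right _ (-K) (tendsto_id.const_mul_atTop (by linarith))
  exact h1.comp (tendsto_norm_cocompact_atTop (E := E d))

/-- The derivative of a gradient field is symmetric. -/
lemma grad_symm (hΦ : ∀ y, HasGradientAt Φ (V y) y) {D : E d →L[ℝ] E d} {y : E d}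
    (hD : HasFDerivAt V D y) (v w : E d) : ⟪D v, w⟫ = ⟪D w, v⟫ := by
  have h1 : ∀ y, HasFDerivAt Φ (innerSL ℝ (V y)) y := fun y => (hΦ y).hasFDerivAt
  have h2 : HasFDerivAt (fun y => innerSL ℝ (V y)) ((innerSL ℝ).comp D) y :=
    (innerSL ℝ : E d →L[ℝ] E d →L[ℝ] ℝ).hasFDerivAt.comp y hD
  have h3 := second_derivative_symmetric h1 h2 v w
  simpa using h3

end Pool.Agent.H49.BZ
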