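import Pool.Agent.H49.BZ.Pot

open Set Filter Topology MeasureTheory
open scoped RealInnerProductSpace

namespace Pool.Agent.H49.BZ

variable {d : ℕ} {B : ℝ → ℝ → ℝ} {T : ℝ} {f : ℝ → E d → E d → ℝ} {γ : ℝ} {x₀ : E d} {a b : ℝ}
  {s : ℕ → ℝ} {R Θ : E d → ℝ} {U : E d → E d}

/-- The exponent of a self-similar irrotational profile whose entropy takes countably many values at
its stagnation points. -/
theorem potential_bound (hd : 2 ≤ d) (hT : 0 < T) (hf : IsSolution B T f) {σ : ℝ}
    (hB : IsKernel d γ σ B)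
    (h : IsEulerFlow γ T f x₀ a b s (fun _ => R) (fun _ => U) (fun _ => Θ))
    {φ : E d → ℝ} (hφ : ∀ y, HasGradientAt φ (U y) y)
    (hS : ((fun y => d / 2 * Real.log (Θ y) - Real.log (R y)) ''
      {y | (1 - b) • y + U y = 0}).Countable) : 1 ≤ d * (1 - 2 * b) ^ 2 := by
  obtain ⟨hab, hb0, -, hb1, -⟩ := flow_exponents hd hB hT hf h
  have hd0 : (0 : ℝ) < d := by positivity
  have hb2 : b < 1 / 2 := by nlinarith
  obtain ⟨K, hK⟩ := h.bounded
  -- smoothness
  have sR : ContDiff ℝ 1 R := slice_contDiff (g := fun _ => R) h.smooth_R 0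
  have sΘ : ContDiff ℝ 1 Θ := slice_contDiff (g := fun _ => Θ) h.smooth_Θ 0
  have sU : ContDiff ℝ 1 U :=
    h.smooth_U.comp (contDiff_const.prodMk contDiff_id : ContDiff ℝ 1 fun y : E d => ((0 : ℝ), y))
  have pR : ∀ y, 0 < R y := fun y => pos_R h 0 y
  have pΘ : ∀ y, 0 < Θ y := fun y => pos_Θ h 0 y
  have dR : ∀ y, HasFDerivAt R (fderiv ℝ R y) y := fun y =>
    (sR.differentiable (by norm_num) y).hasFDerivAt
  have dΘ : ∀ y, HasFDerivAt Θ (fderiv ℝ Θ y) y := fun y =>
    (sΘ.differentiable (by norm_num) y).hasFDerivAt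
  have dU : ∀ y, HasFDerivAt U (fderiv ℝ U y) y := fun y =>
    (sU.differentiable (by norm_num) y).hasFDerivAt
  have dUi : ∀ (i : Fin d) (y η : E d), fderiv ℝ (fun y => U y i) y η = (fderiv ℝ U y η) i := by
    intro i y η
    have h1 := (EuclideanSpace.proj (𝕜 := ℝ) i : E d →L[ℝ] ℝ).hasFDerivAt.comp y (dU y)
    have h2 : fderiv ℝ (fun y => U y i) y =
        (EuclideanSpace.proj (𝕜 := ℝ) i : E d →L[ℝ] ℝ).comp (fderiv ℝ U y) := h1.fderiv
    rw [h2]
    simp
  set V : E d → E d := fun y => (1 - b) • y + U y with hV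
  have sV : ContDiff ℝ 1 V := (contDiff_id.const_smul (1 - b)).add sU
  have dV : ∀ y, HasFDerivAt V ((1 - b) • ContinuousLinearMap.id ℝ (E d) + fderiv ℝ U y) y :=
    fun y => ((hasFDerivAt_id y).const_smul (1 - b)).add (dU y)
  have fV : ∀ y η, fderiv ℝ V y η = (1 - b) • η + fderiv ℝ U y η := fun y η => by
    rw [(dV y).fderiv]; simp
  -- the time derivatives vanish
  have dt0 : ∀ {g : E d → ℝ} (_ : ContDiff ℝ 1 (fun p : ℝ × E d => g p.2)) (y : E d),
      dt (fun _ => g) 0 y = 0 := by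
    intro g hg y
    have h1 := (slice (g := fun _ => g) hg 0 y).2.1
    exact h1.unique (hasDerivAt_const 0 (g y))
  have tR := dt0 (g := R) h.smooth_R
  have tΘ := dt0 (g := Θ) h.smooth_Θ
  have tU : ∀ i y, dt (fun _ y => U y i) 0 y = 0 := fun i =>
    dt0 (g := fun y => U y i) (smooth_coord (U := fun _ => U) h.smooth_U i)
  have M : ∀ y, a * R y + fderiv ℝ R y (V y) + R y * dvg U y = 0 := by
    intro y
    have := flow_mass hf hT h 0 y
    rw [tR y] at this
    linear_combination this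
  have P : ∀ i y, R y * (b * U y i + (fderiv ℝ U y (V y)) i) +
      (fderiv ℝ R y (EuclideanSpace.single i 1) * Θ y +
        R y * fderiv ℝ Θ y (EuclideanSpace.single i 1)) = 0 := by
    intro i y
    have := flow_momentum hf hT h i 0 y
    rw [tU i y, dUi] at this
    linear_combination this
  have En : ∀ y, d * (R y * (2 * b * Θ y + fderiv ℝ Θ y (V y))) +
      2 * (R y * Θ y * dvg U y) = 0 := by
    intro y
    have := flow_energy hf hT h 0 y
    rw [tΘ y] at this
    linear_combination this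
  have En' : ∀ y, d * (2 * b * Θ y + fderiv ℝ Θ y (V y)) + 2 * (Θ y * dvg U y) = 0 := by
    intro y
    have : R y * (d * (2 * b * Θ y + fderiv ℝ Θ y (V y)) + 2 * (Θ y * dvg U y)) = 0 := by
      linear_combination En y
    rcases mul_eq_zero.1 this with h1 | h1
    · exact absurd h1 (pR y).ne'
    · exact h1
  -- the potential of `V`
  have hΦ : ∀ y, HasGradientAt (fun y => φ y + (1 - b) / 2 * ‖y‖ ^ 2) (V y) y := by
    intro y
    have h1 := (hφ y).hasFDerivAt
    have h2 : HasFDerivAt (fun y : E d => ‖y‖ ^ 2) (2 • (innerSL ℝ y)) y :=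
      (hasStrictFDerivAt_norm_sq y).hasFDerivAt
    rw [hasGradientAt_iff_hasFDerivAt]
    refine (h1.add (h2.const_mul ((1 - b) / 2))).congr_fderiv ?_
    ext η
    simp [hV, inner_add_left, real_inner_smul_left]
    ring
  set Φ : E d → ℝ := fun y => φ y + (1 - b) / 2 * ‖y‖ ^ 2 with hΦdef
  have hΦc : Continuous Φ := continuous_iff_continuousAt.2 fun y => (hΦ y).hasFDerivAt.continuousAt
  have hKV : ∀ y, ‖V y - (1 - b) • y‖ ≤ K := by
    intro y
    have : V y - (1 - b) • y = U y := by simp [hV]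
    rw [this]
    exact hK 0 y
  -- the entropy is constant
  have dS : ∀ y, HasFDerivAt (fun y => d / 2 * Real.log (Θ y) - Real.log (R y))
      (((d : ℝ) / 2) • ((Θ y)⁻¹ • fderiv ℝ Θ y) - (R y)⁻¹ • fderiv ℝ R y) y := fun y =>
    (((dΘ y).log (pΘ y).ne').const_mul _).fun_sub ((dR y).log (pR y).ne')
  have htr : ∀ y, fderiv ℝ (fun y => d / 2 * Real.log (Θ y) - Real.log (R y)) y (V y) = 0 := by
    intro y
    rw [(dS y).fderiv]
    simp only [ContinuousLinearMap.sub_apply, ContinuousLinearMap.smul_apply, smul_eq_mul]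
    have p1 := (pR y).ne'
    have p2 := (pΘ y).ne'
    field_simp
    have m := M y
    rw [hab] at m
    linear_combination R y * En' y - 2 * Θ y * m
  have hconst : ∀ y y', d / 2 * Real.log (Θ y) - Real.log (R y) =
      d / 2 * Real.log (Θ y') - Real.log (R y') := fun y y' =>
    le_antisymm (const_of_countable hΦ hΦc sV (fun y => (dS y).differentiableAt)
      (coercive hΦ (by linarith) hKV) htr hS y y')
      (const_of_countable hΦ hΦc sV (fun y => (dS y).differentiableAt)
      (coercive hΦ (by linarith) hKV) htr hS y' y)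
  have isen : ∀ y η, Θ y * fderiv ℝ R y η = d / 2 * (R y * fderiv ℝ Θ y η) := by
    intro y η
    have h1 : (fun y => d / 2 * Real.log (Θ y) - Real.log (R y)) = fun _ =>
        d / 2 * Real.log (Θ 0) - Real.log (R 0) := by
      ext y; exact hconst y 0
    have h2 := (dS y).fderiv
    rw [h1, fderiv_fun_const] at h2
    have h3 := congrArg (fun L : E d →L[ℝ] ℝ => L η) h2
    simp only [Pi.zero_apply, ContinuousLinearMap.zero_apply, ContinuousLinearMap.sub_apply,
      ContinuousLinearMap.smul_apply, smul_eq_mul] at h3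
    have p1 := (pR y).ne'
    have p2 := (pΘ y).ne'
    field_simp at h3
    linarith
  have P' : ∀ i y, b * U y i + (fderiv ℝ U y (V y)) i +
      (d + 2) / 2 * fderiv ℝ Θ y (EuclideanSpace.single i 1) = 0 := by
    intro i y
    have h1 := P i y
    have h2 := isen y (EuclideanSpace.single i 1)
    have : R y * (b * U y i + (fderiv ℝ U y (V y)) i +
      (d + 2) / 2 * fderiv ℝ Θ y (EuclideanSpace.single i 1)) = 0 := by
      linear_combination h1 - h2
    rcases mul_eq_zero.1 this with h3 | h3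
    · exact absurd h3 (pR y).ne'
    · exact h3
  have Pv : ∀ y η, b * ⟪U y, η⟫ + ⟪fderiv ℝ U y (V y), η⟫ + (d + 2) / 2 * fderiv ℝ Θ y η = 0 := by
    intro y η
    have h1 : fderiv ℝ Θ y η = ∑ i, η i * fderiv ℝ Θ y (EuclideanSpace.single i 1) :=
      (sum_clm' _ η).symm
    have h2 : ∀ u : E d, ⟪u, η⟫ = ∑ i, η i * u i := by
      intro u
      rw [PiLp.inner_apply]
      exact Finset.sum_congr rfl fun i _ => by simp
    rw [h1, h2, h2, Finset.mul_sum, Finset.mul_sum, ← Finset.sum_add_distrib,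
      ← Finset.sum_add_distrib]
    refine Finset.sum_eq_zero fun i _ => ?_
    linear_combination η i * P' i y
  -- the Bernoulli function is constant
  have symV : ∀ y v w, ⟪fderiv ℝ V y v, w⟫ = ⟪fderiv ℝ V y w, v⟫ := fun y v w =>
    grad_symm hΦ (sV.differentiable (by norm_num) y).hasFDerivAt v w
  have dQ : ∀ y, HasFDerivAt (fun y => (d + 2) / 2 * Θ y + ‖V y‖ ^ 2 / 2 -
      b * (1 - b) * ‖y‖ ^ 2 / 2 - (1 - 2 * b) * Φ y) (0 : E d →L[ℝ] ℝ) y := by
    intro y
    have h1 := (dΘ y).const_mul (((d : ℝ) + 2) / 2)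
    have h2 : HasFDerivAt (fun y => ‖V y‖ ^ 2) (2 • (innerSL ℝ (V y)).comp (fderiv ℝ V y)) y :=
      ((sV.differentiable (by norm_num) y).hasFDerivAt).norm_sq
    have h3 : HasFDerivAt (fun y : E d => ‖y‖ ^ 2) (2 • (innerSL ℝ y)) y :=
      (hasStrictFDerivAt_norm_sq y).hasFDerivAt
    have h4 := (((h1.fun_add (h2.mul_const (1 / 2))).fun_sub
      (h3.mul_const (b * (1 - b) / 2))).fun_sub ((hΦ y).hasFDerivAt.const_mul (1 - 2 * b)))
    have h5 : (fun y => (d + 2) / 2 * Θ y + ‖V y‖ ^ 2 / 2 -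
      b * (1 - b) * ‖y‖ ^ 2 / 2 - (1 - 2 * b) * Φ y) =
      fun y => (d + 2) / 2 * Θ y + ‖V y‖ ^ 2 * (1 / 2) -
      ‖y‖ ^ 2 * (b * (1 - b) / 2) - (1 - 2 * b) * Φ y := by ext y; ring
    rw [h5]
    refine h4.congr_fderiv ?_
    ext η
    have e1 := Pv y η
    have e2 := symV y (V y) η
    rw [fV y (V y), inner_add_left, real_inner_smul_left] at e2
    simp only [ContinuousLinearMap.sub_apply, ContinuousLinearMap.add_apply,
      ContinuousLinearMap.smul_apply, ContinuousLinearMap.comp_apply, innerSL_apply_apply,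
      smul_eq_mul, InnerProductSpace.toDual_apply_apply, ContinuousLinearMap.zero_apply,
      nsmul_eq_mul]
    have e3 : ⟪V y, η⟫ = (1 - b) * ⟪y, η⟫ + ⟪U y, η⟫ := by
      simp only [hV, inner_add_left, real_inner_smul_left]
    rw [real_inner_comm (V y)] at e2
    push_cast
    linear_combination e1 - e2 + b * e3
  have hQ : ∀ y, (d + 2) / 2 * Θ y + ‖V y‖ ^ 2 / 2 - b * (1 - b) * ‖y‖ ^ 2 / 2 -
      (1 - 2 * b) * Φ y = (d + 2) / 2 * Θ 0 + ‖V 0‖ ^ 2 / 2 - b * (1 - b) * ‖(0 : E d)‖ ^ 2 / 2 -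
      (1 - 2 * b) * Φ 0 := fun y =>
    is_const_of_fderiv_eq_zero (𝕜 := ℝ) (fun y => (dQ y).differentiableAt)
      (fun y => (dQ y).fderiv) y 0
  set q : ℝ := (d + 2) / 2 * Θ 0 + ‖V 0‖ ^ 2 / 2 - b * (1 - b) * ‖(0 : E d)‖ ^ 2 / 2 -
      (1 - 2 * b) * Φ 0 with hq
  have hb3 : 1 - 2 * b ≠ 0 := by linarith
  refine sonic_bound (h := fun y => (d + 2) / 2 * Θ y) (Φ := fun y => Φ y + q / (1 - 2 * b))
    (V := V) (b := b) (K := K) hd (fun y => ?_) (hΦc.add continuous_const) sV hb0 hb2
    (fun y => mul_pos (by positivity) (pΘ y)) (continuous_const.mul sΘ.continuous) hKV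
    (fun y => ?_) fun y => ?_
  · rw [hasGradientAt_iff_hasFDerivAt]
    exact (hΦ y).hasFDerivAt.add_const _
  · have := hQ y
    field_simp
    linear_combination 2 * this
  · have tr : (∑ j, ⟪fderiv ℝ V y (EuclideanSpace.single j 1),
        EuclideanSpace.single j (1 : ℝ)⟫) = dvg U y + d * (1 - b) := by
      unfold dvg
      have : ∀ j : Fin d, ⟪fderiv ℝ V y (EuclideanSpace.single j 1),
          EuclideanSpace.single j (1 : ℝ)⟫ =
          fderiv ℝ (fun y => U y j) y (EuclideanSpace.single j 1) + (1 - b) := by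
        intro j
        rw [dUi, fV, EuclideanSpace.inner_single_right]
        simp
        ring
      rw [Finset.sum_congr rfl fun j _ => this j, Finset.sum_add_distrib]
      simp
      ring
    rw [tr, fV y (V y), inner_add_left, real_inner_smul_left, real_inner_self_eq_norm_sq]
    have e1 := Pv y (V y)
    have e2 := En' y
    have e3 : ⟪U y, V y⟫ = ‖V y‖ ^ 2 - (1 - b) * ⟪V y, y⟫ := by
      have : U y = V y - (1 - b) • y := by simp [hV]
      rw [this, inner_sub_left, real_inner_smul_left, real_inner_self_eq_norm_sq,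
        real_inner_comm]
    rw [e3] at e1
    have hd1 : (d : ℝ) ≠ 0 := hd0.ne'
    have k1 : 2 / d * ((d + 2) / 2 * Θ y) * (dvg U y + d * (1 - b) - d * (1 - 2 * b)) =
        (d + 2) / (2 * d) * (2 * (Θ y * dvg U y) + 2 * d * b * Θ y) := by
      field_simp
      ring
    have k2 : 2 * (Θ y * dvg U y) + 2 * d * b * Θ y = -(d * fderiv ℝ Θ y (V y)) := by
      linear_combination e2
    have k3 : (d + 2) / (2 * d) * -(d * fderiv ℝ Θ y (V y)) =
        -((d + 2) / 2 * fderiv ℝ Θ y (V y)) := by field_simp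
    rw [k1, k2, k3]
    linear_combination -e1

end Pool.Agent.H49.BZ
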