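import Mathlib

/-!
# Flows with radial velocity: the speed is bounded

The equations of a flow with radial velocity along a ray, and two maximum principles along the two
families of acoustic characteristics.
-/

open Set Filter Topology

namespace Pool.Agent.H49.BZ

/-- The backward ray. -/
lemma tendsto_step (p : ℝ × ℝ) (v : ℝ) :
    Tendsto (fun t : ℝ => (p.1 - t, p.2 - t * v)) (𝓝[>] 0) (𝓝 p) := by
  have h1 : Continuous fun t : ℝ => (p.1 - t, p.2 - t * v) := by fun_prop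
  have h2 := h1.tendsto 0
  simp only [sub_zero, zero_mul] at h2
  exact h2.mono_left nhdsWithin_le_nhds

/-- A function with negative derivative along the ray is larger behind. -/
lemma step_lt {H : ℝ × ℝ → ℝ} {H' : ℝ × ℝ →L[ℝ] ℝ} {p : ℝ × ℝ} {v : ℝ}
    (hH : HasFDerivAt H H' p) (h : H' (1, v) < 0) :
    ∀ᶠ t in 𝓝[>] (0 : ℝ), H p < H (p.1 - t, p.2 - t * v) := by
  have h1 : HasDerivAt (fun t : ℝ => (p.1 - t, p.2 - t * v)) ((-1 : ℝ), -v) 0 := by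
    have a1 : HasDerivAt (fun t : ℝ => p.1 - t) (-1) 0 := by
      simpa using (hasDerivAt_id' (0 : ℝ)).const_sub p.1
    have a2 : HasDerivAt (fun t : ℝ => p.2 - t * v) (-v) 0 := by
      simpa using ((hasDerivAt_id' (0 : ℝ)).mul_const v).const_sub p.2
    exact a1.prodMk a2
  have hg : HasDerivAt (fun t : ℝ => H (p.1 - t, p.2 - t * v)) (H' (-1, -v)) 0 :=
    hH.comp_hasDerivAt_of_eq (0 : ℝ) h1 (by simp)
  have e : H' ((-1 : ℝ), -v) = -(H' (1, v)) := by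
    rw [← map_neg]; congr 1
  rw [e] at hg
  have h2 := (hasDerivAt_iff_tendsto_slope.1 hg).mono_left
    (nhdsWithin_mono 0 (fun t (ht : 0 < t) => ht.ne' : Ioi (0 : ℝ) ⊆ {0}ᶜ))
  have h3 : ∀ᶠ t in 𝓝[>] (0 : ℝ), 0 < slope (fun t : ℝ => H (p.1 - t, p.2 - t * v)) 0 t :=
    h2.eventually_const_lt (by linarith)
  filter_upwards [h3, self_mem_nhdsWithin] with t ht ht0
  rw [slope_def_field] at ht
  simp only [sub_zero, zero_mul] at ht
  have h4 : (0 : ℝ) < t := ht0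
  have h5 := (div_pos_iff_of_pos_right h4).1 ht
  linarith

lemma step_max {H : ℝ × ℝ → ℝ} {H' : ℝ × ℝ →L[ℝ] ℝ} {p : ℝ × ℝ} {v : ℝ}
    (hH : HasFDerivAt H H' p) (h : ∀ᶠ t in 𝓝[>] (0 : ℝ), H (p.1 - t, p.2 - t * v) ≤ H p) :
    0 ≤ H' (1, v) := by
  by_contra hcon
  push Not at hcon
  obtain ⟨t, h1, h2⟩ := ((step_lt hH hcon).and h).exists
  linarith

/-- The equations, along a ray, of a flow with radial velocity (`c`: speed of sound, `u`: velocity,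
`w`: force due to the gradient of the entropy). -/
structure RayFlow (d b : ℝ) (c u w : ℝ × ℝ → ℝ) : Prop where
  diff_c : Differentiable ℝ c
  diff_u : Differentiable ℝ u
  pos : ∀ p, 0 < c p
  eq_c : ∀ p : ℝ × ℝ, 0 < p.2 → fderiv ℝ c p (1, (1 - b) * p.2 + u p) + b * c p +
    c p / d * (fderiv ℝ u p (0, 1) + (d - 1) * (u p / p.2)) = 0
  eq_u : ∀ p : ℝ × ℝ, 0 < p.2 → fderiv ℝ u p (1, (1 - b) * p.2 + u p) + b * u p +
    d * c p * fderiv ℝ c p (0, 1) + w p = 0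

/-- The algebraic inequality. -/
lemma speed_ineq {d s m a₀ μ : ℝ} (hs : 1 / 2 ≤ s) (ha : 0 < a₀) (ha' : a₀ < 1 / 2) (hμ : 0 < μ)
    (hμ' : μ < 1) : -s + (d - 1) * m + √(1 - μ ^ 2) / 2 *
      ((s ^ 2 - 1 / 4 - (d - 1) ^ 2 / (1 - μ ^ 2) * m ^ 2) / √(s ^ 2 - a₀ ^ 2)) ≤ -(a₀ * μ) := by
  obtain ⟨q, hq⟩ : ∃ q, q = √(s ^ 2 - a₀ ^ 2) := ⟨_, rfl⟩
  obtain ⟨l, hl⟩ : ∃ l, l = √(1 - μ ^ 2) := ⟨_, rfl⟩
  have hq2 : q ^ 2 = s ^ 2 - a₀ ^ 2 := by rw [hq, Real.sq_sqrt (by nlinarith)]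
  have hq0 : 0 < q := by rw [hq]; exact Real.sqrt_pos.2 (by nlinarith)
  have hl2 : l ^ 2 = 1 - μ ^ 2 := by rw [hl, Real.sq_sqrt (by nlinarith)]
  have hl0 : 0 < l := by rw [hl]; exact Real.sqrt_pos.2 (by nlinarith)
  rw [← hq, ← hl, ← hl2]
  have i1 : (d - 1) * m + l / 2 * ((s ^ 2 - 1 / 4 - (d - 1) ^ 2 / l ^ 2 * m ^ 2) / q) ≤ l * q := by
    have : (d - 1) * m * q + l / 2 * (s ^ 2 - 1 / 4 - (d - 1) ^ 2 / l ^ 2 * m ^ 2) ≤ l * q * q := by
      have k1 : 0 ≤ l / 2 * (q - (d - 1) / l * m) ^ 2 := by positivity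
      have k2 : l / 2 * (q - (d - 1) / l * m) ^ 2 = l / 2 * q ^ 2 - (d - 1) * m * q +
          l / 2 * ((d - 1) ^ 2 / l ^ 2 * m ^ 2) := by field_simp; ring
      rw [k2] at k1
      have k3 : l / 2 * (s ^ 2 - 1 / 4) ≤ l / 2 * q ^ 2 :=
        mul_le_mul_of_nonneg_left (by rw [hq2]; nlinarith) (by positivity)
      linarith
    have e1 : (d - 1) * m + l / 2 * ((s ^ 2 - 1 / 4 - (d - 1) ^ 2 / l ^ 2 * m ^ 2) / q) =
        ((d - 1) * m * q + l / 2 * (s ^ 2 - 1 / 4 - (d - 1) ^ 2 / l ^ 2 * m ^ 2)) / q := by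
      rw [add_div, mul_div_cancel_right₀ _ hq0.ne', mul_div_assoc]
    rw [e1, div_le_iff₀ hq0]
    exact this
  have i2 : l * q + a₀ * μ ≤ s := by
    have k0 : 0 ≤ l * q + a₀ * μ := by positivity
    have k1 : (l * q + a₀ * μ) ^ 2 ≤ s ^ 2 := by
      have k3 : (l * q + a₀ * μ) ^ 2 + (l * a₀ - q * μ) ^ 2 =
          (l ^ 2 + μ ^ 2) * (q ^ 2 + a₀ ^ 2) := by ring
      rw [hl2, hq2] at k3
      nlinarith [sq_nonneg (l * a₀ - q * μ)]
    exact (sq_le_sq₀ k0 (by linarith)).1 k1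
  linarith

section ray

variable {d b : ℝ} {c u w : ℝ × ℝ → ℝ}

/-- The slope variable. -/
noncomputable def sv (d : ℝ) (c u : ℝ × ℝ → ℝ) (p : ℝ × ℝ) : ℝ := (d * c p - u p) / p.2 - 1 / 2

lemma ray_split (L : ℝ × ℝ →L[ℝ] ℝ) (v w : ℝ) : L (1, v + w) = L (1, v) + w * L (0, 1) := by
  have : ((1 : ℝ), v + w) = (1, v) + w • ((0 : ℝ), (1 : ℝ)) := by
    ext <;> simp
  rw [this, map_add, map_smul, smul_eq_mul]

variable (h : RayFlow d b c u w)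

include h

lemma ray_s (hd : d ≠ 0) (p : ℝ × ℝ) (hp : 0 < p.2) : ∃ s' : ℝ × ℝ →L[ℝ] ℝ,
    HasFDerivAt (sv d c u) s' p ∧ s' (1, (1 - b) * p.2 + u p - c p) =
      sv d c u p ^ 2 - 1 / 4 - d * (d - 1) * (c p / p.2) ^ 2 + w p / p.2 := by
  have hc := (h.diff_c p).hasFDerivAt
  have hu := (h.diff_u p).hasFDerivAt
  have h2 : HasFDerivAt (fun p : ℝ × ℝ => p.2) (ContinuousLinearMap.snd ℝ ℝ ℝ) p :=
    hasFDerivAt_snd
  have h4 : HasFDerivAt (fun p : ℝ × ℝ => (p.2)⁻¹)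
      ((-(p.2 ^ 2)⁻¹) • ContinuousLinearMap.snd ℝ ℝ ℝ) p :=
    (hasDerivAt_inv hp.ne').comp_hasFDerivAt p h2
  have h3 := (((hc.const_mul d).fun_sub hu).fun_mul h4).sub_const (1 / 2)
  refine ⟨_, h3, ?_⟩
  simp only [ContinuousLinearMap.smul_apply, ContinuousLinearMap.sub_apply, smul_eq_mul,
    ContinuousLinearMap.coe_snd', ContinuousLinearMap.add_apply]
  rw [sub_eq_add_neg ((1 - b) * p.2 + u p) (c p), ray_split (fderiv ℝ c p) _ (-c p),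
    ray_split (fderiv ℝ u p) _ (-c p)]
  have e1 := h.eq_c p hp
  have e2 := h.eq_u p hp
  unfold sv
  have e1' : fderiv ℝ c p (1, (1 - b) * p.2 + u p) = -(b * c p +
      c p / d * (fderiv ℝ u p (0, 1) + (d - 1) * (u p / p.2))) := by linarith
  have e2' : fderiv ℝ u p (1, (1 - b) * p.2 + u p) = -(b * u p +
      d * c p * fderiv ℝ c p (0, 1) + w p) := by linarith
  rw [e1', e2']
  have hp' := hp.ne'
  field_simp
  ring

/-- The functional. -/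
lemma ray_F (hd : 1 < d) {a₀ μ : ℝ} (ha : 0 < a₀) (ha' : a₀ < 1 / 2) (hμ : 0 < μ) (hμ' : μ < 1)
    (p : ℝ × ℝ) (hp : 0 < p.2) (hs : 1 / 2 ≤ sv d c u p)
    (hw : |w p| ≤ (d * (d - 1) - (d - 1) ^ 2 / (1 - μ ^ 2)) * (c p ^ 2 / p.2)) :
    (∃ s' : ℝ × ℝ →L[ℝ] ℝ, HasFDerivAt (sv d c u) s' p ∧
      s' (1, (1 - b) * p.2 + u p - c p) < sv d c u p ^ 2 - 1 / 4) ∧
    ∃ F' : ℝ × ℝ →L[ℝ] ℝ, HasFDerivAt (fun p => Real.log p.2 + √(1 - μ ^ 2) / 2 *
      Real.log (sv d c u p + √(sv d c u p ^ 2 - a₀ ^ 2))) F' p ∧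
    F' (1, (1 - b) * p.2 + u p - c p) ≤ 1 / 2 - b - a₀ * μ := by
  obtain ⟨s', hs', hs1⟩ := ray_s h (by linarith) p hp
  have hμ2 : 0 < 1 - μ ^ 2 := by nlinarith
  have hs2 : s' (1, (1 - b) * p.2 + u p - c p) ≤ sv d c u p ^ 2 - 1 / 4 -
      (d - 1) ^ 2 / (1 - μ ^ 2) * (c p / p.2) ^ 2 := by
    rw [hs1]
    have k1 : w p / p.2 ≤ (d * (d - 1) - (d - 1) ^ 2 / (1 - μ ^ 2)) * (c p / p.2) ^ 2 := by
      rw [div_le_iff₀ hp]
      have k2 : (d * (d - 1) - (d - 1) ^ 2 / (1 - μ ^ 2)) * (c p / p.2) ^ 2 * p.2 =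
          (d * (d - 1) - (d - 1) ^ 2 / (1 - μ ^ 2)) * (c p ^ 2 / p.2) := by
        have hp' := hp.ne'
        rw [mul_assoc]
        congr 1
        field_simp
      rw [k2]
      exact (le_abs_self _).trans hw
    linarith
  refine ⟨⟨s', hs', lt_of_le_of_lt hs2 ?_⟩, ?_⟩
  · have k1 : 0 < (d - 1) ^ 2 / (1 - μ ^ 2) * (c p / p.2) ^ 2 := by
      have := div_pos (h.pos p) hp
      have : 0 < d - 1 := by linarith
      positivity
    linarith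
  obtain ⟨s, hs0⟩ : ∃ s, s = sv d c u p := ⟨_, rfl⟩
  have h2 : HasFDerivAt (fun p : ℝ × ℝ => p.2) (ContinuousLinearMap.snd ℝ ℝ ℝ) p :=
    hasFDerivAt_snd
  have hq : 0 < s ^ 2 - a₀ ^ 2 := by rw [← hs0] at hs; nlinarith
  have hq0 : 0 < √(s ^ 2 - a₀ ^ 2) := Real.sqrt_pos.2 hq
  have hg : HasDerivAt (fun s : ℝ => Real.log (s + √(s ^ 2 - a₀ ^ 2)))
      (1 / √(s ^ 2 - a₀ ^ 2)) s := by
    have k1 : HasDerivAt (fun s : ℝ => s ^ 2 - a₀ ^ 2) (2 * s) s := by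
      simpa using (hasDerivAt_pow 2 s).sub_const (a₀ ^ 2)
    have k2 := (hasDerivAt_id' s).fun_add (k1.sqrt hq.ne')
    have k3 : s + √(s ^ 2 - a₀ ^ 2) ≠ 0 := by rw [← hs0] at hs; positivity
    refine (k2.log k3).congr_deriv ?_
    field_simp
    ring
  rw [hs0] at hg
  have hF := (h2.log hp.ne').fun_add ((hg.comp_hasFDerivAt p hs').const_mul (√(1 - μ ^ 2) / 2))
  refine ⟨_, hF, ?_⟩
  simp only [ContinuousLinearMap.smul_apply, smul_eq_mul,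
    ContinuousLinearMap.coe_snd', ContinuousLinearMap.add_apply]
  have key := speed_ineq (d := d) (m := c p / p.2) hs ha ha' hμ hμ'
  have e1 : p.2⁻¹ * ((1 - b) * p.2 + u p - c p) =
      1 / 2 - b - sv d c u p + (d - 1) * (c p / p.2) := by
    unfold sv
    field_simp
    ring
  rw [hs0] at hq0
  have e2 : √(1 - μ ^ 2) / 2 * (1 / √(sv d c u p ^ 2 - a₀ ^ 2) *
      s' (1, (1 - b) * p.2 + u p - c p)) ≤ √(1 - μ ^ 2) / 2 *
      ((sv d c u p ^ 2 - 1 / 4 - (d - 1) ^ 2 / (1 - μ ^ 2) * (c p / p.2) ^ 2) /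
        √(sv d c u p ^ 2 - a₀ ^ 2)) := by
    rw [one_div_mul_eq_div]
    gcongr
  rw [e1]
  linarith

/-- The set where the slope variable is large. -/
def svSet (d : ℝ) (c u : ℝ × ℝ → ℝ) (ρ L τ₁ T : ℝ) : Set (ℝ × ℝ) :=
  (Icc τ₁ T ×ˢ Icc ρ L) ∩ {p | 1 / 2 ≤ sv d c u p}

lemma svSet_compact {ρ L τ₁ T : ℝ} (hρ : 0 < ρ) : IsCompact (svSet d c u ρ L τ₁ T) := by
  have h1 : IsCompact (Icc τ₁ T ×ˢ Icc ρ L) := isCompact_Icc.prod isCompact_Icc
  refine h1.of_isClosed_subset ?_ inter_subset_left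
  have h2 : ContinuousOn (sv d c u) (Icc τ₁ T ×ˢ Icc ρ L) := by
    refine ContinuousOn.sub (ContinuousOn.div ?_ continuousOn_snd fun p hp => ?_)
      continuousOn_const
    · exact ((continuous_const.mul h.diff_c.continuous).sub h.diff_u.continuous).continuousOn
    · exact (hρ.trans_le (mem_prod.1 hp).2.1).ne'
  exact h2.preimage_isClosed_of_isClosed h1.isClosed isClosed_Ici

/-- The maximum principle along the slow characteristics: the set where the slope variable is large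
shrinks to the centre. -/
theorem ray_core (hd : 1 < d) {a₀ μ C₂ L τ₁ : ℝ} (ha : 0 < a₀) (ha' : a₀ < 1 / 2) (hμ : 0 < μ)
    (hμ' : μ < 1) (hδ : 1 / 2 - b - a₀ * μ < 0) (hL : ∀ τ, τ₁ ≤ τ → sv d c u (τ, L) < 1 / 2)
    (hC₂ : 0 < C₂) (hC : ∀ τ r, τ₁ ≤ τ → 0 < r → r ≤ L → sv d c u (τ, r) ≤ C₂ / r)
    (hw : ∀ τ r, τ₁ ≤ τ → 0 < r → r ≤ L → |w (τ, r)| ≤
      (d * (d - 1) - (d - 1) ^ 2 / (1 - μ ^ 2)) * (c (τ, r) ^ 2 / r)) :
    ∃ M, ∀ τ r, τ₁ ≤ τ → 0 < r → r ≤ L → 1 / 2 ≤ sv d c u (τ, r) →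
      Real.log r ≤ M - (b + a₀ * μ - 1 / 2) / 2 * (τ - τ₁) := by
  obtain ⟨δ, hδe⟩ : ∃ δ, δ = b + a₀ * μ - 1 / 2 := ⟨_, rfl⟩
  have hδ0 : 0 < δ := by rw [hδe]; linarith
  rw [← hδe]
  obtain ⟨β, hβ⟩ : ∃ β, β = √(1 - μ ^ 2) / 2 := ⟨_, rfl⟩
  have hβ0 : 0 ≤ β := by rw [hβ]; positivity
  have hβ1 : β < 1 := by
    rw [hβ]
    have : √(1 - μ ^ 2) ≤ 1 := by
      rw [Real.sqrt_le_one]
      nlinarith
    linarith
  obtain ⟨F, hF⟩ : ∃ F : ℝ × ℝ → ℝ, F = fun p => Real.log p.2 + √(1 - μ ^ 2) / 2 *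
      Real.log (sv d c u p + √(sv d c u p ^ 2 - a₀ ^ 2)) := ⟨_, rfl⟩
  -- the bounds of the functional
  have hup : ∀ τ r, τ₁ ≤ τ → 0 < r → r ≤ L → 1 / 2 ≤ sv d c u (τ, r) →
      F (τ, r) ≤ (1 - β) * Real.log r + β * Real.log (2 * C₂) := by
    intro τ r h1 h2 h3 h4
    rw [hF, ← hβ]
    simp only
    have k0 : √(sv d c u (τ, r) ^ 2 - a₀ ^ 2) ≤ sv d c u (τ, r) := by
      rw [Real.sqrt_le_left (by linarith)]
      nlinarith
    have k1 : Real.log (sv d c u (τ, r) + √(sv d c u (τ, r) ^ 2 - a₀ ^ 2)) ≤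
        Real.log (2 * C₂ / r) := by
      apply Real.log_le_log
      · have := Real.sqrt_nonneg (sv d c u (τ, r) ^ 2 - a₀ ^ 2)
        linarith
      · have := hC τ r h1 h2 h3
        rw [mul_div_assoc]
        linarith
    rw [Real.log_div (by positivity) h2.ne'] at k1
    have k2 := mul_le_mul_of_nonneg_left k1 hβ0
    linarith
  have hlow : ∀ τ r, 0 < r → 1 / 2 ≤ sv d c u (τ, r) →
      Real.log r + β * Real.log (1 / 2) ≤ F (τ, r) := by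
    intro τ r h2 h4
    rw [hF, ← hβ]
    simp only
    have k1 : Real.log (1 / 2) ≤ Real.log (sv d c u (τ, r) + √(sv d c u (τ, r) ^ 2 - a₀ ^ 2)) :=
      Real.log_le_log (by norm_num) (by
        have := Real.sqrt_nonneg (sv d c u (τ, r) ^ 2 - a₀ ^ 2)
        linarith)
    have k3 := mul_le_mul_of_nonneg_left k1 hβ0
    linarith
  obtain ⟨M₀, hM₀⟩ : ∃ M₀, M₀ = (1 - β) * Real.log L + β * Real.log (2 * C₂) := ⟨_, rfl⟩
  refine ⟨M₀ - β * Real.log (1 / 2), fun τ r h1 h2 h3 h4 => ?_⟩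
  by_contra hcon
  push Not at hcon
  have hbig : M₀ < F (τ, r) + δ / 2 * (τ - τ₁) := by
    have := hlow τ r h2 h4
    linarith
  -- the inner radius
  obtain ⟨ρ, hρ0, hρr, hρ⟩ : ∃ ρ : ℝ, 0 < ρ ∧ ρ ≤ r ∧
      (1 - β) * Real.log ρ + β * Real.log (2 * C₂) + δ / 2 * (τ - τ₁) ≤ M₀ := by
    refine ⟨min r (Real.exp ((M₀ - β * Real.log (2 * C₂) - δ / 2 * (τ - τ₁)) / (1 - β))),
      lt_min h2 (Real.exp_pos _), min_le_left _ _, ?_⟩
    have k1 : Real.log (min r (Real.exp ((M₀ - β * Real.log (2 * C₂) -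
        δ / 2 * (τ - τ₁)) / (1 - β)))) ≤
        (M₀ - β * Real.log (2 * C₂) - δ / 2 * (τ - τ₁)) / (1 - β) := by
      rw [Real.log_le_iff_le_exp (lt_min h2 (Real.exp_pos _))]
      exact min_le_right _ _
    have k2 := mul_le_mul_of_nonneg_left k1 (by linarith : 0 ≤ 1 - β)
    rw [mul_div_cancel₀ _ (by linarith : 1 - β ≠ 0)] at k2
    linarith
  have hFd : ∀ p : ℝ × ℝ, p ∈ svSet d c u ρ L τ₁ τ →
      (∃ s' : ℝ × ℝ →L[ℝ] ℝ, HasFDerivAt (sv d c u) s' p ∧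
      s' (1, (1 - b) * p.2 + u p - c p) < sv d c u p ^ 2 - 1 / 4) ∧ ∃ F' : ℝ × ℝ →L[ℝ] ℝ,
      HasFDerivAt F F' p ∧ F' (1, (1 - b) * p.2 + u p - c p) ≤ -δ := by
    intro p hp
    obtain ⟨⟨⟨q1, q2⟩, ⟨q3, q4⟩⟩, q5⟩ := hp
    have q6 : 0 < p.2 := hρ0.trans_le q3
    obtain ⟨k1, F', k2, k3⟩ := ray_F h hd ha ha' hμ hμ' p q6 q5 (hw p.1 p.2 q1 q6 q4)
    refine ⟨k1, F', ?_, by rw [hδe]; linarith⟩
    rw [hF]
    exact k2
  have hcont : ContinuousOn (fun p => F p + δ / 2 * (p.1 - τ₁)) (svSet d c u ρ L τ₁ τ) := by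
    intro p hp
    obtain ⟨-, F', hF', -⟩ := hFd p hp
    exact (hF'.continuousAt.add (by fun_prop)).continuousWithinAt
  have hmem : (τ, r) ∈ svSet d c u ρ L τ₁ τ := ⟨mem_prod.2 ⟨⟨h1, le_rfl⟩, ⟨hρr, h3⟩⟩, h4⟩
  obtain ⟨p, hp, hmax⟩ := (svSet_compact h hρ0 (L := L) (τ₁ := τ₁) (T := τ)).exists_isMaxOn
    ⟨_, hmem⟩ hcont
  have hge := isMaxOn_iff.1 hmax _ hmem
  have hbig2 : M₀ < F p + δ / 2 * (p.1 - τ₁) := lt_of_lt_of_le hbig hge
  obtain ⟨⟨s', hs', hs1⟩, F', hF', hF1⟩ := hFd p hp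
  obtain ⟨⟨⟨q1, q2⟩, ⟨q3, q4⟩⟩, q5⟩ := hp
  change 1 / 2 ≤ sv d c u p at q5
  have q6 : 0 < p.2 := hρ0.trans_le q3
  have hup2 : F p ≤ (1 - β) * Real.log p.2 + β * Real.log (2 * C₂) := hup p.1 p.2 q1 q6 q4 q5
  have r1 : τ₁ < p.1 := by
    rcases q1.eq_or_lt with h0 | h0
    · have k1 : Real.log p.2 ≤ Real.log L := Real.log_le_log q6 q4
      have k2 := mul_le_mul_of_nonneg_left k1 (by linarith : 0 ≤ 1 - β)
      rw [← h0] at hbig2
      linarith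
    · exact h0
  have r2 : ρ < p.2 := by
    rcases q3.eq_or_lt with h0 | h0
    · rw [← h0] at hup2
      have k1 : δ / 2 * (p.1 - τ₁) ≤ δ / 2 * (τ - τ₁) :=
        mul_le_mul_of_nonneg_left (by linarith) (by linarith)
      linarith
    · exact h0
  have r3 : p.2 < L := by
    rcases q4.lt_or_eq with h6 | h6
    · exact h6
    · have := hL p.1 q1
      rw [← h6] at this
      exact absurd q5 (not_le.2 this)
  have hlim := tendsto_step p ((1 - b) * p.2 + u p - c p)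
  have l1 : Tendsto (fun t : ℝ => p.1 - t) (𝓝[>] 0) (𝓝 p.1) :=
    (continuous_fst.tendsto p).comp hlim
  have l2 : Tendsto (fun t : ℝ => p.2 - t * ((1 - b) * p.2 + u p - c p)) (𝓝[>] 0) (𝓝 p.2) :=
    (continuous_snd.tendsto p).comp hlim
  have r4 : ∀ᶠ t in 𝓝[>] (0 : ℝ), 1 / 2 ≤ sv d c u
      (p.1 - t, p.2 - t * ((1 - b) * p.2 + u p - c p)) := by
    rcases q5.lt_or_eq with h6 | h6
    · exact ((hs'.continuousAt.tendsto.comp hlim).eventually_const_lt h6).mono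
        fun t ht => ht.le
    · have h7 : s' (1, (1 - b) * p.2 + u p - c p) < 0 := by
        rw [← h6] at hs1
        linarith
      filter_upwards [step_lt hs' h7] with t ht
      linarith
  have hstep : ∀ᶠ t in 𝓝[>] (0 : ℝ), (p.1 - t, p.2 - t * ((1 - b) * p.2 + u p - c p)) ∈
      svSet d c u ρ L τ₁ τ := by
    filter_upwards [l1.eventually_const_lt r1, l2.eventually_const_lt r2,
      l2.eventually_lt_const r3, r4, self_mem_nhdsWithin] with t t1 t2 t3 t4 t5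
    have t5' : (0 : ℝ) < t := t5
    exact ⟨mem_prod.2 ⟨⟨t1.le, by simp only; linarith⟩, ⟨t2.le, t3.le⟩⟩, t4⟩
  have hH : HasFDerivAt (fun p => F p + δ / 2 * (p.1 - τ₁))
      (F' + (δ / 2) • ContinuousLinearMap.fst ℝ ℝ ℝ) p :=
    hF'.fun_add ((hasFDerivAt_fst.sub_const τ₁).const_mul (δ / 2))
  have key := step_max hH (hstep.mono fun t ht => isMaxOn_iff.1 hmax _ ht)
  simp only [ContinuousLinearMap.add_apply, ContinuousLinearMap.smul_apply,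
    ContinuousLinearMap.coe_fst', smul_eq_mul, mul_one] at key
  linarith

/-- The maximum principle along the fast characteristics: the speed of sound is bounded. -/
theorem ray_bound (hd : 1 < d) (hb : 0 < b) {K r₁ M₁ L C τ₁ : ℝ} (hK : ∀ p, |u p| ≤ K)
    (hr : 0 < r₁) (h1 : K ≤ (1 - b) * r₁) (hb1 : b < 1) (h2 : (d - 1) * K ≤ b / 2 * (d * r₁))
    (h3 : ∀ τ, u (τ, r₁) + d * c (τ, r₁) ≤ M₁)
    (h4 : ∀ τ r, r₁ ≤ r → r ≤ L → u (τ, r) + d * c (τ, r) ≤ C)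
    (hw : ∀ τ r, τ₁ ≤ τ → r₁ ≤ r → r ≤ L → |w (τ, r)| ≤ 1) :
    ∃ τ₂, τ₁ ≤ τ₂ ∧ ∀ τ r, τ₂ ≤ τ → r₁ ≤ r → r ≤ L →
      u (τ, r) + d * c (τ, r) ≤ max M₁ (K + 2 / b) + 1 := by
  obtain ⟨A, hA⟩ : ∃ A, A = max M₁ (K + 2 / b) + 1 := ⟨_, rfl⟩
  have hAM : M₁ < A := by rw [hA]; linarith [le_max_left M₁ (K + 2 / b)]
  have hAK : K + 2 / b + 1 ≤ A := by rw [hA]; linarith [le_max_right M₁ (K + 2 / b)]
  rw [← hA]
  obtain ⟨T, hT⟩ : ∃ T : ℝ, T = 4 * |C - A| / b + 1 := ⟨_, rfl⟩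
  have hT0 : 0 < T := by rw [hT]; positivity
  have hTκ : b / 4 * T = |C - A| + b / 4 := by rw [hT]; field_simp
  refine ⟨τ₁ + T, by linarith, fun τ₀ r₀ hτ₀ hr₀ hr₀L => ?_⟩
  by_contra hcon
  push Not at hcon
  have hd0 : 0 < d := by linarith
  have hK0 : 0 ≤ K := (abs_nonneg _).trans (hK 0)
  set z : ℝ × ℝ → ℝ := fun p => u p + d * c p with hz
  have hc : Continuous z := h.diff_u.continuous.add (continuous_const.mul h.diff_c.continuous)
  obtain ⟨p, hp, hmax⟩ := (isCompact_Icc.prod isCompact_Icc :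
    IsCompact (Icc (τ₀ - T) τ₀ ×ˢ Icc r₁ r₀)).exists_isMaxOn
    ⟨(τ₀, r₀), mem_prod.2 ⟨⟨by linarith, le_rfl⟩, ⟨hr₀, le_rfl⟩⟩⟩
    ((hc.add (continuous_const.mul (continuous_fst.sub continuous_const)) :
      Continuous fun p : ℝ × ℝ => z p + b / 4 * (p.1 - τ₀)).continuousOn)
  have hend : z (τ₀, r₀) + b / 4 * (τ₀ - τ₀) ≤ z p + b / 4 * (p.1 - τ₀) :=
    isMaxOn_iff.1 hmax (τ₀, r₀) (mem_prod.2 ⟨⟨by linarith, le_rfl⟩, ⟨hr₀, le_rfl⟩⟩)
  rw [sub_self, mul_zero, add_zero] at hend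
  have hz0 : A < z (τ₀, r₀) := hcon
  obtain ⟨⟨q1, q2⟩, ⟨q3, q4⟩⟩ := hp
  have q5 : b / 4 * (p.1 - τ₀) ≤ 0 := mul_nonpos_of_nonneg_of_nonpos (by linarith) (by linarith)
  have hp2 : 0 < p.2 := hr.trans_le q3
  have hzp : A < z p := by linarith
  have q6 : r₁ < p.2 := by
    rcases q3.eq_or_lt with h5 | h5
    · have := h3 p.1
      rw [h5] at this
      change z p ≤ M₁ at this
      linarith
    · exact h5
  have q7 : τ₀ - T < p.1 := by
    rcases q1.eq_or_lt with h5 | h5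
    · have k1 : z p ≤ C := h4 p.1 p.2 q3 (q4.trans hr₀L)
      rw [← h5] at hend
      have : b / 4 * (τ₀ - T - τ₀) = -(b / 4 * T) := by ring
      rw [this, hTκ] at hend
      have := le_abs_self (C - A)
      linarith
    · exact h5
  have hHu := (h.diff_u p).hasFDerivAt
  have hHc := (h.diff_c p).hasFDerivAt
  have hH : HasFDerivAt (fun p => z p + b / 4 * (p.1 - τ₀))
      (fderiv ℝ u p + d • fderiv ℝ c p + (b / 4) • ContinuousLinearMap.fst ℝ ℝ ℝ) p :=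
    (hHu.fun_add (hHc.const_mul d)).fun_add ((hasFDerivAt_fst.sub_const τ₀).const_mul (b / 4))
  have hv : 0 < (1 - b) * p.2 + u p + c p := by
    have k1 := (abs_le.1 (hK p)).1
    have k2 := h.pos p
    have k3 : (1 - b) * r₁ ≤ (1 - b) * p.2 := mul_le_mul_of_nonneg_left q3 (by linarith)
    linarith
  have hstep : ∀ᶠ t in 𝓝[>] (0 : ℝ), (p.1 - t, p.2 - t * ((1 - b) * p.2 + u p + c p)) ∈
      Icc (τ₀ - T) τ₀ ×ˢ Icc r₁ r₀ := by
    have hlim := tendsto_step p ((1 - b) * p.2 + u p + c p)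
    have l1 : Tendsto (fun t : ℝ => p.1 - t) (𝓝[>] 0) (𝓝 p.1) :=
      (continuous_fst.tendsto p).comp hlim
    have l2 : Tendsto (fun t : ℝ => p.2 - t * ((1 - b) * p.2 + u p + c p)) (𝓝[>] 0) (𝓝 p.2) :=
      (continuous_snd.tendsto p).comp hlim
    filter_upwards [l1.eventually_const_lt q7, l2.eventually_const_lt q6,
      self_mem_nhdsWithin] with t t1 t2 t3
    have t3' : (0 : ℝ) < t := t3
    have t4 := mul_pos t3' hv
    exact mem_prod.2 ⟨⟨t1.le, by simp only; linarith⟩, ⟨t2.le, by simp only; linarith⟩⟩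
  have key := step_max hH (hstep.mono fun t ht => isMaxOn_iff.1 hmax _ ht)
  simp only [ContinuousLinearMap.add_apply, ContinuousLinearMap.smul_apply,
    ContinuousLinearMap.coe_fst', smul_eq_mul, mul_one] at key
  rw [ray_split (fderiv ℝ u p) _ (c p), ray_split (fderiv ℝ c p) _ (c p)] at key
  have e1 := h.eq_c p hp2
  have e2 := h.eq_u p hp2
  have e3 : z p = u p + d * c p := rfl
  -- the derivative along the fast characteristics
  have e4 : 0 ≤ -(b * z p) - (d - 1) * c p * (u p / p.2) - w p + b / 4 := by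
    have e5 : d * (c p / d * (fderiv ℝ u p (0, 1) + (d - 1) * (u p / p.2))) =
        c p * (fderiv ℝ u p (0, 1) + (d - 1) * (u p / p.2)) := by field_simp
    have e6 : d * fderiv ℝ c p (1, (1 - b) * p.2 + u p) = -(d * b * c p) -
        c p * (fderiv ℝ u p (0, 1) + (d - 1) * (u p / p.2)) := by
      rw [← e5]; linear_combination d * e1
    rw [e3]
    linear_combination key + e6 + e2
  have e7 : -((d - 1) * c p * (u p / p.2)) ≤ b / 2 * (z p + K) := by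
    have k1 : -(u p / p.2) ≤ K / r₁ := by
      rw [← neg_div]
      exact div_le_div₀ hK0 (by linarith [(abs_le.1 (hK p)).1]) hr q3
    have k2 : 0 ≤ (d - 1) * c p := mul_nonneg (by linarith) (h.pos p).le
    have k3 := mul_le_mul_of_nonneg_left k1 k2
    have k4 : (d - 1) * c p * (K / r₁) ≤ b / 2 * (d * c p) := by
      rw [← mul_div_assoc, div_le_iff₀ hr]
      have := mul_le_mul_of_nonneg_left h2 (h.pos p).le
      linarith
    have k5 : d * c p ≤ z p + K := by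
      rw [e3]; linarith [(abs_le.1 (hK p)).1]
    have k6 : b / 2 * (d * c p) ≤ b / 2 * (z p + K) :=
      mul_le_mul_of_nonneg_left k5 (by linarith)
    linarith
  have e8 := (abs_le.1 (hw p.1 p.2 (by linarith) q3 (q4.trans hr₀L))).1
  have e8' : -1 ≤ w p := e8
  have e9 : b / 2 * (K + 2 / b + 1) ≤ b / 2 * z p :=
    mul_le_mul_of_nonneg_left (by linarith) (by linarith)
  have e10 : b / 2 * (2 / b) = 1 := by field_simp
  linarith

end ray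

end Pool.Agent.H49.BZ
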