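import Pool.Agent.H49.BZ.RadCore

/-!
# Flows with radial velocity: the gradient of the entropy decays
-/

open Set Filter Topology MeasureTheory

namespace Pool.Agent.H49.BZ

/-- Differentiation of an integral over an interval. -/
lemma interval_deriv {g : ℝ × ℝ → ℝ} (hg : ContDiff ℝ 1 g) (x y τ : ℝ) :
    HasDerivAt (fun τ => ∫ ρ in x..y, g (τ, ρ)) (∫ ρ in x..y, fderiv ℝ g (τ, ρ) (1, 0)) τ := by
  have hD : Continuous fun p : ℝ × ℝ => fderiv ℝ g p ((1 : ℝ), (0 : ℝ)) :=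
    (hg.continuous_fderiv (by norm_num)).clm_apply continuous_const
  have hslice : ∀ τ ρ, HasDerivAt (fun τ => g (τ, ρ)) (fderiv ℝ g (τ, ρ) (1, 0)) τ := by
    intro τ ρ
    have h1 : HasFDerivAt g (fderiv ℝ g (τ, ρ)) (τ, ρ) :=
      (hg.differentiable (by norm_num) (τ, ρ)).hasFDerivAt
    exact h1.comp_hasDerivAt τ ((hasDerivAt_id τ).prodMk (hasDerivAt_const τ ρ))
  have gcont : ∀ τ, Continuous fun ρ => g (τ, ρ) := fun τ =>
    hg.continuous.comp (by fun_prop : Continuous fun ρ : ℝ => (τ, ρ))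
  have dcont : ∀ τ : ℝ, Continuous fun ρ : ℝ => fderiv ℝ g (τ, ρ) (1, 0) := fun τ =>
    hD.comp (by fun_prop : Continuous fun ρ : ℝ => (τ, ρ))
  obtain ⟨C, hC⟩ := ((isCompact_Icc (a := τ - 1) (b := τ + 1)).prod
    (isCompact_uIcc (a := x) (b := y))).exists_bound_of_continuousOn hD.continuousOn
  have hnhds : Icc (τ - 1) (τ + 1) ∈ 𝓝 τ :=
    Icc_mem_nhds (by linarith : τ - 1 < τ) (by linarith : τ < τ + 1)
  refine (intervalIntegral.hasDerivAt_integral_of_dominated_loc_of_deriv_le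
    (F := fun τ ρ => g (τ, ρ)) (F' := fun τ ρ => fderiv ℝ g (τ, ρ) (1, 0))
    (bound := fun _ => C) hnhds ?_ ?_ ?_ ?_ ?_ ?_).2
  · exact Eventually.of_forall fun τ => (gcont τ).aestronglyMeasurable
  · exact (gcont τ).intervalIntegrable _ _
  · exact (dcont τ).aestronglyMeasurable
  · refine Eventually.of_forall fun ρ hρ τ' hτ' => ?_
    exact hC (τ', ρ) (mem_prod.2 ⟨hτ', uIoc_subset_uIcc hρ⟩)
  · exact intervalIntegrable_const
  · exact Eventually.of_forall fun ρ _ τ' _ => hslice τ' ρ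

/-- The derivative of a primitive depending on a parameter. -/
lemma prim_deriv {g : ℝ × ℝ → ℝ} (hg : ContDiff ℝ 1 g) (p : ℝ × ℝ) : ∃ L : ℝ × ℝ →L[ℝ] ℝ,
    HasFDerivAt (fun p : ℝ × ℝ => ∫ ρ in (0 : ℝ)..p.2, g (p.1, ρ)) L p ∧
    ∀ v : ℝ, L (1, v) = (∫ ρ in (0 : ℝ)..p.2, fderiv ℝ g (p.1, ρ) (1, 0)) + v * g p := by
  have hD : Continuous fun p : ℝ × ℝ => fderiv ℝ g p ((1 : ℝ), (0 : ℝ)) :=
    (hg.continuous_fderiv (by norm_num)).clm_apply continuous_const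
  have gcont : ∀ τ, Continuous fun ρ => g (τ, ρ) := fun τ =>
    hg.continuous.comp (by fun_prop : Continuous fun ρ : ℝ => (τ, ρ))
  have hTS : Continuous fun x : ℝ => ContinuousLinearMap.toSpanSingleton ℝ x :=
    (ContinuousLinearMap.toSpanSingletonLIE ℝ ℝ).continuous
  have key := hasStrictFDerivAt_uncurry_coprod (𝕜 := ℝ) (u := p)
    (f := fun τ r => ∫ ρ in (0 : ℝ)..r, g (τ, ρ))
    (f₁ := fun τ r => ContinuousLinearMap.toSpanSingleton ℝ
      (∫ ρ in (0 : ℝ)..r, fderiv ℝ g (τ, ρ) (1, 0)))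
    (f₂ := fun τ r => ContinuousLinearMap.toSpanSingleton ℝ (g (τ, r)))
    (Eventually.of_forall fun v => (interval_deriv hg 0 v.2 v.1).hasFDerivAt)
    (Eventually.of_forall fun v => (intervalIntegral.integral_hasDerivAt_right
      ((gcont v.1).intervalIntegrable _ _)
      (gcont v.1).aestronglyMeasurable.stronglyMeasurableAtFilter
      (gcont v.1).continuousAt).hasFDerivAt) ?_ ?_
  · refine ⟨_, key.hasFDerivAt, fun v => ?_⟩
    simp [Function.HasUncurry.uncurry]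
  · refine (hTS.comp ?_).continuousAt
    exact intervalIntegral.continuous_parametric_primitive_of_continuous
      (f := fun τ ρ => fderiv ℝ g (τ, ρ) (1, 0)) hD
  · exact (hTS.comp hg.continuous).continuousAt

/-- Two functions transported by the field: a point with the same values at the initial time. -/
lemma back_point {f₁ f₂ W : ℝ × ℝ → ℝ} {L τ₀ r₀ : ℝ} (d₁ : Differentiable ℝ f₁)
    (d₂ : Differentiable ℝ f₂) (e₁ : ∀ p : ℝ × ℝ, 0 < p.2 → p.2 ≤ L → fderiv ℝ f₁ p (1, W p) = 0)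
    (e₂ : ∀ p : ℝ × ℝ, 0 < p.2 → p.2 ≤ L → fderiv ℝ f₂ p (1, W p) = 0)
    (hW : ∀ τ, 0 < W (τ, L)) (h0 : ∀ τ, f₁ (τ, 0) = 0) (hpos : 0 < f₁ (τ₀, r₀)) (hτ₀ : 0 ≤ τ₀)
    (hr₀ : r₀ ∈ Icc 0 L) : ∃ Y ∈ Icc 0 L, f₁ (0, Y) = f₁ (τ₀, r₀) ∧ f₂ (0, Y) = f₂ (τ₀, r₀) := by
  obtain ⟨p₀, hp₀⟩ : ∃ p₀ : ℝ × ℝ, p₀ = (τ₀, r₀) := ⟨_, rfl⟩
  have c₁ := d₁.continuous
  have c₂ := d₂.continuous
  -- the backward step
  have step : ∀ f : ℝ × ℝ → ℝ, Differentiable ℝ f → ∀ κ : ℝ, 0 < κ → ∀ p : ℝ × ℝ,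
      fderiv ℝ f p (1, W p) = 0 → |f p - f p₀| ≤ κ * (τ₀ - p.1) →
      ∀ᶠ t in 𝓝[>] (0 : ℝ), |f (p.1 - t, p.2 - t * W p) - f p₀| ≤ κ * (τ₀ - (p.1 - t)) := by
    intro f hf κ hκ p hfp habs
    have hd := (hf p).hasFDerivAt
    have h1 : HasFDerivAt (fun p : ℝ × ℝ => κ * (τ₀ - p.1) - (f p - f p₀))
        (κ • (-ContinuousLinearMap.fst ℝ ℝ ℝ) - fderiv ℝ f p) p :=
      ((hasFDerivAt_fst.const_sub τ₀).const_mul κ).fun_sub (hd.sub_const (f p₀))
    have h2 : HasFDerivAt (fun p : ℝ × ℝ => κ * (τ₀ - p.1) + (f p - f p₀))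
        (κ • (-ContinuousLinearMap.fst ℝ ℝ ℝ) + fderiv ℝ f p) p :=
      ((hasFDerivAt_fst.const_sub τ₀).const_mul κ).fun_add (hd.sub_const (f p₀))
    have k1 := step_lt (v := W p) h1 (by
      simp only [ContinuousLinearMap.sub_apply, ContinuousLinearMap.smul_apply,
        ContinuousLinearMap.neg_apply, ContinuousLinearMap.coe_fst', smul_eq_mul, hfp]
      linarith)
    have k2 := step_lt (v := W p) h2 (by
      simp only [ContinuousLinearMap.add_apply, ContinuousLinearMap.smul_apply,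
        ContinuousLinearMap.neg_apply, ContinuousLinearMap.coe_fst', smul_eq_mul, hfp]
      linarith)
    obtain ⟨a1, a2⟩ := abs_le.1 habs
    filter_upwards [k1, k2] with t t1 t2
    rw [abs_le]
    constructor
    · linarith
    · linarith
  have main : ∀ κ : ℝ, 0 < κ → κ * τ₀ < f₁ p₀ → ∃ Y ∈ Icc 0 L,
      |f₁ (0, Y) - f₁ p₀| ≤ κ * τ₀ ∧ |f₂ (0, Y) - f₂ p₀| ≤ κ * τ₀ := by
    intro κ hκ hκ1
    have hK : IsCompact ((Icc 0 τ₀ ×ˢ Icc 0 L) ∩ ({p : ℝ × ℝ | |f₁ p - f₁ p₀| ≤ κ * (τ₀ - p.1)} ∩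
        {p : ℝ × ℝ | |f₂ p - f₂ p₀| ≤ κ * (τ₀ - p.1)})) := by
      refine (isCompact_Icc.prod isCompact_Icc).inter_right (IsClosed.inter ?_ ?_)
      · exact isClosed_le (by fun_prop) (by fun_prop)
      · exact isClosed_le (by fun_prop) (by fun_prop)
    have hne : p₀ ∈ ((Icc 0 τ₀ ×ˢ Icc 0 L) ∩ ({p : ℝ × ℝ | |f₁ p - f₁ p₀| ≤ κ * (τ₀ - p.1)} ∩
        {p : ℝ × ℝ | |f₂ p - f₂ p₀| ≤ κ * (τ₀ - p.1)})) := by
      refine ⟨?_, ?_, ?_⟩
      · rw [hp₀]; exact mem_prod.2 ⟨⟨hτ₀, le_rfl⟩, hr₀⟩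
      · change |f₁ p₀ - f₁ p₀| ≤ κ * (τ₀ - p₀.1)
        rw [hp₀]; simp
      · change |f₂ p₀ - f₂ p₀| ≤ κ * (τ₀ - p₀.1)
        rw [hp₀]; simp
    obtain ⟨p, ⟨⟨⟨q1, q2⟩, ⟨q3, q4⟩⟩, q5, q6⟩, hmin⟩ :=
      hK.exists_isMinOn ⟨p₀, hne⟩ continuous_fst.continuousOn
    change |f₁ p - f₁ p₀| ≤ κ * (τ₀ - p.1) at q5
    change |f₂ p - f₂ p₀| ≤ κ * (τ₀ - p.1) at q6
    have q7 : 0 < p.2 := by
      rcases q3.eq_or_lt with h1 | h1
      · exfalso
        have h2 : f₁ p = 0 := by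
          have e : p = (p.1, 0) := Prod.ext rfl h1.symm
          rw [e]
          exact h0 p.1
        rw [h2] at q5
        have h3 := (abs_le.1 q5).1
        have h4 : κ * (τ₀ - p.1) ≤ κ * τ₀ := mul_le_mul_of_nonneg_left (by linarith) hκ.le
        linarith
      · exact h1
    have q8 : p.1 = 0 := by
      rcases q1.eq_or_lt with h1 | h1
      · exact h1.symm
      · exfalso
        have hlim := tendsto_step p (W p)
        have l1 : Tendsto (fun t : ℝ => p.1 - t) (𝓝[>] 0) (𝓝 p.1) :=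
          (continuous_fst.tendsto p).comp hlim
        have l2 : Tendsto (fun t : ℝ => p.2 - t * W p) (𝓝[>] 0) (𝓝 p.2) :=
          (continuous_snd.tendsto p).comp hlim
        have r1 : ∀ᶠ t in 𝓝[>] (0 : ℝ), p.2 - t * W p ≤ L := by
          rcases q4.lt_or_eq with h2 | h2
          · exact (l2.eventually_lt_const h2).mono fun t ht => ht.le
          · have h3 := hW p.1
            rw [← h2] at h3
            change 0 < W p at h3
            filter_upwards [self_mem_nhdsWithin] with t ht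
            have ht' : (0 : ℝ) < t := ht
            have := mul_pos ht' h3
            linarith
        obtain ⟨t, t1, t2, t3, t4, t5, t6⟩ := ((l1.eventually_const_lt h1).and
          ((l2.eventually_const_lt q7).and (r1.and ((step f₁ d₁ κ hκ p (e₁ p q7 q4) q5).and
          ((step f₂ d₂ κ hκ p (e₂ p q7 q4) q6).and self_mem_nhdsWithin))))).exists
        have t6' : (0 : ℝ) < t := t6
        have := isMinOn_iff.1 hmin (p.1 - t, p.2 - t * W p)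
          ⟨mem_prod.2 ⟨⟨t1.le, by simp only; linarith⟩, ⟨t2.le, t3⟩⟩, t4, t5⟩
        simp only at this
        linarith
    refine ⟨p.2, ⟨q3, q4⟩, ?_, ?_⟩
    · rw [q8, sub_zero] at q5
      rw [← q8]; exact q5
    · rw [q8, sub_zero] at q6
      rw [← q8]; exact q6
  have hL : 0 ≤ L := hr₀.1.trans hr₀.2
  obtain ⟨Y, hY, hmin⟩ := (isCompact_Icc : IsCompact (Icc 0 L)).exists_isMinOn
    ⟨0, le_rfl, hL⟩ ((by fun_prop : Continuous fun Y : ℝ =>
      |f₁ (0, Y) - f₁ p₀| + |f₂ (0, Y) - f₂ p₀|).continuousOn)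
  have hzero : |f₁ (0, Y) - f₁ p₀| + |f₂ (0, Y) - f₂ p₀| ≤ 0 := by
    by_contra hcon
    push Not at hcon
    set ψ := |f₁ (0, Y) - f₁ p₀| + |f₂ (0, Y) - f₂ p₀| with hψ
    obtain ⟨κ, hκ, k1, k2⟩ : ∃ κ : ℝ, 0 < κ ∧ κ * τ₀ < f₁ p₀ ∧ 2 * (κ * τ₀) < ψ := by
      have hpos' : 0 < f₁ p₀ := by rw [hp₀]; exact hpos
      obtain ⟨m, hm⟩ : ∃ m, m = min (f₁ p₀) (ψ / 2) := ⟨_, rfl⟩
      have hm0 : 0 < m := by rw [hm]; exact lt_min hpos' (by linarith)
      have e : m / (τ₀ + 1) * τ₀ < m := by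
        rw [div_mul_eq_mul_div, div_lt_iff₀ (by linarith)]
        nlinarith
      refine ⟨m / (τ₀ + 1), by positivity, lt_of_lt_of_le e ?_, ?_⟩
      · rw [hm]; exact min_le_left _ _
      · have : m ≤ ψ / 2 := by rw [hm]; exact min_le_right _ _
        linarith
    obtain ⟨Z, hZ, z1, z2⟩ := main κ hκ k1
    have := isMinOn_iff.1 hmin Z hZ
    linarith
  have a1 := abs_nonneg (f₁ (0, Y) - f₁ p₀)
  have a2 := abs_nonneg (f₂ (0, Y) - f₂ p₀)
  refine ⟨Y, hY, ?_, ?_⟩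
  · have : f₁ (0, Y) - f₁ p₀ = 0 := abs_eq_zero.1 (by linarith)
    rw [← hp₀]; linarith
  · have : f₂ (0, Y) - f₂ p₀ = 0 := abs_eq_zero.1 (by linarith)
    rw [← hp₀]; linarith

lemma pow_sub_le (k : ℕ) {x y : ℝ} (hx : 0 ≤ x) (hxy : x ≤ y) :
    y ^ (k + 1) - x ^ (k + 1) ≤ (k + 1) * y ^ k * (y - x) := by
  induction k with
  | zero => simp
  | succ k ih =>
    have hy : 0 ≤ y := hx.trans hxy
    have e : y ^ (k + 1 + 1) - x ^ (k + 1 + 1) = y * (y ^ (k + 1) - x ^ (k + 1)) +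
        x ^ (k + 1) * (y - x) := by ring
    have h1 := mul_le_mul_of_nonneg_left ih hy
    have h2 : x ^ (k + 1) * (y - x) ≤ y ^ (k + 1) * (y - x) :=
      mul_le_mul_of_nonneg_right (pow_le_pow_left₀ hx hxy _) (by linarith)
    rw [e]
    push_cast
    have e2 : y * ((k + 1) * y ^ k * (y - x)) + y ^ (k + 1) * (y - x) =
        (↑k + 1 + 1) * y ^ (k + 1) * (y - x) := by ring
    linarith

lemma le_pow_sub (k : ℕ) {x y : ℝ} (hx : 0 ≤ x) (hxy : x ≤ y) :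
    y ^ k * (y - x) ≤ y ^ (k + 1) - x ^ (k + 1) := by
  have h1 : x ^ k * x ≤ y ^ k * x := mul_le_mul_of_nonneg_right (pow_le_pow_left₀ hx hxy _) hx
  have e : y ^ (k + 1) - x ^ (k + 1) = y ^ k * y - x ^ k * x := by ring
  rw [e]
  linarith

/-- The decay of the gradient of the entropy. -/
theorem entropy_small {N S W : ℝ × ℝ → ℝ} {k : ℕ} {l m M L A : ℝ} (dN : Differentiable ℝ N)
    (dS : Differentiable ℝ S)
    (eN : ∀ p : ℝ × ℝ, 0 < p.2 → p.2 ≤ L → fderiv ℝ N p (1, W p) = l * N p)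
    (eS : ∀ p : ℝ × ℝ, 0 < p.2 → p.2 ≤ L → fderiv ℝ S p (1, W p) = 0)
    (hW : ∀ τ, 0 < W (τ, L)) (N0 : ∀ τ, N (τ, 0) = 0) (hm : 0 < m) (hl : 0 < l) (hA : 0 ≤ A)
    (N1 : ∀ τ r r', 0 ≤ r → r ≤ r' → r' ≤ L →
      m * (r' ^ (k + 1) - r ^ (k + 1)) ≤ N (τ, r') - N (τ, r) ∧
      N (τ, r') - N (τ, r) ≤ M * (r' ^ (k + 1) - r ^ (k + 1)))
    (S1 : ∀ r r', 0 ≤ r → r ≤ r' → r' ≤ L → |S (0, r') - S (0, r)| ≤ A * (r' - r))
    (hL : 0 < L) {ε : ℝ} (hε : 0 < ε) : ∃ τ₁, 0 ≤ τ₁ ∧ ∀ τ r r', τ₁ ≤ τ → 0 < r → r ≤ r' →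
      r' ≤ L → |S (τ, r') - S (τ, r)| ≤ ε * (r' - r) := by
  have hM : 0 < M := by
    have h1 := N1 0 0 L le_rfl hL.le le_rfl
    have h2 : 0 < L ^ (k + 1) - 0 ^ (k + 1) := by
      rw [zero_pow (by omega), sub_zero]; positivity
    have h3 : m * (L ^ (k + 1) - 0 ^ (k + 1)) ≤ M * (L ^ (k + 1) - 0 ^ (k + 1)) :=
      h1.1.trans h1.2
    have := le_of_mul_le_mul_right h3 h2
    linarith
  obtain ⟨η, hη, hηε⟩ : ∃ η : ℝ, 0 < η ∧ A * ((k + 1) * (M / m) ^ 2 * η) ≤ ε := by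
    refine ⟨ε / (A * ((k + 1) * (M / m) ^ 2) + 1), by positivity, ?_⟩
    have e : A * ((k + 1) * (M / m) ^ 2 * (ε / (A * ((k + 1) * (M / m) ^ 2) + 1))) =
        (A * ((k + 1) * (M / m) ^ 2)) * ε / (A * ((k + 1) * (M / m) ^ 2) + 1) := by ring
    rw [e, div_le_iff₀ (by positivity)]
    nlinarith
  obtain ⟨τ₁, hτ₁0, hτ₁⟩ : ∃ τ₁ : ℝ, 0 ≤ τ₁ ∧ ∀ τ, τ₁ ≤ τ → Real.exp (-(l * τ)) * (M / m) ≤
      η ^ (k + 1) := by
    have h1 : Tendsto (fun τ : ℝ => Real.exp (-(l * τ)) * (M / m)) atTop (𝓝 (0 * (M / m))) := by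
      refine Tendsto.mul_const _ (Real.tendsto_exp_neg_atTop_nhds_zero.comp ?_)
      exact tendsto_id.const_mul_atTop hl
    rw [zero_mul] at h1
    have h2 := h1.eventually_lt_const (by positivity : (0 : ℝ) < η ^ (k + 1))
    obtain ⟨τ₁, h3⟩ := eventually_atTop.1 h2
    exact ⟨max 0 τ₁, le_max_left _ _, fun τ hτ => (h3 τ ((le_max_right _ _).trans hτ)).le⟩
  refine ⟨τ₁, hτ₁0, fun τ r r' hτ hr hrr hrL => ?_⟩
  have hτ0 : 0 ≤ τ := hτ₁0.trans hτ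
  -- the transported functions
  have hf : ∀ p : ℝ × ℝ, HasFDerivAt (fun p : ℝ × ℝ => Real.exp (-(l * p.1)) * N p)
      (Real.exp (-(l * p.1)) • fderiv ℝ N p + N p • (Real.exp (-(l * p.1)) •
        (-(l • ContinuousLinearMap.fst ℝ ℝ ℝ)))) p := fun p =>
    ((hasFDerivAt_fst.const_mul l).fun_neg.exp).fun_mul (dN p).hasFDerivAt
  have e₁ : ∀ p : ℝ × ℝ, 0 < p.2 → p.2 ≤ L →
      fderiv ℝ (fun p : ℝ × ℝ => Real.exp (-(l * p.1)) * N p) p (1, W p) = 0 := by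
    intro p hp hpL
    rw [(hf p).fderiv]
    simp only [ContinuousLinearMap.add_apply, ContinuousLinearMap.smul_apply, smul_eq_mul,
      ContinuousLinearMap.neg_apply, ContinuousLinearMap.coe_fst', eN p hp hpL]
    ring
  have bp : ∀ r, 0 < r → r ≤ L → ∃ Y ∈ Icc 0 L, N (0, Y) = Real.exp (-(l * τ)) * N (τ, r) ∧
      S (0, Y) = S (τ, r) := by
    intro r hr hrL
    have hNr : 0 < N (τ, r) := by
      have h1 := (N1 τ 0 r le_rfl hr.le hrL).1
      rw [N0, sub_zero, zero_pow (by omega), sub_zero] at h1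
      have : 0 < m * r ^ (k + 1) := by positivity
      linarith
    obtain ⟨Y, hY, y1, y2⟩ := back_point (τ₀ := τ) (r₀ := r) (fun p => (hf p).differentiableAt) dS
      e₁ eS hW (fun τ => by simp only [N0, mul_zero])
      (mul_pos (Real.exp_pos _) hNr) hτ0 ⟨hr.le, hrL⟩
    refine ⟨Y, hY, ?_, y2⟩
    simpa using y1
  obtain ⟨Y, hY, y1, y2⟩ := bp r hr (hrr.trans hrL)
  obtain ⟨Y', hY', z1, z2⟩ := bp r' (hr.trans_le hrr) hrL
  obtain ⟨x, hx⟩ : ∃ x, x = Real.exp (-(l * τ)) := ⟨_, rfl⟩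
  have hx0 : 0 < x := by rw [hx]; exact Real.exp_pos _
  have hxη : x * (M / m) ≤ η ^ (k + 1) := by rw [hx]; exact hτ₁ τ hτ
  rw [← hx] at y1 z1
  have hr' : 0 < r' := hr.trans_le hrr
  have hYY : Y ≤ Y' := by
    by_contra hcon
    push Not at hcon
    have h1 := (N1 0 Y' Y hY'.1 hcon.le hY.2).1
    have h2 : 0 < m * (Y ^ (k + 1) - Y' ^ (k + 1)) :=
      mul_pos hm (sub_pos.2 (pow_lt_pow_left₀ hcon hY'.1 (by omega)))
    have h3 := (N1 τ r r' hr.le hrr hrL).1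
    have h4 : 0 ≤ m * (r' ^ (k + 1) - r ^ (k + 1)) :=
      mul_nonneg hm.le (sub_nonneg.2 (pow_le_pow_left₀ hr.le hrr _))
    have h5 : x * N (τ, r) ≤ x * N (τ, r') := mul_le_mul_of_nonneg_left (by linarith) hx0.le
    linarith
  have hNτ := N1 τ 0 r' le_rfl hr'.le hrL
  have hN0' := N1 0 0 Y' le_rfl hY'.1 hY'.2
  rw [N0, sub_zero, zero_pow (by omega), sub_zero] at hNτ hN0'
  -- the upper bound of `Y'`
  have u1 : Y' ^ (k + 1) ≤ (η * r') ^ (k + 1) := by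
    have h1 : m * Y' ^ (k + 1) ≤ x * (M * r' ^ (k + 1)) :=
      hN0'.1.trans (by rw [z1]; exact mul_le_mul_of_nonneg_left hNτ.2 hx0.le)
    have h2 : Y' ^ (k + 1) ≤ x * (M / m) * r' ^ (k + 1) := by
      have e : x * (M / m) * r' ^ (k + 1) = x * (M * r' ^ (k + 1)) / m := by
        field_simp
      rw [e, le_div_iff₀ hm]
      linarith
    rw [mul_pow]
    exact h2.trans (mul_le_mul_of_nonneg_right hxη (by positivity))
  have u2 : Y' ≤ η * r' := (pow_le_pow_iff_left₀ hY'.1 (by positivity) (by omega)).1 u1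
  -- the lower bound of `Y'`
  have u3 : x * (m * r' ^ (k + 1)) ≤ M * Y' ^ (k + 1) := by
    refine le_trans ?_ hN0'.2
    rw [z1]
    exact mul_le_mul_of_nonneg_left hNτ.1 hx0.le
  have u4 : m * (Y' ^ k * (Y' - Y)) ≤ x * (M * ((k + 1) * r' ^ k * (r' - r))) := by
    have h1 := (N1 0 Y Y' hY.1 hYY hY'.2).1
    have h2 := (N1 τ r r' hr.le hrr hrL).2
    have h3 : m * (Y' ^ k * (Y' - Y)) ≤ m * (Y' ^ (k + 1) - Y ^ (k + 1)) :=
      mul_le_mul_of_nonneg_left (le_pow_sub k hY.1 hYY) hm.le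
    have h4 : M * (r' ^ (k + 1) - r ^ (k + 1)) ≤ M * ((k + 1) * r' ^ k * (r' - r)) :=
      mul_le_mul_of_nonneg_left (pow_sub_le k hr.le hrr) hM.le
    have h5 : x * (N (τ, r') - N (τ, r)) ≤ x * (M * ((k + 1) * r' ^ k * (r' - r))) :=
      mul_le_mul_of_nonneg_left (by linarith) hx0.le
    rw [y1, z1] at h1
    linarith
  have u5 : m * Y' ^ (k + 1) * (Y' - Y) ≤ x * M * (k + 1) * η * r' ^ (k + 1) * (r' - r) := by
    have h1 := mul_le_mul_of_nonneg_left u4 hY'.1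
    have h2 : Y' * (x * (M * ((k + 1) * r' ^ k * (r' - r)))) ≤
        η * r' * (x * (M * ((k + 1) * r' ^ k * (r' - r)))) := by
      refine mul_le_mul_of_nonneg_right u2 ?_
      have : 0 ≤ r' - r := by linarith
      positivity
    have e1 : Y' * (m * (Y' ^ k * (Y' - Y))) = m * Y' ^ (k + 1) * (Y' - Y) := by ring
    have e2 : η * r' * (x * (M * ((k + 1) * r' ^ k * (r' - r)))) =
        x * M * (k + 1) * η * r' ^ (k + 1) * (r' - r) := by ring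
    linarith
  have u6 : Y' - Y ≤ (k + 1) * (M / m) ^ 2 * η * (r' - r) := by
    have h0 : 0 ≤ Y' - Y := by linarith
    have h1 : m * (x * (m * r' ^ (k + 1))) * (Y' - Y) ≤
        M * (x * M * (k + 1) * η * r' ^ (k + 1) * (r' - r)) := by
      have h2 : m * (x * (m * r' ^ (k + 1))) * (Y' - Y) ≤
          m * (M * Y' ^ (k + 1)) * (Y' - Y) :=
        mul_le_mul_of_nonneg_right (mul_le_mul_of_nonneg_left u3 hm.le) h0
      have h3 := mul_le_mul_of_nonneg_left u5 hM.le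
      have e : m * (M * Y' ^ (k + 1)) * (Y' - Y) = M * (m * Y' ^ (k + 1) * (Y' - Y)) := by ring
      linarith
    have hq : 0 < m * (x * (m * r' ^ (k + 1))) := by positivity
    have e : (k + 1) * (M / m) ^ 2 * η * (r' - r) =
        M * (x * M * (k + 1) * η * r' ^ (k + 1) * (r' - r)) / (m * (x * (m * r' ^ (k + 1)))) := by
      field_simp
    rw [e, le_div_iff₀ hq]
    linarith
  have h1 := S1 Y Y' hY.1 hYY hY'.2
  rw [y2, z2] at h1
  have h2 := mul_le_mul_of_nonneg_left u6 hA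
  have h3 : A * ((k + 1) * (M / m) ^ 2 * η * (r' - r)) ≤ ε * (r' - r) := by
    have := mul_le_mul_of_nonneg_right hηε (by linarith : 0 ≤ r' - r)
    linarith
  linarith

end Pool.Agent.H49.BZ
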