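import Pool.Agent.H49.BZ.RadRay

open Set Filter Topology MeasureTheory
open scoped RealInnerProductSpace

namespace Pool.Agent.H49.BZ

variable {d : ℕ} {B : ℝ → ℝ → ℝ} {T : ℝ} {f : ℝ → E d → E d → ℝ}

/-- The choice of the parameters. -/
lemma choose_par {D b : ℝ} (hD : 1 < D) (hb : b < 1 / 2) (h : 1 / 2 - 1 / (2 * √D) < b) :
    ∃ a₀ μ : ℝ, 0 < a₀ ∧ a₀ < 1 / 2 ∧ 0 < μ ∧ μ < 1 ∧ 1 / 2 - b - a₀ * μ < 0 ∧
      0 < D * (D - 1) - (D - 1) ^ 2 / (1 - μ ^ 2) := by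
  have hD0 : 0 < √D := Real.sqrt_pos.2 (by linarith)
  have hD2 : √D ^ 2 = D := Real.sq_sqrt (by linarith)
  obtain ⟨y, hy⟩ : ∃ y, y = 2 * √D * (1 / 2 - b) := ⟨_, rfl⟩
  have y0 : 0 < y := by rw [hy]; exact mul_pos (by positivity) (by linarith)
  have y1 : y < 1 := by
    rw [hy]
    have : 2 * √D * (1 / 2 - b) < 2 * √D * (1 / (2 * √D)) :=
      mul_lt_mul_of_pos_left (by linarith) (by positivity)
    have e : 2 * √D * (1 / (2 * √D)) = 1 := by field_simp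
    linarith
  obtain ⟨t, ht⟩ : ∃ t, t = (1 + y) / 2 := ⟨_, rfl⟩
  have t0 : 0 < t := by rw [ht]; linarith
  have t1 : t < 1 := by rw [ht]; linarith
  have t2 : y < t ^ 2 := by rw [ht]; nlinarith [mul_pos (sub_pos.2 y1) (sub_pos.2 y1)]
  have s1 : 1 < √D := by
    rw [Real.lt_sqrt (by norm_num)]
    linarith
  have hμ2 : (t / √D) ^ 2 = t ^ 2 / D := by rw [div_pow, hD2]
  refine ⟨t / 2, t / √D, by positivity, by linarith, by positivity, ?_, ?_, ?_⟩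
  · rw [div_lt_one hD0]
    linarith
  · have e1 : t / 2 * (t / √D) = t ^ 2 / (2 * √D) := by field_simp
    have e2 : 1 / 2 - b = y / (2 * √D) := by rw [hy]; field_simp
    rw [e1, e2, ← sub_div]
    exact div_neg_of_neg_of_pos (by linarith) (by positivity)
  · rw [hμ2]
    have k1 : 0 < 1 - t ^ 2 / D := by
      rw [sub_pos, div_lt_one (by linarith)]
      nlinarith
    rw [sub_pos, div_lt_iff₀ k1]
    have e : D * (D - 1) * (1 - t ^ 2 / D) = (D - 1) * (D - t ^ 2) := by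
      have : D ≠ 0 := by linarith
      field_simp
    rw [e]
    have : (D - 1) * (D - 1) < (D - 1) * (D - t ^ 2) :=
      mul_lt_mul_of_pos_left (by nlinarith) (by linarith)
    linarith

section flow

variable {γ : ℝ} {x₀ : E d} {a b : ℝ} {s : ℕ → ℝ} {R Θ : ℝ → E d → ℝ} {U : ℝ → E d → E d}
  (hf : IsSolution B T f) (hT : 0 < T) (h : IsEulerFlow γ T f x₀ a b s R U Θ)

include hf hT h

/-- The gradient of the entropy decays along a ray. -/
lemma rayEnt_small (hd : 2 ≤ d) (hb : b < 1 / 2) {e : E d} (he : ‖e‖ = 1)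
    (hrad : ∀ τ r : ℝ, 0 < r → ∀ᶠ y in 𝓝 (r • e), ∃ w : ℝ, U τ y = w • y) {L : ℝ} (hL : 0 < L)
    (hL1 : ∀ τ, 0 < (1 - b) * L + ⟪U τ (L • e), e⟫) {ε : ℝ}
    (hε : 0 < ε) : ∃ τ₁ : ℝ, ∀ τ r, τ₁ ≤ τ → 0 < r → r < L →
      |fderiv ℝ (rayEnt R Θ e) (τ, r) (0, 1)| ≤ ε := by
  obtain ⟨k, hk⟩ : ∃ k, d = k + 2 := ⟨d - 2, by omega⟩
  have hd0 : 0 < d := by omega
  have hd' : (0 : ℝ) < d := by exact_mod_cast hd0
  obtain ⟨m, M, hm, -, hmM⟩ := rayMass_bound h he (k + 1) L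
  have sS := rayEnt_smooth h e (R := R) (Θ := Θ)
  have dS : Differentiable ℝ (rayEnt R Θ e) := sS.differentiable (by norm_num)
  -- the Lipschitz constant at the initial time
  have hD : Continuous fun r : ℝ => fderiv ℝ (rayEnt R Θ e) (0, r) ((0 : ℝ), (1 : ℝ)) :=
    ((sS.continuous_fderiv (by norm_num)).clm_apply continuous_const).comp
      (by fun_prop : Continuous fun r : ℝ => ((0 : ℝ), r))
  obtain ⟨A, hA⟩ := (isCompact_Icc (a := (0 : ℝ)) (b := L)).exists_bound_of_continuousOn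
    hD.continuousOn
  have hA0 : 0 ≤ A := (norm_nonneg _).trans (hA 0 ⟨le_rfl, hL.le⟩)
  have hder : ∀ τ r : ℝ, HasDerivAt (fun r => rayEnt R Θ e (τ, r))
      (fderiv ℝ (rayEnt R Θ e) (τ, r) (0, 1)) r := fun τ r =>
    (dS (τ, r)).hasFDerivAt.comp_hasDerivAt r ((hasDerivAt_const r τ).prodMk (hasDerivAt_id' r))
  have S1 : ∀ r r', 0 ≤ r → r ≤ r' → r' ≤ L →
      |rayEnt R Θ e (0, r') - rayEnt R Θ e (0, r)| ≤ A * (r' - r) := by
    intro r r' h1 h2 h3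
    have := Convex.norm_image_sub_le_of_norm_hasDerivWithin_le
      (f := fun r => rayEnt R Θ e (0, r)) (s := Icc 0 L) (x := r) (y := r')
      (fun x _ => (hder 0 x).hasDerivWithinAt) hA (convex_Icc 0 L) ⟨h1, h2.trans h3⟩
      ⟨h1.trans h2, h3⟩
    rwa [Real.norm_eq_abs, Real.norm_eq_abs, abs_of_nonneg (by linarith : 0 ≤ r' - r)] at this
  -- the mass
  have hN : ∀ p : ℝ × ℝ, 0 < p.2 → _ := fun p hp => rayMass_deriv hf hT h he hrad hk p hp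
  have dN : Differentiable ℝ (rayMass R e (k + 1)) := by
    intro p
    have h1 : ContDiff ℝ 1 fun p : ℝ × ℝ => ((p.1, p.2 • e) : ℝ × E d) := (rayMap e).contDiff
    have h2 : ContDiff ℝ 1 fun p : ℝ × ℝ => R p.1 (p.2 • e) * p.2 ^ (k + 1) :=
      (h.smooth_R.comp h1).mul (contDiff_snd.pow _)
    obtain ⟨L', hL', -⟩ := prim_deriv h2 p
    exact hL'.differentiableAt
  obtain ⟨τ₁, -, hτ₁⟩ := entropy_small (N := rayMass R e (k + 1)) (S := rayEnt R Θ e)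
    (W := fun p => (1 - b) * p.2 + ⟪U p.1 (p.2 • e), e⟫)
    (k := k + 1) (l := d * (1 - 2 * b)) (m := m) (M := M) (L := L) (A := A) dN dS
    (fun p hp _ => by
      obtain ⟨N', hN', hN1⟩ := hN p hp
      rw [hN'.fderiv, hN1]
      ring)
    (fun p hp _ => rayEnt_transport hf hT h hd0 he hrad p hp) hL1
    (fun τ => by simp [rayMass]) hm (mul_pos hd' (by linarith)) hA0
    hmM S1 hL hε
  refine ⟨τ₁, fun τ r h1 h2 h3 => ?_⟩
  rw [← Real.norm_eq_abs]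
  refine (hder τ r).le_of_lip' hε.le ?_
  filter_upwards [Ioo_mem_nhds h2 h3] with x hx
  rw [Real.norm_eq_abs, Real.norm_eq_abs]
  rcases le_total r x with h4 | h4
  · rw [abs_of_nonneg (by linarith : 0 ≤ x - r)]
    exact hτ₁ τ r x h1 h2 h4 hx.2.le
  · rw [abs_sub_comm, abs_sub_comm x r, abs_of_nonneg (by linarith : 0 ≤ r - x)]
    exact hτ₁ τ x r h1 hx.1 h4 h3.le

/-- The bound of the exponent of a flow whose velocity is radial near a ray. -/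
theorem speed_bound (hd : 2 ≤ d) {e : E d} (he : ‖e‖ = 1)
    (hrad : ∀ τ r : ℝ, 0 < r → ∀ᶠ y in 𝓝 (r • e), ∃ w : ℝ, U τ y = w • y) :
    b ≤ 1 / 2 - 1 / (2 * √d) := by
  by_contra hcon
  push Not at hcon
  have hd2 : (2 : ℝ) ≤ d := by exact_mod_cast hd
  have hd0 : (0 : ℝ) < d := by linarith
  have hdn : 0 < d := by omega
  obtain ⟨k, hk⟩ : ∃ k, d = k + 2 := ⟨d - 2, by omega⟩
  -- the exponents
  have ha := flow_a_eq hf hT h hdn
  have hb : 0 < b := by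
    have := h.a_pos
    rw [ha] at this
    exact pos_of_mul_pos_right this hd0.le
  have hstrict := flow_strict hf hT h hdn hb
  have hb2 : b < 1 / 2 := by
    rw [ha] at hstrict
    nlinarith
  obtain ⟨a₀, μ, a1, a2, μ1, μ2, hδ, hη⟩ := choose_par (by linarith) hb2 hcon
  obtain ⟨η, hηe⟩ : ∃ η : ℝ, η = (d : ℝ) * (d - 1) - ((d : ℝ) - 1) ^ 2 / (1 - μ ^ 2) := ⟨_, rfl⟩
  rw [← hηe] at hη
  -- the flow along the ray
  have hflow := to_ray hf hT h hd he hrad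
  have hmass : ∀ p : ℝ × ℝ, 0 < p.2 → _ := fun p hp => rayMass_deriv hf hT h he hrad hk p hp
  have hsmall : ∀ {L : ℝ}, 0 < L → _ → ∀ {ε : ℝ}, 0 < ε → _ := fun {L} h1 h2 {ε} h3 =>
    rayEnt_small hf hT h hd hb2 he hrad (L := L) h1 h2 (ε := ε) h3
  have ne : ∀ r : ℝ, ‖r • e‖ = |r| := by
    intro r
    rw [norm_smul, he, mul_one, Real.norm_eq_abs]
  set c : ℝ × ℝ → ℝ := fun p => √((d + 2) / d * Θ p.1 (p.2 • e)) with hc
  set u : ℝ × ℝ → ℝ := fun p => ⟪U p.1 (p.2 • e), e⟫ with hu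
  have hk2 : (0 : ℝ) < (d + 2) / d := by positivity
  have hb1 : b < 1 := h.b_lt
  obtain ⟨K, hK⟩ := h.bounded
  have hK0 : 0 ≤ K := (norm_nonneg _).trans (hK 0 0)
  have coord : ∀ v : E d, |⟪v, e⟫| ≤ ‖v‖ := fun v => by
    have := abs_real_inner_le_norm v e
    rwa [he, mul_one] at this
  have uK : ∀ p, |u p| ≤ K := fun p => (coord _).trans (hK _ _)
  have ub : ∀ p, -K ≤ u p ∧ u p ≤ K := fun p => abs_le.1 (uK p)
  -- the radii
  obtain ⟨r₁, hr₁⟩ : ∃ r₁ : ℝ, r₁ = K / (1 - b) + 2 * K / b + 1 := ⟨_, rfl⟩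
  have hb1' : 0 < 1 - b := by linarith
  have g1 : 0 ≤ K / (1 - b) := by positivity
  have g2 : 0 ≤ 2 * K / b := by positivity
  have r1 : 0 < r₁ := by rw [hr₁]; linarith
  have r2 : K ≤ (1 - b) * r₁ := by
    have k1 : (1 - b) * (K / (1 - b)) = K := by field_simp
    have k2 : (1 - b) * (K / (1 - b)) ≤ (1 - b) * r₁ :=
      mul_le_mul_of_nonneg_left (by rw [hr₁]; linarith) hb1'.le
    linarith
  have r3 : ((d : ℝ) - 1) * K ≤ b / 2 * (d * r₁) := by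
    have k1 : b / 2 * (d * (2 * K / b)) = d * K := by field_simp
    have k2 : b / 2 * (d * (2 * K / b)) ≤ b / 2 * (d * r₁) :=
      mul_le_mul_of_nonneg_left (mul_le_mul_of_nonneg_left (by rw [hr₁]; linarith) hd0.le)
        (by linarith)
    linarith
  have cb : ∀ L : ℝ, ∃ C : ℝ, 0 < C ∧ ∀ τ r, |r| ≤ L → c (τ, r) ≤ C ∧ Θ τ (r • e) ≤ C := by
    intro L
    obtain ⟨m', M', hm', hM'⟩ := h.typeI L
    refine ⟨√((d + 2) / d * M') + |M'| + 1, by positivity, fun τ r hL => ?_⟩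
    have k0 := (hM' τ (r • e) (by rw [ne]; exact hL)).2.2.2
    have k2 : c (τ, r) ≤ √((d + 2) / d * M') :=
      Real.sqrt_le_sqrt (mul_le_mul_of_nonneg_left k0 hk2.le)
    have k3 := abs_nonneg M'
    have k4 := le_abs_self M'
    have k5 := Real.sqrt_nonneg ((d + 2) / d * M')
    exact ⟨by linarith, by linarith⟩
  obtain ⟨C₁, hC₁, hC₁b⟩ := cb r₁
  obtain ⟨M₁, hM₁⟩ : ∃ M₁, M₁ = K + d * C₁ := ⟨_, rfl⟩
  have hM₁b : ∀ τ, u (τ, r₁) + d * c (τ, r₁) ≤ M₁ := by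
    intro τ
    have k1 := mul_le_mul_of_nonneg_left (hC₁b τ r₁ (abs_of_pos r1).le).1 hd0.le
    have k2 := (ub (τ, r₁)).2
    rw [hM₁]
    linarith
  obtain ⟨A, hA⟩ : ∃ A, A = max M₁ (K + 2 / b) + 1 := ⟨_, rfl⟩
  obtain ⟨L, hL⟩ : ∃ L : ℝ, L = |A| + 2 * K + r₁ + 1 := ⟨_, rfl⟩
  have hAabs := abs_nonneg A
  have hL0 : 0 < L := by rw [hL]; linarith
  have hLr : r₁ ≤ L := by rw [hL]; linarith
  obtain ⟨C, hC, hCb⟩ := cb L
  -- the entropy
  obtain ⟨ε, hε, hε1, hε2⟩ : ∃ ε : ℝ, 0 < ε ∧ C * ε ≤ 1 ∧ ε * L ≤ η := by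
    refine ⟨min (1 / C) (η / L), lt_min (by positivity) (by positivity), ?_, ?_⟩
    · have := mul_le_mul_of_nonneg_left (min_le_left (1 / C) (η / L)) hC.le
      rwa [mul_one_div_cancel hC.ne'] at this
    · have := mul_le_mul_of_nonneg_right (min_le_right (1 / C) (η / L)) hL0.le
      rwa [div_mul_cancel₀ _ hL0.ne'] at this
  have hL1 : ∀ τ, 0 < (1 - b) * (L + 1) + ⟪U τ ((L + 1) • e), e⟫ := by
    intro τ
    have k1 := (ub (τ, L + 1)).1
    change -K ≤ ⟪U τ ((L + 1) • e), e⟫ at k1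
    have k2 : (1 - b) * r₁ ≤ (1 - b) * L := mul_le_mul_of_nonneg_left hLr hb1'.le
    linarith
  obtain ⟨τ₁, hτ₁⟩ := hsmall (by linarith : 0 < L + 1) hL1 hε
  set w : ℝ × ℝ → ℝ := fun p => Θ p.1 (p.2 • e) * fderiv ℝ (rayEnt R Θ e) p (0, 1) with hw
  have wb : ∀ τ r, τ₁ ≤ τ → 0 < r → r ≤ L → |w (τ, r)| ≤ Θ τ (r • e) * ε := by
    intro τ r h1 h2 h3
    have k1 : |fderiv ℝ (rayEnt R Θ e) (τ, r) (0, 1)| ≤ ε := hτ₁ τ r h1 h2 (by linarith)
    have k2 : |w (τ, r)| = Θ τ (r • e) * |fderiv ℝ (rayEnt R Θ e) (τ, r) (0, 1)| := by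
      rw [hw]
      simp only
      rw [abs_mul, abs_of_pos (pos_Θ h _ _)]
    rw [k2]
    exact mul_le_mul_of_nonneg_left k1 (pos_Θ h _ _).le
  have Θc : ∀ τ r, Θ τ (r • e) ≤ c (τ, r) ^ 2 := by
    intro τ r
    have k1 : c (τ, r) ^ 2 = (d + 2) / d * Θ τ (r • e) :=
      Real.sq_sqrt (mul_pos hk2 (pos_Θ h _ _)).le
    rw [k1]
    have k2 : (1 : ℝ) ≤ (d + 2) / d := by
      rw [le_div_iff₀ hd0]; linarith
    have := mul_le_mul_of_nonneg_right k2 (pos_Θ h τ (r • e)).le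
    linarith
  -- the bound of the speed of sound
  obtain ⟨τ₂, hτ₂, hz⟩ := ray_bound hflow (by linarith) hb (K := K) (r₁ := r₁) (M₁ := M₁) (L := L)
    (C := K + d * C) (τ₁ := τ₁) uK r1 r2 hb1 r3 hM₁b
    (fun τ r h1 h2 => by
      have k1 := mul_le_mul_of_nonneg_left (hCb τ r (by
        rw [abs_of_pos (by linarith)]; exact h2)).1 hd0.le
      have k2 := (ub (τ, r)).2
      change u (τ, r) + d * c (τ, r) ≤ K + d * C
      linarith)
    (fun τ r h1 h2 h3 => by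
      refine (wb τ r h1 (by linarith) h3).trans ?_
      have k1 := (hCb τ r (by rw [abs_of_pos (by linarith)]; exact h3)).2
      have k2 := mul_le_mul_of_nonneg_right k1 hε.le
      linarith)
  rw [← hA] at hz
  have hL2 : ∀ τ, τ₂ ≤ τ → sv d c u (τ, L) < 1 / 2 := by
    intro τ hτ
    have k1 : (d * c (τ, L) - u (τ, L)) / L < 1 := by
      rw [div_lt_one hL0]
      have k2 : u (τ, L) + d * c (τ, L) ≤ A := hz τ L hτ hLr le_rfl
      have k3 := (ub (τ, L)).1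
      have k4 := le_abs_self A
      have k5 : |A| + 2 * K < L := by rw [hL]; linarith
      linarith
    unfold sv
    simp only
    linarith
  -- the slow characteristics
  obtain ⟨M, hM⟩ := ray_core hflow (by linarith) (a₀ := a₀) (μ := μ) (C₂ := d * C + K) (L := L)
    (τ₁ := τ₂) a1 a2 μ1 μ2 hδ hL2 (by positivity)
    (fun τ r h1 h2 h3 => by
      change (d * c (τ, r) - u (τ, r)) / r - 1 / 2 ≤ (d * C + K) / r
      have k1 := mul_le_mul_of_nonneg_left (hCb τ r (by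
        rw [abs_of_pos (by linarith)]; exact h3)).1 hd0.le
      have k2 := (ub (τ, r)).1
      have k3 : (d * c (τ, r) - u (τ, r)) / r ≤ (d * C + K) / r :=
        div_le_div_of_nonneg_right (by linarith) h2.le
      linarith)
    (fun τ r h1 h2 h3 => by
      refine (wb τ r (hτ₂.trans h1) h2 h3).trans ?_
      rw [← hηe]
      change Θ τ (r • e) * ε ≤ η * (c (τ, r) ^ 2 / r)
      have k1 : Θ τ (r • e) * ε ≤ c (τ, r) ^ 2 * ε := mul_le_mul_of_nonneg_right (Θc τ r) hε.le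
      have k2 : ε ≤ η / r := by
        rw [le_div_iff₀ h2]
        exact (mul_le_mul_of_nonneg_left h3 hε.le).trans hε2
      have k3 : c (τ, r) ^ 2 * ε ≤ c (τ, r) ^ 2 * (η / r) :=
        mul_le_mul_of_nonneg_left k2 (sq_nonneg _)
      have k4 : c (τ, r) ^ 2 * (η / r) = η * (c (τ, r) ^ 2 / r) := by ring
      linarith)
  -- the mass near the centre
  obtain ⟨m₀, M₀, hm₀, hM₀⟩ := h.typeI 1
  obtain ⟨m₂, M₂, hm₂, hM₂, hmM₂⟩ := rayMass_bound h he (k + 1) 1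
  obtain ⟨c₀, hc₀⟩ : ∃ c₀, c₀ = √((d + 2) / d * m₀) := ⟨_, rfl⟩
  have c0 : 0 < c₀ := by rw [hc₀]; exact Real.sqrt_pos.2 (mul_pos hk2 hm₀)
  have clow : ∀ τ r, |r| ≤ 1 → c₀ ≤ c (τ, r) := by
    intro τ r hr
    rw [hc₀]
    exact Real.sqrt_le_sqrt (mul_le_mul_of_nonneg_left
      (hM₀ τ (r • e) (by rw [ne]; exact hr)).2.2.1 hk2.le)
  obtain ⟨r₂, p1, p2, p3, p4, p5⟩ : ∃ r₂ : ℝ, 0 < r₂ ∧ r₂ ≤ 1 ∧ r₂ ≤ c₀ ∧ r₂ ≤ L ∧
      d * M₂ * r₂ ≤ m₀ * c₀ / 2 := by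
    have k1 : 0 < m₀ * c₀ / (2 * (d * M₂)) := by positivity
    refine ⟨min (min 1 c₀) (min L (m₀ * c₀ / (2 * (d * M₂)))), ?_, ?_, ?_, ?_, ?_⟩
    · exact lt_min (lt_min one_pos c0) (lt_min hL0 k1)
    · exact (min_le_left _ _).trans (min_le_left _ _)
    · exact (min_le_left _ _).trans (min_le_right _ _)
    · exact (min_le_right _ _).trans (min_le_left _ _)
    · have k2 : min (min 1 c₀) (min L (m₀ * c₀ / (2 * (d * M₂)))) ≤ m₀ * c₀ / (2 * (d * M₂)) :=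
        (min_le_right _ _).trans (min_le_right _ _)
      have k3 := mul_le_mul_of_nonneg_left k2 (by positivity : 0 ≤ (d : ℝ) * M₂)
      have k4 : (d : ℝ) * M₂ * (m₀ * c₀ / (2 * (d * M₂))) = m₀ * c₀ / 2 := by
        field_simp
      linarith
  obtain ⟨δ, hδe⟩ : ∃ δ, δ = b + a₀ * μ - 1 / 2 := ⟨_, rfl⟩
  have hδ0 : 0 < δ := by rw [hδe]; linarith
  rw [← hδe] at hM
  obtain ⟨τ₃, hτ₃⟩ : ∃ τ₃, τ₃ = τ₂ + 2 * (|M - Real.log r₂| + 1) / δ := ⟨_, rfl⟩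
  have hτ₂₃ : τ₂ ≤ τ₃ := by
    rw [hτ₃]
    have : 0 ≤ 2 * (|M - Real.log r₂| + 1) / δ := by positivity
    linarith
  have hfast : ∀ τ, τ₃ ≤ τ → c₀ ≤ u (τ, r₂) := by
    intro τ hτ
    have k1 : sv d c u (τ, r₂) < 1 / 2 := by
      by_contra hge
      push Not at hge
      have k2 := hM τ r₂ (hτ₂₃.trans hτ) p1 p4 hge
      have k3 : δ / 2 * (2 * (|M - Real.log r₂| + 1) / δ) ≤ δ / 2 * (τ - τ₂) :=
        mul_le_mul_of_nonneg_left (by linarith) (by linarith)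
      have k4 : δ / 2 * (2 * (|M - Real.log r₂| + 1) / δ) = |M - Real.log r₂| + 1 := by
        field_simp
      have k5 := le_abs_self (M - Real.log r₂)
      linarith
    have k2 : (d * c (τ, r₂) - u (τ, r₂)) / r₂ < 1 := by
      unfold sv at k1
      simp only at k1
      linarith
    rw [div_lt_one p1] at k2
    have k3 : 2 * c₀ ≤ d * c (τ, r₂) :=
      mul_le_mul hd2 (clow τ r₂ (by rw [abs_of_pos p1]; exact p2)) c0.le hd0.le
    linarith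
  -- the mass leaves
  obtain ⟨κ, hκ⟩ : ∃ κ, κ = r₂ ^ (k + 1) * (m₀ * c₀ / 2) := ⟨_, rfl⟩
  have hκ0 : 0 < κ := by rw [hκ]; positivity
  have hz0 : ∀ τ, rayMass R e (k + 1) (τ, 0) = 0 := fun τ => by simp [rayMass]
  have hmb : ∀ τ, 0 ≤ rayMass R e (k + 1) (τ, r₂) ∧
      rayMass R e (k + 1) (τ, r₂) ≤ M₂ * r₂ ^ (k + 2) := by
    intro τ
    obtain ⟨k1, k2⟩ := hmM₂ τ 0 r₂ le_rfl p1.le p2
    rw [hz0, sub_zero, zero_pow (by omega), sub_zero] at k1 k2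
    exact ⟨le_trans (by positivity) k1, k2⟩
  have hder : ∀ τ, HasDerivAt (fun τ => rayMass R e (k + 1) (τ, r₂))
      (d * (1 - 2 * b) * rayMass R e (k + 1) (τ, r₂) -
        ((1 - b) * r₂ + u (τ, r₂)) * (R τ (r₂ • e) * r₂ ^ (k + 1))) τ := by
    intro τ
    obtain ⟨N', hN', hN1⟩ := hmass (τ, r₂) p1
    have k1 := hN'.comp_hasDerivAt τ ((hasDerivAt_id' τ).prodMk (hasDerivAt_const τ r₂))
    refine k1.congr_deriv ?_
    rw [hN1]
    simp only [hu]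
    ring
  have hle : ∀ τ, τ₃ ≤ τ → d * (1 - 2 * b) * rayMass R e (k + 1) (τ, r₂) -
        ((1 - b) * r₂ + u (τ, r₂)) * (R τ (r₂ • e) * r₂ ^ (k + 1)) ≤ -κ := by
    intro τ hτ
    obtain ⟨q1, q2⟩ := hmb τ
    have q3 := hfast τ hτ
    have q4 : m₀ ≤ R τ (r₂ • e) := (hM₀ τ (r₂ • e) (by rw [ne, abs_of_pos p1]; exact p2)).1
    have q5 : 0 < r₂ ^ (k + 1) := by positivity
    have e1 : d * (1 - 2 * b) * rayMass R e (k + 1) (τ, r₂) ≤
        d * rayMass R e (k + 1) (τ, r₂) := by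
      have : d * (1 - 2 * b) ≤ d * 1 := mul_le_mul_of_nonneg_left (by linarith) hd0.le
      have := mul_le_mul_of_nonneg_right this q1
      linarith
    have e2 : d * rayMass R e (k + 1) (τ, r₂) ≤ d * (M₂ * r₂ ^ (k + 2)) :=
      mul_le_mul_of_nonneg_left q2 hd0.le
    have e3 : d * (M₂ * r₂ ^ (k + 2)) = r₂ ^ (k + 1) * (d * M₂ * r₂) := by ring
    have e4 : r₂ ^ (k + 1) * (d * M₂ * r₂) ≤ r₂ ^ (k + 1) * (m₀ * c₀ / 2) :=
      mul_le_mul_of_nonneg_left p5 q5.le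
    have e5 : c₀ * (m₀ * r₂ ^ (k + 1)) ≤
        ((1 - b) * r₂ + u (τ, r₂)) * (R τ (r₂ • e) * r₂ ^ (k + 1)) := by
      have k1 : 0 ≤ (1 - b) * r₂ := by positivity
      exact mul_le_mul (by linarith) (mul_le_mul_of_nonneg_right q4 q5.le) (by positivity)
        (by linarith)
    rw [hκ]
    linarith
  have hmv := Convex.image_sub_le_mul_sub_of_deriv_le (D := Ici τ₃) (convex_Ici τ₃)
    (f := fun τ => rayMass R e (k + 1) (τ, r₂))
    (fun τ _ => (hder τ).continuousAt.continuousWithinAt)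
    (fun τ _ => (hder τ).differentiableAt.differentiableWithinAt) (C := -κ)
    (fun τ hτ => by rw [(hder τ).deriv]; exact hle τ (interior_subset hτ))
  obtain ⟨τ₄, hτ₄⟩ : ∃ τ₄, τ₄ = τ₃ + (rayMass R e (k + 1) (τ₃, r₂) + 1) / κ := ⟨_, rfl⟩
  have k0 := (hmb τ₃).1
  have k1 : τ₃ ≤ τ₄ := by
    rw [hτ₄]
    have : 0 ≤ (rayMass R e (k + 1) (τ₃, r₂) + 1) / κ := by positivity
    linarith
  have k2 := hmv τ₃ self_mem_Ici τ₄ k1 k1
  have k3 : -κ * (τ₄ - τ₃) = -(rayMass R e (k + 1) (τ₃, r₂) + 1) := by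
    rw [hτ₄]; field_simp; ring
  have k4 := (hmb τ₄).1
  simp only [k3] at k2
  linarith

end flow

end Pool.Agent.H49.BZ
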