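import Pool.Agent.H49.BZ.RadEnt
import Pool.Agent.H49.BZ.Strict

open Set Filter Topology MeasureTheory
open scoped RealInnerProductSpace

namespace Pool.Agent.H49.BZ

variable {d : ℕ} {B : ℝ → ℝ → ℝ} {T : ℝ} {f : ℝ → E d → E d → ℝ}

/-- The embedding of a ray. -/
noncomputable def rayMap (e : E d) : ℝ × ℝ →L[ℝ] ℝ × E d :=
  (ContinuousLinearMap.fst ℝ ℝ ℝ).prod ((ContinuousLinearMap.snd ℝ ℝ ℝ).smulRight e)

lemma ray_deriv {g : ℝ → E d → ℝ} (hg : ContDiff ℝ 1 (fun p : ℝ × E d => g p.1 p.2)) (e : E d)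
    (p : ℝ × ℝ) : ∃ g' : ℝ × ℝ →L[ℝ] ℝ, HasFDerivAt (fun p : ℝ × ℝ => g p.1 (p.2 • e)) g' p ∧
      (∀ v : ℝ, g' (1, v) = dt g p.1 (p.2 • e) + fderiv ℝ (g p.1) (p.2 • e) (v • e)) ∧
      (∀ v : ℝ, g' (0, v) = fderiv ℝ (g p.1) (p.2 • e) (v • e)) := by
  have h1 := (hg.differentiable (by norm_num) (p.1, p.2 • e)).hasFDerivAt
  have h2 : HasFDerivAt (fun p : ℝ × ℝ => ((p.1, p.2 • e) : ℝ × E d)) (rayMap e) p :=
    (rayMap e).hasFDerivAt
  have h3 := h1.comp p h2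
  have h4 : ∀ v : ℝ, ((fderiv ℝ (fun p : ℝ × E d => g p.1 p.2) (p.1, p.2 • e)).comp (rayMap e))
      (1, v) = dt g p.1 (p.2 • e) + fderiv ℝ (g p.1) (p.2 • e) (v • e) := fun v =>
    joint hg p.1 (p.2 • e) (v • e)
  refine ⟨_, h3, h4, fun v => ?_⟩
  have h5 : ((0 : ℝ), v) = (1, v) - (1, 0) := by ext <;> simp
  rw [h5, map_sub, h4, h4]
  simp

/-- The divergence of a field which is radial near a ray. -/
lemma dvg_radial {U : E d → E d} {e : E d} (he : ‖e‖ = 1) {r : ℝ} (hr : r ≠ 0)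
    (hU : ∀ i, DifferentiableAt ℝ (fun y => U y i) (r • e))
    (hUe : DifferentiableAt ℝ (fun y => ⟪U y, e⟫) (r • e))
    (hrad : ∀ᶠ y in 𝓝 (r • e), ∃ w : ℝ, U y = w • y) :
    dvg U (r • e) = fderiv ℝ (fun y => ⟪U y, e⟫) (r • e) e +
      (d - 1) * (⟪U (r • e), e⟫ / r) := by
  set y : E d := r • e with hy
  have hye : ⟪y, e⟫ = r := by
    rw [hy, real_inner_smul_left, real_inner_self_eq_norm_sq, he]; ring
  have key : ∀ k : Fin d, e k * U y k + r * fderiv ℝ (fun y => U y k) y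
      (EuclideanSpace.single k 1) = ⟪U y, e⟫ + y k * fderiv ℝ (fun y => ⟪U y, e⟫) y
      (EuclideanSpace.single k 1) := by
    intro k
    have p0 : HasFDerivAt (fun z : E d => ⟪z, e⟫) (innerSL ℝ e) y := by
      have := (innerSL ℝ e).hasFDerivAt (x := y)
      refine this.congr_of_eventuallyEq (Eventually.of_forall fun z => ?_)
      simp only [innerSL_apply_apply]
      exact real_inner_comm _ _
    have pk : HasFDerivAt (fun z : E d => z k) (EuclideanSpace.proj k : E d →L[ℝ] ℝ) y :=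
      (EuclideanSpace.proj k : E d →L[ℝ] ℝ).hasFDerivAt
    have h2 := p0.fun_mul (hU k).hasFDerivAt
    have h3 := pk.fun_mul hUe.hasFDerivAt
    have h4 : (fun z : E d => ⟪z, e⟫ * U z k) =ᶠ[𝓝 y] fun z => z k * ⟪U z, e⟫ := by
      filter_upwards [hrad] with z hz
      obtain ⟨w, hw⟩ := hz
      rw [hw, real_inner_smul_left]
      simp only [PiLp.smul_apply, smul_eq_mul]
      ring
    have h5 := congrArg (fun L : E d →L[ℝ] ℝ => L (EuclideanSpace.single k 1))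
      (h2.unique (h3.congr_of_eventuallyEq h4))
    have pa : ∀ (i : Fin d) (v : E d), (EuclideanSpace.proj i : E d →L[ℝ] ℝ) v = v i :=
      fun _ _ => rfl
    simp only [ContinuousLinearMap.add_apply, ContinuousLinearMap.smul_apply, smul_eq_mul,
      pa, innerSL_apply_apply, EuclideanSpace.inner_single_right, hye] at h5
    have h7 : (EuclideanSpace.single k (1 : ℝ) : E d) k = 1 := by simp
    rw [h7] at h5
    simp only [conj_trivial, one_mul, mul_one] at h5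
    linarith
  have hsum := Finset.sum_congr (rfl : (Finset.univ : Finset (Fin d)) = Finset.univ)
    fun k _ => key k
  rw [Finset.sum_add_distrib, Finset.sum_add_distrib, ← Finset.mul_sum, sum_clm'] at hsum
  have e1 : ∑ k, e k * U y k = ⟪U y, e⟫ := by
    rw [PiLp.inner_apply]
    exact Finset.sum_congr rfl fun k _ => by simp
  have e2 : fderiv ℝ (fun y => ⟪U y, e⟫) y y = r * fderiv ℝ (fun y => ⟪U y, e⟫) y e := by
    conv_lhs => rw [hy]
    rw [map_smul, smul_eq_mul, ← hy]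
  rw [e1, e2] at hsum
  simp only [Finset.sum_const, Finset.card_univ, Fintype.card_fin, nsmul_eq_mul] at hsum
  unfold dvg
  field_simp
  linear_combination hsum

section flow

variable {γ : ℝ} {x₀ : E d} {a b : ℝ} {s : ℕ → ℝ} {R Θ : ℝ → E d → ℝ} {U : ℝ → E d → E d}
  (hf : IsSolution B T f) (hT : 0 < T) (h : IsEulerFlow γ T f x₀ a b s R U Θ)

lemma smooth_inner {U : ℝ → E d → E d} (hU : ContDiff ℝ 1 (fun p : ℝ × E d => U p.1 p.2))
    (e : E d) : ContDiff ℝ 1 (fun p : ℝ × E d => (fun τ y => ⟪U τ y, e⟫) p.1 p.2) :=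
  hU.inner ℝ contDiff_const

lemma inner_deriv {X : Type*} [NormedAddCommGroup X] [NormedSpace ℝ X] {F : X → E d} {x : X}
    (hF : DifferentiableAt ℝ F x) (e : E d) (v : X) :
    fderiv ℝ (fun x => ⟪F x, e⟫) x v = ∑ i, e i * fderiv ℝ (fun x => F x i) x v := by
  have h1 : ∀ i : Fin d, fderiv ℝ (fun x => F x i) x v = fderiv ℝ F x v i := by
    intro i
    have := ((EuclideanSpace.proj i : E d →L[ℝ] ℝ).hasFDerivAt).comp x hF.hasFDerivAt
    have h2 : HasFDerivAt (fun x => F x i)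
        ((EuclideanSpace.proj i : E d →L[ℝ] ℝ).comp (fderiv ℝ F x)) x := this
    rw [h2.fderiv]
    rfl
  have h3 : HasFDerivAt (fun x => ⟪F x, e⟫) ((innerSL ℝ e).comp (fderiv ℝ F x)) x := by
    have := ((innerSL ℝ e).hasFDerivAt (x := F x)).comp x hF.hasFDerivAt
    refine this.congr_of_eventuallyEq (Eventually.of_forall fun z => ?_)
    exact real_inner_comm _ _
  rw [h3.fderiv, ContinuousLinearMap.comp_apply, innerSL_apply_apply, PiLp.inner_apply]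
  refine Finset.sum_congr rfl fun i _ => ?_
  rw [h1]
  simp [mul_comm]

include hf hT h

/-- The momentum equation in a direction. -/
lemma flow_momentum_dir (e : E d) (τ : ℝ) (y : E d) :
    R τ y * (b * ⟪U τ y, e⟫ + dt (fun τ y => ⟪U τ y, e⟫) τ y +
      fderiv ℝ (fun y => ⟪U τ y, e⟫) y ((1 - b) • y + U τ y)) +
      (fderiv ℝ (R τ) y e * Θ τ y + R τ y * fderiv ℝ (Θ τ) y e) = 0 := by
  have dU : DifferentiableAt ℝ (fun p : ℝ × E d => U p.1 p.2) (τ, y) :=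
    h.smooth_U.differentiable (by norm_num) _
  have dUτ : DifferentiableAt ℝ (U τ) y := by
    have : ContDiff ℝ 1 (U τ) :=
      h.smooth_U.comp (contDiff_const.prodMk contDiff_id : ContDiff ℝ 1 fun y : E d => (τ, y))
    exact this.differentiable (by norm_num) _
  have e1 : dt (fun τ y => ⟪U τ y, e⟫) τ y = ∑ i, e i * dt (fun τ y => U τ y i) τ y :=
    inner_deriv dU e (1, 0)
  have e2 : ⟪U τ y, e⟫ = ∑ i, e i * U τ y i := by
    rw [PiLp.inner_apply]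
    exact Finset.sum_congr rfl fun i _ => by simp
  rw [e1, inner_deriv dUτ e, e2, ← sum_clm' (fderiv ℝ (R τ) y) e,
    ← sum_clm' (fderiv ℝ (Θ τ) y) e]
  have hs := Finset.sum_eq_zero (s := (Finset.univ : Finset (Fin d)))
    fun i _ => mul_eq_zero_of_right (e i) (flow_momentum hf hT h i τ y)
  rw [← hs]
  simp only [Finset.mul_sum, Finset.sum_mul, ← Finset.sum_add_distrib]
  exact Finset.sum_congr rfl fun i _ => by ring

omit hf hT h in
/-- The velocity along a ray. -/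
lemma ray_field {e : E d} (he : ‖e‖ = 1)
    (hrad : ∀ τ r : ℝ, 0 < r → ∀ᶠ y in 𝓝 (r • e), ∃ w : ℝ, U τ y = w • y) (b : ℝ) (p : ℝ × ℝ)
    (hp : 0 < p.2) : (1 - b) • (p.2 • e) + U p.1 (p.2 • e) =
      ((1 - b) * p.2 + ⟪U p.1 (p.2 • e), e⟫) • e := by
  obtain ⟨w, hw⟩ := (hrad p.1 p.2 hp).self_of_nhds
  have : ⟪U p.1 (p.2 • e), e⟫ = w * p.2 := by
    rw [hw, real_inner_smul_left, real_inner_smul_left, real_inner_self_eq_norm_sq, he]
    ring
  rw [this, hw, smul_smul, smul_smul, ← add_smul]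

/-- The entropy along a ray. -/
noncomputable def rayEnt (R Θ : ℝ → E d → ℝ) (e : E d) (p : ℝ × ℝ) : ℝ :=
  Real.log (R p.1 (p.2 • e)) - d / 2 * Real.log (Θ p.1 (p.2 • e))

omit hf hT in
lemma rayEnt_smooth (e : E d) : ContDiff ℝ 1 (rayEnt R Θ e) := by
  have h1 : ContDiff ℝ 1 fun p : ℝ × ℝ => ((p.1, p.2 • e) : ℝ × E d) := (rayMap e).contDiff
  have h2 : ContDiff ℝ 1 fun p : ℝ × ℝ => R p.1 (p.2 • e) := h.smooth_R.comp h1
  have h3 : ContDiff ℝ 1 fun p : ℝ × ℝ => Θ p.1 (p.2 • e) := h.smooth_Θ.comp h1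
  exact (h2.log fun p => (pos_R h _ _).ne').sub
    (contDiff_const.mul (h3.log fun p => (pos_Θ h _ _).ne'))

omit hf hT in
lemma rayEnt_deriv (e : E d) (p : ℝ × ℝ) : ∃ S' : ℝ × ℝ →L[ℝ] ℝ,
    HasFDerivAt (rayEnt R Θ e) S' p ∧
    (∀ v : ℝ, S' (1, v) = (dt R p.1 (p.2 • e) + fderiv ℝ (R p.1) (p.2 • e) (v • e)) /
        R p.1 (p.2 • e) -
      d / 2 * ((dt Θ p.1 (p.2 • e) + fderiv ℝ (Θ p.1) (p.2 • e) (v • e)) /
        Θ p.1 (p.2 • e))) ∧
    S' (0, 1) = fderiv ℝ (R p.1) (p.2 • e) e / R p.1 (p.2 • e) -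
      d / 2 * (fderiv ℝ (Θ p.1) (p.2 • e) e / Θ p.1 (p.2 • e)) := by
  obtain ⟨R', hR', r1, r2⟩ := ray_deriv h.smooth_R e p
  obtain ⟨Θ', hΘ', t1, t2⟩ := ray_deriv h.smooth_Θ e p
  refine ⟨_, (hR'.log (pos_R h _ _).ne').fun_sub ((hΘ'.log (pos_Θ h _ _).ne').const_mul
    ((d : ℝ) / 2)), fun v => ?_, ?_⟩
  · simp only [ContinuousLinearMap.sub_apply, ContinuousLinearMap.smul_apply, smul_eq_mul, r1, t1]
    ring
  · simp only [ContinuousLinearMap.sub_apply, ContinuousLinearMap.smul_apply, smul_eq_mul, r2, t2,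
      one_smul]
    ring

/-- The entropy is transported. -/
lemma rayEnt_transport (hd : 0 < d) {e : E d} (he : ‖e‖ = 1)
    (hrad : ∀ τ r : ℝ, 0 < r → ∀ᶠ y in 𝓝 (r • e), ∃ w : ℝ, U τ y = w • y)
    (p : ℝ × ℝ) (hp : 0 < p.2) : fderiv ℝ (rayEnt R Θ e) p
      (1, (1 - b) * p.2 + ⟪U p.1 (p.2 • e), e⟫) = 0 := by
  obtain ⟨S', hS', s1, -⟩ := rayEnt_deriv h e p
  rw [hS'.fderiv, s1]
  have ha := flow_a_eq hf hT h hd
  have hd' : (d : ℝ) ≠ 0 := by positivity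
  have hV := ray_field he hrad b p hp
  set y : E d := p.2 • e with hy
  have m := flow_mass hf hT h p.1 y
  have en := flow_energy hf hT h p.1 y
  rw [hV] at m en
  have p1 := (pos_R h p.1 y).ne'
  have p2 := (pos_Θ h p.1 y).ne'
  rw [ha] at m
  have e' : d * (2 * b * Θ p.1 y + dt Θ p.1 y + fderiv ℝ (Θ p.1) y
      (((1 - b) * p.2 + ⟪U p.1 y, e⟫) • e)) +
      2 * Θ p.1 y * dvg (U p.1) y = 0 := by
    apply mul_left_cancel₀ p1
    rw [mul_zero]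
    linear_combination en
  field_simp
  linear_combination 2 * Θ p.1 y * m - R p.1 y * e'

/-- The flow along a ray, if the velocity is radial near the ray. -/
lemma to_ray (hd : 2 ≤ d) {e : E d} (he : ‖e‖ = 1)
    (hrad : ∀ τ r : ℝ, 0 < r → ∀ᶠ y in 𝓝 (r • e), ∃ w : ℝ, U τ y = w • y) :
    RayFlow d b (fun p => √((d + 2) / d * Θ p.1 (p.2 • e))) (fun p => ⟪U p.1 (p.2 • e), e⟫)
      (fun p => Θ p.1 (p.2 • e) * fderiv ℝ (rayEnt R Θ e) p (0, 1)) := by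
  have hd0 : (0 : ℝ) < d := by positivity
  have hV : ∀ p : ℝ × ℝ, 0 < p.2 → _ := fun p hp => ray_field he hrad b p hp
  have hE : ∀ p : ℝ × ℝ, _ := fun p => rayEnt_deriv h e p
  have hk : (0 : ℝ) < (d + 2) / d := by positivity
  have pk : ∀ τ y, 0 < (d + 2) / d * Θ τ y := fun τ y => mul_pos hk (pos_Θ h τ y)
  have hsq : ∀ p : ℝ × ℝ, ∃ c' : ℝ × ℝ →L[ℝ] ℝ,
      HasFDerivAt (fun p : ℝ × ℝ => √((d + 2) / d * Θ p.1 (p.2 • e))) c' p ∧
      (∀ v : ℝ, c' (1, v) = 1 / (2 * √((d + 2) / d * Θ p.1 (p.2 • e))) * ((d + 2) / d *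
        (dt Θ p.1 (p.2 • e) + fderiv ℝ (Θ p.1) (p.2 • e) (v • e)))) ∧
      (∀ v : ℝ, c' (0, v) = 1 / (2 * √((d + 2) / d * Θ p.1 (p.2 • e))) * ((d + 2) / d *
        fderiv ℝ (Θ p.1) (p.2 • e) (v • e))) := by
    intro p
    obtain ⟨g', hg', g1, g2⟩ := ray_deriv h.smooth_Θ e p
    refine ⟨_, (hg'.const_mul ((d + 2) / d : ℝ)).sqrt (pk _ _).ne', fun v => ?_, fun v => ?_⟩
    · simp only [ContinuousLinearMap.smul_apply, smul_eq_mul, g1]
    · simp only [ContinuousLinearMap.smul_apply, smul_eq_mul, g2]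
  have sUe := smooth_inner h.smooth_U e
  have hdvg : ∀ p : ℝ × ℝ, 0 < p.2 → dvg (U p.1) (p.2 • e) =
      fderiv ℝ (fun y => ⟪U p.1 y, e⟫) (p.2 • e) e +
        (d - 1) * (⟪U p.1 (p.2 • e), e⟫ / p.2) := fun p hp =>
    dvg_radial he hp.ne' (fun i => (slice (g := fun τ y => U τ y i)
      (smooth_coord h.smooth_U i) p.1 (p.2 • e)).1)
      ((slice (g := fun τ y => ⟪U τ y, e⟫) sUe p.1 (p.2 • e)).1) (hrad p.1 p.2 hp)
  refine ⟨fun p => ?_, fun p => ?_, fun p => Real.sqrt_pos.2 (pk _ _), fun p hp => ?_,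
    fun p hp => ?_⟩
  · obtain ⟨c', hc', -, -⟩ := hsq p
    exact hc'.differentiableAt
  · obtain ⟨u', hu', -, -⟩ := ray_deriv (g := fun τ y => ⟪U τ y, e⟫) sUe e p
    exact hu'.differentiableAt
  · obtain ⟨c', hc', c1, c2⟩ := hsq p
    obtain ⟨u', hu', u1, u2⟩ := ray_deriv (g := fun τ y => ⟪U τ y, e⟫) sUe e p
    rw [hc'.fderiv, hu'.fderiv, c1, u2]
    have en := flow_energy hf hT h p.1 (p.2 • e)
    rw [hV p hp, hdvg p hp] at en
    have q0 := Real.sqrt_pos.2 (pk p.1 (p.2 • e))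
    have q1 := Real.sq_sqrt (pk p.1 (p.2 • e)).le
    have pR := pos_R h p.1 (p.2 • e)
    have pΘ := pos_Θ h p.1 (p.2 • e)
    simp only [one_smul]
    set q := √((d + 2) / d * Θ p.1 (p.2 • e)) with hq
    have en' : d * (2 * b * Θ p.1 (p.2 • e) + dt Θ p.1 (p.2 • e) + fderiv ℝ (Θ p.1) (p.2 • e)
        (((1 - b) * p.2 + ⟪U p.1 (p.2 • e), e⟫) • e)) + 2 * (Θ p.1 (p.2 • e) *
        (fderiv ℝ (fun y => ⟪U p.1 y, e⟫) (p.2 • e) e +
          (d - 1) * (⟪U p.1 (p.2 • e), e⟫ / p.2))) = 0 := by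
      apply mul_left_cancel₀ pR.ne'
      rw [mul_zero]
      linear_combination en
    have hΘ : Θ p.1 (p.2 • e) = q ^ 2 * d / (d + 2) := by
      rw [q1]; field_simp
    have hX : dt Θ p.1 (p.2 • e) + fderiv ℝ (Θ p.1) (p.2 • e)
        (((1 - b) * p.2 + ⟪U p.1 (p.2 • e), e⟫) • e) = -(2 * b * Θ p.1 (p.2 • e)) -
        2 / d * (Θ p.1 (p.2 • e) * (fderiv ℝ (fun y => ⟪U p.1 y, e⟫) (p.2 • e) e +
          (d - 1) * (⟪U p.1 (p.2 • e), e⟫ / p.2))) := by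
      field_simp at en' ⊢
      linear_combination en'
    rw [hX, hΘ]
    have q0' := q0.ne'
    have hp' := hp.ne'
    field_simp
    ring
  · obtain ⟨c', hc', c1, c2⟩ := hsq p
    obtain ⟨u', hu', u1, u2⟩ := ray_deriv (g := fun τ y => ⟪U τ y, e⟫) sUe e p
    obtain ⟨S', hS', -, s2⟩ := hE p
    rw [hc'.fderiv, hu'.fderiv, hS'.fderiv, c2, u1, s2]
    have mo := flow_momentum_dir hf hT h e p.1 (p.2 • e)
    rw [hV p hp] at mo
    have q0 := Real.sqrt_pos.2 (pk p.1 (p.2 • e))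
    have q1 := Real.sq_sqrt (pk p.1 (p.2 • e)).le
    have pR := pos_R h p.1 (p.2 • e)
    have pΘ := pos_Θ h p.1 (p.2 • e)
    simp only [one_smul]
    set q := √((d + 2) / d * Θ p.1 (p.2 • e)) with hq
    apply mul_left_cancel₀ pR.ne'
    rw [mul_zero]
    have e1 : R p.1 (p.2 • e) * (d * q * (1 / (2 * q) * ((d + 2) / d *
        fderiv ℝ (Θ p.1) (p.2 • e) e)) + Θ p.1 (p.2 • e) *
        (fderiv ℝ (R p.1) (p.2 • e) e / R p.1 (p.2 • e) - d / 2 *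
        (fderiv ℝ (Θ p.1) (p.2 • e) e / Θ p.1 (p.2 • e)))) =
        Θ p.1 (p.2 • e) * fderiv ℝ (R p.1) (p.2 • e) e +
        R p.1 (p.2 • e) * fderiv ℝ (Θ p.1) (p.2 • e) e := by
      have q0' := q0.ne'
      have pR' := pR.ne'
      have pΘ' := pΘ.ne'
      field_simp
      ring
    rw [add_assoc, mul_add, e1]
    linear_combination mo

/-- The mass of a sector. -/
noncomputable def rayMass (R : ℝ → E d → ℝ) (e : E d) (k : ℕ) (p : ℝ × ℝ) : ℝ :=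
  ∫ ρ in (0 : ℝ)..p.2, R p.1 (ρ • e) * ρ ^ k

/-- The equation of the mass of a sector. -/
lemma rayMass_deriv {e : E d} (he : ‖e‖ = 1)
    (hrad : ∀ τ r : ℝ, 0 < r → ∀ᶠ y in 𝓝 (r • e), ∃ w : ℝ, U τ y = w • y) {k : ℕ}
    (hk : d = k + 2) (p : ℝ × ℝ) (hp : 0 < p.2) : ∃ L : ℝ × ℝ →L[ℝ] ℝ,
    HasFDerivAt (rayMass R e (k + 1)) L p ∧
    ∀ v : ℝ, L (1, v) = d * (1 - 2 * b) * rayMass R e (k + 1) p +
      (v - ((1 - b) * p.2 + ⟪U p.1 (p.2 • e), e⟫)) *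
        (R p.1 (p.2 • e) * p.2 ^ (k + 1)) := by
  have hd : 0 < d := by omega
  have hdk : (d : ℝ) = k + 2 := by rw [hk]; push_cast; ring
  have ha := flow_a_eq hf hT h hd
  have hV : ∀ p : ℝ × ℝ, 0 < p.2 → _ := fun p hp => ray_field he hrad b p hp
  set g : ℝ × ℝ → ℝ := fun p => R p.1 (p.2 • e) * p.2 ^ (k + 1) with hg
  have h1 : ContDiff ℝ 1 fun p : ℝ × ℝ => ((p.1, p.2 • e) : ℝ × E d) := (rayMap e).contDiff
  have h2 : ContDiff ℝ 1 fun p : ℝ × ℝ => R p.1 (p.2 • e) := h.smooth_R.comp h1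
  have hgs : ContDiff ℝ 1 g := h2.mul (contDiff_snd.pow _)
  have sUe := smooth_inner h.smooth_U e
  have hus : ContDiff ℝ 1 fun p : ℝ × ℝ => ⟪U p.1 (p.2 • e), e⟫ := sUe.comp h1
  obtain ⟨L, hL, hL1⟩ := prim_deriv hgs p
  refine ⟨L, hL, fun v => ?_⟩
  rw [hL1]
  -- the local identity
  set W : ℝ × ℝ → ℝ := fun q => (1 - b) * q.2 + ⟪U q.1 (q.2 • e), e⟫ with hW
  have hG : ∀ ρ : ℝ, HasDerivAt (fun ρ => g (p.1, ρ) * W (p.1, ρ))
      (fderiv ℝ g (p.1, ρ) (0, 1) * W (p.1, ρ) + g (p.1, ρ) * ((1 - b) +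
        fderiv ℝ (fun q : ℝ × ℝ => ⟪U q.1 (q.2 • e), e⟫) (p.1, ρ) (0, 1))) ρ := by
    intro ρ
    have k0 : HasDerivAt (fun ρ : ℝ => (p.1, ρ)) ((0 : ℝ), (1 : ℝ)) ρ :=
      (hasDerivAt_const ρ p.1).prodMk (hasDerivAt_id' ρ)
    have k1 : HasDerivAt (fun ρ => g (p.1, ρ)) (fderiv ℝ g (p.1, ρ) (0, 1)) ρ :=
      (hgs.differentiable (by norm_num) (p.1, ρ)).hasFDerivAt.comp_hasDerivAt ρ k0
    have k2 : HasDerivAt (fun ρ : ℝ => ⟪U p.1 (ρ • e), e⟫)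
        (fderiv ℝ (fun q : ℝ × ℝ => ⟪U q.1 (q.2 • e), e⟫) (p.1, ρ) (0, 1)) ρ :=
      (hus.differentiable (by norm_num) (p.1, ρ)).hasFDerivAt.comp_hasDerivAt ρ k0
    have k3 : HasDerivAt (fun ρ => W (p.1, ρ)) ((1 - b) +
        fderiv ℝ (fun q : ℝ × ℝ => ⟪U q.1 (q.2 • e), e⟫) (p.1, ρ) (0, 1)) ρ := by
      have := ((hasDerivAt_id' ρ).const_mul (1 - b)).fun_add k2
      rwa [mul_one] at this
    exact k1.fun_mul k3
  have hloc : ∀ ρ : ℝ, 0 < ρ → fderiv ℝ g (p.1, ρ) (1, 0) =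
      d * (1 - 2 * b) * g (p.1, ρ) - (fderiv ℝ g (p.1, ρ) (0, 1) * W (p.1, ρ) + g (p.1, ρ) *
        ((1 - b) + fderiv ℝ (fun q : ℝ × ℝ => ⟪U q.1 (q.2 • e), e⟫) (p.1, ρ) (0, 1))) := by
    intro ρ hρ
    obtain ⟨R', hR', r1, r2⟩ := ray_deriv h.smooth_R e (p.1, ρ)
    obtain ⟨u', hu', u1, u2⟩ := ray_deriv (g := fun τ y => ⟪U τ y, e⟫) sUe e (p.1, ρ)
    have hsnd : HasFDerivAt (fun q : ℝ × ℝ => q.2 ^ (k + 1))
        ((((k + 1 : ℕ) : ℝ) * ρ ^ k) • ContinuousLinearMap.snd ℝ ℝ ℝ) (p.1, ρ) := by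
      have k0 : HasFDerivAt (fun q : ℝ × ℝ => q.2) (ContinuousLinearMap.snd ℝ ℝ ℝ) (p.1, ρ) :=
        hasFDerivAt_snd
      exact HasDerivAt.comp_hasFDerivAt (h₂ := fun x : ℝ => x ^ (k + 1)) (p.1, ρ)
        (hasDerivAt_pow (k + 1) ρ) k0
    have hgd := hR'.fun_mul hsnd
    have sp : fderiv ℝ g (p.1, ρ) (1, W (p.1, ρ)) = fderiv ℝ g (p.1, ρ) (1, 0) +
        W (p.1, ρ) * fderiv ℝ g (p.1, ρ) (0, 1) := by
      have := ray_split (fderiv ℝ g (p.1, ρ)) 0 (W (p.1, ρ))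
      rwa [zero_add] at this
    have gD : fderiv ℝ g (p.1, ρ) (1, W (p.1, ρ)) = R p.1 (ρ • e) *
        (((k + 1 : ℕ) : ℝ) * ρ ^ k * W (p.1, ρ)) + ρ ^ (k + 1) * (dt R p.1 (ρ • e) +
          fderiv ℝ (R p.1) (ρ • e) (W (p.1, ρ) • e)) := by
      rw [hgd.fderiv]
      simp only [ContinuousLinearMap.add_apply, ContinuousLinearMap.smul_apply, smul_eq_mul,
        ContinuousLinearMap.coe_snd', r1]
    have uD : fderiv ℝ (fun q : ℝ × ℝ => ⟪U q.1 (q.2 • e), e⟫) (p.1, ρ) (0, 1) =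
        fderiv ℝ (fun y => ⟪U p.1 y, e⟫) (ρ • e) e := by
      rw [hu'.fderiv, u2, one_smul]
    have m := flow_mass hf hT h p.1 (ρ • e)
    have hVρ := hV (p.1, ρ) hρ
    simp only at hVρ
    rw [hVρ, dvg_radial he hρ.ne' (fun i => (slice (g := fun τ y => U τ y i)
      (smooth_coord h.smooth_U i) p.1 (ρ • e)).1)
      ((slice (g := fun τ y => ⟪U τ y, e⟫) sUe p.1 (ρ • e)).1) (hrad p.1 ρ hρ), ha] at m
    have wv : W (p.1, ρ) = (1 - b) * ρ + ⟪U p.1 (ρ • e), e⟫ := rfl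
    have gv : g (p.1, ρ) = R p.1 (ρ • e) * ρ ^ (k + 1) := rfl
    rw [uD]
    have key : fderiv ℝ g (p.1, ρ) (1, W (p.1, ρ)) + g (p.1, ρ) * ((1 - b) +
        fderiv ℝ (fun y => ⟪U p.1 y, e⟫) (ρ • e) e) = d * (1 - 2 * b) * g (p.1, ρ) := by
      rw [gD, gv]
      rw [← wv] at m
      have m' : dt R p.1 (ρ • e) + fderiv ℝ (R p.1) (ρ • e) (W (p.1, ρ) • e) =
          -(d * b * R p.1 (ρ • e)) - R p.1 (ρ • e) *
          (fderiv ℝ (fun y => ⟪U p.1 y, e⟫) (ρ • e) e +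
            (d - 1) * (⟪U p.1 (ρ • e), e⟫ / ρ)) := by linarith
      rw [m', wv, hdk]
      push_cast
      have hρ' := hρ.ne'
      field_simp
      ring
    rw [sp] at key
    linarith
  have g0 : g (p.1, 0) = 0 := by simp [hg]
  have gcont : Continuous fun ρ : ℝ => g (p.1, ρ) :=
    hgs.continuous.comp (by fun_prop : Continuous fun ρ : ℝ => (p.1, ρ))
  have wcont : Continuous fun ρ : ℝ => W (p.1, ρ) :=
    ((continuous_const.mul continuous_snd).add hus.continuous).comp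
      (by fun_prop : Continuous fun ρ : ℝ => (p.1, ρ))
  have gd1 : Continuous fun ρ : ℝ => fderiv ℝ g (p.1, ρ) ((0 : ℝ), (1 : ℝ)) :=
    ((hgs.continuous_fderiv (by norm_num)).clm_apply continuous_const).comp
      (by fun_prop : Continuous fun ρ : ℝ => (p.1, ρ))
  have ud1 : Continuous fun ρ : ℝ =>
      fderiv ℝ (fun q : ℝ × ℝ => ⟪U q.1 (q.2 • e), e⟫) (p.1, ρ) ((0 : ℝ), (1 : ℝ)) :=
    ((hus.continuous_fderiv (by norm_num)).clm_apply continuous_const).comp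
      (by fun_prop : Continuous fun ρ : ℝ => (p.1, ρ))
  have Gcont : Continuous fun ρ : ℝ => fderiv ℝ g (p.1, ρ) (0, 1) * W (p.1, ρ) + g (p.1, ρ) *
      ((1 - b) + fderiv ℝ (fun q : ℝ × ℝ => ⟪U q.1 (q.2 • e), e⟫) (p.1, ρ) (0, 1)) :=
    (gd1.mul wcont).add (gcont.mul (continuous_const.add ud1))
  have ftc := intervalIntegral.integral_eq_sub_of_hasDerivAt (a := 0) (b := p.2)
    (fun ρ _ => hG ρ) (Gcont.intervalIntegrable _ _)
  have hint : ∫ ρ in (0 : ℝ)..p.2, fderiv ℝ g (p.1, ρ) (1, 0) =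
      ∫ ρ in (0 : ℝ)..p.2, (d * (1 - 2 * b) * g (p.1, ρ) - (fderiv ℝ g (p.1, ρ) (0, 1) *
        W (p.1, ρ) + g (p.1, ρ) * ((1 - b) +
          fderiv ℝ (fun q : ℝ × ℝ => ⟪U q.1 (q.2 • e), e⟫) (p.1, ρ) (0, 1)))) := by
    refine intervalIntegral.integral_congr_ae (Eventually.of_forall fun ρ hρ => ?_)
    rw [uIoc_of_le hp.le] at hρ
    exact hloc ρ hρ.1
  rw [hint, intervalIntegral.integral_sub ((gcont.intervalIntegrable _ _).const_mul _)
    (Gcont.intervalIntegrable _ _), ftc, intervalIntegral.integral_const_mul, g0]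
  have e1 : rayMass R e (k + 1) p = ∫ ρ in (0 : ℝ)..p.2, g (p.1, ρ) := rfl
  rw [e1]
  simp only [hW, hg]
  ring

omit hf hT in
/-- The bounds of the mass of a sector. -/
lemma rayMass_bound {e : E d} (he : ‖e‖ = 1) (k : ℕ) (L : ℝ) : ∃ m M : ℝ, 0 < m ∧ 0 < M ∧
    ∀ τ r r', 0 ≤ r → r ≤ r' → r' ≤ L →
      m * (r' ^ (k + 1) - r ^ (k + 1)) ≤ rayMass R e k (τ, r') - rayMass R e k (τ, r) ∧
      rayMass R e k (τ, r') - rayMass R e k (τ, r) ≤ M * (r' ^ (k + 1) - r ^ (k + 1)) := by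
  obtain ⟨c, C, hc, hC⟩ := h.typeI |L|
  have ne : ∀ r : ℝ, ‖r • e‖ = |r| := by
    intro r
    rw [norm_smul, he, mul_one, Real.norm_eq_abs]
  have hcC : c ≤ C := (hC 0 0 (by simp)).1.trans (hC 0 0 (by simp)).2.1
  have hk : (0 : ℝ) < k + 1 := by positivity
  refine ⟨c / (k + 1), C / (k + 1), by positivity, div_pos (hc.trans_le hcC) hk,
    fun τ r r' h1 h2 h3 => ?_⟩
  have hcont : Continuous fun ρ : ℝ => R τ (ρ • e) * ρ ^ k :=
    (h.smooth_R.continuous.comp (by fun_prop : Continuous fun ρ : ℝ => (τ, ρ • e))).mul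
      (continuous_pow k)
  have e1 : rayMass R e k (τ, r') - rayMass R e k (τ, r) =
      ∫ ρ in r..r', R τ (ρ • e) * ρ ^ k :=
    intervalIntegral.integral_interval_sub_left (hcont.intervalIntegrable _ _)
      (hcont.intervalIntegrable _ _)
  have e2 : ∀ x : ℝ, ∫ ρ in r..r', x * ρ ^ k = x / (k + 1) * (r' ^ (k + 1) - r ^ (k + 1)) := by
    intro x
    rw [intervalIntegral.integral_const_mul, integral_pow]
    ring
  have hR : ∀ ρ ∈ Icc r r', c * ρ ^ k ≤ R τ (ρ • e) * ρ ^ k ∧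
      R τ (ρ • e) * ρ ^ k ≤ C * ρ ^ k := by
    intro ρ hρ
    have hρ0 : 0 ≤ ρ := h1.trans hρ.1
    obtain ⟨k1, k2, -, -⟩ := hC τ (ρ • e) (by
      rw [ne, abs_of_nonneg hρ0]; exact (hρ.2.trans h3).trans (le_abs_self L))
    exact ⟨mul_le_mul_of_nonneg_right k1 (by positivity),
      mul_le_mul_of_nonneg_right k2 (by positivity)⟩
  rw [e1, ← e2, ← e2]
  constructor
  · exact intervalIntegral.integral_mono_on h2
      ((continuous_const.mul (continuous_pow k)).intervalIntegrable _ _)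
      (hcont.intervalIntegrable _ _) fun ρ hρ => (hR ρ hρ).1
  · exact intervalIntegral.integral_mono_on h2 (hcont.intervalIntegrable _ _)
      ((continuous_const.mul (continuous_pow k)).intervalIntegrable _ _) fun ρ hρ => (hR ρ hρ).2

end flow

end Pool.Agent.H49.BZ
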