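import Pool.Agent.H49.BZ.Defs

open Set Filter Topology MeasureTheory
open scoped RealInnerProductSpace

namespace Pool.Agent.H49.BZ

variable {d : ℕ}

/-- The great circle through `n` in the direction `t`, on the sphere of radius `r`. -/
noncomputable def circ (r : ℝ) (n t : E d) (θ : ℝ) : E d :=
  r • (Real.cos θ • n + Real.sin θ • t)

lemma circ_zero (r : ℝ) (n t : E d) : circ r n t 0 = r • n := by simp [circ]

lemma circ_deriv (r : ℝ) (n t : E d) (θ : ℝ) :
    HasDerivAt (circ r n t) (r • (-Real.sin θ • n + Real.cos θ • t)) θ := by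
  unfold circ
  exact (((Real.hasDerivAt_cos θ).smul_const n).fun_add
    ((Real.hasDerivAt_sin θ).smul_const t)).fun_const_smul r

lemma circ_deriv2 (r : ℝ) (n t : E d) (θ : ℝ) :
    HasDerivAt (fun θ => r • (-Real.sin θ • n + Real.cos θ • t))
      (r • (-Real.cos θ • n + -Real.sin θ • t)) θ :=
  (((Real.hasDerivAt_sin θ).fun_neg.smul_const n).fun_add
    ((Real.hasDerivAt_cos θ).smul_const t)).fun_const_smul r

lemma circ_norm {r : ℝ} {n t : E d} (hn : ‖n‖ = 1) (ht : ‖t‖ = 1) (hnt : ⟪n, t⟫ = 0) (θ : ℝ) :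
    ‖Real.cos θ • n + Real.sin θ • t‖ = 1 := by
  have h1 : ‖Real.cos θ • n + Real.sin θ • t‖ ^ 2 = 1 := by
    rw [norm_add_sq_real, norm_smul, norm_smul, real_inner_smul_left, real_inner_smul_right, hnt,
      hn, ht, mul_one, mul_one, Real.norm_eq_abs, Real.norm_eq_abs, sq_abs, sq_abs]
    simp
  have h2 : 0 ≤ ‖Real.cos θ • n + Real.sin θ • t‖ := norm_nonneg _
  nlinarith

variable {Φ : E d → ℝ} {V : E d → E d} (hΦ : ∀ y, HasGradientAt Φ (V y) y) {r : ℝ} {n : E d}
  (hn : ‖n‖ = 1) (hmin : ∀ m : E d, ‖m‖ = 1 → Φ (r • n) ≤ Φ (r • m))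

include hΦ in
lemma comp_deriv {α : ℝ → E d} {α' : E d} {θ : ℝ} (h : HasDerivAt α α' θ) :
    HasDerivAt (fun θ => Φ (α θ)) ⟪V (α θ), α'⟫ θ := by
  have h1 : HasFDerivAt Φ (innerSL ℝ (V (α θ))) (α θ) := by
    have := (hΦ (α θ)).hasFDerivAt
    exact this
  have h2 := h1.comp_hasDerivAt θ h
  simpa [Function.comp_def] using h2

include hΦ hn hmin

/-- The first order condition at a minimum over a sphere. -/
lemma first_order {t : E d} (ht : ‖t‖ = 1) (hnt : ⟪n, t⟫ = 0) : ⟪V (r • n), r • t⟫ = 0 := by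
  have h1 : HasDerivAt (fun θ => Φ (circ r n t θ)) ⟪V (circ r n t 0),
      r • (-Real.sin 0 • n + Real.cos 0 • t)⟫ 0 := comp_deriv hΦ (circ_deriv r n t 0)
  have h2 : IsLocalMin (fun θ => Φ (circ r n t θ)) 0 := by
    refine Eventually.of_forall fun θ => ?_
    change Φ (circ r n t 0) ≤ Φ (circ r n t θ)
    rw [circ_zero]
    exact hmin _ (circ_norm (r := r) hn ht hnt θ)
  have h3 := h2.hasDerivAt_eq_zero h1
  rw [circ_zero] at h3
  simpa using h3

/-- At a minimum over a sphere the gradient is radial. -/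
lemma grad_radial (hr : 0 < r) : V (r • n) = ⟪V (r • n), n⟫ • n := by
  by_contra hne
  set w : E d := V (r • n) - ⟪V (r • n), n⟫ • n with hw
  have hw0 : w ≠ 0 := fun h => hne (sub_eq_zero.1 h)
  have hwn : ⟪n, w⟫ = 0 := by
    rw [hw, inner_sub_right, real_inner_smul_right, real_inner_self_eq_norm_sq, hn,
      real_inner_comm]
    ring
  have hwp : 0 < ‖w‖ := norm_pos_iff.2 hw0
  have h1 := first_order hΦ hn hmin (t := ‖w‖⁻¹ • w)
    (by rw [norm_smul, norm_inv, norm_norm, inv_mul_cancel₀ hwp.ne'])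
    (by rw [real_inner_smul_right, hwn, mul_zero])
  rw [real_inner_smul_right, real_inner_smul_right] at h1
  have h2 : ⟪V (r • n), w⟫ = ‖w‖ ^ 2 := by
    have h3 : V (r • n) = w + ⟪V (r • n), n⟫ • n := by rw [hw]; abel
    conv_lhs => rw [h3]
    rw [inner_add_left, real_inner_smul_left, hwn, real_inner_self_eq_norm_sq]
    ring
  rw [h2] at h1
  have : r * (‖w‖⁻¹ * ‖w‖ ^ 2) = r * ‖w‖ := by field_simp
  rw [this] at h1
  exact (mul_pos hr hwp).ne' h1

/-- The second order condition at a minimum over a sphere. -/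
lemma second_order (hr : 0 < r) {D : E d →L[ℝ] E d} (hD : HasFDerivAt V D (r • n)) {t : E d}
    (ht : ‖t‖ = 1) (hnt : ⟪n, t⟫ = 0) : ⟪V (r • n), n⟫ ≤ r * ⟪D t, t⟫ := by
  by_contra hcon
  push Not at hcon
  have h1 : ∀ θ, HasDerivAt (fun θ => Φ (circ r n t θ)) ⟪V (circ r n t θ),
      r • (-Real.sin θ • n + Real.cos θ • t)⟫ θ := fun θ => comp_deriv hΦ (circ_deriv r n t θ)
  have h2 : deriv (fun θ => Φ (circ r n t θ)) = fun θ => ⟪V (circ r n t θ),
      r • (-Real.sin θ • n + Real.cos θ • t)⟫ := by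
    ext θ; exact (h1 θ).deriv
  have h3 : HasDerivAt (fun θ => V (circ r n t θ)) (D (r • t)) 0 := by
    have h4 : HasFDerivAt V D (circ r n t 0) := by rw [circ_zero]; exact hD
    have h5 := h4.comp_hasDerivAt 0 (circ_deriv r n t 0)
    simpa [Function.comp_def] using h5
  have h4 : HasDerivAt (fun θ => ⟪V (circ r n t θ), r • (-Real.sin θ • n + Real.cos θ • t)⟫)
      (⟪V (r • n), r • (-n)⟫ + ⟪D (r • t), r • t⟫) 0 := by
    have h5 := h3.inner ℝ (circ_deriv2 r n t 0)
    simpa [circ_zero] using h5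
  have h5 : deriv (deriv (fun θ => Φ (circ r n t θ))) 0 = r * (r * ⟪D t, t⟫ - ⟪V (r • n), n⟫) := by
    rw [h2, h4.deriv, map_smul, real_inner_smul_right, real_inner_smul_right, inner_neg_right,
      real_inner_smul_left]
    ring
  have h6 : deriv (deriv (fun θ => Φ (circ r n t θ))) 0 < 0 := by
    rw [h5]
    exact mul_neg_of_pos_of_neg hr (by linarith)
  have hlm : IsLocalMin (fun θ => Φ (circ r n t θ)) 0 := by
    refine Eventually.of_forall fun θ => ?_
    change Φ (circ r n t 0) ≤ Φ (circ r n t θ)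
    rw [circ_zero]
    exact hmin _ (circ_norm (r := r) hn ht hnt θ)
  have hlM := isLocalMax_of_deriv_deriv_neg h6 (hlm.deriv_eq_zero) (h1 0).continuousAt
  have hconst : (fun θ => Φ (circ r n t θ)) =ᶠ[𝓝 0] fun _ => Φ (circ r n t 0) := by
    filter_upwards [hlm, hlM] with θ h7 h8
    exact le_antisymm h8 h7
  have h7 : deriv (fun θ => Φ (circ r n t θ)) =ᶠ[𝓝 0] fun _ => 0 := by
    have := hconst.deriv
    simpa using this
  have h8 := h7.deriv_eq
  rw [deriv_const] at h8
  exact h6.ne h8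

/-- The trace over the tangent space of the sphere. -/
lemma trace_ineq (hr : 0 < r) {D : E d →L[ℝ] E d} (hD : HasFDerivAt V D (r • n)) :
    (d - 1) * ⟪V (r • n), n⟫ ≤
      r * ((∑ j, ⟪D (EuclideanSpace.single j 1), EuclideanSpace.single j (1 : ℝ)⟫) -
        ⟪D n, n⟫) := by
  have key : ∀ w : E d, ⟪n, w⟫ = 0 → ‖w‖ ^ 2 * ⟪V (r • n), n⟫ ≤ r * ⟪D w, w⟫ := by
    intro w hw
    rcases eq_or_ne w 0 with h0 | h0
    · rw [h0]; simp
    · have hwp : 0 < ‖w‖ := norm_pos_iff.2 h0
      have h1 := second_order hΦ hn hmin hr hD (t := ‖w‖⁻¹ • w)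
        (by rw [norm_smul, norm_inv, norm_norm, inv_mul_cancel₀ hwp.ne'])
        (by rw [real_inner_smul_right, hw, mul_zero])
      rw [map_smul, real_inner_smul_left, real_inner_smul_right] at h1
      calc ‖w‖ ^ 2 * ⟪V (r • n), n⟫ ≤ ‖w‖ ^ 2 * (r * (‖w‖⁻¹ * (‖w‖⁻¹ * ⟪D w, w⟫))) :=
            mul_le_mul_of_nonneg_left h1 (by positivity)
        _ = r * ⟪D w, w⟫ := by field_simp
  let e : Fin d → E d := fun j => EuclideanSpace.single j (1 : ℝ)
  have hne : ∀ j, ⟪n, e j⟫ = n j := fun j => by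
    simp only [e]; rw [EuclideanSpace.inner_single_right]; simp
  have hsum : n = ∑ j, n j • e j := by
    ext i
    simp only [e, WithLp.ofLp_sum, WithLp.ofLp_smul, Finset.sum_apply, Pi.smul_apply, smul_eq_mul,
      EuclideanSpace.single_apply]
    simp
  have hnn : ⟪n, n⟫ = 1 := by rw [real_inner_self_eq_norm_sq, hn]; norm_num
  have hsq : ∑ j, n j * n j = 1 := by
    rw [← hnn, PiLp.inner_apply]
    exact Finset.sum_congr rfl fun j _ => by simp; ring
  have h1 : ∀ j, (1 - n j * n j) * ⟪V (r • n), n⟫ ≤ r * (⟪D (e j), e j⟫ - n j * ⟪D n, e j⟫ -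
      n j * ⟪D (e j), n⟫ + n j * n j * ⟪D n, n⟫) := by
    intro j
    have h2 := key (e j - n j • n) (by
      rw [inner_sub_right, real_inner_smul_right, hne, hnn]; ring)
    have h3 : ‖e j - n j • n‖ ^ 2 = 1 - n j * n j := by
      rw [norm_sub_sq_real, norm_smul, hn, real_inner_smul_right, real_inner_comm, hne]
      simp only [e, EuclideanSpace.norm_single, norm_one, Real.norm_eq_abs, mul_one, sq_abs]
      ring
    rw [h3] at h2
    refine h2.trans (le_of_eq ?_)
    rw [map_sub, map_smul]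
    simp only [inner_sub_left, inner_sub_right, real_inner_smul_left, real_inner_smul_right]
    ring
  have h2 := Finset.sum_le_sum fun j (_ : j ∈ Finset.univ) => h1 j
  rw [← Finset.sum_mul, ← Finset.mul_sum, Finset.sum_sub_distrib, Finset.sum_add_distrib,
    Finset.sum_sub_distrib, Finset.sum_sub_distrib, hsq, ← Finset.sum_mul, hsq] at h2
  have e1 : ∑ j, n j * ⟪D n, e j⟫ = ⟪D n, n⟫ := by
    have h3 := congrArg (fun w => ⟪D n, w⟫) hsum
    simp only [inner_sum, real_inner_smul_right] at h3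
    exact h3.symm
  have e2 : ∑ j, n j * ⟪D (e j), n⟫ = ⟪D n, n⟫ := by
    have h3 := congrArg (fun w => ⟪D w, n⟫) hsum
    simp only [map_sum, map_smul, sum_inner, real_inner_smul_left] at h3
    exact h3.symm
  rw [e1, e2] at h2
  simp only [Finset.sum_const, Finset.card_univ, Fintype.card_fin, nsmul_eq_mul, mul_one] at h2
  refine h2.trans (le_of_eq ?_)
  ring

end Pool.Agent.H49.BZ
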