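import Pool.Agent.H49.BZ.SphMin

open Set Filter Topology MeasureTheory
open scoped RealInnerProductSpace

namespace Pool.Agent.H49.BZ

variable {d : ℕ}

/-- The minima of `Φ` over spheres: pairs of a radius and a direction. -/
def Nmin (Φ : E d → ℝ) : Set (ℝ × E d) :=
  {p | 0 ≤ p.1 ∧ ‖p.2‖ = 1 ∧ ∀ m : E d, ‖m‖ = 1 → Φ (p.1 • p.2) ≤ Φ (p.1 • m)}

lemma isClosed_Nmin {Φ : E d → ℝ} (hc : Continuous Φ) : IsClosed (Nmin Φ) := by
  have h1 : IsClosed {p : ℝ × E d | 0 ≤ p.1} := isClosed_le continuous_const continuous_fst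
  have h2 : IsClosed {p : ℝ × E d | ‖p.2‖ = 1} :=
    isClosed_eq continuous_snd.norm continuous_const
  have h3 : IsClosed {p : ℝ × E d | ∀ m : E d, ‖m‖ = 1 → Φ (p.1 • p.2) ≤ Φ (p.1 • m)} := by
    simp only [setOf_forall]
    refine isClosed_iInter fun m => isClosed_iInter fun _ => ?_
    exact isClosed_le (by fun_prop) (by fun_prop)
  exact h1.inter (h2.inter h3)

variable {h Φ : E d → ℝ} {V : E d → E d} {b K : ℝ}

/-- The mean value theorem along a ray. -/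
lemma ray_mvt (hΦ : ∀ y, HasGradientAt Φ (V y) y) (n : E d) {r₁ r₂ : ℝ} (hr : r₁ < r₂) :
    ∃ ξ ∈ Ioo r₁ r₂, Φ (r₂ • n) - Φ (r₁ • n) = (r₂ - r₁) * ⟪V (ξ • n), n⟫ := by
  have h1 : ∀ θ : ℝ, HasDerivAt (fun θ : ℝ => Φ (θ • n)) ⟪V (θ • n), n⟫ θ := by
    intro θ
    have h2 : HasDerivAt (fun θ : ℝ => θ • n) ((1 : ℝ) • n) θ := (hasDerivAt_id' θ).smul_const n
    rw [one_smul] at h2
    exact comp_deriv hΦ h2
  obtain ⟨ξ, hξ, h3⟩ := exists_hasDerivAt_eq_slope (fun θ : ℝ => Φ (θ • n))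
    (fun θ => ⟪V (θ • n), n⟫) hr
    (fun x _ => (h1 x).continuousAt.continuousWithinAt) (fun x _ => h1 x)
  refine ⟨ξ, hξ, ?_⟩
  rw [h3]
  have : r₂ - r₁ ≠ 0 := by linarith
  field_simp

/-- At an outermost point where the flow is not supersonic, it is sonic. -/
lemma eq_of_max (hΦ : ∀ y, HasGradientAt Φ (V y) y) (hΦc : Continuous Φ) (hV : Continuous V)
    (hd : 0 < d) (hpos : ∀ y, 0 < h y) (hh : Continuous h)
    (bern : ∀ y, h y + ‖V y‖ ^ 2 / 2 - b * (1 - b) * ‖y‖ ^ 2 / 2 - (1 - 2 * b) * Φ y = 0)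
    {r : ℝ} {n : E d} (hN : (r, n) ∈ Nmin Φ)
    (hmax : ∀ p ∈ Nmin Φ, ⟪V (p.1 • p.2), p.2⟫ ≤ √(2 / d * h (p.1 • p.2)) → p.1 ≤ r) :
    √(2 / d * h (r • n)) ≤ ⟪V (r • n), n⟫ := by
  by_contra hlt
  push Not at hlt
  obtain ⟨hr0, hn, hmin⟩ := hN
  simp only at hr0 hn hmin
  have hd' : (0 : ℝ) < d := by exact_mod_cast hd
  have hcc : Continuous fun y => √(2 / d * h y) := by fun_prop
  have hS : IsCompact (Metric.sphere (0 : E d) 1) := isCompact_sphere 0 1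
  have hSn : (Metric.sphere (0 : E d) 1).Nonempty := ⟨n, by simpa using hn⟩
  -- radii and minimizers
  let rk : ℕ → ℝ := fun k => r + 1 / ((k : ℝ) + 1)
  have hrk : ∀ k, r < rk k := fun k => by
    have : (0 : ℝ) < 1 / ((k : ℝ) + 1) := by positivity
    simp only [rk]; linarith
  have hrkl : Tendsto rk atTop (𝓝 r) := by
    simpa [rk] using (tendsto_one_div_add_atTop_nhds_zero_nat (𝕜 := ℝ)).const_add r
  have hex : ∀ k, ∃ m : E d, ‖m‖ = 1 ∧ ∀ m' : E d, ‖m'‖ = 1 → Φ (rk k • m) ≤ Φ (rk k • m') := by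
    intro k
    obtain ⟨m, hm, hm'⟩ := hS.exists_isMinOn hSn
      (by fun_prop : Continuous fun m : E d => Φ (rk k • m)).continuousOn
    refine ⟨m, by simpa using hm, fun m' h1 => ?_⟩
    exact isMinOn_iff.1 hm' m' (by simpa using h1)
  choose m hm1 hm2 using hex
  have hsup : ∀ k, √(2 / d * h (rk k • m k)) < ⟪V (rk k • m k), m k⟫ := by
    intro k
    by_contra hcon
    push Not at hcon
    exact absurd (hmax (rk k, m k) ⟨hr0.trans (hrk k).le, hm1 k, hm2 k⟩ hcon) (not_le.2 (hrk k))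
  obtain ⟨n', hn', κ, hκ, hlim⟩ := hS.tendsto_subseq fun k => (by simpa using hm1 k :
    m k ∈ Metric.sphere (0 : E d) 1)
  have hn'1 : ‖n'‖ = 1 := by simpa using hn'
  have hrκ : Tendsto (fun k => rk (κ k)) atTop (𝓝 r) := hrkl.comp hκ.tendsto_atTop
  -- the limit is a minimizer
  have hprod : Tendsto (fun k => (rk (κ k), m (κ k))) atTop (𝓝 (r, n')) :=
    hrκ.prodMk_nhds hlim
  have hN' : (r, n') ∈ Nmin Φ := (isClosed_Nmin hΦc).mem_of_tendsto hprod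
    (Eventually.of_forall fun k => ⟨hr0.trans (hrk _).le, hm1 _, hm2 _⟩)
  have hle1 : √(2 / d * h (r • n')) ≤ ⟪V (r • n'), n'⟫ := by
    have c1 : Continuous fun p : ℝ × E d => √(2 / d * h (p.1 • p.2)) := by fun_prop
    have c2 : Continuous fun p : ℝ × E d => ⟪V (p.1 • p.2), p.2⟫ := by fun_prop
    exact le_of_tendsto_of_tendsto ((c1.tendsto (r, n')).comp hprod)
      ((c2.tendsto (r, n')).comp hprod) (Eventually.of_forall fun k => (hsup (κ k)).le)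
  -- comparison
  have hcmp : ∀ k, ∃ ξ ξ' : ℝ, ξ ∈ Ioo r (rk (κ k)) ∧ ξ' ∈ Ioo r (rk (κ k)) ∧
      ⟪V (ξ • m (κ k)), m (κ k)⟫ ≤ ⟪V (ξ' • n), n⟫ := by
    intro k
    obtain ⟨ξ, h1, h2⟩ := ray_mvt hΦ (m (κ k)) (hrk (κ k))
    obtain ⟨ξ', h3, h4⟩ := ray_mvt hΦ n (hrk (κ k))
    refine ⟨ξ, ξ', h1, h3, ?_⟩
    have h5 := hm2 (κ k) n hn
    have h6 := hmin (m (κ k)) (hm1 (κ k))
    have h7 : 0 < rk (κ k) - r := by linarith [hrk (κ k)]
    have h8 : (rk (κ k) - r) * ⟪V (ξ • m (κ k)), m (κ k)⟫ ≤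
        (rk (κ k) - r) * ⟪V (ξ' • n), n⟫ := by rw [← h2, ← h4]; linarith
    exact le_of_mul_le_mul_left h8 h7
  choose ξ ξ' hξ hξ' hcmp using hcmp
  have lξ : Tendsto ξ atTop (𝓝 r) := tendsto_of_tendsto_of_tendsto_of_le_of_le tendsto_const_nhds
    hrκ (fun k => (hξ k).1.le) (fun k => (hξ k).2.le)
  have lξ' : Tendsto ξ' atTop (𝓝 r) := tendsto_of_tendsto_of_tendsto_of_le_of_le
    tendsto_const_nhds hrκ (fun k => (hξ' k).1.le) (fun k => (hξ' k).2.le)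
  have hle2 : ⟪V (r • n'), n'⟫ ≤ ⟪V (r • n), n⟫ := by
    have c2 : Continuous fun p : ℝ × E d => ⟪V (p.1 • p.2), p.2⟫ := by fun_prop
    exact le_of_tendsto_of_tendsto ((c2.tendsto (r, n')).comp (lξ.prodMk_nhds hlim))
      ((c2.tendsto (r, n)).comp (lξ'.prodMk_nhds (tendsto_const_nhds (x := n))))
      (Eventually.of_forall fun k => hcmp k)
  -- conclusion
  have p1 : 0 < 2 / d * h (r • n) := mul_pos (by positivity) (hpos _)
  have p2 : 0 < 2 / d * h (r • n') := mul_pos (by positivity) (hpos _)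
  rcases hr0.eq_or_lt with h0 | h0
  · rw [← h0, zero_smul] at hle1 hle2 hlt
    rw [zero_smul] at hle2
    linarith
  · have g1 := grad_radial hΦ hn hmin h0
    have g2 := grad_radial hΦ hN'.2.1 hN'.2.2 h0
    simp only at g2
    have e1 : ‖V (r • n)‖ ^ 2 = ⟪V (r • n), n⟫ ^ 2 := by
      rw [g1, norm_smul, hn, mul_one, Real.norm_eq_abs, sq_abs, ← g1]
    have e2 : ‖V (r • n')‖ ^ 2 = ⟪V (r • n'), n'⟫ ^ 2 := by
      rw [g2, norm_smul, hn'1, mul_one, Real.norm_eq_abs, sq_abs, ← g2]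
    have e3 : Φ (r • n) = Φ (r • n') := le_antisymm (hmin n' hn'1) (hN'.2.2 n hn)
    have e4 : ‖r • n‖ ^ 2 = ‖r • n'‖ ^ 2 := by
      rw [norm_smul, norm_smul, hn, hn'1]
    have b1 := bern (r • n)
    have b2 := bern (r • n')
    rw [e1, e3, e4] at b1
    rw [e2] at b2
    have q1 : 0 < √(2 / d * h (r • n')) := Real.sqrt_pos.2 p2
    have q2 : (√(2 / d * h (r • n'))) ^ 2 = 2 / d * h (r • n') := Real.sq_sqrt p2.le
    have q3 : (√(2 / d * h (r • n))) ^ 2 = 2 / d * h (r • n) := Real.sq_sqrt p1.le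
    set x := ⟪V (r • n), n⟫
    set x' := ⟪V (r • n'), n'⟫
    have x0 : 0 < x' := q1.trans_le hle1
    have x1 : 2 / d * h (r • n') ≤ x' ^ 2 := by rw [← q2]; gcongr
    have x2 : x ^ 2 < 2 / d * h (r • n) := by rw [← q3]; gcongr; exact x0.le.trans hle2
    have x3 : x' ^ 2 ≤ x ^ 2 := by gcongr
    have x4 : h (r • n) ≤ h (r • n') := by linarith
    have x5 : 2 / d * h (r • n) ≤ 2 / d * h (r • n') :=
      mul_le_mul_of_nonneg_left x4 (by positivity)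
    have x6 : x' ^ 2 < x' ^ 2 := by
      have : h (r • n) + x ^ 2 / 2 = h (r • n') + x' ^ 2 / 2 := by linarith
      linarith
    exact lt_irrefl _ x6

/-- The bound of the radii at which the flow is not supersonic. -/
lemma radius_bound (hΦ : ∀ y, HasGradientAt Φ (V y) y) (hd : 0 < d) (hb0 : 0 < b)
    (hb1 : b < 1 / 2) (hpos : ∀ y, 0 < h y) (hK : ∀ y, ‖V y - (1 - b) • y‖ ≤ K)
    (bern : ∀ y, h y + ‖V y‖ ^ 2 / 2 - b * (1 - b) * ‖y‖ ^ 2 / 2 - (1 - 2 * b) * Φ y = 0)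
    {r : ℝ} {n : E d} (hr : 0 ≤ r) (hn : ‖n‖ = 1)
    (hle : ⟪V (r • n), n⟫ ≤ √(2 / d * h (r • n))) :
    r ≤ (3 * K + 2 * |Φ 0| + 7 * K ^ 2 + 1) / (1 - b) := by
  have hd1 : (1 : ℝ) ≤ d := by exact_mod_cast hd
  have hb : 0 < 1 - b := by linarith
  have hK0 : 0 ≤ K := (norm_nonneg _).trans (hK 0)
  have hnn : ⟪n, n⟫ = 1 := by rw [real_inner_self_eq_norm_sq, hn]; norm_num
  rw [le_div_iff₀ hb]
  by_contra hcon
  push Not at hcon
  set u : ℝ := (1 - b) * r - K with hu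
  have a0 : 0 ≤ |Φ 0| := abs_nonneg _
  have hu1 : 2 * K + (2 * |Φ 0| + 7 * K ^ 2) + 1 < u := by rw [hu]; linarith
  have hu0 : 0 < u := by nlinarith [sq_nonneg K]
  -- the velocity
  have hinn : ∀ t : ℝ, ⟪V (t • n), n⟫ = (1 - b) * t + ⟪V (t • n) - (1 - b) • (t • n), n⟫ := by
    intro t
    rw [inner_sub_left, real_inner_smul_left, real_inner_smul_left, hnn]
    ring
  have hKn : ∀ t : ℝ, |⟪V (t • n) - (1 - b) • (t • n), n⟫| ≤ K := by
    intro t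
    refine (abs_real_inner_le_norm _ _).trans ?_
    rw [hn, mul_one]
    exact hK _
  have v1 : u ≤ ⟪V (r • n), n⟫ := by
    rw [hinn r, hu]
    linarith [neg_abs_le (⟪V (r • n) - (1 - b) • (r • n), n⟫), hKn r]
  have v2 : ⟪V (r • n), n⟫ ^ 2 ≤ ‖V (r • n)‖ ^ 2 := by
    have h1 := abs_real_inner_le_norm (V (r • n)) n
    rw [hn, mul_one] at h1
    rw [← sq_abs]
    gcongr
  have v3 : u ^ 2 ≤ ⟪V (r • n), n⟫ ^ 2 := by gcongr
  have v4 : u ^ 2 ≤ 2 / d * h (r • n) := by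
    have p1 : 0 ≤ 2 / d * h (r • n) := (mul_pos (by positivity) (hpos _)).le
    rw [← Real.sq_sqrt p1]
    gcongr
    linarith
  have v5 : 2 / d * h (r • n) ≤ 2 * h (r • n) := by
    apply mul_le_mul_of_nonneg_right _ (hpos _).le
    rw [div_le_iff₀ (by linarith)]
    linarith
  -- the potential
  have hP : Φ (r • n) ≤ Φ 0 + (1 - b) * r ^ 2 / 2 + K * r := by
    have h1 : ∀ t : ℝ, HasDerivAt (fun t : ℝ => Φ (t • n) - (1 - b) * t ^ 2 / 2 - K * t)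
        (⟪V (t • n), n⟫ - (1 - b) * t - K) t := by
      intro t
      have h2 : HasDerivAt (fun θ : ℝ => θ • n) ((1 : ℝ) • n) t := (hasDerivAt_id' t).smul_const n
      rw [one_smul] at h2
      have h3 := ((comp_deriv hΦ h2).fun_sub
        (((hasDerivAt_id' t).fun_pow 2).const_mul ((1 - b) / 2))).fun_sub
        ((hasDerivAt_id' t).const_mul K)
      have h4 : (fun t : ℝ => Φ (t • n) - (1 - b) * t ^ 2 / 2 - K * t) =
          fun t : ℝ => Φ (t • n) - (1 - b) / 2 * t ^ 2 - K * t := by ext; ring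
      rw [h4]
      refine h3.congr_deriv ?_
      norm_num
      ring
    have h2 : Antitone (fun t : ℝ => Φ (t • n) - (1 - b) * t ^ 2 / 2 - K * t) := by
      refine antitone_of_deriv_nonpos (fun t => (h1 t).differentiableAt) fun t => ?_
      rw [(h1 t).deriv, hinn t]
      linarith [le_abs_self (⟪V (t • n) - (1 - b) • (t • n), n⟫), hKn t]
    have h3 := h2 hr
    simp only [zero_smul] at h3
    nlinarith
  have hy : ‖r • n‖ ^ 2 = r ^ 2 := by rw [norm_smul, hn, mul_one, Real.norm_eq_abs, sq_abs]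
  have b1 := bern (r • n)
  rw [hy] at b1
  have r1 : (1 - b) * r = u + K := by rw [hu]; ring
  have r2 : (1 - b) ^ 2 * r ^ 2 = (u + K) ^ 2 := by rw [← r1]; ring
  have w1 : (1 - 2 * b) * Φ (r • n) ≤ (1 - 2 * b) * (Φ 0 + (1 - b) * r ^ 2 / 2 + K * r) :=
    mul_le_mul_of_nonneg_left hP (by linarith)
  have w2 : (1 - 2 * b) * Φ 0 ≤ |Φ 0| := by
    have := le_abs_self (Φ 0)
    nlinarith
  have w3 : (1 - 2 * b) * (K * r) ≤ K * (u + K) := by
    rw [← r1]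
    have : 0 ≤ K * r := by positivity
    nlinarith
  have w4 : h (r • n) ≤ |Φ 0| + K * (u + K) + (u + K) ^ 2 / 2 - u ^ 2 / 2 := by
    nlinarith
  nlinarith

/-- There is a minimum of the potential over a sphere at which the flow is sonic. -/
theorem exists_sonic (hΦ : ∀ y, HasGradientAt Φ (V y) y) (hΦc : Continuous Φ) (hV : Continuous V)
    (hd : 0 < d) (hb0 : 0 < b) (hb1 : b < 1 / 2) (hpos : ∀ y, 0 < h y) (hh : Continuous h)
    (hK : ∀ y, ‖V y - (1 - b) • y‖ ≤ K)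
    (bern : ∀ y, h y + ‖V y‖ ^ 2 / 2 - b * (1 - b) * ‖y‖ ^ 2 / 2 - (1 - 2 * b) * Φ y = 0) :
    ∃ (r : ℝ) (n : E d), 0 < r ∧ ‖n‖ = 1 ∧ (∀ m : E d, ‖m‖ = 1 → Φ (r • n) ≤ Φ (r • m)) ∧
      0 < ⟪V (r • n), n⟫ ∧ ⟪V (r • n), n⟫ ^ 2 = 2 / d * h (r • n) := by
  have hd' : (0 : ℝ) < d := by exact_mod_cast hd
  have cpos : ∀ y, 0 < √(2 / d * h y) := fun y =>
    Real.sqrt_pos.2 (mul_pos (by positivity) (hpos y))
  let A : Set (ℝ × E d) := Nmin Φ ∩ {p | ⟪V (p.1 • p.2), p.2⟫ ≤ √(2 / d * h (p.1 • p.2))}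
  have hAc : IsClosed A := (isClosed_Nmin hΦc).inter (isClosed_le (by fun_prop) (by fun_prop))
  obtain ⟨ρ, hρ⟩ : ∃ ρ : ℝ, ρ = (3 * K + 2 * |Φ 0| + 7 * K ^ 2 + 1) / (1 - b) := ⟨_, rfl⟩
  have hsub : A ⊆ Icc 0 ρ ×ˢ Metric.sphere (0 : E d) 1 := by
    rintro ⟨r, n⟩ ⟨⟨h1, h2, h3⟩, h4⟩
    refine mem_prod.2 ⟨⟨h1, ?_⟩, by simpa using h2⟩
    rw [hρ]
    exact radius_bound hΦ hd hb0 hb1 hpos hK bern h1 h2 h4
  have hAk : IsCompact A := (isCompact_Icc.prod (isCompact_sphere (0 : E d) 1)).of_isClosed_subset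
    hAc hsub
  -- a direction at the origin in which the flow is not outgoing
  obtain ⟨n₀, hn₀, hn₀'⟩ : ∃ n₀ : E d, ‖n₀‖ = 1 ∧ ⟪V ((0 : ℝ) • n₀), n₀⟫ ≤ 0 := by
    let e : E d := EuclideanSpace.single ⟨0, hd⟩ 1
    have he : ‖e‖ = 1 := by simp [e]
    rcases le_total ⟪V 0, e⟫ 0 with h1 | h1
    · exact ⟨e, he, by rwa [zero_smul]⟩
    · refine ⟨-e, by rwa [norm_neg], ?_⟩
      rw [zero_smul, inner_neg_right]
      linarith
  have hN₀ : ((0 : ℝ), n₀) ∈ Nmin Φ := ⟨le_rfl, hn₀, fun m _ => by simp⟩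
  have hA₀ : ((0 : ℝ), n₀) ∈ A := ⟨hN₀, hn₀'.trans (cpos _).le⟩
  obtain ⟨⟨r, n⟩, hp, hmax⟩ := hAk.exists_isMaxOn ⟨_, hA₀⟩ continuous_fst.continuousOn
  have hmax' : ∀ p ∈ Nmin Φ, ⟪V (p.1 • p.2), p.2⟫ ≤ √(2 / d * h (p.1 • p.2)) → p.1 ≤ r :=
    fun p h1 h2 => isMaxOn_iff.1 hmax p ⟨h1, h2⟩
  have hr0 : 0 ≤ r := hp.1.1
  have hrp : 0 < r := by
    rcases hr0.eq_or_lt with h0 | h0
    · exfalso
      rw [← h0] at hmax'
      have h1 := eq_of_max hΦ hΦc hV hd hpos hh bern hN₀ hmax'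
      exact absurd (h1.trans hn₀') (not_le.2 (cpos _))
    · exact h0
  have h1 := eq_of_max hΦ hΦc hV hd hpos hh bern hp.1 hmax'
  have h2 : ⟪V (r • n), n⟫ = √(2 / d * h (r • n)) := le_antisymm hp.2 h1
  refine ⟨r, n, hrp, hp.1.2.1, hp.1.2.2, ?_, ?_⟩
  · rw [h2]; exact cpos _
  · rw [h2, Real.sq_sqrt (mul_pos (by positivity) (hpos _)).le]

/-- The constraint on the exponent of an irrotational isentropic profile. -/
theorem sonic_bound (hd : 2 ≤ d) (hΦ : ∀ y, HasGradientAt Φ (V y) y) (hΦc : Continuous Φ)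
    (hV : ContDiff ℝ 1 V) (hb0 : 0 < b) (hb1 : b < 1 / 2) (hpos : ∀ y, 0 < h y)
    (hh : Continuous h) (hK : ∀ y, ‖V y - (1 - b) • y‖ ≤ K)
    (bern : ∀ y, h y + ‖V y‖ ^ 2 / 2 - b * (1 - b) * ‖y‖ ^ 2 / 2 - (1 - 2 * b) * Φ y = 0)
    (mass : ∀ y, 2 / d * h y * ((∑ j, ⟪fderiv ℝ V y (EuclideanSpace.single j 1),
      EuclideanSpace.single j (1 : ℝ)⟫) - d * (1 - 2 * b)) =
      ⟪fderiv ℝ V y (V y), V y⟫ - (1 - 2 * b) * ‖V y‖ ^ 2 - b * (1 - b) * ⟪V y, y⟫) :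
    1 ≤ d * (1 - 2 * b) ^ 2 := by
  have hd2 : (2 : ℝ) ≤ d := by exact_mod_cast hd
  obtain ⟨r, n, hr, hn, hmin, hlam, hs⟩ := exists_sonic hΦ hΦc hV.continuous (by omega) hb0 hb1 hpos
    hh hK bern
  have hD : HasFDerivAt V (fderiv ℝ V (r • n)) (r • n) :=
    (hV.differentiable (by norm_num) (r • n)).hasFDerivAt
  have tr := trace_ineq hΦ hn hmin hr hD
  have rad := grad_radial hΦ hn hmin hr
  have m := mass (r • n)
  have hnn : ⟪n, n⟫ = 1 := by rw [real_inner_self_eq_norm_sq, hn]; norm_num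
  set x := ⟪V (r • n), n⟫ with hx
  set S := ∑ j, ⟪fderiv ℝ V (r • n) (EuclideanSpace.single j 1), EuclideanSpace.single j (1 : ℝ)⟫
  set q := ⟪fderiv ℝ V (r • n) n, n⟫ with hq
  have e1 : ‖V (r • n)‖ ^ 2 = x ^ 2 := by
    rw [rad, norm_smul, hn, mul_one, Real.norm_eq_abs, sq_abs]
  have e2 : ⟪V (r • n), r • n⟫ = r * x := by rw [real_inner_smul_right]
  have e3 : ⟪fderiv ℝ V (r • n) (V (r • n)), V (r • n)⟫ = x ^ 2 * q := by
    rw [rad, map_smul, real_inner_smul_left, real_inner_smul_right]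
    ring
  rw [← hs, e1, e2, e3] at m
  have m2 : x * (x * (S - q) - (d - 1) * (1 - 2 * b) * x + b * (1 - b) * r) = 0 := by
    linear_combination m
  have m3 : x * (S - q) - (d - 1) * (1 - 2 * b) * x + b * (1 - b) * r = 0 := by
    rcases mul_eq_zero.1 m2 with h1 | h1
    · exact absurd h1 hlam.ne'
    · exact h1
  have m4 : (d - 1) * x ^ 2 - (d - 1) * (1 - 2 * b) * x * r + b * (1 - b) * r ^ 2 ≤ 0 := by
    have := mul_le_mul_of_nonneg_left tr hlam.le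
    nlinarith
  have m5 : ((d : ℝ) - 1) * ((d - 1) * (1 - 2 * b) ^ 2 - 4 * (b * (1 - b))) * r ^ 2 =
      (2 * (d - 1) * x - (d - 1) * (1 - 2 * b) * r) ^ 2 - 4 * (d - 1) *
      ((d - 1) * x ^ 2 - (d - 1) * (1 - 2 * b) * x * r + b * (1 - b) * r ^ 2) := by ring
  have hd1 : (0 : ℝ) < d - 1 := by linarith
  have m6 : 0 ≤ ((d : ℝ) - 1) * ((d - 1) * (1 - 2 * b) ^ 2 - 4 * (b * (1 - b))) * r ^ 2 := by
    rw [m5]
    have : 4 * ((d : ℝ) - 1) *
      ((d - 1) * x ^ 2 - (d - 1) * (1 - 2 * b) * x * r + b * (1 - b) * r ^ 2) ≤ 0 :=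
      mul_nonpos_of_nonneg_of_nonpos (by linarith) m4
    nlinarith [sq_nonneg (2 * (d - 1) * x - (d - 1) * (1 - 2 * b) * r)]
  have m7 : 0 ≤ ((d : ℝ) - 1) * ((d - 1) * (1 - 2 * b) ^ 2 - 4 * (b * (1 - b))) :=
    nonneg_of_mul_nonneg_left m6 (by positivity)
  have m8 : 0 ≤ ((d : ℝ) - 1) * (1 - 2 * b) ^ 2 - 4 * (b * (1 - b)) :=
    nonneg_of_mul_nonneg_right m7 hd1
  nlinarith

end Pool.Agent.H49.BZ
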