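import Pool.Agent.H49.BZ.Zero

open Set Filter Topology MeasureTheory
open scoped RealInnerProductSpace ENNReal Pointwise

namespace Pool.Agent.H49.BZ

variable {d : ℕ}

/-- The measure of spherical caps. -/
lemma cap_le (d : ℕ) : ∃ C : ℝ, 0 ≤ C ∧ ∀ e : E d, ‖e‖ = 1 → ∀ ε : ℝ, 0 < ε → ε ≤ 3 →
    surf d {σ | ‖(σ : E d) - e‖ < ε} ≤ ENNReal.ofReal (C * (ε ^ d / ε)) := by
  set V : ℝ := ((volume : Measure (E d)) (Metric.ball 0 1)).toReal with hV
  have hVt : (volume : Measure (E d)) (Metric.ball 0 1) = ENNReal.ofReal V := by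
    rw [hV, ENNReal.ofReal_toReal measure_ball_lt_top.ne]
  have hV0 : 0 ≤ V := ENNReal.toReal_nonneg
  refine ⟨d * (4 * 2 ^ d * V), by positivity, fun e he ε hε hε3 => ?_⟩
  have hS : MeasurableSet {σ : Metric.sphere (0 : E d) 1 | ‖(σ : E d) - e‖ < ε} := by
    apply IsOpen.measurableSet
    exact isOpen_lt (by fun_prop) continuous_const
  rw [Measure.toSphere_apply' _ hS]
  set N := ⌊1 / ε⌋₊ with hN
  have hsub : Ioo (0 : ℝ) 1 • ((↑) '' {σ : Metric.sphere (0 : E d) 1 | ‖(σ : E d) - e‖ < ε}) ⊆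
      ⋃ k ∈ Finset.range (N + 1), Metric.ball (((k : ℝ) * ε) • e) (2 * ε) := by
    rintro x ⟨r, hr, y, ⟨σ, hσ, rfl⟩, rfl⟩
    simp only [mem_setOf_eq] at hσ
    rw [mem_iUnion₂]
    refine ⟨⌊r / ε⌋₊, ?_, ?_⟩
    · rw [Finset.mem_range, Nat.lt_succ_iff]
      apply Nat.floor_mono
      exact div_le_div_of_nonneg_right hr.2.le hε.le
    · rw [Metric.mem_ball, dist_eq_norm]
      have h1 : r • (σ : E d) - (((⌊r / ε⌋₊ : ℕ) : ℝ) * ε) • e =
          r • ((σ : E d) - e) + (r - ((⌊r / ε⌋₊ : ℕ) : ℝ) * ε) • e := by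
        rw [smul_sub, sub_smul]; abel
      simp only
      rw [h1]
      have h2 : ((⌊r / ε⌋₊ : ℕ) : ℝ) * ε ≤ r := by
        have := Nat.floor_le (div_nonneg hr.1.le hε.le)
        rwa [le_div_iff₀ hε] at this
      have h3 : r < (((⌊r / ε⌋₊ : ℕ) : ℝ) + 1) * ε := by
        have := Nat.lt_floor_add_one (r / ε)
        rwa [div_lt_iff₀ hε] at this
      calc ‖r • ((σ : E d) - e) + (r - ((⌊r / ε⌋₊ : ℕ) : ℝ) * ε) • e‖ ≤
            ‖r • ((σ : E d) - e)‖ + ‖(r - ((⌊r / ε⌋₊ : ℕ) : ℝ) * ε) • e‖ := norm_add_le _ _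
        _ = r * ‖(σ : E d) - e‖ + (r - ((⌊r / ε⌋₊ : ℕ) : ℝ) * ε) := by
            rw [norm_smul, norm_smul, he, mul_one, Real.norm_eq_abs, Real.norm_eq_abs,
              abs_of_pos hr.1, abs_of_nonneg (by linarith)]
        _ ≤ 1 * ‖(σ : E d) - e‖ + (r - ((⌊r / ε⌋₊ : ℕ) : ℝ) * ε) := by
            have := mul_le_mul_of_nonneg_right hr.2.le (norm_nonneg ((σ : E d) - e))
            linarith
        _ < 2 * ε := by linarith
  have hN1 : (N : ℝ) + 1 ≤ 4 / ε := by
    have h1 : (N : ℝ) ≤ 1 / ε := Nat.floor_le (by positivity)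
    have h2 : 1 ≤ 3 / ε := by rwa [le_div_iff₀ hε, one_mul]
    have h3 : 4 / ε = 1 / ε + 3 / ε := by ring
    linarith
  calc (Module.finrank ℝ (E d) : ℝ≥0∞) * volume (Ioo (0 : ℝ) 1 • (Subtype.val '' {σ :
        Metric.sphere (0 : E d) 1 | ‖(σ : E d) - e‖ < ε})) ≤
        (Module.finrank ℝ (E d) : ℝ≥0∞) * ∑ k ∈ Finset.range (N + 1),
          volume (Metric.ball (((k : ℝ) * ε) • e) (2 * ε)) := by
        gcongr
        exact (measure_mono hsub).trans (measure_biUnion_finset_le _ _)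
    _ = d * ((N + 1 : ℕ) * (ENNReal.ofReal ((2 * ε) ^ d) * ENNReal.ofReal V)) := by
        rw [finrank_euclideanSpace, Fintype.card_fin]
        congr 1
        simp_rw [Measure.addHaar_ball_of_pos volume _ (by positivity : 0 < 2 * ε)]
        rw [Finset.sum_const, Finset.card_range, nsmul_eq_mul, hVt, finrank_euclideanSpace,
          Fintype.card_fin]
    _ = ENNReal.ofReal (d * (((N : ℝ) + 1) * ((2 * ε) ^ d * V))) := by
        rw [ENNReal.ofReal_mul (by positivity), ENNReal.ofReal_mul (by positivity),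
          ENNReal.ofReal_mul (by positivity), ENNReal.ofReal_natCast]
        congr 2
        rw [← ENNReal.ofReal_natCast]
        push_cast
        rfl
    _ ≤ _ := by
        apply ENNReal.ofReal_le_ofReal
        rw [mul_assoc]
        refine mul_le_mul_of_nonneg_left ?_ (by positivity)
        calc ((N : ℝ) + 1) * ((2 * ε) ^ d * V) ≤ (4 / ε) * ((2 * ε) ^ d * V) :=
              mul_le_mul_of_nonneg_right hN1 (by positivity)
          _ = 4 * 2 ^ d * V * (ε ^ d / ε) := by rw [mul_pow]; ring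

lemma norm_sub_unit {e σ : E d} (he : ‖e‖ = 1) (hσ : ‖σ‖ = 1) :
    ‖σ - e‖ ^ 2 = 4 * ((1 - ⟪e, σ⟫) / 2) := by
  rw [@norm_sub_sq_real, he, hσ, real_inner_comm]; ring

lemma inner_mem {e σ : E d} (he : ‖e‖ = 1) (hσ : ‖σ‖ = 1) : ⟪e, σ⟫ ∈ Icc (-1 : ℝ) 1 := by
  have := abs_real_inner_le_norm e σ
  rw [he, hσ, mul_one, abs_le] at this
  exact this

/-- Integrability of the angular singularity. -/
lemma sphere_int (d : ℕ) {β : ℝ} (hβ : 0 ≤ β) (hβ' : 2 * β < d - 1) : ∃ A : ℝ, 0 ≤ A ∧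
    ∀ e : E d, ‖e‖ = 1 →
    ∫⁻ σ : Metric.sphere (0 : E d) 1, ENNReal.ofReal (((1 - ⟪e, (σ : E d)⟫) / 2) ^ (-β)) ∂(surf d) ≤
      ENNReal.ofReal A := by
  obtain ⟨C, hC0, hC⟩ := cap_le d
  set ρ : ℝ := 4 ^ β * (1 / 2) ^ d * 2 with hρ
  have hρ0 : 0 ≤ ρ := by positivity
  have hρ1 : ρ < 1 := by
    have h1 : ρ = 2 ^ (2 * β + 1 - d : ℝ) := by
      rw [hρ, Real.rpow_sub (by norm_num), Real.rpow_add (by norm_num), Real.rpow_mul (by norm_num),
        Real.rpow_natCast, Real.rpow_one, Real.rpow_two]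
      norm_num
      field_simp
      rw [← mul_pow]
      norm_num
    rw [h1]
    exact Real.rpow_lt_one_of_one_lt_of_neg (by norm_num) (by linarith)
  set K : ℝ := 4 ^ β * (C * (3 ^ d / 3)) with hK
  have hK0 : 0 ≤ K := by positivity
  have hsum : Summable fun m : ℕ => K * ρ ^ m :=
    (summable_geometric_of_lt_one hρ0 hρ1).mul_left K
  refine ⟨∑' m : ℕ, K * ρ ^ m, tsum_nonneg fun m => by positivity, fun e he => ?_⟩
  let S : ℕ → Set (Metric.sphere (0 : E d) 1) := fun m => {σ | ‖(σ : E d) - e‖ < 3 * (1 / 2) ^ m}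
  have hS : ∀ m, MeasurableSet (S m) := fun m =>
    (isOpen_lt (by fun_prop) continuous_const).measurableSet
  let c : ℕ → ℝ := fun m => ((1 / 4 : ℝ) ^ (m + 1)) ^ (-β)
  have hc : ∀ m, c m = 4 ^ β * (4 ^ β) ^ m := by
    intro m
    simp only [c]
    rw [Real.rpow_neg (by positivity), ← Real.inv_rpow (by positivity), ← inv_pow,
      ← Real.rpow_natCast, ← Real.rpow_mul (by norm_num)]
    rw [show ((1 / 4 : ℝ))⁻¹ = 4 by norm_num, mul_comm ((m + 1 : ℕ) : ℝ) β,
      Real.rpow_mul (by norm_num), Real.rpow_natCast, pow_succ, mul_comm]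
  have term : ∀ m, ENNReal.ofReal (c m) * surf d (S m) ≤ ENNReal.ofReal (K * ρ ^ m) := by
    intro m
    have h1 := hC e he (3 * (1 / 2) ^ m) (by positivity) (by
      have : (1 / 2 : ℝ) ^ m ≤ 1 := pow_le_one₀ (by norm_num) (by norm_num)
      linarith)
    calc ENNReal.ofReal (c m) * surf d (S m) ≤ ENNReal.ofReal (c m) *
          ENNReal.ofReal (C * ((3 * (1 / 2) ^ m) ^ d / (3 * (1 / 2) ^ m))) := by gcongr
      _ = ENNReal.ofReal (c m * (C * ((3 * (1 / 2) ^ m) ^ d / (3 * (1 / 2) ^ m)))) := by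
          rw [ENNReal.ofReal_mul (p := c m) (by simp only [c]; positivity)]
      _ = ENNReal.ofReal (K * ρ ^ m) := by
          congr 1
          have h2 : ((3 : ℝ) * (1 / 2) ^ m) ^ d / (3 * (1 / 2) ^ m) =
              3 ^ d / 3 * (((1 / 2) ^ d) ^ m * 2 ^ m) := by
            rw [mul_pow, ← pow_mul, ← pow_mul, mul_comm m d]
            have : (2 : ℝ) ^ m * (1 / 2) ^ m = 1 := by rw [← mul_pow]; norm_num
            field_simp
            linear_combination -this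
          rw [hc, h2, hK, hρ, mul_pow, mul_pow]
          ring
  have point : ∀ σ : Metric.sphere (0 : E d) 1,
      ENNReal.ofReal (((1 - ⟪e, (σ : E d)⟫) / 2) ^ (-β)) ≤
      ∑' m, (S m).indicator (fun _ => ENNReal.ofReal (c m)) σ := by
    intro σ
    have hσ : ‖(σ : E d)‖ = 1 := by simpa using σ.2
    have hi := inner_mem he hσ
    have hn := norm_sub_unit he hσ
    set w := (1 - ⟪e, (σ : E d)⟫) / 2 with hw
    have hw0 : 0 ≤ w := by rw [hw]; linarith [hi.2]
    have hw1 : w ≤ 1 := by rw [hw]; linarith [hi.1]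
    obtain ⟨n, hn1, hn2⟩ : ∃ n, w ^ (-β) ≤ c n ∧ σ ∈ S n := by
      rcases eq_or_lt_of_le hw0 with h | h
      · refine ⟨0, ?_, ?_⟩
        · rw [← h, hc, pow_zero, mul_one]
          have h1 : (1 : ℝ) ≤ 4 ^ β := Real.one_le_rpow (by norm_num) hβ
          by_cases hb : β = 0
          · subst hb; simp
          · rw [Real.zero_rpow (by simpa using hb)]; linarith
        · simp only [S, mem_setOf_eq, pow_zero, mul_one]
          rw [← h, mul_zero] at hn
          rw [pow_eq_zero_iff (by norm_num)] at hn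
          rw [hn]; norm_num
      · obtain ⟨n, h1, h2⟩ := exists_nat_pow_near_of_lt_one h hw1 (by norm_num : (0 : ℝ) < 1 / 4)
          (by norm_num)
        refine ⟨n, Real.rpow_le_rpow_of_nonpos (by positivity) h1.le (by linarith), ?_⟩
        simp only [S, mem_setOf_eq]
        have h3 : ‖(σ : E d) - e‖ ^ 2 ≤ (2 * (1 / 2) ^ n) ^ 2 := by
          rw [hn, mul_pow, ← pow_mul, mul_comm n 2, pow_mul]
          norm_num
          norm_num at h2
          exact h2
        have h4 := abs_le_of_sq_le_sq h3 (by positivity)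
        have h5 : (0 : ℝ) < (1 / 2) ^ n := by positivity
        rw [abs_norm] at h4
        linarith
    calc ENNReal.ofReal (w ^ (-β)) ≤ ENNReal.ofReal (c n) := ENNReal.ofReal_le_ofReal hn1
      _ = (S n).indicator (fun _ => ENNReal.ofReal (c n)) σ := by rw [indicator_of_mem hn2]
      _ ≤ _ := ENNReal.le_tsum n
  calc ∫⁻ σ : Metric.sphere (0 : E d) 1,
        ENNReal.ofReal (((1 - ⟪e, (σ : E d)⟫) / 2) ^ (-β)) ∂(surf d) ≤
        ∫⁻ σ, ∑' m, (S m).indicator (fun _ => ENNReal.ofReal (c m)) σ ∂(surf d) :=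
        lintegral_mono point
    _ = ∑' m, ENNReal.ofReal (c m) * surf d (S m) := by
        rw [lintegral_tsum fun m => (measurable_const.indicator (hS m)).aemeasurable]
        congr 1
        ext m
        rw [lintegral_indicator_const (hS m)]
    _ ≤ ∑' m, ENNReal.ofReal (K * ρ ^ m) := ENNReal.tsum_le_tsum term
    _ = _ := (ENNReal.ofReal_tsum_of_nonneg (fun m => by positivity) hsum).symm

/-- Finite momentum transfer. -/
lemma transfer {γ s : ℝ} {B : ℝ → ℝ → ℝ} (hd : 2 ≤ d) (hB : IsKernel d γ s B) :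
    ∃ C : ℝ, 0 ≤ C ∧ ∀ r, 0 < r → ∀ e : E d, ‖e‖ = 1 →
    ∫⁻ σ : Metric.sphere (0 : E d) 1,
      ENNReal.ofReal (B r ⟪e, (σ : E d)⟫ * (1 - ⟪e, (σ : E d)⟫ ^ 2)) ∂(surf d) ≤
      ENNReal.ofReal (C * r ^ γ) := by
  obtain ⟨C0, hC0⟩ := hB.upper
  have hd2 : (2 : ℝ) ≤ d := by exact_mod_cast hd
  have hs := hB.s_lt
  set β : ℝ := max 0 ((d - 3 + 2 * s) / 2) with hβ
  obtain ⟨A, hA0, hA⟩ := sphere_int d (β := β) (le_max_left _ _) (by
    rw [hβ]
    rcases max_cases (0 : ℝ) ((d - 3 + 2 * s) / 2) with ⟨h, _⟩ | ⟨h, _⟩ <;> rw [h] <;> linarith)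
  refine ⟨4 * |C0| * A, by positivity, fun r hr e he => ?_⟩
  have hrp : 0 < r ^ γ := Real.rpow_pos_of_pos hr _
  have point : ∀ σ : Metric.sphere (0 : E d) 1,
      ENNReal.ofReal (B r ⟪e, (σ : E d)⟫ * (1 - ⟪e, (σ : E d)⟫ ^ 2)) ≤
      ENNReal.ofReal (4 * |C0| * r ^ γ) *
        ENNReal.ofReal (((1 - ⟪e, (σ : E d)⟫) / 2) ^ (-β)) := by
    intro σ
    have hσ : ‖(σ : E d)‖ = 1 := by simpa using σ.2
    have hi := inner_mem he hσ
    set c := ⟪e, (σ : E d)⟫ with hc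
    have hw0 : 0 ≤ (1 - c) / 2 := by linarith [hi.2]
    rw [← ENNReal.ofReal_mul (by positivity)]
    apply ENNReal.ofReal_le_ofReal
    rcases eq_or_lt_of_le hi.2 with h | h
    · rw [h]
      have : (0 : ℝ) ≤ 4 * |C0| * r ^ γ * ((1 - 1) / 2) ^ (-β) := by positivity
      simpa using this
    · have h1 := hC0 r hr c ⟨hi.1, h⟩
      set w := (1 - c) / 2 with hw
      have hwp : 0 < w := by rw [hw]; linarith
      have hw1 : w ≤ 1 := by rw [hw]; linarith [hi.1]
      have h2 : 1 - c ^ 2 ≤ 4 * w := by rw [hw]; nlinarith [hi.1]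
      have h3 : √w ^ (-(d : ℝ) + 1 - 2 * s) * w ≤ w ^ (-β) := by
        rw [Real.sqrt_eq_rpow, ← Real.rpow_mul hwp.le, ← Real.rpow_add_one hwp.ne']
        refine Real.rpow_le_rpow_of_exponent_ge hwp hw1 ?_
        have := le_max_right (0 : ℝ) ((d - 3 + 2 * s) / 2)
        rw [← hβ] at this
        linarith
      calc B r c * (1 - c ^ 2) ≤ B r c * (4 * w) :=
            mul_le_mul_of_nonneg_left h2 (hB.nonneg _ _)
        _ ≤ (C0 * r ^ γ * √w ^ (-(d : ℝ) + 1 - 2 * s)) * (4 * w) :=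
            mul_le_mul_of_nonneg_right h1 (by positivity)
        _ ≤ (|C0| * r ^ γ * √w ^ (-(d : ℝ) + 1 - 2 * s)) * (4 * w) := by
            refine mul_le_mul_of_nonneg_right ?_ (by positivity)
            refine mul_le_mul_of_nonneg_right ?_ (by positivity)
            exact mul_le_mul_of_nonneg_right (le_abs_self _) hrp.le
        _ = 4 * |C0| * r ^ γ * (√w ^ (-(d : ℝ) + 1 - 2 * s) * w) := by ring
        _ ≤ _ := mul_le_mul_of_nonneg_left h3 (by positivity)
  calc _ ≤ ∫⁻ σ : Metric.sphere (0 : E d) 1, ENNReal.ofReal (4 * |C0| * r ^ γ) *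
        ENNReal.ofReal (((1 - ⟪e, (σ : E d)⟫) / 2) ^ (-β)) ∂(surf d) := lintegral_mono point
    _ = ENNReal.ofReal (4 * |C0| * r ^ γ) * ∫⁻ σ : Metric.sphere (0 : E d) 1,
        ENNReal.ofReal (((1 - ⟪e, (σ : E d)⟫) / 2) ^ (-β)) ∂(surf d) :=
        lintegral_const_mul' _ _ ENNReal.ofReal_ne_top
    _ ≤ ENNReal.ofReal (4 * |C0| * r ^ γ) * ENNReal.ofReal A := by
        gcongr; exact hA e he
    _ = ENNReal.ofReal (4 * |C0| * A * r ^ γ) := by
        rw [← ENNReal.ofReal_mul (by positivity)]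
        congr 1; ring

end Pool.Agent.H49.BZ
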