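import Pool.Agent.H49.BZ.Defs

open Set Filter Topology MeasureTheory
open scoped RealInnerProductSpace ContDiff

namespace Pool.Agent.H49.BZ

variable {d : ℕ}

lemma haar_prod : (volume : Measure (ℝ × E d)).IsAddHaarMeasure := by
  rw [Measure.volume_eq_prod]
  infer_instance

/-- A product with a continuous function of compact support. -/
lemma integrable_supp {φ H : ℝ × E d → ℝ} (hφ : Continuous φ) (hc : HasCompactSupport φ)
    (hH : ∀ p ∈ tsupport φ, ContinuousAt H p) : Integrable (fun p => φ p * H p) := by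
  have h1 : Continuous (fun p => φ p * H p) := by
    refine continuous_of_tsupport fun p hp => ?_
    have h2 : p ∈ tsupport φ := by
      refine closure_mono (fun q hq => ?_) hp
      rw [Function.mem_support] at hq ⊢
      exact left_ne_zero_of_mul hq
    exact hφ.continuousAt.mul (hH p h2)
  exact h1.integrable_of_hasCompactSupport hc.mul_right

/-- Regularity at the points of the support of the test function. -/
def Reg (φ G : ℝ × E d → ℝ) : Prop := ∀ p ∈ tsupport φ, ContDiffAt ℝ 1 G p

lemma Reg.cont {φ G : ℝ × E d → ℝ} (h : Reg φ G) (w : ℝ × E d) :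
    ∀ p ∈ tsupport φ, ContinuousAt (fun p => fderiv ℝ G p w) p := fun p hp =>
  ((h p hp).continuousAt_fderiv (by norm_num)).clm_apply continuousAt_const

/-- Integration by parts against a test function. -/
lemma ibp_test {φ G : ℝ × E d → ℝ} (hφ : ContDiff ℝ 1 φ) (hc : HasCompactSupport φ)
    (hG : Reg φ G) (w : ℝ × E d) :
    ∫ p, φ p * fderiv ℝ G p w = -∫ p, fderiv ℝ φ p w * G p := by
  have c2 : Continuous fun p => fderiv ℝ φ p w :=
    (hφ.continuous_fderiv (by norm_num)).clm_apply continuous_const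
  haveI : (volume : Measure (ℝ × E d)).IsAddHaarMeasure := haar_prod
  apply integral_mul_fderiv_eq_neg_fderiv_mul_of_integrable
  · refine integrable_supp c2 (hc.fderiv_apply ℝ w) fun p hp => (hG p ?_).continuousAt
    exact tsupport_fderiv_apply_subset ℝ w hp
  · exact integrable_supp hφ.continuous hc (hG.cont w)
  · exact integrable_supp hφ.continuous hc fun p hp => (hG p hp).continuousAt
  · intro p _
    exact hφ.differentiable (by norm_num) p
  · intro p hp
    exact (hG p hp).differentiableAt (by norm_num)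

/-- The weight of the zeroth moment in the weak formulation. -/
noncomputable def w0 (φ : ℝ × E d → ℝ) (κ b : ℝ) (p : ℝ × E d) : ℝ :=
  (κ - d * (1 - b)) * φ p - fderiv ℝ φ p (1, 0) -
    (1 - b) * ∑ j, p.2 j * fderiv ℝ φ p (0, EuclideanSpace.single j 1)

lemma tangent_sum (L : ℝ × E d →L[ℝ] ℝ) (y : E d) :
    L (0, y) = ∑ j, y j * L (0, EuclideanSpace.single j 1) := by
  have h1 : ((0 : ℝ), y) = ∑ j, y j • ((0 : ℝ), EuclideanSpace.single j (1 : ℝ)) := by
    refine Prod.ext ?_ ?_
    · simp [Prod.fst_sum]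
    · simp only [Prod.snd_sum, Prod.smul_snd]
      ext i
      simp only [WithLp.ofLp_sum, WithLp.ofLp_smul, Finset.sum_apply, Pi.smul_apply, smul_eq_mul,
        EuclideanSpace.single_apply]
      simp
  conv_lhs => rw [h1]
  rw [map_sum]
  exact Finset.sum_congr rfl fun j _ => by rw [map_smul, smul_eq_mul]

/-- The weak formulation. -/
lemma weak_form {φ G Q : ℝ × E d → ℝ} {Gj : Fin d → ℝ × E d → ℝ} {κ b : ℝ}
    (hφ : ContDiff ℝ 1 φ) (hc : HasCompactSupport φ) (hG : Reg φ G) (hGj : ∀ j, Reg φ (Gj j))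
    (heq : ∀ p ∈ tsupport φ, fderiv ℝ G p (1, 0) + κ * G p + (1 - b) * fderiv ℝ G p (0, p.2) +
      ∑ j, fderiv ℝ (Gj j) p (0, EuclideanSpace.single j 1) = Q p) :
    (∫ p, w0 φ κ b p * G p) -
      ∑ j, ∫ p, fderiv ℝ φ p (0, EuclideanSpace.single j 1) * Gj j p = ∫ p, φ p * Q p := by
  have cj : ∀ j : Fin d, ContDiff ℝ 1 fun p : ℝ × E d => p.2 j := fun j =>
    (EuclideanSpace.proj (𝕜 := ℝ) j : E d →L[ℝ] ℝ).contDiff.comp contDiff_snd
  have cφ : ∀ w, Continuous fun p => fderiv ℝ φ p w := fun w =>
    (hφ.continuous_fderiv (by norm_num)).clm_apply continuous_const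
  let e : Fin d → ℝ × E d := fun j => (0, EuclideanSpace.single j 1)
  have sub1 : ∀ (j : Fin d), tsupport (fun p => φ p * p.2 j) ⊆ tsupport φ := by
    intro j
    refine closure_mono fun q hq => ?_
    rw [Function.mem_support] at hq ⊢
    exact left_ne_zero_of_mul hq
  -- integration by parts with the weight `y j`
  have l1 : ∀ j : Fin d, ∫ p, (φ p * p.2 j) * fderiv ℝ G p (e j) =
      -∫ p, (fderiv ℝ φ p (e j) * p.2 j + φ p) * G p := by
    intro j
    rw [ibp_test (hφ.mul (cj j)) hc.mul_right (fun p hp => hG p (sub1 j hp))]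
    congr 1
    refine integral_congr_ae (Eventually.of_forall fun p => ?_)
    simp only
    have h1 : HasFDerivAt (fun p : ℝ × E d => p.2 j)
        ((EuclideanSpace.proj (𝕜 := ℝ) j : E d →L[ℝ] ℝ).comp
          (ContinuousLinearMap.snd ℝ ℝ (E d))) p :=
      ((EuclideanSpace.proj (𝕜 := ℝ) j : E d →L[ℝ] ℝ).comp
          (ContinuousLinearMap.snd ℝ ℝ (E d))).hasFDerivAt
    have h2 := ((hφ.differentiable (by norm_num) p).hasFDerivAt).fun_mul h1
    rw [h2.fderiv]
    simp [e]
    left
    ring
  have i1 : ∀ j : Fin d, Integrable fun p => (φ p * p.2 j) * fderiv ℝ G p (e j) := fun j =>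
    integrable_supp (hφ.mul (cj j)).continuous hc.mul_right fun p hp =>
      hG.cont _ p (sub1 j hp)
  have i2 : ∀ j : Fin d, Integrable fun p => (fderiv ℝ φ p (e j) * p.2 j + φ p) * G p := by
    intro j
    refine integrable_supp (((cφ _).mul (cj j).continuous).add hφ.continuous) ?_
      fun p hp => (hG p ?_).continuousAt
    · exact (hc.fderiv_apply ℝ (e j)).mul_right.add hc
    · refine (closure_minimal ?_ (isClosed_tsupport φ)) hp
      intro q hq
      by_contra hcon
      rw [Function.mem_support] at hq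
      apply hq
      have z1 : φ q = 0 := image_eq_zero_of_notMem_tsupport hcon
      have z2 : fderiv ℝ φ q (e j) = 0 :=
        image_eq_zero_of_notMem_tsupport (f := fun q => fderiv ℝ φ q (e j)) fun h =>
          hcon (tsupport_fderiv_apply_subset ℝ (e j) h)
      simp [z1, z2]
  have i3 : Integrable fun p => φ p * fderiv ℝ G p (1, 0) :=
    integrable_supp hφ.continuous hc (hG.cont _)
  have i4 : Integrable fun p => φ p * G p :=
    integrable_supp hφ.continuous hc fun p hp => (hG p hp).continuousAt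
  have i5 : ∀ j : Fin d, Integrable fun p => φ p * fderiv ℝ (Gj j) p (e j) := fun j =>
    integrable_supp hφ.continuous hc ((hGj j).cont _)
  have i6 : Integrable fun p => fderiv ℝ φ p (1, 0) * G p :=
    integrable_supp (cφ _) (hc.fderiv_apply ℝ _) fun p hp =>
      (hG p (tsupport_fderiv_apply_subset ℝ _ hp)).continuousAt
  have e1 : ∫ p, φ p * Q p = (∫ p, φ p * fderiv ℝ G p (1, 0)) + κ * (∫ p, φ p * G p) +
      (1 - b) * (∑ j, ∫ p, (φ p * p.2 j) * fderiv ℝ G p (e j)) +
      ∑ j, ∫ p, φ p * fderiv ℝ (Gj j) p (e j) := by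
    rw [← integral_finset_sum _ fun j _ => i1 j, ← integral_finset_sum _ fun j _ => i5 j,
      ← integral_const_mul, ← integral_const_mul, ← integral_add i3 (i4.const_mul _)]
    have j1 : Integrable fun p => φ p * fderiv ℝ G p (1, 0) + κ * (φ p * G p) :=
      i3.add (i4.const_mul _)
    have j2 : Integrable fun p => (1 - b) * ∑ j, (φ p * p.2 j) * fderiv ℝ G p (e j) :=
      (integrable_finset_sum _ fun j _ => i1 j).const_mul _
    have j3 : Integrable fun p => φ p * fderiv ℝ G p (1, 0) + κ * (φ p * G p) +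
        (1 - b) * ∑ j, (φ p * p.2 j) * fderiv ℝ G p (e j) := j1.add j2
    rw [← integral_add j1 j2, ← integral_add j3 (integrable_finset_sum _ fun j _ => i5 j)]
    refine integral_congr_ae (Eventually.of_forall fun p => ?_)
    simp only
    by_cases hp : p ∈ tsupport φ
    · rw [← heq p hp, tangent_sum (fderiv ℝ G p) p.2, ← Finset.mul_sum]
      have : ∑ j, φ p * p.2 j * fderiv ℝ G p (e j) =
          φ p * ∑ j, p.2 j * fderiv ℝ G p (0, EuclideanSpace.single j 1) := by
        rw [Finset.mul_sum]
        exact Finset.sum_congr rfl fun j _ => by simp only [e]; ring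
      rw [this]
      simp only [e]
      ring
    · have : φ p = 0 := image_eq_zero_of_notMem_tsupport hp
      simp [this]
  have e2 : ∫ p, w0 φ κ b p * G p = κ * (∫ p, φ p * G p) - (∫ p, fderiv ℝ φ p (1, 0) * G p) -
      (1 - b) * ∑ j, ∫ p, (fderiv ℝ φ p (e j) * p.2 j + φ p) * G p := by
    rw [← integral_finset_sum _ fun j _ => i2 j, ← integral_const_mul, ← integral_const_mul,
      ← integral_sub (i4.const_mul _) i6]
    have j1 : Integrable fun p => κ * (φ p * G p) - fderiv ℝ φ p (1, 0) * G p :=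
      (i4.const_mul _).sub i6
    rw [← integral_sub j1 ((integrable_finset_sum _ fun j _ => i2 j).const_mul _)]
    refine integral_congr_ae (Eventually.of_forall fun p => ?_)
    simp only [w0]
    rw [← Finset.sum_mul, Finset.sum_add_distrib]
    have : ∑ j, fderiv ℝ φ p (e j) * p.2 j = ∑ j, p.2 j * fderiv ℝ φ p
        (0, EuclideanSpace.single j 1) := Finset.sum_congr rfl fun j _ => by simp only [e]; ring
    rw [this]
    simp only [Finset.sum_const, Finset.card_univ, Fintype.card_fin, nsmul_eq_mul]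
    ring
  have e3 : ∀ j : Fin d, ∫ p, φ p * fderiv ℝ (Gj j) p (e j) =
      -∫ p, fderiv ℝ φ p (e j) * Gj j p := fun j => ibp_test hφ hc (hGj j) _
  rw [e1, e2, ibp_test hφ hc hG, Finset.sum_congr rfl fun j _ => l1 j,
    Finset.sum_congr rfl fun j _ => e3 j, Finset.sum_neg_distrib, Finset.sum_neg_distrib]
  ring

end Pool.Agent.H49.BZ
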